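import Mathlib
import Pool.Agent.Lib.MP_c95b3b_ag_RS.DefsD

/-! Project HF (MP_c95b3b_ag): hypersurface fibrations over arbitrary curves.
Definitions and basic properties. -/

namespace Pool.Agent.HF

open Pool.Agent.L3 Pool.Agent.RS Module

/-- polynomials in `t`, `s` -/
abbrev P2 (F : Type) [Field F] := MvPolynomial (Fin 2) F

/-- the homomorphism `φ` is a generic point of the curve `P = 0` -/
def Gen {F : Type} [Field F] (P : P2 F) {L : Type} [Field L] (φ : P2 F →+* L) : Prop :=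
  ∀ Q, φ Q = 0 ↔ P ∣ Q

/-- `∑ d i log |v i|` -/
noncomputable def lgs {M : ℕ} (d : Fin M → ℝ) (v : Fin M → ℂ) : ℝ := ∑ i, d i * Real.log ‖v i‖

/-- values of the polynomials `N i` at the point `p` -/
noncomputable def vN {M : ℕ} (N : Fin M → P2 ℂ) (p : Fin 2 → ℂ) (i : Fin M) : ℂ :=
  MvPolynomial.eval p (N i)

/-- the compact part `|p| ≤ ρ`, `|N i| ≥ 1 / ρ` of the curve `P = 0` -/
def KC {M : ℕ} (P : P2 ℂ) (N : Fin M → P2 ℂ) (ρ : ℝ) : Set (Fin 2 → ℂ) :=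
  {p | MvPolynomial.eval p P = 0 ∧ (∀ i, ‖p i‖ ≤ ρ) ∧ ∀ i, ρ⁻¹ ≤ ‖vN N p i‖}

/-- `∑ j, r j * n j` -/
def nvec {m M : ℕ} (n : Fin m → Fin M → ℤ) (r : Fin m → ℝ) (i : Fin M) : ℝ := ∑ j, r j * n j i

/-- the derivation `∂_s P ∂_t - ∂_t P ∂_s` -/
noncomputable def Dv (P Q : P2 ℂ) : P2 ℂ :=
  MvPolynomial.pderiv 1 P * MvPolynomial.pderiv 0 Q -
    MvPolynomial.pderiv 0 P * MvPolynomial.pderiv 1 Q

/-- numerator of `∑ d i dlog (N i)` -/
noncomputable def Om {M : ℕ} (P : P2 ℂ) (N : Fin M → P2 ℂ) (d : Fin M → ℝ) : P2 ℂ :=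
  ∑ i, MvPolynomial.C (d i : ℂ) * Dv P (N i) * ∏ k ∈ Finset.univ.erase i, N k

/-- the value `∑ k, v^(ν k) z^(b k)` of the fibre polynomial -/
def GG {F : Type} [Field F] {M g d : ℕ} (v : Fin M → F) (ν : Fin g → Fin M → ℤ)
    (b : Fin g → Fin d → ℕ) (z : Fin d → F) : F := ∑ k, mon v (ν k) * ∏ j, z j ^ b k j

/-- the polynomial `∑ k, c k z^(b k)` -/
noncomputable def gpol {R : Type} [CommRing R] {g d : ℕ} (c : Fin g → R) (b : Fin g → Fin d → ℕ) :
    MvPolynomial (Fin d) R :=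
  ∑ k, MvPolynomial.monomial (Finsupp.equivFunOnFinite.symm (b k)) (c k)

/-- the generic fibre is geometrically irreducible -/
def GeomIrr {F : Type} [Field F] {M g d : ℕ} (P : P2 F) (N : Fin M → P2 F)
    (ν : Fin g → Fin M → ℤ) (b : Fin g → Fin d → ℕ) : Prop :=
  ∀ (L : Type) [Field L] (φ : P2 F →+* L), Gen P φ →
    Irreducible (gpol (fun k => mon (fun i => φ (N i)) (ν k)) b)

/-- the point `(t, z 1, ..., z e)` -/
def tz {F : Type} {e : ℕ} (t : F) (z : Fin (e + 1) → F) : Fin (e + 1) → F :=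
  Fin.cons t (fun j => z j.succ)

/-- the exponents `b k` and `b k'` are symmetric with respect to `κ / 2` -/
def Sy {g d : ℕ} (b : Fin g → Fin d → ℕ) (κ : Fin d → ℕ) (k k' : Fin g) : Prop :=
  ∀ j, b k j + b k' j = κ j

/-- the coefficients of the fibre polynomial in the variables `z j / exp (lgs (dρ j))` -/
noncomputable def cfR {M d : ℕ} (v : Fin M → ℂ) (ν : Fin M → ℤ) (b : Fin d → ℕ)
    (dρ : Fin d → Fin M → ℝ) : ℂ :=
  mon v ν * ∏ j, ((Real.exp (lgs (dρ j) v) : ℝ) : ℂ) ^ b j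

/-- the condition for centrally symmetric supports: on the real curve `lgs δ = 0` there are
finitely many points for which the hypersurface is stable under the reflection
`z j ↦ exp (2 lgs (dρ j)) / conj (z j)` -/
def SymOK {M g d : ℕ} (P : P2 ℂ) (N : Fin M → P2 ℂ) (ν : Fin g → Fin M → ℤ)
    (b : Fin g → Fin d → ℕ) (δ : Fin M → ℝ) (dρ : Fin d → Fin M → ℝ) : Prop :=
  ∀ κ : Fin d → ℕ, (∀ k, ∃ k', Sy b κ k k') →
    {p : Fin 2 → ℂ | MvPolynomial.eval p P = 0 ∧ (∀ i, vN N p i ≠ 0) ∧ lgs δ (vN N p) = 0 ∧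
      ∃ l : ℂ, ∀ k k', Sy b κ k k' → (starRingEnd ℂ) (cfR (vN N p) (ν k) (b k) dρ) =
        l * cfR (vN N p) (ν k') (b k') dρ}.Finite

/-- the function `s ↦ conj (f (conj s))` -/
noncomputable def cj (f : ℂ → ℂ) (s : ℂ) : ℂ := (starRingEnd ℂ) (f ((starRingEnd ℂ) s))

theorem differentiableOn_cj {f : ℂ → ℂ} (hf : DifferentiableOn ℂ f (Metric.ball 0 3)) :
    DifferentiableOn ℂ (cj f) (Metric.ball 0 3) := by
  intro s hs
  have hs' : (starRingEnd ℂ) s ∈ Metric.ball (0 : ℂ) 3 := by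
    rw [mem_ball_zero_iff] at hs ⊢
    rwa [RCLike.norm_conj]
  have h1 : DifferentiableAt ℂ f ((starRingEnd ℂ) s) :=
    (hf _ hs').differentiableAt (Metric.isOpen_ball.mem_nhds hs')
  have h2 : DifferentiableAt ℂ (cj f) s := by
    have h3 := h1.conj_conj
    simp only [Complex.conj_conj] at h3
    exact h3
  exact h2.differentiableWithinAt

theorem cj_real (f : ℂ → ℂ) (s : ℝ) : cj f s = (starRingEnd ℂ) (f s) := by
  rw [cj, Complex.conj_ofReal]

theorem lgs_add {M : ℕ} (d d' : Fin M → ℝ) (v : Fin M → ℂ) :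
    lgs (fun i => d i + d' i) v = lgs d v + lgs d' v := by
  simp only [lgs, add_mul, Finset.sum_add_distrib]

theorem log_norm_mon {M : ℕ} {v : Fin M → ℂ} (hv : ∀ i, v i ≠ 0) (a : Fin M → ℤ) :
    Real.log ‖mon v a‖ = lgs (fun i => (a i : ℝ)) v := by
  rw [norm_mon, Real.log_prod fun i _ => zpow_ne_zero _ (norm_ne_zero_iff.mpr (hv i))]
  simp only [Real.log_zpow, lgs]

theorem lgs_nvec {m M : ℕ} (n : Fin m → Fin M → ℤ) (r : Fin m → ℝ) {v : Fin M → ℂ}
    (hv : ∀ i, v i ≠ 0) : lgs (nvec n r) v = ∑ j, r j * Real.log ‖mon v (n j)‖ := by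
  simp only [log_norm_mon hv, lgs, nvec, Finset.sum_mul, Finset.mul_sum]
  rw [Finset.sum_comm]
  exact Finset.sum_congr rfl fun j _ => Finset.sum_congr rfl fun i _ => by ring

/-- the ring of analytic functions on the disc of radius `3` -/
def An : Subring (Metric.ball (0 : ℂ) 3 → ℂ) where
  carrier := {f | ∃ F : ℂ → ℂ, DifferentiableOn ℂ F (Metric.ball 0 3) ∧ ∀ x, f x = F x}
  mul_mem' := by
    rintro f g ⟨F, hF, hf⟩ ⟨G, hG, hg⟩
    exact ⟨fun x => F x * G x, hF.mul hG, fun x => by rw [Pi.mul_apply, hf, hg]⟩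
  one_mem' := ⟨fun _ => 1, differentiableOn_const _, fun _ => rfl⟩
  add_mem' := by
    rintro f g ⟨F, hF, hf⟩ ⟨G, hG, hg⟩
    exact ⟨fun x => F x + G x, hF.add hG, fun x => by rw [Pi.add_apply, hf, hg]⟩
  zero_mem' := ⟨fun _ => 0, differentiableOn_const _, fun _ => rfl⟩
  neg_mem' := by
    rintro f ⟨F, hF, hf⟩
    exact ⟨fun x => - F x, hF.neg, fun x => by rw [Pi.neg_apply, hf]⟩

/-- the class of a function which is analytic on the disc of radius `3` -/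
def toAn (F : ℂ → ℂ) (hF : DifferentiableOn ℂ F (Metric.ball 0 3)) : An :=
  ⟨fun x => F x, F, hF, fun _ => rfl⟩

end Pool.Agent.HF
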