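import Mathlib
import Pool.Agent.Lib.MP_c95b3b_ag_HF.Defs

/-! Project HF (MP_c95b3b_ag), module GE: generic points. -/

namespace Pool.Agent.HF

open Pool.Agent.L3 Pool.Agent.RS Module

theorem exists_gen {F : Type} [Field F] (P : P2 F) (hP : Irreducible P) :
    ∃ (L : Type) (_ : Field L) (_ : Algebra F L) (q : Fin 2 → L),
      (∀ Q : P2 F, MvPolynomial.aeval q Q = 0 ↔ P ∣ Q) ∧
      ∀ x : L, ∃ A B : P2 F, ¬ P ∣ B ∧ x * MvPolynomial.aeval q B = MvPolynomial.aeval q A := by
  have hprime : Prime P := hP.prime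
  have hI : (Ideal.span {P}).IsPrime := (Ideal.span_singleton_prime hprime.ne_zero).2 hprime
  let R := P2 F ⧸ Ideal.span {P}
  let L := FractionRing R
  let ψ : P2 F →ₐ[F] L :=
    (IsScalarTower.toAlgHom F R L).comp (Ideal.Quotient.mkₐ F (Ideal.span {P}))
  let q : Fin 2 → L := fun i => ψ (MvPolynomial.X i)
  have hψ : ∀ Q : P2 F, MvPolynomial.aeval q Q = ψ Q := by
    intro Q
    have h : MvPolynomial.aeval q = ψ := by
      apply MvPolynomial.algHom_ext
      intro i
      rw [MvPolynomial.aeval_X]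
    rw [h]
  have hz : ∀ Q : P2 F, ψ Q = 0 ↔ P ∣ Q := by
    intro Q
    have e : ψ Q = algebraMap R L (Ideal.Quotient.mk (Ideal.span {P}) Q) := rfl
    rw [e, FaithfulSMul.algebraMap_eq_zero_iff, Ideal.Quotient.eq_zero_iff_mem,
      Ideal.mem_span_singleton]
  refine ⟨L, inferInstance, inferInstance, q, fun Q => by rw [hψ, hz], fun x => ?_⟩
  obtain ⟨a, b, hb, hab⟩ := IsFractionRing.div_surjective (A := R) x
  obtain ⟨A, rfl⟩ := Ideal.Quotient.mk_surjective a
  obtain ⟨B, rfl⟩ := Ideal.Quotient.mk_surjective b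
  have hB : ψ B ≠ 0 := by
    have e : ψ B = algebraMap R L (Ideal.Quotient.mk (Ideal.span {P}) B) := rfl
    rw [e, Ne, FaithfulSMul.algebraMap_eq_zero_iff]
    exact nonZeroDivisors.ne_zero hb
  refine ⟨A, B, fun h => hB ((hz B).2 h), ?_⟩
  rw [hψ, hψ, ← hab]
  exact div_mul_cancel₀ _ hB

/-- any two elements of the function field are algebraically dependent -/
theorem alg_dep {F : Type} [Field F] (P : P2 F) (hP : Irreducible P) (L : Type) [Field L]
    [Algebra F L] (q : Fin 2 → L) (hq : ∀ Q : P2 F, MvPolynomial.aeval q Q = 0 ↔ P ∣ Q)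
    (hL : ∀ x : L, ∃ A B : P2 F, ¬ P ∣ B ∧ x * MvPolynomial.aeval q B = MvPolynomial.aeval q A)
    (x y : L) : ∃ R : P2 F, R ≠ 0 ∧ MvPolynomial.aeval ![x, y] R = 0 := by
  by_contra hcon
  push Not at hcon
  have hind : AlgebraicIndependent F ![x, y] := by
    rw [algebraicIndependent_iff]
    intro p hp
    by_contra h0
    exact hcon p h0 hp
  have hle := hind.cardinalMk_le_trdeg
  have hmem : ∀ Q : P2 F, MvPolynomial.aeval q Q ∈ Algebra.adjoin F (Set.range q) := by
    intro Q
    rw [Algebra.adjoin_range_eq_range_aeval]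
    exact ⟨Q, rfl⟩
  have halg : Algebra.IsAlgebraic (Algebra.adjoin F (Set.range q)) L := by
    refine ⟨fun z => ?_⟩
    obtain ⟨A, B, hB, hAB⟩ := hL z
    have hB0 : MvPolynomial.aeval q B ≠ 0 := fun h => hB ((hq B).1 h)
    refine ⟨Polynomial.C ⟨_, hmem B⟩ * Polynomial.X - Polynomial.C ⟨_, hmem A⟩, ?_, ?_⟩
    · intro h
      have h1 := congrArg (fun p => Polynomial.coeff p 1) h
      simp only [Polynomial.coeff_sub, Polynomial.coeff_C_mul, Polynomial.coeff_X_one, mul_one,
        Polynomial.coeff_C_succ, sub_zero, Polynomial.coeff_zero] at h1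
      exact hB0 (congrArg Subtype.val h1)
    · rw [map_sub, map_mul, Polynomial.aeval_C, Polynomial.aeval_C, Polynomial.aeval_X]
      change MvPolynomial.aeval q B * z - MvPolynomial.aeval q A = 0
      rw [← hAB]
      ring
  have hbase := Algebra.IsAlgebraic.isTranscendenceBasis_of_le_trdeg_of_finite F q hle
  have h1 := hbase.1.eq_zero_of_aeval_eq_zero P ((hq P).2 dvd_rfl)
  exact hP.ne_zero h1

theorem GE.not_dvd_pderiv {P : P2 ℂ} (h1 : P.degreeOf 1 ≠ 0) :
    ¬ P ∣ MvPolynomial.pderiv 1 P := by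
  rintro ⟨S, hS⟩
  have hP0 : P ≠ 0 := by
    rintro rfl
    exact h1 (MvPolynomial.degreeOf_zero 1)
  -- a monomial of maximal degree
  have hn : 0 < P.degreeOf 1 := Nat.pos_of_ne_zero h1
  obtain ⟨m, hm, hmn⟩ : ∃ m ∈ P.support, m 1 = P.degreeOf 1 := by
    rw [MvPolynomial.degreeOf_eq_sup]
    exact (Finset.exists_mem_eq_sup _ (MvPolynomial.support_nonempty.2 hP0)
      (fun m => m 1)).imp fun m h => ⟨h.1, h.2.symm⟩
  have hR0 : MvPolynomial.pderiv 1 P ≠ 0 := by
    intro h0
    have h2 := congrArg (MvPolynomial.coeff (m - Finsupp.single 1 1)) h0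
    rw [MvPolynomial.coeff_pderiv, MvPolynomial.coeff_zero] at h2
    have h3 : m - Finsupp.single 1 1 + Finsupp.single 1 1 = m := by
      apply tsub_add_cancel_of_le
      rw [Finsupp.single_le_iff, hmn]
      exact hn
    rw [h3] at h2
    rcases mul_eq_zero.1 h2 with h4 | h4
    · exact (MvPolynomial.mem_support_iff.1 hm) h4
    · exact Nat.cast_add_one_ne_zero _ h4
  have hle : (MvPolynomial.pderiv 1 P).degreeOf 1 < P.degreeOf 1 := by
    rw [MvPolynomial.degreeOf_lt_iff hn]
    intro a ha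
    rw [MvPolynomial.mem_support_iff, MvPolynomial.coeff_pderiv] at ha
    have h2 : MvPolynomial.coeff (a + Finsupp.single 1 1) P ≠ 0 := left_ne_zero_of_mul ha
    have h3 := MvPolynomial.monomial_le_degreeOf 1 (MvPolynomial.mem_support_iff.2 h2)
    rw [Finsupp.add_apply, Finsupp.single_eq_same] at h3
    exact h3
  have hS0 : S ≠ 0 := by
    rintro rfl
    rw [mul_zero] at hS
    exact hR0 hS
  rw [hS, MvPolynomial.degreeOf_mul_eq hP0 hS0] at hle
  omega

/-- the derivation of the function field -/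
theorem exists_der (P : P2 ℂ) (hP : Irreducible P) (h1 : P.degreeOf 1 ≠ 0) (L : Type) [Field L]
    [Algebra ℂ L] (q : Fin 2 → L) (hq : ∀ Q : P2 ℂ, MvPolynomial.aeval q Q = 0 ↔ P ∣ Q)
    (hL : ∀ x : L, ∃ A B : P2 ℂ, ¬ P ∣ B ∧ x * MvPolynomial.aeval q B = MvPolynomial.aeval q A) :
    ∃ D : Derivation ℂ L L, (∃ x, D x ≠ 0) ∧
      ∀ Q : P2 ℂ, D (MvPolynomial.aeval q Q) = MvPolynomial.aeval q (Dv P Q) := by
  -- basic rules for `Dv`
  have hadd : ∀ A B : P2 ℂ, Dv P (A + B) = Dv P A + Dv P B := by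
    intro A B
    simp only [Dv, map_add]
    ring
  have hmul : ∀ A B : P2 ℂ, Dv P (A * B) = A * Dv P B + B * Dv P A := by
    intro A B
    simp only [Dv, Derivation.leibniz, smul_eq_mul]
    ring
  have hC : ∀ c : ℂ, Dv P (MvPolynomial.C c) = 0 := by
    intro c
    simp [Dv]
  have hPP : ∀ Q : P2 ℂ, P ∣ Q → MvPolynomial.aeval q (Dv P Q) = 0 := by
    rintro Q ⟨A, rfl⟩
    have e : Dv P P = 0 := by
      simp only [Dv]
      ring
    rw [hmul, e, mul_zero, add_zero, map_mul, (hq P).2 dvd_rfl, zero_mul]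
  set ψ : P2 ℂ →ₐ[ℂ] L := MvPolynomial.aeval q with hψ
  choose A B hB hAB using hL
  have hB0 : ∀ x, ψ (B x) ≠ 0 := fun x h => hB x ((hq _).1 h)
  -- the candidate
  set D : L → L := fun x => (ψ (Dv P (A x)) - x * ψ (Dv P (B x))) / ψ (B x) with hD
  have key : ∀ (x : L) (A' B' : P2 ℂ), x * ψ B' = ψ A' →
      D x * ψ B' = ψ (Dv P A') - x * ψ (Dv P B') := by
    intro x A' B' h
    have h2 : ψ (B x * A' - B' * A x) = 0 := by
      rw [map_sub, map_mul, map_mul, ← h, ← hAB x]
      ring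
    have h3 := hPP _ ((hq _).1 h2)
    have h4 : Dv P (B x * A' - B' * A x) =
        B x * Dv P A' + A' * Dv P (B x) - (B' * Dv P (A x) + A x * Dv P B') := by
      have e : B x * A' - B' * A x = B x * A' + MvPolynomial.C (-1) * (B' * A x) := by
        rw [map_neg, map_one]
        ring
      rw [e, hadd, hmul, hmul, hC, hmul, map_neg, map_one]
      ring
    rw [h4, map_sub, map_add, map_add, map_mul, map_mul, map_mul, map_mul, ← h, ← hAB x] at h3
    rw [hD]
    simp only
    rw [div_mul_eq_mul_div, div_eq_iff (hB0 x)]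
    linear_combination -h3
  have hval : ∀ Q : P2 ℂ, D (ψ Q) = ψ (Dv P Q) := by
    intro Q
    have h := key (ψ Q) Q 1 (by rw [map_one, mul_one])
    have e : Dv P (1 : P2 ℂ) = 0 := by
      have := hC 1
      rwa [map_one] at this
    rw [map_one, mul_one, e, map_zero, mul_zero, sub_zero] at h
    exact h
  have hDadd : ∀ x y, D (x + y) = D x + D y := by
    intro x y
    have hx := key x (A x) (B x) (hAB x)
    have hy := key y (A y) (B y) (hAB y)
    have h := key (x + y) (A x * B y + A y * B x) (B x * B y) (by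
      rw [map_add, map_mul, map_mul, map_mul, ← hAB x, ← hAB y]
      ring)
    rw [hadd, hmul, hmul, hmul, map_add, map_add, map_add, map_add, map_mul, map_mul, map_mul,
      map_mul, map_mul, map_mul, map_mul, ← hAB x, ← hAB y] at h
    have h5 : ψ (B x) * ψ (B y) ≠ 0 := mul_ne_zero (hB0 x) (hB0 y)
    apply mul_right_cancel₀ h5
    linear_combination h - ψ (B y) * hx - ψ (B x) * hy
  have hDmul : ∀ x y, D (x * y) = x * D y + y * D x := by
    intro x y
    have hx := key x (A x) (B x) (hAB x)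
    have hy := key y (A y) (B y) (hAB y)
    have h := key (x * y) (A x * A y) (B x * B y) (by
      rw [map_mul, map_mul, ← hAB x, ← hAB y]
      ring)
    rw [hmul, hmul, map_add, map_add, map_mul, map_mul, map_mul, map_mul, map_mul,
      ← hAB x, ← hAB y] at h
    have h5 : ψ (B x) * ψ (B y) ≠ 0 := mul_ne_zero (hB0 x) (hB0 y)
    apply mul_right_cancel₀ h5
    linear_combination h - y * ψ (B y) * hx - x * ψ (B x) * hy
  have hDC : ∀ c : ℂ, D (algebraMap ℂ L c) = 0 := by
    intro c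
    have h := hval (MvPolynomial.C c)
    rw [hC, map_zero] at h
    have e : ψ (MvPolynomial.C c) = algebraMap ℂ L c := by
      rw [hψ, MvPolynomial.aeval_C]
    rwa [e] at h
  let DL : L →ₗ[ℂ] L :=
    { toFun := D
      map_add' := hDadd
      map_smul' := by
        intro c x
        rw [Algebra.smul_def, hDmul, hDC, mul_zero, add_zero, RingHom.id_apply, Algebra.smul_def] }
  let DD : Derivation ℂ L L := Derivation.mk' DL (by
    intro x y
    change D (x * y) = x • D y + y • D x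
    rw [hDmul, smul_eq_mul, smul_eq_mul])
  refine ⟨DD, ⟨q 0, ?_⟩, hval⟩
  have hq0 : q 0 = ψ (MvPolynomial.X 0) := by
    rw [hψ, MvPolynomial.aeval_X]
  change D (q 0) ≠ 0
  rw [hq0, hval]
  have e : Dv P (MvPolynomial.X 0) = MvPolynomial.pderiv 1 P := by
    simp only [Dv, MvPolynomial.pderiv_X_self, mul_one]
    rw [MvPolynomial.pderiv_X_of_ne (by decide)]
    ring
  rw [e]
  intro h
  exact GE.not_dvd_pderiv h1 ((hq _).1 h)

end Pool.Agent.HF
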