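import Mathlib
import Pool.Agent.Lib.MP_c95b3b_ag_HF.Defs

/-! Project HF (MP_c95b3b_ag), module RO: logarithmic differentials (Rosenlicht). -/

namespace Pool.Agent.HF.Ros

open Matrix Polynomial

section Jacobi

variable {F : Type*} [Field F] (d : F → F)

/-- The ring homomorphism `a ↦ a + ε d a`. -/
noncomputable def dualHom (ha : ∀ a b, d (a + b) = d a + d b)
    (hm : ∀ a b, d (a * b) = a * d b + b * d a) : F →+* DualNumber F :=
  RingHom.mk'
    { toFun := fun a => TrivSqZeroExt.inl a + TrivSqZeroExt.inr (d a)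
      map_one' := by
        have h1 : d 1 = 0 := by
          have := hm 1 1
          simpa using this
        ext <;> simp [h1]
      map_mul' := by
        intro a b
        ext
        · simp
        · simp [hm a b]
          ring }
    (by
      intro a b
      ext
      · simp
      · simp [ha a b])

theorem dualHom_apply (ha : ∀ a b, d (a + b) = d a + d b)
    (hm : ∀ a b, d (a * b) = a * d b + b * d a) (a : F) :
    dualHom d ha hm a = TrivSqZeroExt.inl a + TrivSqZeroExt.inr (d a) := rfl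

theorem jacobi {n : Type*} [Fintype n] [DecidableEq n] (ha : ∀ a b, d (a + b) = d a + d b)
    (hm : ∀ a b, d (a * b) = a * d b + b * d a) (M N : Matrix n n F) (h : M * N = 1) :
    d M.det = M.det * Matrix.trace (N * M.map d) := by
  set φ := dualHom d ha hm with hφ
  have h1 : φ M.det = (φ.mapMatrix M).det := RingHom.map_det φ M
  have h2 : φ.mapMatrix M = (TrivSqZeroExt.inlHom F F).mapMatrix M *
      (1 + (DualNumber.eps : DualNumber F) • (TrivSqZeroExt.inlHom F F).mapMatrix (N * M.map d)) := by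
    have h3 : (TrivSqZeroExt.inlHom F F).mapMatrix M *
        (TrivSqZeroExt.inlHom F F).mapMatrix (N * M.map d) =
        (TrivSqZeroExt.inlHom F F).mapMatrix (M.map d) := by
      rw [← map_mul, ← Matrix.mul_assoc, h, Matrix.one_mul]
    rw [Matrix.mul_add, Matrix.mul_one, Matrix.mul_smul, h3]
    ext i j
    · simp [hφ, dualHom_apply]
    · simp [hφ, dualHom_apply]
  rw [h2, Matrix.det_mul, Matrix.det_one_add_smul] at h1
  have h4 := congrArg TrivSqZeroExt.snd h1
  have h5 : ((DualNumber.eps : DualNumber F)) ^ 2 = 0 := by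
    rw [pow_two, DualNumber.eps_mul_eps]
  rw [h5, mul_zero, add_zero] at h4
  have h6 : ((TrivSqZeroExt.inlHom F F).mapMatrix M).det = TrivSqZeroExt.inl M.det := by
    rw [← RingHom.map_det]
    rfl
  have h7 : Matrix.trace ((TrivSqZeroExt.inlHom F F).mapMatrix (N * M.map d)) =
      TrivSqZeroExt.inl (Matrix.trace (N * M.map d)) := by
    have := AddMonoidHom.map_trace (TrivSqZeroExt.inlHom F F) (N * M.map d)
    exact this.symm
  rw [h6, h7, hφ, dualHom_apply] at h4
  simpa using h4

end Jacobi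

section Trace

variable {F E : Type*} [Field F] [Field E] [Algebra F E] [FiniteDimensional F E]

/-- The trace of a logarithmic derivative is the logarithmic derivative of the norm. -/
theorem trace_log (d : F → F) (δ : E → E)
    (hda : ∀ a b, d (a + b) = d a + d b) (hdm : ∀ a b, d (a * b) = a * d b + b * d a)
    (hea : ∀ a b, δ (a + b) = δ a + δ b) (hem : ∀ a b, δ (a * b) = a * δ b + b * δ a)
    (hde : ∀ a : F, δ (algebraMap F E a) = algebraMap F E (d a)) (x : E) (hx : x ≠ 0) :
    d (Algebra.norm F x) = Algebra.norm F x * Algebra.trace F E (δ x / x) := by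
  classical
  set b := Module.finBasis F E with hb
  set L := Algebra.leftMulMatrix b with hL
  set A : Matrix _ _ F := Matrix.of (fun i j => b.repr (δ (b j)) i) with hA
  have hinv : L x * L x⁻¹ = 1 := by
    rw [← map_mul, mul_inv_cancel₀ hx, map_one]
  have hinv2 : L x⁻¹ * L x = 1 := by
    rw [← map_mul, inv_mul_cancel₀ hx, map_one]
  have hLc : ∀ (y : E) i j, L y i j = b.repr (y * b j) i := fun y i j =>
    Algebra.leftMulMatrix_eq_repr_mul b y i j
  have hexp : ∀ (y : E) j, y * b j = ∑ i, (L y i j) • b i := by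
    intro y j
    rw [← b.sum_repr (y * b j)]
    simp only [hLc, b.sum_repr]
  have hde0 : ∀ y : E, δ y = ∑ i, (algebraMap F E (d (b.repr y i)) * b i +
      algebraMap F E (b.repr y i) * δ (b i)) := by
    intro y
    conv_lhs => rw [← b.sum_repr y]
    have hsum : ∀ (s : Finset (Fin (Module.finrank F E))) (f : _ → E),
        δ (∑ i ∈ s, f i) = ∑ i ∈ s, δ (f i) := by
      intro s f
      have h0 : δ 0 = 0 := by
        have := hea 0 0
        simpa using this
      exact map_sum (AddMonoidHom.mk' δ hea) f s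
    rw [hsum]
    refine Finset.sum_congr rfl (fun i _ => ?_)
    rw [Algebra.smul_def, hem, hde]
    ring
  have hkey : L (δ x) = (L x).map d + A * L x - L x * A := by
    ext k j
    have h1 : δ x * b j = δ (x * b j) - x * δ (b j) := by
      rw [hem]; ring
    have h2 : δ (x * b j) = ∑ i, (algebraMap F E (d (L x i j)) * b i +
      algebraMap F E (L x i j) * δ (b i)) := by
      rw [hde0 (x * b j)]
      simp only [hLc]
    have h3 : x * δ (b j) = ∑ i, (A i j) • (x * b i) := by
      conv_lhs => rw [← b.sum_repr (δ (b j))]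
      rw [Finset.mul_sum]
      refine Finset.sum_congr rfl (fun i _ => ?_)
      rw [mul_smul_comm]
      rfl
    rw [hLc, h1, map_sub, h2, h3, map_sum, map_sum]
    simp only [Finsupp.coe_sub, Pi.sub_apply, Finsupp.coe_finsetSum, Finset.sum_apply,
      map_add, Finsupp.coe_add, Pi.add_apply, Matrix.sub_apply, Matrix.add_apply, Matrix.map_apply,
      Matrix.mul_apply, ← Algebra.smul_def, map_smul, Finsupp.coe_smul, Pi.smul_apply, smul_eq_mul,
      Finset.sum_add_distrib, Module.Basis.repr_self]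
    congr 1
    · congr 1
      · simp [Finsupp.single_apply]
      · refine Finset.sum_congr rfl (fun i _ => ?_)
        rw [mul_comm]
        rfl
    · refine Finset.sum_congr rfl (fun i _ => ?_)
      rw [hLc, mul_comm]
  rw [Algebra.norm_eq_matrix_det b, jacobi d hda hdm _ _ hinv, Algebra.trace_eq_matrix_trace b]
  congr 1
  have h5 : L (δ x / x) = L x⁻¹ * L (δ x) := by
    rw [← map_mul, div_eq_inv_mul]
  change _ = Matrix.trace (L (δ x / x))
  rw [h5, hkey, Matrix.mul_sub, Matrix.mul_add, Matrix.trace_sub, Matrix.trace_add,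
    ← Matrix.mul_assoc (L x⁻¹) (L x) A, hinv2, Matrix.one_mul,
    ← Matrix.mul_assoc (L x⁻¹) A (L x), Matrix.trace_mul_comm (L x⁻¹ * A) (L x),
    ← Matrix.mul_assoc, hinv, Matrix.one_mul]
  ring

end Trace

section Deriv

variable {K : Type*} [Field K] [Algebra ℂ K] (D : Derivation ℂ K K)

theorem D_aeval (F : IntermediateField ℂ K) (x : K) (p : Polynomial F) :
    D (Polynomial.aeval x p) = (p.sum fun n a => D (a : K) * x ^ n) +
      Polynomial.aeval x (Polynomial.derivative p) * D x := by
  induction p using Polynomial.induction_on' with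
  | add p q hp hq =>
    rw [map_add, map_add, hp, hq, Polynomial.sum_add_index _ _ _ (by intro i; simp)
      (by intro a b c; simp [add_mul]), map_add, map_add]
    ring
  | monomial n a =>
    have h1 : (algebraMap F K) a = (a : K) := rfl
    rw [Polynomial.aeval_monomial, Derivation.leibniz, Derivation.leibniz_pow,
      Polynomial.sum_monomial_index _ _ (by simp), Polynomial.derivative_monomial,
      Polynomial.aeval_monomial, h1]
    simp only [smul_eq_mul, nsmul_eq_mul, map_mul, map_natCast, h1]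
    ring

theorem D_alg_zero (F : IntermediateField ℂ K) (hF : ∀ a : F, D (a : K) = 0) (x : K)
    (hx : IsAlgebraic F x) : D x = 0 := by
  have h1 := D_aeval D F x (minpoly F x)
  rw [minpoly.aeval, map_zero] at h1
  have h2 : ((minpoly F x).sum fun n a => D (a : K) * x ^ n) = 0 := by
    simp [Polynomial.sum, hF]
  rw [h2, zero_add] at h1
  have h3 : Polynomial.aeval x (Polynomial.derivative (minpoly F x)) ≠ 0 :=
    (minpoly.irreducible hx.isIntegral).separable.aeval_derivative_ne_zero (minpoly.aeval F x)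
  rcases mul_eq_zero.mp h1.symm with h | h
  · exact absurd h h3
  · exact h

theorem D_mem (F : IntermediateField ℂ K) (hF : ∀ a : F, D (a : K) ∈ F)
    (E : IntermediateField F K) (x : K) (hx : x ∈ E) (hxa : IsAlgebraic F x) : D x ∈ E := by
  have h1 := D_aeval D F x (minpoly F x)
  rw [minpoly.aeval, map_zero] at h1
  have h3 : Polynomial.aeval x (Polynomial.derivative (minpoly F x)) ≠ 0 :=
    (minpoly.irreducible hxa.isIntegral).separable.aeval_derivative_ne_zero (minpoly.aeval F x)
  have h4 : Polynomial.aeval x (Polynomial.derivative (minpoly F x)) ∈ E := by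
    have := Polynomial.aeval_algHom_apply E.val ⟨x, hx⟩ (Polynomial.derivative (minpoly F x))
    have h5 : E.val ⟨x, hx⟩ = x := rfl
    rw [h5] at this
    rw [this]
    exact SetLike.coe_mem _
  have h5 : ((minpoly F x).sum fun n a => D (a : K) * x ^ n) ∈ E := by
    rw [Polynomial.sum]
    refine sum_mem (fun n _ => mul_mem ?_ (pow_mem hx n))
    exact E.algebraMap_mem ⟨_, hF ((minpoly F x).coeff n)⟩
  have h6 : D x = -((minpoly F x).sum fun n a => D (a : K) * x ^ n) /
      Polynomial.aeval x (Polynomial.derivative (minpoly F x)) := by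
    rw [eq_div_iff h3]
    linear_combination -h1
  rw [h6]
  exact div_mem (neg_mem h5) h4

variable (halg : ∀ x y : K, ∃ R : MvPolynomial (Fin 2) ℂ, R ≠ 0 ∧ MvPolynomial.aeval ![x, y] R = 0)

include halg in
theorem alg_over (f : K) (hf : Transcendental ℂ f) (y : K) :
    IsAlgebraic (IntermediateField.adjoin ℂ {f}) y := by
  obtain ⟨R, hR, h0⟩ := halg y f
  set F := IntermediateField.adjoin ℂ {f} with hF
  set f' : F := ⟨f, IntermediateField.mem_adjoin_simple_self ℂ f⟩ with hf'
  set φ : MvPolynomial (Fin 1) ℂ →ₐ[ℂ] F := MvPolynomial.aeval ![f'] with hφ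
  have hinj : Function.Injective φ := by
    have h1 : AlgebraicIndependent ℂ (![f'] : Fin 1 → F) := by
      rw [algebraicIndependent_unique_type_iff]
      have h2 : Transcendental ℂ (algebraMap F K f') := hf
      exact (transcendental_algebraMap_iff (algebraMap F K).injective).mp h2
    exact h1
  refine ⟨(MvPolynomial.finSuccEquiv ℂ 1 R).map φ.toRingHom, ?_, ?_⟩
  · intro h
    have h1 : (MvPolynomial.finSuccEquiv ℂ 1 R) = 0 :=
      (Polynomial.map_eq_zero_iff (f := φ.toRingHom) hinj).mp h
    exact hR ((map_eq_zero_iff _ (MvPolynomial.finSuccEquiv ℂ 1).injective).mp h1)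
  · have h2 : ∀ Q : MvPolynomial (Fin 2) ℂ, Polynomial.aeval y
        ((MvPolynomial.finSuccEquiv ℂ 1 Q).map φ.toRingHom) = MvPolynomial.aeval ![y, f] Q := by
      intro Q
      induction Q using MvPolynomial.induction_on with
      | C a =>
        rw [MvPolynomial.aeval_C]
        simp only [MvPolynomial.finSuccEquiv_apply, MvPolynomial.eval₂Hom_C]
        simp [hφ]
      | add p q hp hq =>
        rw [map_add, Polynomial.map_add, map_add, hp, hq, map_add]
      | mul_X p i hp =>
        rw [map_mul, Polynomial.map_mul, map_mul, hp, map_mul]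
        congr 1
        fin_cases i
        · simp [MvPolynomial.finSuccEquiv_X_zero]
        · have : MvPolynomial.finSuccEquiv ℂ 1 (MvPolynomial.X 1) =
              Polynomial.C (MvPolynomial.X 0) := MvPolynomial.finSuccEquiv_X_succ (n := 1) (j := 0)
          simp [this, hφ]
          rfl
    rw [h2, h0]

theorem alg_const (g : K) (hg : IsAlgebraic ℂ g) : ∃ c : ℂ, g = algebraMap ℂ K c := by
  have : Algebra.IsAlgebraic ℂ (IntermediateField.adjoin ℂ {g}) :=
    IntermediateField.isAlgebraic_adjoin_simple hg.isIntegral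
  have h1 := IntermediateField.eq_bot_of_isAlgClosed_of_isAlgebraic
    (IntermediateField.adjoin ℂ {g})
  have h2 : g ∈ IntermediateField.adjoin ℂ {g} := IntermediateField.mem_adjoin_simple_self ℂ g
  rw [h1] at h2
  obtain ⟨c, hc⟩ := IntermediateField.mem_bot.mp h2
  exact ⟨c, hc.symm⟩

include halg in
theorem const_of_D_zero (hD : ∃ x, D x ≠ 0) (g : K) (hg : D g = 0) :
    ∃ c : ℂ, g = algebraMap ℂ K c := by
  by_cases ht : Transcendental ℂ g
  · exfalso
    obtain ⟨x, hx⟩ := hD
    apply hx
    refine D_alg_zero D (IntermediateField.adjoin ℂ {g}) ?_ x (alg_over halg g ht x)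
    intro a
    obtain ⟨r, s, hrs⟩ := IntermediateField.mem_adjoin_simple_iff ℂ (a : K) |>.mp a.2
    rw [hrs, Derivation.leibniz_div, Derivation.map_aeval, Derivation.map_aeval, hg]
    simp
  · have hga : IsAlgebraic ℂ g := by
      by_contra h
      exact ht h
    exact alg_const g hga

end Deriv

section Residue

variable {K : Type*} [Field K] [Algebra ℂ K]

/-- Values at `f` of rational functions vanishing at the origin. -/
def Van (f x : K) : Prop := ∃ p q : ℂ[X], q.eval 0 ≠ 0 ∧ p.eval 0 = 0 ∧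
  x * aeval f q = aeval f p

theorem van_zero (f : K) : Van f 0 := ⟨0, 1, by simp, by simp, by simp⟩

theorem van_add (f x y : K) (hx : Van f x) (hy : Van f y) : Van f (x + y) := by
  obtain ⟨p, q, h1, h2, h3⟩ := hx
  obtain ⟨p', q', h1', h2', h3'⟩ := hy
  refine ⟨p * q' + p' * q, q * q', ?_, ?_, ?_⟩
  · rw [eval_mul]
    exact mul_ne_zero h1 h1'
  · rw [eval_add, eval_mul, eval_mul, h2, h2']
    simp
  · rw [map_mul, map_add, map_mul, map_mul]
    linear_combination (aeval f q') * h3 + (aeval f q) * h3'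

theorem van_smul (f x : K) (c : ℂ) (hx : Van f x) : Van f (c • x) := by
  obtain ⟨p, q, h1, h2, h3⟩ := hx
  refine ⟨C c * p, q, h1, ?_, ?_⟩
  · rw [eval_mul, h2, mul_zero]
  · rw [map_mul, aeval_C, Algebra.smul_def, mul_assoc, h3]

theorem van_sum (f : K) {n : ℕ} (x : Fin n → K) (hx : ∀ i, Van f (x i)) :
    Van f (∑ i, x i) := by
  refine Finset.sum_induction x (Van f) (fun a b => van_add f a b) (van_zero f)
    (fun i _ => hx i)

theorem van_const (f : K) (hf : Transcendental ℂ f) (c : ℂ) (h : Van f (algebraMap ℂ K c)) :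
    c = 0 := by
  obtain ⟨p, q, h1, h2, h3⟩ := h
  have h4 : aeval f (C c * q - p) = 0 := by
    rw [map_sub, map_mul, aeval_C, h3, sub_self]
  have h5 : C c * q - p = 0 := by
    by_contra hne
    exact hf ⟨_, hne, h4⟩
  have h6 := congrArg (eval 0) h5
  rw [eval_sub, eval_mul, eval_C, h2, eval_zero, sub_zero] at h6
  rcases mul_eq_zero.mp h6 with h | h
  · exact h
  · exact absurd h h1

variable (D : Derivation ℂ K K)

theorem ld_mul (x y : K) (hx : x ≠ 0) (hy : y ≠ 0) :
    D (x * y) / (x * y) = D x / x + D y / y := by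
  rw [Derivation.leibniz]
  simp only [smul_eq_mul]
  field_simp
  ring

theorem aeval_ne (f : K) (hf : Transcendental ℂ f) (p : ℂ[X]) (hp : p.eval 0 ≠ 0) :
    aeval f p ≠ 0 := by
  intro h
  apply hf
  refine ⟨p, ?_, h⟩
  rintro rfl
  simp at hp

theorem van_ld (f : K) (hf : Transcendental ℂ f) (hDf : D f = 1) (p : ℂ[X])
    (hp : p.eval 0 ≠ 0) : Van f (f * (D (aeval f p) / aeval f p)) := by
  refine ⟨X * derivative p, p, hp, by simp, ?_⟩
  have h1 := aeval_ne f hf p hp
  rw [Derivation.map_aeval, hDf, map_mul, aeval_X]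
  simp only [smul_eq_mul, mul_one]
  field_simp

/-- Every nonzero element of `ℂ(f)` is `f ^ (j - k)` times a unit at the origin. -/
theorem exists_repr (f : K) (a : K) (ha : a ≠ 0) (hmem : a ∈ IntermediateField.adjoin ℂ {f}) :
    ∃ (j k : ℕ) (p q : ℂ[X]), p.eval 0 ≠ 0 ∧ q.eval 0 ≠ 0 ∧
      a * (f ^ k * aeval f q) = f ^ j * aeval f p := by
  obtain ⟨r, s, hrs⟩ := IntermediateField.mem_adjoin_simple_iff ℂ a |>.mp hmem
  have hs0 : aeval f s ≠ 0 := by
    intro h
    apply ha
    rw [hrs, h, div_zero]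
  have hr0 : aeval f r ≠ 0 := by
    intro h
    apply ha
    rw [hrs, h, zero_div]
  have hfac : ∀ p : ℂ[X], p ≠ 0 → ∃ (k : ℕ) (q : ℂ[X]), q.eval 0 ≠ 0 ∧ p = X ^ k * q := by
    intro p hp
    obtain ⟨q, h1, h2⟩ := exists_eq_pow_rootMultiplicity_mul_and_not_dvd p hp 0
    rw [C_0, sub_zero] at h1 h2
    refine ⟨_, q, ?_, h1⟩
    intro h
    apply h2
    rw [← sub_zero X, ← C_0, dvd_iff_isRoot]
    exact h
  obtain ⟨j, p, hp, hp2⟩ := hfac r (by rintro rfl; simp at hr0)
  obtain ⟨k, q, hq, hq2⟩ := hfac s (by rintro rfl; simp at hs0)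
  refine ⟨j, k, p, q, hp, hq, ?_⟩
  have h1 : aeval f s = f ^ k * aeval f q := by rw [hq2]; simp
  have h2 : aeval f r = f ^ j * aeval f p := by rw [hp2]; simp
  rw [← h1, ← h2, hrs, div_mul_cancel₀ _ hs0]

theorem ld_repr (f : K) (hf : Transcendental ℂ f) (hDf : D f = 1) (a : K) (ha : a ≠ 0)
    (j k : ℕ) (p q : ℂ[X]) (hp : p.eval 0 ≠ 0) (hq : q.eval 0 ≠ 0)
    (h : a * (f ^ k * aeval f q) = f ^ j * aeval f p) :
    ∃ v, Van f v ∧ f * (D a / a) = algebraMap ℂ K ((j : ℂ) - k) + v := by
  have hf0 : f ≠ 0 := by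
    rintro rfl
    simp at hDf
  have hp0 := aeval_ne f hf p hp
  have hq0 := aeval_ne f hf q hq
  have hpow : ∀ n : ℕ, D (f ^ n) / f ^ n = n / f := by
    intro n
    rw [Derivation.leibniz_pow, hDf]
    rcases Nat.eq_zero_or_pos n with rfl | hn
    · simp
    · obtain ⟨m, rfl⟩ := Nat.exists_eq_succ_of_ne_zero hn.ne'
      simp only [Nat.succ_eq_add_one, Nat.add_sub_cancel, smul_eq_mul, nsmul_eq_mul, mul_one]
      field_simp
      ring
  have h1 : D a / a + (D (f ^ k) / f ^ k + D (aeval f q) / aeval f q) =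
      D (f ^ j) / f ^ j + D (aeval f p) / aeval f p := by
    rw [← ld_mul D _ _ (pow_ne_zero k hf0) hq0, ← ld_mul D _ _ (pow_ne_zero j hf0) hp0,
      ← ld_mul D _ _ ha (mul_ne_zero (pow_ne_zero k hf0) hq0), h]
  rw [hpow, hpow] at h1
  refine ⟨f * (D (aeval f p) / aeval f p) + (-1 : ℂ) • (f * (D (aeval f q) / aeval f q)),
    van_add f _ _ (van_ld D f hf hDf p hp) (van_smul f _ _ (van_ld D f hf hDf q hq)), ?_⟩
  rw [map_sub, map_natCast, map_natCast, neg_one_smul]
  have h2 : D a / a = (j : K) / f + D (aeval f p) / aeval f p -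
      ((k : K) / f + D (aeval f q) / aeval f q) := by
    linear_combination h1
  rw [h2]
  field_simp
  ring

theorem orders_zero (f : K) (hf : Transcendental ℂ f) (hDf : D f = 1) {n : ℕ} (a : Fin n → K)
    (ha : ∀ i, a i ≠ 0) (hmem : ∀ i, a i ∈ IntermediateField.adjoin ℂ {f})
    (l : Fin n → ℂ) (hl : LinearIndependent ℚ l) (h : ∑ i, l i • (D (a i) / a i) = 0)
    (i₀ : Fin n) (m : ℕ) (h₀ : a i₀ = f ^ m) : m = 0 := by
  have hch : ∀ i, ∃ (j k : ℕ) (p q : ℂ[X]), p.eval 0 ≠ 0 ∧ q.eval 0 ≠ 0 ∧
      a i * (f ^ k * aeval f q) = f ^ j * aeval f p ∧ (i = i₀ → j = m ∧ k = 0) := by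
    intro i
    by_cases hi : i = i₀
    · refine ⟨m, 0, 1, 1, by simp, by simp, ?_, fun _ => ⟨rfl, rfl⟩⟩
      rw [hi, h₀]
      simp
    · obtain ⟨j, k, p, q, h1, h2, h3⟩ := exists_repr f (a i) (ha i) (hmem i)
      exact ⟨j, k, p, q, h1, h2, h3, fun h => absurd h hi⟩
  choose j k p q h1 h2 h3 h4 using hch
  have h5 : ∀ i, ∃ v, Van f v ∧ f * (D (a i) / a i) = algebraMap ℂ K ((j i : ℂ) - k i) + v :=
    fun i => ld_repr D f hf hDf (a i) (ha i) (j i) (k i) (p i) (q i) (h1 i) (h2 i) (h3 i)
  choose v hv hv2 using h5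
  have h6 : ∑ i, l i • (f * (D (a i) / a i)) = 0 := by
    have : ∀ i, l i • (f * (D (a i) / a i)) = f * (l i • (D (a i) / a i)) := by
      intro i
      rw [mul_smul_comm]
    simp only [this]
    rw [← Finset.mul_sum, h, mul_zero]
  simp only [hv2, smul_add, Finset.sum_add_distrib] at h6
  have h7 : ∑ i, l i • algebraMap ℂ K ((j i : ℂ) - k i) =
      algebraMap ℂ K (∑ i, l i * ((j i : ℂ) - k i)) := by
    rw [map_sum]
    refine Finset.sum_congr rfl (fun i _ => ?_)
    rw [map_mul, Algebra.smul_def]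
  have h8 : Van f (algebraMap ℂ K (∑ i, l i * ((j i : ℂ) - k i))) := by
    have h9 : algebraMap ℂ K (∑ i, l i * ((j i : ℂ) - k i)) =
        (-1 : ℂ) • ∑ i, l i • v i := by
      rw [neg_one_smul, ← h7]
      exact eq_neg_of_add_eq_zero_left h6
    rw [h9]
    exact van_smul f _ _ (van_sum f _ (fun i => van_smul f _ _ (hv i)))
  have h9 := van_const f hf _ h8
  have h10 : ∑ i, ((j i : ℚ) - k i) • l i = 0 := by
    rw [← h9]
    refine Finset.sum_congr rfl (fun i _ => ?_)
    rw [Rat.smul_def]
    push_cast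
    ring
  have h11 := Fintype.linearIndependent_iff.mp hl _ h10 i₀
  obtain ⟨h12, h13⟩ := h4 i₀ rfl
  rw [h12, h13] at h11
  simpa using h11

end Residue

end Pool.Agent.HF.Ros

namespace Pool.Agent.HF

open Pool.Agent.L3 Pool.Agent.RS Module

open Ros in
theorem rosenlicht (K : Type) [Field K] [Algebra ℂ K] (D : Derivation ℂ K K)
    (hD : ∃ x, D x ≠ 0)
    (halg : ∀ x y : K, ∃ R : MvPolynomial (Fin 2) ℂ, R ≠ 0 ∧ MvPolynomial.aeval ![x, y] R = 0)
    {n : ℕ} (g : Fin n → K) (hg : ∀ i, g i ≠ 0) (l : Fin n → ℂ) (hl : LinearIndependent ℚ l)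
    (h : ∑ i, l i • (D (g i) / g i) = 0) : ∀ i, ∃ c : ℂ, g i = algebraMap ℂ K c := by
  intro i₀
  by_contra hno
  have hDf0 : D (g i₀) ≠ 0 := fun h0 => hno (const_of_D_zero D halg hD (g i₀) h0)
  set f := g i₀ with hfdef
  have hf : Transcendental ℂ f := by
    intro ha
    exact hno (alg_const f ha)
  set D' : Derivation ℂ K K := (D f)⁻¹ • D with hD'
  have hD'a : ∀ x, D' x = (D f)⁻¹ * D x := fun x => rfl
  have hDf : D' f = 1 := by rw [hD'a, inv_mul_cancel₀ hDf0]
  set F := IntermediateField.adjoin ℂ {f} with hF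
  have hfF : f ∈ F := IntermediateField.mem_adjoin_simple_self ℂ f
  have hpF : ∀ p : Polynomial ℂ, Polynomial.aeval f p ∈ F := by
    intro p
    have := Polynomial.aeval_algHom_apply F.val ⟨f, hfF⟩ p
    have h5 : F.val ⟨f, hfF⟩ = f := rfl
    rw [h5] at this
    rw [this]
    exact SetLike.coe_mem _
  have hFs : ∀ a : F, D' (a : K) ∈ F := by
    intro a
    obtain ⟨r, s, hrs⟩ := IntermediateField.mem_adjoin_simple_iff ℂ (a : K) |>.mp a.2
    rw [hrs, Derivation.leibniz_div, Derivation.map_aeval, Derivation.map_aeval, hDf]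
    simp only [smul_eq_mul, mul_one]
    exact mul_mem (pow_mem (inv_mem (hpF s)) 2) (sub_mem (mul_mem (hpF s) (hpF _))
      (mul_mem (hpF r) (hpF _)))
  set E := IntermediateField.adjoin F (Set.range g) with hE
  have : FiniteDimensional F E :=
    IntermediateField.finiteDimensional_adjoin (fun x _ => (alg_over halg f hf x).isIntegral)
  have hgE : ∀ i, g i ∈ E := fun i => IntermediateField.subset_adjoin F _ ⟨i, rfl⟩
  set gE : Fin n → E := fun i => ⟨g i, hgE i⟩ with hgEdef
  have hgE0 : ∀ i, gE i ≠ 0 := by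
    intro i h0
    exact hg i (congrArg (Subtype.val) h0)
  set d : F → F := fun a => ⟨D' (a : K), hFs a⟩ with hd
  set δ : E → E := fun x => ⟨D' (x : K), D_mem D' F hFs E x x.2 (alg_over halg f hf x)⟩ with hδ
  have hlog := fun i => trace_log (F := F) (E := E) d δ
    (by intro a b; apply Subtype.ext; simp [hd])
    (by intro a b; apply Subtype.ext; simp [hd])
    (by intro a b; apply Subtype.ext; simp [hδ])
    (by intro a b; apply Subtype.ext; simp [hδ])
    (by intro a; apply Subtype.ext; rfl) (gE i) (hgE0 i)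
  set N : Fin n → F := fun i => Algebra.norm F (gE i) with hN
  have hN0 : ∀ i, N i ≠ 0 := fun i => (Algebra.norm_ne_zero_iff).mpr (hgE0 i)
  have hsum : ∑ i, l i • (D' (N i : K) / (N i : K)) = 0 := by
    have h1 : ∀ i, D' (N i : K) / (N i : K) =
        ((Algebra.trace F E (δ (gE i) / gE i) : F) : K) := by
      intro i
      have h2 : D' (N i : K) = (N i : K) * ((Algebra.trace F E (δ (gE i) / gE i) : F) : K) :=
        congrArg Subtype.val (hlog i)
      have h3 : (N i : K) ≠ 0 := fun h0 => hN0 i (Subtype.ext h0)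
      rw [h2, mul_div_cancel_left₀ _ h3]
    have h4 : ∑ i, l i • (δ (gE i) / gE i) = 0 := by
      apply Subtype.ext
      have h5 : ((∑ i, l i • (δ (gE i) / gE i) : E) : K) =
          ∑ i, l i • (D' (g i) / g i) := by
        rw [AddSubmonoidClass.coe_finsetSum]
        rfl
      rw [h5]
      have h6 : ∀ i, l i • (D' (g i) / g i) = (D f)⁻¹ * (l i • (D (g i) / g i)) := by
        intro i
        rw [hD'a, mul_smul_comm, mul_div_assoc]
      simp only [h6]
      rw [← Finset.mul_sum, h, mul_zero]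
      rfl
    have h7 := congrArg (Algebra.trace F E) h4
    rw [map_sum, map_zero] at h7
    have h8 := congrArg (Subtype.val) h7
    rw [AddSubmonoidClass.coe_finsetSum] at h8
    refine Eq.trans ?_ h8
    refine Finset.sum_congr rfl (fun i _ => ?_)
    rw [h1]
    have h9 : l i • (δ (gE i) / gE i) = (algebraMap ℂ F (l i)) • (δ (gE i) / gE i) := by
      rw [algebraMap_smul]
    rw [h9, map_smul, Algebra.smul_def]
    rfl
  have hNi₀ : (N i₀ : K) = f ^ (Module.finrank F E) := by
    have h1 : gE i₀ = algebraMap F E ⟨f, hfF⟩ := by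
      apply Subtype.ext
      rfl
    have h2 : N i₀ = (⟨f, hfF⟩ : F) ^ (Module.finrank F E) := by
      rw [hN]
      simp only
      rw [h1, Algebra.norm_algebraMap]
    rw [h2]
    rfl
  have hm := orders_zero D' f hf hDf (fun i => (N i : K))
    (fun i h0 => hN0 i (Subtype.ext h0)) (fun i => (N i).2) l hl hsum i₀ _ hNi₀
  have hpos : 0 < Module.finrank F E := Module.finrank_pos
  omega

end Pool.Agent.HF
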