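import Mathlib
import Pool.Agent.Lib.MP_c95b3b_ag_HF.Defs
import Pool.Agent.Lib.MP_c95b3b_ag_HF.Generic
import Pool.Agent.Lib.MP_c95b3b_ag_HF.Rosenlicht

/-! Project HF (MP_c95b3b_ag), module AC: relative algebraic closure and derivations. -/

namespace Pool.Agent.HF.AC

open Polynomial

/-- A relation between `y` and a transcendental `f` makes `y` algebraic over `ℂ(f)`. -/
theorem alg_of_rel {K : Type*} [Field K] [Algebra ℂ K] (f : K) (hf : Transcendental ℂ f) (y : K)
    (R : MvPolynomial (Fin 2) ℂ) (hR : R ≠ 0) (h0 : MvPolynomial.aeval ![y, f] R = 0) :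
    IsAlgebraic (IntermediateField.adjoin ℂ {f}) y := by
  set F := IntermediateField.adjoin ℂ {f} with hF
  set f' : F := ⟨f, IntermediateField.mem_adjoin_simple_self ℂ f⟩ with hf'
  set φ : MvPolynomial (Fin 1) ℂ →ₐ[ℂ] F := MvPolynomial.aeval ![f'] with hφ
  have hinj : Function.Injective φ := by
    have h1 : AlgebraicIndependent ℂ (![f'] : Fin 1 → F) := by
      rw [algebraicIndependent_unique_type_iff]
      have h2 : Transcendental ℂ (algebraMap F K f') := hf
      exact (transcendental_algebraMap_iff (algebraMap F K).injective).mp h2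
    exact h1
  refine ⟨(MvPolynomial.finSuccEquiv ℂ 1 R).map φ.toRingHom, ?_, ?_⟩
  · intro h
    have h1 : (MvPolynomial.finSuccEquiv ℂ 1 R) = 0 :=
      (Polynomial.map_eq_zero_iff (f := φ.toRingHom) hinj).mp h
    exact hR ((map_eq_zero_iff _ (MvPolynomial.finSuccEquiv ℂ 1).injective).mp h1)
  · have h2 : ∀ Q : MvPolynomial (Fin 2) ℂ, Polynomial.aeval y
        ((MvPolynomial.finSuccEquiv ℂ 1 Q).map φ.toRingHom) = MvPolynomial.aeval ![y, f] Q := by
      intro Q
      induction Q using MvPolynomial.induction_on with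
      | C a =>
        rw [MvPolynomial.aeval_C]
        simp only [MvPolynomial.finSuccEquiv_apply, MvPolynomial.eval₂Hom_C]
        simp [hφ]
      | add p q hp hq =>
        rw [map_add, Polynomial.map_add, map_add, hp, hq, map_add]
      | mul_X p i hp =>
        rw [map_mul, Polynomial.map_mul, map_mul, hp, map_mul]
        congr 1
        fin_cases i
        · simp [MvPolynomial.finSuccEquiv_X_zero]
        · have : MvPolynomial.finSuccEquiv ℂ 1 (MvPolynomial.X 1) =
              Polynomial.C (MvPolynomial.X 0) := MvPolynomial.finSuccEquiv_X_succ (n := 1) (j := 0)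
          simp [this, hφ]
          rfl
    rw [h2, h0]

theorem swap_rel {K : Type*} [Field K] [Algebra ℂ K] (x y : K) (R : MvPolynomial (Fin 2) ℂ)
    (hR : R ≠ 0) (h0 : MvPolynomial.aeval ![x, y] R = 0) :
    ∃ R' : MvPolynomial (Fin 2) ℂ, R' ≠ 0 ∧ MvPolynomial.aeval ![y, x] R' = 0 := by
  refine ⟨MvPolynomial.rename (Equiv.swap (0 : Fin 2) 1) R, ?_, ?_⟩
  · intro h
    exact hR ((map_eq_zero_iff _
      (MvPolynomial.rename_injective _ (Equiv.swap (0 : Fin 2) 1).injective)).mp h)
  · rw [MvPolynomial.aeval_rename, ← h0]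
    congr 2
    ext i
    fin_cases i <;> simp

/-- Two elements algebraic over `ℂ(T)` satisfy an algebraic relation over `ℂ`. -/
theorem rel_of_alg {K : Type*} [Field K] [Algebra ℂ K] (T x y : K)
    (hx : IsAlgebraic (IntermediateField.adjoin ℂ {T}) x)
    (hy : IsAlgebraic (IntermediateField.adjoin ℂ {T}) y) :
    ∃ R : MvPolynomial (Fin 2) ℂ, R ≠ 0 ∧ MvPolynomial.aeval ![x, y] R = 0 := by
  by_contra hno
  push Not at hno
  have hind : AlgebraicIndependent ℂ ![x, y] := by
    rw [algebraicIndependent_iff]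
    intro p hp
    by_contra hne
    exact hno p hne hp
  have hrange : Set.range ![x, y] = {x, y} := by
    ext z
    constructor
    · rintro ⟨i, rfl⟩
      fin_cases i <;> simp
    · rintro (h | h)
      · exact ⟨0, h.symm⟩
      · exact ⟨1, h.symm⟩
  have h1 : (AlgebraicIndependent.matroid ℂ K).Indep {x, y} := by
    rw [AlgebraicIndependent.matroid_indep_iff, ← hrange]
    exact (algebraicIndependent_subtype_range hind.injective).mpr hind
  have h2 : ({x, y} : Set K) ⊆ (AlgebraicIndependent.matroid ℂ K).closure {T} := by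
    rw [AlgebraicIndependent.matroid_closure_eq]
    intro z hz
    rw [SetLike.mem_coe, Subalgebra.mem_algebraicClosure,
      ← IntermediateField.isAlgebraic_adjoin_iff]
    rcases hz with rfl | hz
    · exact hx
    · rw [Set.mem_singleton_iff.mp hz]
      exact hy
  have h3 := h1.encard_le_eRk_of_subset h2
  rw [Matroid.eRk_closure_eq] at h3
  have h4 := h3.trans (Matroid.eRk_le_encard _ _)
  have hne : x ≠ y := by
    intro h
    have := hind.injective (a₁ := 0) (a₂ := 1) (by simpa using h)
    exact absurd this (by decide)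
  rw [Set.encard_pair hne, Set.encard_singleton] at h4
  exact absurd h4 (by decide)

end Pool.Agent.HF.AC

namespace Pool.Agent.HF

open Pool.Agent.L3 Pool.Agent.RS Module

open AC in
theorem exists_algcl (MM : Type) [Field MM] [Algebra ℂ MM] (D0 : Derivation ℂ MM MM) (T : MM)
    (hT : D0 T ≠ 0) : ∃ (K : IntermediateField ℂ MM) (D : Derivation ℂ K K),
      (∀ x : K, (D x : MM) = D0 (x : MM) / D0 T) ∧ (∃ x, D x ≠ 0) ∧
      (∀ x y : K, ∃ R : MvPolynomial (Fin 2) ℂ, R ≠ 0 ∧ MvPolynomial.aeval ![x, y] R = 0) ∧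
      T ∈ K ∧ ∀ x y : MM, x ∈ K → (¬ ∃ c : ℂ, x = algebraMap ℂ MM c) →
        (∃ R : MvPolynomial (Fin 2) ℂ, R ≠ 0 ∧ MvPolynomial.aeval ![x, y] R = 0) → y ∈ K := by
  set F := IntermediateField.adjoin ℂ {T} with hF
  have hTF : T ∈ F := IntermediateField.mem_adjoin_simple_self ℂ T
  set K0 := algebraicClosure F MM with hK0
  set K : IntermediateField ℂ MM := K0.restrictScalars ℂ with hK
  have hmem : ∀ x : MM, x ∈ K ↔ IsAlgebraic F x := fun x => mem_algebraicClosure_iff
  set D' : Derivation ℂ MM MM := (D0 T)⁻¹ • D0 with hD'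
  have hD'a : ∀ x, D' x = (D0 T)⁻¹ * D0 x := fun x => rfl
  have hDT : D' T = 1 := by rw [hD'a, inv_mul_cancel₀ hT]
  have hpF : ∀ p : Polynomial ℂ, Polynomial.aeval T p ∈ F := by
    intro p
    have := Polynomial.aeval_algHom_apply F.val ⟨T, hTF⟩ p
    have h5 : F.val ⟨T, hTF⟩ = T := rfl
    rw [h5] at this
    rw [this]
    exact SetLike.coe_mem _
  have hFs : ∀ a : F, D' (a : MM) ∈ F := by
    intro a
    obtain ⟨r, s, hrs⟩ := IntermediateField.mem_adjoin_simple_iff ℂ (a : MM) |>.mp a.2
    rw [hrs, Derivation.leibniz_div, Derivation.map_aeval, Derivation.map_aeval, hDT]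
    simp only [smul_eq_mul, mul_one]
    exact mul_mem (pow_mem (inv_mem (hpF s)) 2) (sub_mem (mul_mem (hpF s) (hpF _))
      (mul_mem (hpF r) (hpF _)))
  have hKs : ∀ x : MM, x ∈ K → D' x ∈ K := fun x hx =>
    Ros.D_mem D' F hFs K0 x hx ((hmem x).mp hx)
  have hTK : T ∈ K := (hmem T).mpr (isAlgebraic_algebraMap (⟨T, hTF⟩ : F))
  set L : K →ₗ[ℂ] K := (D'.toLinearMap.comp K.val.toLinearMap).codRestrict
    (Subalgebra.toSubmodule K.toSubalgebra) (fun x => hKs x x.2) with hL
  have hLa : ∀ x : K, ((L x : K) : MM) = D' (x : MM) := fun x => rfl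
  set D : Derivation ℂ K K := Derivation.mk' L (by
    intro a b
    apply Subtype.ext
    rw [hLa]
    change D' ((a : MM) * (b : MM)) = _
    rw [Derivation.leibniz]
    rfl) with hD
  have hDa : ∀ x : K, ((D x : K) : MM) = D' (x : MM) := fun x => rfl
  refine ⟨K, D, ?_, ⟨⟨T, hTK⟩, ?_⟩, ?_, hTK, ?_⟩
  · intro x
    rw [hDa, hD'a, div_eq_inv_mul]
  · intro h
    have h1 := congrArg Subtype.val h
    rw [hDa] at h1
    change D' T = 0 at h1
    rw [hDT] at h1
    exact one_ne_zero h1
  · intro x y
    obtain ⟨R, hR, h0⟩ := rel_of_alg T (x : MM) (y : MM) ((hmem _).mp x.2) ((hmem _).mp y.2)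
    refine ⟨R, hR, ?_⟩
    apply Subtype.ext
    have h1 := MvPolynomial.comp_aeval_apply K.val (f := ![x, y]) R
    have h2 : (fun i => K.val (![x, y] i)) = ![(x : MM), (y : MM)] := by
      ext i
      fin_cases i <;> rfl
    rw [h2, h0] at h1
    exact h1
  · rintro x y hx hc ⟨R, hR, h0⟩
    have hxt : Transcendental ℂ x := by
      intro ha
      exact hc (Ros.alg_const x ha)
    obtain ⟨R', hR', h0'⟩ := swap_rel x y R hR h0
    have h1 : IsAlgebraic (IntermediateField.adjoin ℂ {x}) y := alg_of_rel x hxt y R' hR' h0'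
    have h2 : IntermediateField.adjoin ℂ {x} ≤ K := by
      rw [IntermediateField.adjoin_simple_le_iff]
      exact hx
    have h3 : IsAlgebraic K y := by
      obtain ⟨p, hp, hp0⟩ := h1
      refine ⟨p.map (IntermediateField.inclusion h2).toRingHom, ?_, ?_⟩
      · intro h
        exact hp ((Polynomial.map_eq_zero_iff
          (f := (IntermediateField.inclusion h2).toRingHom)
          (IntermediateField.inclusion h2).injective).mp h)
      · rw [Polynomial.aeval_def, Polynomial.eval₂_map]
        rw [Polynomial.aeval_def] at hp0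
        exact hp0
    have h4 : IsAlgebraic K0 y := h3
    have h5 : Algebra.IsAlgebraic F K0 := algebraicClosure.isAlgebraic F MM
    have h6 : IsAlgebraic F y := h4.restrictScalars F
    exact (hmem y).mpr h6

end Pool.Agent.HF
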