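import Mathlib
import Pool.Agent.Lib.MP_c95b3b_ag_HF.Defs

/-! Project HF (MP_c95b3b_ag), module BZ: two plane curves. -/

namespace Pool.Agent.HF

open Pool.Agent.L3 Pool.Agent.RS Module

namespace BZ

open Polynomial

theorem degreeOf_C {F : Type} [Field F] (c : Polynomial F) :
    (Polynomial.Bivariate.equivMvPolynomial F (Polynomial.C c)).degreeOf 1 = 0 := by
  induction c using Polynomial.induction_on' with
  | add p q hp hq =>
    rw [Polynomial.C_add, map_add]
    have h := MvPolynomial.degreeOf_add_le (1 : Fin 2)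
      (Polynomial.Bivariate.equivMvPolynomial F (Polynomial.C p))
      (Polynomial.Bivariate.equivMvPolynomial F (Polynomial.C q))
    rw [hp, hq] at h
    simpa using h
  | monomial n a =>
    have h1 : Polynomial.Bivariate.equivMvPolynomial F (Polynomial.C (Polynomial.monomial n a)) =
        MvPolynomial.C a * MvPolynomial.X 0 ^ n := by
      rw [← Polynomial.C_mul_X_pow_eq_monomial, Polynomial.C_mul, Polynomial.C_pow, map_mul,
        map_pow, Polynomial.Bivariate.equivMvPolynomial_C_C,
        Polynomial.Bivariate.equivMvPolynomial_C_X]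
    rw [h1]
    have h2 := MvPolynomial.degreeOf_C_mul_le (MvPolynomial.X 0 ^ n : MvPolynomial (Fin 2) F) 1 a
    have h3 := MvPolynomial.degreeOf_pow_le (1 : Fin 2) (MvPolynomial.X 0 : MvPolynomial (Fin 2) F) n
    have h4 : (MvPolynomial.X 0 : MvPolynomial (Fin 2) F).degreeOf 1 = 0 := by
      rw [MvPolynomial.degreeOf_X]
      simp
    rw [h4, mul_zero] at h3
    omega

/-- coprimality with the variable `t` only in the denominators -/
theorem exists_comb {R : Type} [CommRing R] [IsDomain R] [IsGCDMonoid R]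
    (p q : Polynomial R) (hp : Irreducible p) (hd : p.natDegree ≠ 0) (hq : ¬ p ∣ q) :
    ∃ w : R, w ≠ 0 ∧ ∃ A B : Polynomial R, Polynomial.C w = A * p + B * q := by
  classical
  have hprim : p.IsPrimitive := hp.isPrimitive hd
  let K := FractionRing R
  have hirr : Irreducible (p.map (algebraMap R K)) :=
    (hprim.irreducible_iff_irreducible_map_fraction_map).1 hp
  have hndvd : ¬ p.map (algebraMap R K) ∣ q.map (algebraMap R K) := fun h =>
    hq (hprim.dvd_of_fraction_map_dvd_fraction_map h)
  obtain ⟨a, b, hab⟩ := (Irreducible.coprime_iff_not_dvd hirr).2 hndvd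
  obtain ⟨c, c0, hc⟩ := IsLocalization.integerNormalization_spec (nonZeroDivisors R) a
  obtain ⟨d, d0, hd⟩ := IsLocalization.integerNormalization_spec (nonZeroDivisors R) b
  rw [Algebra.smul_def, Polynomial.algebraMap_apply] at hc hd
  rw [mem_nonZeroDivisors_iff_ne_zero] at c0 d0
  refine ⟨c * d, mul_ne_zero c0 d0,
    Polynomial.C d * IsLocalization.integerNormalization (nonZeroDivisors R) a,
    Polynomial.C c * IsLocalization.integerNormalization (nonZeroDivisors R) b, ?_⟩
  apply Polynomial.map_injective (algebraMap R K) (IsFractionRing.injective _ _)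
  simp only [Polynomial.map_add, Polynomial.map_mul, Polynomial.map_C, hc, hd, map_mul]
  linear_combination (-(Polynomial.C ((algebraMap R K) c) * Polynomial.C ((algebraMap R K) d))) * hab

end BZ

theorem bezout {F : Type} [Field F] (P Q : P2 F) (hP : Irreducible P) (h1 : P.degreeOf 1 ≠ 0)
    (hQ : ¬ P ∣ Q) : ∃ w : Polynomial F, w ≠ 0 ∧
      ∀ (K : Type) [Field K] (φ : F →+* K) (p : Fin 2 → K), MvPolynomial.eval₂ φ p P = 0 →
        MvPolynomial.eval₂ φ p Q = 0 → Polynomial.eval₂ φ (p 0) w = 0 := by
  let e := Polynomial.Bivariate.equivMvPolynomial F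
  have hpi : Irreducible (e.symm P) := (MulEquiv.irreducible_iff e.symm).2 hP
  have hdeg : (e.symm P).natDegree ≠ 0 := by
    intro h
    obtain ⟨c, hc⟩ := Polynomial.natDegree_eq_zero.1 h
    apply h1
    rw [← e.apply_symm_apply P, ← hc]
    exact BZ.degreeOf_C c
  have hnd : ¬ e.symm P ∣ e.symm Q := fun h => hQ ((map_dvd_iff e.symm).1 h)
  obtain ⟨w, hw, A, B, hAB⟩ := BZ.exists_comb (e.symm P) (e.symm Q) hpi hdeg hnd
  refine ⟨w, hw, fun K _ φ p hp hq => ?_⟩
  have h2 : e (Polynomial.C w) = e A * P + e B * Q := by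
    rw [hAB, map_add, map_mul, map_mul, e.apply_symm_apply, e.apply_symm_apply]
  have h3 : ((MvPolynomial.eval₂Hom φ p).comp ((e : _ →+* MvPolynomial (Fin 2) F).comp
      Polynomial.C)) = Polynomial.eval₂RingHom φ (p 0) := by
    apply Polynomial.ringHom_ext
    · intro a
      simp [e]
    · simp [e]
  have h4 := congrArg (MvPolynomial.eval₂Hom φ p) h2
  have h5 := RingHom.congr_fun h3 w
  simp only [RingHom.comp_apply, Polynomial.coe_eval₂RingHom] at h5
  rw [← h5]
  refine (Eq.trans ?_ h4).trans ?_
  · rfl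
  · simp [hp, hq]

end Pool.Agent.HF
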