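import Mathlib
import Pool.Agent.Lib.MP_c95b3b_ag_HF.Defs
import Pool.Agent.Lib.MP_c95b3b_ag_HF.Bezout
import Pool.Agent.Lib.MP_c95b3b_ag_HF.Generic
import Pool.Agent.Lib.MP_c95b3b_ag_RS.Height

/-! Project HF (MP_c95b3b_ag), module HA: heights of algebraic functions. -/

namespace Pool.Agent.HF

open Pool.Agent.L3 Pool.Agent.RS Module

namespace HA

section places
variable {K : Type} [Field K] {R : Subring K} (W : Places K R)

/-- positive parts of a sum -/
theorem pos_add (w : W.Pl) (x y : K) :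
    max 0 (W.lg w (x + y)) ≤ max 0 (W.lg w x) + max 0 (W.lg w y) + Real.log 2 * W.arch w := by
  have h2 : 0 ≤ Real.log 2 * W.arch w :=
    mul_nonneg (Real.log_pos (by norm_num)).le (W.arch_nonneg w)
  have h3 : 0 ≤ max 0 (W.lg w x) := le_max_left _ _
  have h4 : 0 ≤ max 0 (W.lg w y) := le_max_left _ _
  rcases eq_or_ne x 0 with hx | hx
  · rw [hx, zero_add]
    rw [hx] at h3
    linarith
  rcases eq_or_ne y 0 with hy | hy
  · rw [hy, add_zero]
    rw [hy] at h4
    linarith
  rcases eq_or_ne (x + y) 0 with h | h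
  · rw [h, W.lg_zero, max_self]
    linarith
  have h1 := Height.tri W w hx hy h
  have h5 : W.lg w x ≤ max 0 (W.lg w x) := le_max_right _ _
  have h6 : W.lg w y ≤ max 0 (W.lg w y) := le_max_right _ _
  have h7 : max (W.lg w x) (W.lg w y) ≤ max 0 (W.lg w x) + max 0 (W.lg w y) :=
    max_le (by linarith) (by linarith)
  exact max_le (by linarith) (by linarith)

/-- positive parts of a finite sum -/
theorem pos_sum (w : W.Pl) {ι : Type} (s : Finset ι) (f : ι → K) :
    max 0 (W.lg w (∑ i ∈ s, f i)) ≤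
      ∑ i ∈ s, max 0 (W.lg w (f i)) + (s.card : ℝ) * (Real.log 2 * W.arch w) := by
  classical
  induction s using Finset.induction_on with
  | empty => simp [W.lg_zero]
  | insert a s ha ih =>
    rw [Finset.sum_insert ha, Finset.sum_insert ha, Finset.card_insert_of_notMem ha]
    have h1 := pos_add W w (f a) (∑ i ∈ s, f i)
    push_cast
    linarith

/-- a root of a polynomial is bounded by the coefficients -/
theorem root_le (w : W.Pl) (n : ℕ) (a : ℕ → K) (h : K) (hn : a (n + 1) ≠ 0) (h0 : h ≠ 0)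
    (hrel : ∑ j ∈ Finset.range (n + 2), a j * h ^ j = 0) :
    W.lg w h ≤ ∑ j ∈ Finset.range (n + 1), max 0 (W.lg w (a j)) + max 0 (-W.lg w (a (n + 1))) +
      (n + 1 : ℝ) * (Real.log 2 * W.arch w) := by
  have h2 : 0 ≤ Real.log 2 * W.arch w :=
    mul_nonneg (Real.log_pos (by norm_num)).le (W.arch_nonneg w)
  have h3 : 0 ≤ ∑ j ∈ Finset.range (n + 1), max 0 (W.lg w (a j)) :=
    Finset.sum_nonneg fun j _ => le_max_left _ _
  have h4 : 0 ≤ max 0 (-W.lg w (a (n + 1))) := le_max_left _ _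
  have h5 : (0 : ℝ) ≤ (n + 1 : ℝ) * (Real.log 2 * W.arch w) := mul_nonneg (by positivity) h2
  rcases le_total (W.lg w h) 0 with hl | hl
  · linarith
  have key : a (n + 1) * h = ∑ j ∈ Finset.range (n + 1), -(a j * (h⁻¹) ^ (n - j)) := by
    rw [Finset.sum_range_succ] at hrel
    have e1 : a (n + 1) * h ^ (n + 1) = -∑ j ∈ Finset.range (n + 1), a j * h ^ j := by
      linear_combination hrel
    have e2 : a (n + 1) * h = (a (n + 1) * h ^ (n + 1)) * (h⁻¹) ^ n := by
      rw [pow_succ, inv_pow]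
      field_simp
    rw [e2, e1, neg_mul, Finset.sum_mul, Finset.sum_neg_distrib]
    congr 1
    refine Finset.sum_congr rfl fun j hj => ?_
    have hj' : j ≤ n := Nat.lt_succ_iff.mp (Finset.mem_range.mp hj)
    obtain ⟨k, rfl⟩ := Nat.exists_eq_add_of_le hj'
    rw [Nat.add_sub_cancel_left, pow_add, inv_pow, inv_pow]
    field_simp
  have h6 := pos_sum W w (Finset.range (n + 1)) (fun j => -(a j * (h⁻¹) ^ (n - j)))
  rw [← key, Finset.card_range] at h6
  have h7 : ∀ j ∈ Finset.range (n + 1), max 0 (W.lg w (-(a j * (h⁻¹) ^ (n - j)))) ≤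
      max 0 (W.lg w (a j)) := by
    intro j _
    rw [W.lg_neg]
    rcases eq_or_ne (a j) 0 with ha | ha
    · rw [ha, zero_mul]
    · rw [W.lg_mul w ha (pow_ne_zero _ (inv_ne_zero h0)), W.lg_pow, W.lg_inv]
      refine max_le_max le_rfl ?_
      have h8 : 0 ≤ ((n - j : ℕ) : ℝ) * W.lg w h := mul_nonneg (Nat.cast_nonneg _) hl
      linarith
  have h8 := Finset.sum_le_sum h7
  have h9 : W.lg w (a (n + 1) * h) ≤ max 0 (W.lg w (a (n + 1) * h)) := le_max_right _ _
  rw [W.lg_mul w hn h0] at h9 h6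
  have h10 : -W.lg w (a (n + 1)) ≤ max 0 (-W.lg w (a (n + 1))) := le_max_right _ _
  push_cast at h6
  linarith

/-- negative parts -/
theorem avg_neg_le {y : K} (hy : y ∈ R) (h0 : y ≠ 0) :
    W.avg (fun w => max 0 (-W.lg w y)) ≤ W.avg (fun w => max 0 (W.lg w y)) := by
  have h1 := W.avg_lg_nonneg hy h0
  have h2 : ∀ w, max 0 (-W.lg w y) = max 0 (W.lg w y) - W.lg w y := by
    intro w
    rcases le_total 0 (W.lg w y) with h | h
    · rw [max_eq_left (by linarith), max_eq_right h]
      ring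
    · rw [max_eq_right (by linarith), max_eq_left h]
      ring
  simp only [h2]
  rw [W.avg_sub]
  linarith

end places

/-- the values of a polynomial -/
theorem poly_bound (K0 : Type) [Field K0] [NumberField K0] (s : Polynomial K0) : ∃ C : ℝ, 0 ≤ C ∧
    ∀ (K : Type) [Field K] [Algebra K0 K] (R : Subring K) (W : Places K R) (x : K),
      W.avg (fun w => max 0 (W.lg w (Polynomial.aeval x s))) ≤
        C * (1 + W.avg (fun w => |W.lg w x|)) := by
  induction s using Polynomial.induction_on' with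
  | add s t hs ht =>
    obtain ⟨C, hC, h⟩ := hs
    obtain ⟨C', hC', h'⟩ := ht
    have hl : 0 ≤ Real.log 2 := (Real.log_pos (by norm_num)).le
    refine ⟨C + C' + Real.log 2, by positivity, fun K _ _ R W x => ?_⟩
    have h1 := h K R W x
    have h2 := h' K R W x
    have h3 : W.avg (fun w => max 0 (W.lg w (Polynomial.aeval x (s + t)))) ≤
        W.avg (fun w => max 0 (W.lg w (Polynomial.aeval x s)) +
          max 0 (W.lg w (Polynomial.aeval x t)) + Real.log 2 * W.arch w) := by
      refine W.avg_mono fun w => ?_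
      rw [map_add]
      exact pos_add W w _ _
    rw [W.avg_add, W.avg_add, W.avg_const_arch] at h3
    have h4 : 0 ≤ W.avg (fun w => |W.lg w x|) := W.avg_nonneg fun w => abs_nonneg _
    nlinarith
  | monomial n c =>
    obtain ⟨C, hC⟩ := const_avg K0 c
    refine ⟨|C| + n, by positivity, fun K _ _ R W x => ?_⟩
    have h1 := hC K R W
    have h4 : 0 ≤ W.avg (fun w => |W.lg w x|) := W.avg_nonneg fun w => abs_nonneg _
    have h3 : W.avg (fun w => max 0 (W.lg w (Polynomial.aeval x (Polynomial.monomial n c)))) ≤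
        W.avg (fun w => |W.lg w (algebraMap K0 K c)| + (n : ℝ) * |W.lg w x|) := by
      refine W.avg_mono fun w => ?_
      rw [Polynomial.aeval_monomial]
      have h5 : 0 ≤ |W.lg w (algebraMap K0 K c)| := abs_nonneg _
      have h6 : 0 ≤ (n : ℝ) * |W.lg w x| := by positivity
      refine max_le (by linarith) ?_
      rcases eq_or_ne (algebraMap K0 K c) 0 with hc | hc
      · rw [hc, zero_mul]
        rw [hc] at h5
        have := le_abs_self (W.lg w (0 : K))
        linarith
      rcases eq_or_ne (x ^ n) 0 with hx | hx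
      · rw [hx, mul_zero, W.lg_zero]
        linarith
      · rw [W.lg_mul w hc hx, W.lg_pow]
        have h7 := le_abs_self (W.lg w (algebraMap K0 K c))
        have h8 : (n : ℝ) * W.lg w x ≤ (n : ℝ) * |W.lg w x| :=
          mul_le_mul_of_nonneg_left (le_abs_self _) (Nat.cast_nonneg _)
        linarith
    rw [W.avg_add, W.avg_mul] at h3
    have h9 := le_abs_self C
    have h10 : 0 ≤ |C| * W.avg (fun w => |W.lg w x|) := mul_nonneg (abs_nonneg _) h4
    have h11 : (0 : ℝ) ≤ n := Nat.cast_nonneg _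
    nlinarith

section transfer
variable {K0 : Type} [Field K0]

/-- homogenisation -/
noncomputable def hom (A B : P2 K0) (I : ℕ) (s : Polynomial K0) : P2 K0 :=
  ∑ i ∈ Finset.range (I + 1), MvPolynomial.C (s.coeff i) * A ^ i * B ^ (I - i)

theorem aeval_hom (A B : P2 K0) (I : ℕ) (s : Polynomial K0) (hs : s.natDegree ≤ I)
    {K : Type} [Field K] [Algebra K0 K] (p : Fin 2 → K) (hB : MvPolynomial.aeval p B ≠ 0) :
    MvPolynomial.aeval p (hom A B I s) = MvPolynomial.aeval p B ^ I *
      Polynomial.aeval (MvPolynomial.aeval p A / MvPolynomial.aeval p B) s := by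
  rw [hom, Polynomial.aeval_eq_sum_range' (Nat.lt_succ_of_le hs), map_sum, Finset.mul_sum]
  refine Finset.sum_congr rfl fun i hi => ?_
  have hi' : i ≤ I := Nat.lt_succ_iff.mp (Finset.mem_range.mp hi)
  obtain ⟨k, hk⟩ := Nat.exists_eq_add_of_le hi'
  rw [hk, Nat.add_sub_cancel_left, map_mul, map_mul, map_pow, map_pow, MvPolynomial.aeval_C,
    Algebra.smul_def, div_pow, pow_add]
  field_simp

theorem exists_clear (A B H : P2 K0) (S : Polynomial (Polynomial K0)) :
    ∃ Q : P2 K0, ∀ (K : Type) [Field K] [Algebra K0 K] (p : Fin 2 → K),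
      MvPolynomial.aeval p B ≠ 0 → (MvPolynomial.aeval p Q = 0 ↔
        ∑ j ∈ Finset.range (S.natDegree + 1),
          Polynomial.aeval (MvPolynomial.aeval p A / MvPolynomial.aeval p B) (S.coeff j) *
            MvPolynomial.aeval p H ^ j = 0) := by
  set I := (Finset.range (S.natDegree + 1)).sup (fun j => (S.coeff j).natDegree) with hI
  refine ⟨∑ j ∈ Finset.range (S.natDegree + 1), hom A B I (S.coeff j) * H ^ j,
    fun K _ _ p hB => ?_⟩
  have h1 : MvPolynomial.aeval p (∑ j ∈ Finset.range (S.natDegree + 1),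
      hom A B I (S.coeff j) * H ^ j) = MvPolynomial.aeval p B ^ I *
      ∑ j ∈ Finset.range (S.natDegree + 1),
          Polynomial.aeval (MvPolynomial.aeval p A / MvPolynomial.aeval p B) (S.coeff j) *
            MvPolynomial.aeval p H ^ j := by
    rw [map_sum, Finset.mul_sum]
    refine Finset.sum_congr rfl fun j hj => ?_
    rw [map_mul, map_pow, aeval_hom A B I _ (Finset.le_sup (f := fun j => (S.coeff j).natDegree) hj) p hB]
    ring
  rw [h1]
  constructor
  · intro h
    exact (mul_eq_zero.mp h).resolve_left (pow_ne_zero _ hB)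
  · intro h
    rw [h, mul_zero]

/-- polynomials in two variables as polynomials in the second variable -/
theorem exists_poly2 (R : P2 K0) (hR : R ≠ 0) : ∃ S : Polynomial (Polynomial K0), S ≠ 0 ∧
    ∀ (K : Type) [Field K] [Algebra K0 K] (x y : K),
      Polynomial.eval₂ (Polynomial.aeval x : Polynomial K0 →ₐ[K0] K).toRingHom y S =
        MvPolynomial.aeval ![x, y] R := by
  set ψ : P2 K0 →+* Polynomial (Polynomial K0) :=
    MvPolynomial.eval₂Hom (Polynomial.C.comp Polynomial.C)
      ![Polynomial.C Polynomial.X, Polynomial.X] with hψ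
  set ι : Polynomial (Polynomial K0) →+* P2 K0 :=
    Polynomial.eval₂RingHom (Polynomial.eval₂RingHom MvPolynomial.C (MvPolynomial.X 0))
      (MvPolynomial.X 1) with hι
  have h1 : ι.comp ψ = RingHom.id _ := by
    refine MvPolynomial.ringHom_ext ?_ ?_
    · intro r
      simp [hψ, hι]
    · intro i
      fin_cases i
      · simp [hψ, hι]
      · simp [hψ, hι]
  refine ⟨ψ R, ?_, ?_⟩
  · intro h
    apply hR
    have h2 := congrArg (fun f => f R) h1
    simp only [RingHom.comp_apply, RingHom.id_apply] at h2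
    rw [← h2, h, map_zero]
  · intro K _ _ x y
    have h2 : (Polynomial.eval₂RingHom (Polynomial.aeval x : Polynomial K0 →ₐ[K0] K).toRingHom y).comp ψ
        = (MvPolynomial.aeval ![x, y] : P2 K0 →ₐ[K0] K).toRingHom := by
      refine MvPolynomial.ringHom_ext ?_ ?_
      · intro r
        simp [hψ]
      · intro i
        fin_cases i
        · simp [hψ]
        · simp [hψ]
    have h3 := congrArg (fun f => f R) h2
    simpa using h3

end transfer

/-- minimal relation -/
theorem exists_min {K0 : Type} [Field K0] {L : Type} [Field L] [Algebra K0 L] (x y : L)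
    (hx : Transcendental K0 x) (hy : y ≠ 0) (S0 : Polynomial (Polynomial K0)) (h0 : S0 ≠ 0)
    (h1 : Polynomial.eval₂ (Polynomial.aeval x : Polynomial K0 →ₐ[K0] L).toRingHom y S0 = 0) :
    ∃ S : Polynomial (Polynomial K0), S.natDegree ≠ 0 ∧ S.coeff 0 ≠ 0 ∧
      Polynomial.eval₂ (Polynomial.aeval x : Polynomial K0 →ₐ[K0] L).toRingHom y S = 0 := by
  classical
  have hex : ∃ n : ℕ, ∃ S : Polynomial (Polynomial K0), S ≠ 0 ∧ S.natDegree = n ∧
      Polynomial.eval₂ (Polynomial.aeval x : Polynomial K0 →ₐ[K0] L).toRingHom y S = 0 :=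
    ⟨_, S0, h0, rfl, h1⟩
  obtain ⟨S, hS0, hSn, hS⟩ := Nat.find_spec hex
  have hmin := fun m (hm : m < Nat.find hex) => Nat.find_min hex hm
  have hdeg : S.natDegree ≠ 0 := by
    intro hd
    rw [Polynomial.eq_C_of_natDegree_eq_zero hd] at hS hS0
    rw [Polynomial.eval₂_C] at hS
    have hc : S.coeff 0 ≠ 0 := by
      intro hc
      apply hS0
      rw [hc, Polynomial.C_0]
    exact hx ⟨S.coeff 0, hc, hS⟩
  refine ⟨S, hdeg, ?_, hS⟩
  intro hc
  have e1 : S.divX * Polynomial.X = S := by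
    have := Polynomial.divX_mul_X_add S
    rwa [hc, Polynomial.C_0, add_zero] at this
  have e2 : S.divX ≠ 0 := by
    intro h
    apply hS0
    rw [← e1, h, zero_mul]
  have e3 : Polynomial.eval₂ (Polynomial.aeval x : Polynomial K0 →ₐ[K0] L).toRingHom y S.divX = 0 := by
    rw [← e1, Polynomial.eval₂_mul_X] at hS
    exact (mul_eq_zero.mp hS).resolve_right hy
  refine hmin (S.divX.natDegree) ?_ ⟨S.divX, e2, rfl, e3⟩
  rw [← hSn, Polynomial.natDegree_divX_eq_natDegree_tsub_one]
  omega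

end HA

theorem alg_height (K0 : Type) [Field K0] [NumberField K0] {M : ℕ} (P : P2 K0)
    (hP : Irreducible P) (h1 : P.degreeOf 1 ≠ 0) (N : Fin M → P2 K0) (hN : ∀ i, ¬ P ∣ N i)
    (L : Type) [Field L] [Algebra K0 L] (q : Fin 2 → L)
    (hq : ∀ Q : P2 K0, MvPolynomial.aeval q Q = 0 ↔ P ∣ Q) (u : Fin M → ℤ)
    (hu : Transcendental K0 (mon (fun i => MvPolynomial.aeval q (N i)) u)) (H : P2 K0)
    (hH : ¬ P ∣ H) :
    ∃ (C : ℝ) (f : Polynomial K0) (Cst : Finset K0), f ≠ 0 ∧
      ∀ (K : Type) [Field K] [Algebra K0 K] (R : Subring K) (W : Places K R) (p : Fin 2 → K),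
        (∀ c ∈ Cst, algebraMap K0 K c ∈ R) → MvPolynomial.aeval p P = 0 →
        (∀ i, MvPolynomial.aeval p (N i) ≠ 0 ∧ MvPolynomial.aeval p (N i) ∈ R ∧
          (MvPolynomial.aeval p (N i))⁻¹ ∈ R) →
        Polynomial.aeval (p 0) f ≠ 0 →
        W.avg (fun v => |W.lg v (MvPolynomial.aeval p H)|) ≤
          C * (1 + W.avg (fun v => |W.lg v (mon (fun i => MvPolynomial.aeval p (N i)) u)|)) := by
  classical
  -- numerator and denominator of the monomial
  set A : P2 K0 := ∏ i, N i ^ (u i).toNat with hA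
  set B : P2 K0 := ∏ i, N i ^ (-u i).toNat with hB
  have hBne : ∀ (K : Type) [Field K] [Algebra K0 K] (p : Fin 2 → K),
      (∀ i, MvPolynomial.aeval p (N i) ≠ 0) → MvPolynomial.aeval p B ≠ 0 := by
    intro K _ _ p hp
    rw [hB, map_prod]
    refine Finset.prod_ne_zero_iff.mpr fun i _ => ?_
    rw [map_pow]
    exact pow_ne_zero _ (hp i)
  have hmon : ∀ (K : Type) [Field K] [Algebra K0 K] (p : Fin 2 → K),
      (∀ i, MvPolynomial.aeval p (N i) ≠ 0) →
      mon (fun i => MvPolynomial.aeval p (N i)) u =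
        MvPolynomial.aeval p A / MvPolynomial.aeval p B := by
    intro K _ _ p hp
    rw [hA, hB, map_prod, map_prod, ← Finset.prod_div_distrib, mon]
    refine Finset.prod_congr rfl fun i _ => ?_
    rw [map_pow, map_pow, ← zpow_natCast, ← zpow_natCast, ← zpow_sub₀ (hp i),
      Int.toNat_sub_toNat_neg]
  have hqP : MvPolynomial.aeval q P = 0 := (hq P).mpr dvd_rfl
  have hqN : ∀ i, MvPolynomial.aeval q (N i) ≠ 0 := fun i h => hN i ((hq _).mp h)
  -- a generated generic point
  obtain ⟨L', _, _, q', hq', hL'⟩ := exists_gen P hP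
  have hqP' : MvPolynomial.aeval q' P = 0 := (hq' P).mpr dvd_rfl
  have hqN' : ∀ i, MvPolynomial.aeval q' (N i) ≠ 0 := fun i h => hN i ((hq' _).mp h)
  have hqH' : MvPolynomial.aeval q' H ≠ 0 := fun h => hH ((hq' _).mp h)
  -- one variable polynomials which vanish at U
  have htr : ∀ s : Polynomial K0, s ≠ 0 → ¬ P ∣ HA.hom A B s.natDegree s := by
    intro s hs hdvd
    have e1 := (hq _).mpr hdvd
    rw [HA.aeval_hom A B _ s le_rfl q (hBne L q hqN), ← hmon L q hqN] at e1
    have e2 := (mul_eq_zero.mp e1).resolve_left (pow_ne_zero _ (hBne L q hqN))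
    exact hu ⟨s, hs, e2⟩
  have hU' : Transcendental K0 (mon (fun i => MvPolynomial.aeval q' (N i)) u) := by
    rintro ⟨s, hs, hs0⟩
    refine htr s hs ((hq' _).mp ?_)
    rw [HA.aeval_hom A B _ s le_rfl q' (hBne L' q' hqN'), ← hmon L' q' hqN', hs0, mul_zero]
  obtain ⟨R0, hR0, hR0'⟩ := alg_dep P hP L' q' hq' hL'
    (mon (fun i => MvPolynomial.aeval q' (N i)) u) (MvPolynomial.aeval q' H)
  obtain ⟨S0, hS0, hS0'⟩ := HA.exists_poly2 R0 hR0
  obtain ⟨S, hSn, hSc, hS⟩ := HA.exists_min _ _ hU' hqH' S0 hS0 (by rw [hS0', hR0'])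
  obtain ⟨n, hn⟩ : ∃ n, S.natDegree = n + 1 := Nat.exists_eq_succ_of_ne_zero hSn
  have hStop : S.coeff (n + 1) ≠ 0 := by
    have : S ≠ 0 := by
      intro h
      rw [h] at hSc
      exact hSc (Polynomial.coeff_zero _)
    rw [← hn]
    exact Polynomial.leadingCoeff_ne_zero.mpr this
  obtain ⟨Q, hQ⟩ := HA.exists_clear A B H S
  have hPQ : P ∣ Q := by
    rw [← hq', hQ L' q' (hBne L' q' hqN')]
    rw [Polynomial.eval₂_eq_sum_range] at hS
    rw [← hmon L' q' hqN']
    exact hS
  -- exceptional polynomials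
  obtain ⟨w1, hw1, hw1'⟩ := bezout P _ hP h1 (htr _ hStop)
  obtain ⟨w0, hw0, hw0'⟩ := bezout P _ hP h1 (htr _ hSc)
  -- the constants
  choose Cb hCb hCb' using fun j : ℕ => HA.poly_bound K0 (S.coeff j)
  set Ct : ℝ := ∑ j ∈ Finset.range (n + 2), Cb j with hCt
  have hl : 0 ≤ Real.log 2 := (Real.log_pos (by norm_num)).le
  refine ⟨4 * Ct + 2 * (n + 1) * Real.log 2, w1 * w0,
    (Finset.range (n + 2)).biUnion (fun j => (S.coeff j).coeffs), mul_ne_zero hw1 hw0, ?_⟩
  intro K _ _ R W p hCst hpP hpN hf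
  have hpN0 : ∀ i, MvPolynomial.aeval p (N i) ≠ 0 := fun i => (hpN i).1
  set U := mon (fun i => MvPolynomial.aeval p (N i)) u with hU
  set h := MvPolynomial.aeval p H with hh
  have hUR : U ∈ R := mon_mem (fun i => (hpN i).2) u
  have hUeq : U = MvPolynomial.aeval p A / MvPolynomial.aeval p B := hmon K p hpN0
  set a : ℕ → K := fun j => Polynomial.aeval U (S.coeff j) with ha
  have hrel : ∑ j ∈ Finset.range (n + 2), a j * h ^ j = 0 := by
    have e1 : MvPolynomial.aeval p Q = 0 := by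
      obtain ⟨T, hT⟩ := hPQ
      rw [hT, map_mul, hpP, zero_mul]
    rw [hQ K p (hBne K p hpN0), hn, ← hUeq] at e1
    exact e1
  rw [map_mul] at hf
  have hf1 := left_ne_zero_of_mul hf
  have hf0 := right_ne_zero_of_mul hf
  have hex : ∀ (s : Polynomial K0) (w : Polynomial K0),
      (∀ (K : Type) [Field K] (φ : K0 →+* K) (p : Fin 2 → K), MvPolynomial.eval₂ φ p P = 0 →
        MvPolynomial.eval₂ φ p (HA.hom A B s.natDegree s) = 0 → Polynomial.eval₂ φ (p 0) w = 0) →
      Polynomial.aeval (p 0) w ≠ 0 → Polynomial.aeval U s ≠ 0 := by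
    intro s w hw hne h0
    apply hne
    rw [Polynomial.aeval_def]
    refine hw K (algebraMap K0 K) p ?_ ?_
    · rw [← MvPolynomial.aeval_def]
      exact hpP
    · rw [← MvPolynomial.aeval_def, HA.aeval_hom A B _ s le_rfl p (hBne K p hpN0), ← hUeq, h0,
        mul_zero]
  have ha1 : a (n + 1) ≠ 0 := hex _ _ hw1' hf1
  have ha0 : a 0 ≠ 0 := hex _ _ hw0' hf0
  have hh0 : h ≠ 0 := by
    intro h0
    rw [Finset.sum_range_succ', h0] at hrel
    simp only [pow_succ, mul_zero, Finset.sum_const_zero, zero_add, pow_zero, mul_one] at hrel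
    exact ha0 hrel
  have hrel' : ∑ j ∈ Finset.range (n + 2), a (n + 1 - j) * (h⁻¹) ^ j = 0 := by
    have e1 : ∑ j ∈ Finset.range (n + 2), a (n + 1 - j) * (h⁻¹) ^ j =
        ∑ j ∈ Finset.range (n + 2), a j * (h⁻¹) ^ (n + 1 - j) := by
      rw [← Finset.sum_range_reflect]
      refine Finset.sum_congr rfl fun j hj => ?_
      have hj' : j ≤ n + 1 := Nat.lt_succ_iff.mp (Finset.mem_range.mp hj)
      have e2 : n + 2 - 1 - j = n + 1 - j := by omega
      have e3 : n + 1 - (n + 1 - j) = j := by omega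
      rw [e2, e3]
    have e4 : ∑ j ∈ Finset.range (n + 2), a j * (h⁻¹) ^ (n + 1 - j) =
        (h⁻¹) ^ (n + 1) * ∑ j ∈ Finset.range (n + 2), a j * h ^ j := by
      rw [Finset.mul_sum]
      refine Finset.sum_congr rfl fun j hj => ?_
      have hj' : j ≤ n + 1 := Nat.lt_succ_iff.mp (Finset.mem_range.mp hj)
      obtain ⟨k, hk⟩ := Nat.exists_eq_add_of_le hj'
      rw [hk, Nat.add_sub_cancel_left, pow_add, inv_pow, inv_pow]
      field_simp
    rw [e1, e4, hrel, mul_zero]
  -- the bound at one place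
  have hpt : ∀ w, |W.lg w h| ≤ 2 * ∑ j ∈ Finset.range (n + 2), max 0 (W.lg w (a j)) +
      (max 0 (-W.lg w (a (n + 1))) + max 0 (-W.lg w (a 0))) +
      (2 * (n + 1) * Real.log 2) * W.arch w := by
    intro w
    have g1 := HA.root_le W w n a h ha1 hh0 hrel
    have g2 := HA.root_le W w n (fun j => a (n + 1 - j)) h⁻¹
      (by simpa using ha0) (inv_ne_zero hh0) hrel'
    rw [W.lg_inv] at g2
    simp only [Nat.sub_self] at g2
    have g3 : ∑ j ∈ Finset.range (n + 1), max 0 (W.lg w (a j)) ≤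
        ∑ j ∈ Finset.range (n + 2), max 0 (W.lg w (a j)) :=
      Finset.sum_le_sum_of_subset_of_nonneg (Finset.range_subset_range.mpr (by omega))
        (fun j _ _ => le_max_left _ _)
    have g4 : ∑ j ∈ Finset.range (n + 1), max 0 (W.lg w (a (n + 1 - j))) ≤
        ∑ j ∈ Finset.range (n + 2), max 0 (W.lg w (a j)) := by
      have e1 : ∑ j ∈ Finset.range (n + 2), max 0 (W.lg w (a j)) =
          ∑ j ∈ Finset.range (n + 2), max 0 (W.lg w (a (n + 1 - j))) := by
        rw [← Finset.sum_range_reflect]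
        refine Finset.sum_congr rfl fun j _ => ?_
        have e2 : n + 2 - 1 - j = n + 1 - j := by omega
        rw [e2]
      rw [e1]
      exact Finset.sum_le_sum_of_subset_of_nonneg (Finset.range_subset_range.mpr (by omega))
        (fun j _ _ => le_max_left _ _)
    have g5 : 0 ≤ ∑ j ∈ Finset.range (n + 2), max 0 (W.lg w (a j)) :=
      Finset.sum_nonneg fun j _ => le_max_left _ _
    have g6 : 0 ≤ max 0 (-W.lg w (a (n + 1))) := le_max_left _ _
    have g7 : 0 ≤ max 0 (-W.lg w (a 0)) := le_max_left _ _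
    have g8 : 0 ≤ (n + 1 : ℝ) * (Real.log 2 * W.arch w) :=
      mul_nonneg (by positivity) (mul_nonneg hl (W.arch_nonneg w))
    rw [abs_le]
    constructor
    · nlinarith
    · nlinarith
  have haR : ∀ j ∈ Finset.range (n + 2), a j ∈ R := by
    intro j hj
    rw [ha]
    simp only
    rw [Polynomial.aeval_eq_sum_range]
    refine R.sum_mem fun i _ => ?_
    rw [Algebra.smul_def]
    refine R.mul_mem ?_ (R.pow_mem hUR i)
    rcases eq_or_ne ((S.coeff j).coeff i) 0 with hc | hc
    · rw [hc, map_zero]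
      exact R.zero_mem
    · exact hCst _ (Finset.mem_biUnion.mpr ⟨j, hj, Polynomial.coeff_mem_coeffs hc⟩)
  have hav := W.avg_mono hpt
  rw [W.avg_add, W.avg_add, W.avg_add, W.avg_mul, W.avg_const_arch, W.avg_sum] at hav
  have k1 := HA.avg_neg_le W (haR (n + 1) (Finset.mem_range.mpr (by omega))) ha1
  have k0 := HA.avg_neg_le W (haR 0 (Finset.mem_range.mpr (by omega))) ha0
  set X := 1 + W.avg (fun w => |W.lg w U|) with hX
  have hX1 : 1 ≤ X := by
    have : 0 ≤ W.avg (fun w => |W.lg w U|) := W.avg_nonneg fun w => abs_nonneg _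
    linarith
  have k2 : ∀ j, W.avg (fun w => max 0 (W.lg w (a j))) ≤ Cb j * X := fun j => hCb' j K R W U
  have k3 : ∑ j ∈ Finset.range (n + 2), W.avg (fun w => max 0 (W.lg w (a j))) ≤ Ct * X := by
    rw [hCt, Finset.sum_mul]
    exact Finset.sum_le_sum fun j _ => k2 j
  have k4 : ∀ j ∈ Finset.range (n + 2), Cb j ≤ Ct := fun j hj =>
    Finset.single_le_sum (fun j _ => hCb j) hj
  have k5 := k4 (n + 1) (Finset.mem_range.mpr (by omega))
  have k6 := k4 0 (Finset.mem_range.mpr (by omega))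
  have k7 := k2 (n + 1)
  have k8 := k2 0
  have k9 : Cb (n + 1) * X ≤ Ct * X := mul_le_mul_of_nonneg_right k5 (by linarith)
  have k10 : Cb 0 * X ≤ Ct * X := mul_le_mul_of_nonneg_right k6 (by linarith)
  have k11 : 2 * ((n : ℝ) + 1) * Real.log 2 ≤ 2 * ((n : ℝ) + 1) * Real.log 2 * X := by
    have : (0 : ℝ) ≤ 2 * ((n : ℝ) + 1) * Real.log 2 := by positivity
    nlinarith
  nlinarith

end Pool.Agent.HF
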