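import Mathlib
import Pool.Agent.Lib.MP_c95b3b_ag_HF.Defs

/-! Project HF (MP_c95b3b_ag), module AD: the ring of analytic functions. -/

namespace Pool.Agent.HF

open Pool.Agent.L3 Pool.Agent.RS Module

namespace AD

open Filter Topology

theorem analytic {F : ℂ → ℂ} (hF : DifferentiableOn ℂ F (Metric.ball 0 3)) :
    AnalyticOnNhd ℂ F (Metric.ball 0 3) := hF.analyticOnNhd Metric.isOpen_ball

theorem preconn : IsPreconnected (Metric.ball (0 : ℂ) 3) :=
  (convex_ball (0 : ℂ) 3).isPreconnected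

theorem eq_zero_of_acc {F : ℂ → ℂ} (hF : DifferentiableOn ℂ F (Metric.ball 0 3)) {z : ℂ}
    (hz : z ∈ Metric.ball (0 : ℂ) 3) (h : ∃ᶠ w in 𝓝[≠] z, F w = 0) :
    ∀ w ∈ Metric.ball (0 : ℂ) 3, F w = 0 := fun _ hw =>
  (analytic hF).eqOn_zero_of_preconnected_of_frequently_eq_zero preconn hz h hw

theorem toAn_zero {F : ℂ → ℂ} (hF : DifferentiableOn ℂ F (Metric.ball 0 3))
    (h : ∀ w ∈ Metric.ball (0 : ℂ) 3, F w = 0) : toAn F hF = 0 := by
  apply Subtype.ext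
  funext x
  exact h x x.2

end AD

open AD Filter Topology

instance isDomain_An : IsDomain An := by
  have h0 : Nontrivial An := by
    refine ⟨⟨0, 1, fun h => ?_⟩⟩
    have h1 : ((0 : An) : Metric.ball (0 : ℂ) 3 → ℂ) ⟨0, by simp⟩ =
        ((1 : An) : Metric.ball (0 : ℂ) 3 → ℂ) ⟨0, by simp⟩ := by rw [h]
    exact zero_ne_one h1
  have h1 : NoZeroDivisors An := by
    refine ⟨fun {f g} hfg => ?_⟩
    by_contra hne
    push Not at hne
    obtain ⟨hf, hg⟩ := hne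
    obtain ⟨F, hF, hfF⟩ := f.2
    obtain ⟨G, hG, hgG⟩ := g.2
    obtain ⟨x0, hx0⟩ : ∃ x0 : Metric.ball (0 : ℂ) 3, f.1 x0 ≠ 0 := by
      by_contra h
      push Not at h
      exact hf (Subtype.ext (funext h))
    have hFx : F x0 ≠ 0 := by rwa [← hfF x0]
    have hcont : ContinuousAt F x0 :=
      (hF.differentiableAt (Metric.isOpen_ball.mem_nhds x0.2)).continuousAt
    have hmul : ∀ w ∈ Metric.ball (0 : ℂ) 3, F w * G w = 0 := by
      intro w hw
      have h2 : (f * g).1 ⟨w, hw⟩ = 0 := by rw [hfg]; rfl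
      have h3 : (f * g).1 ⟨w, hw⟩ = f.1 ⟨w, hw⟩ * g.1 ⟨w, hw⟩ := rfl
      rw [h3, hfF, hgG] at h2
      exact h2
    have hev : ∀ᶠ w in 𝓝 (x0 : ℂ), G w = 0 := by
      filter_upwards [hcont.eventually_ne hFx, Metric.isOpen_ball.mem_nhds x0.2] with w hw hw'
      exact (mul_eq_zero.mp (hmul w hw')).resolve_left hw
    have hG0 : ∀ w ∈ Metric.ball (0 : ℂ) 3, G w = 0 := fun w hw =>
      (analytic hG).eqOn_zero_of_preconnected_of_eventuallyEq_zero preconn x0.2 hev hw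
    exact hg (Subtype.ext (funext fun x => by rw [hgG x]; exact hG0 x x.2))
  exact NoZeroDivisors.to_isDomain An

theorem exists_rep (f : An) : ∃ (F : ℂ → ℂ) (hF : DifferentiableOn ℂ F (Metric.ball 0 3)),
    toAn F hF = f := by
  obtain ⟨F, hF, h⟩ := f.2
  exact ⟨F, hF, Subtype.ext (funext fun x => (h x).symm)⟩

theorem toAn_eq_zero {F : ℂ → ℂ} (hF : DifferentiableOn ℂ F (Metric.ball 0 3))
    (h : {y : ℝ | |y| ≤ 2 ∧ F y = 0}.Infinite) : toAn F hF = 0 := by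
  obtain ⟨y0, hy0, hacc⟩ := h.exists_accPt_of_subset_isCompact (K := Set.Icc (-2 : ℝ) 2)
    isCompact_Icc (fun y hy => ⟨(abs_le.mp hy.1).1, (abs_le.mp hy.1).2⟩)
  have hy0' : ((y0 : ℝ) : ℂ) ∈ Metric.ball (0 : ℂ) 3 := by
    rw [mem_ball_zero_iff, Complex.norm_real, Real.norm_eq_abs]
    have := abs_le.mpr ⟨hy0.1, hy0.2⟩
    linarith
  refine toAn_zero hF (eq_zero_of_acc hF hy0' ?_)
  rw [accPt_iff_frequently] at hacc
  have h1 : ∃ᶠ y : ℝ in 𝓝[≠] y0, F (y : ℂ) = 0 := by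
    rw [frequently_nhdsWithin_iff]
    exact hacc.mono fun y hy => ⟨hy.2.2, hy.1⟩
  have ht : Tendsto (fun y : ℝ => (y : ℂ)) (𝓝[≠] y0) (𝓝[≠] (y0 : ℂ)) := by
    refine tendsto_nhdsWithin_iff.mpr ⟨(Complex.continuous_ofReal.tendsto y0).mono_left
      nhdsWithin_le_nhds, ?_⟩
    filter_upwards [self_mem_nhdsWithin] with y hy
    intro h2
    exact hy (Complex.ofReal_injective h2)
  exact ht.frequently h1

theorem zeros_finite {F : ℂ → ℂ} (hF : DifferentiableOn ℂ F (Metric.ball 0 3))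
    (h : ∃ s ∈ Metric.ball (0 : ℂ) 3, F s ≠ 0) :
    {s : ℂ | s ∈ Metric.closedBall (0 : ℂ) 2 ∧ F s = 0}.Finite := by
  by_contra hinf
  obtain ⟨z0, hz0, hacc⟩ := Set.Infinite.exists_accPt_of_subset_isCompact
    (s := {s : ℂ | s ∈ Metric.closedBall (0 : ℂ) 2 ∧ F s = 0}) hinf
    (isCompact_closedBall (0 : ℂ) 2) (fun s hs => hs.1)
  have hz0' : z0 ∈ Metric.ball (0 : ℂ) 3 := by
    rw [mem_closedBall_zero_iff] at hz0
    rw [mem_ball_zero_iff]
    linarith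
  obtain ⟨s, hs, hne⟩ := h
  refine hne (eq_zero_of_acc hF hz0' ?_ s hs)
  rw [accPt_iff_frequently] at hacc
  rw [frequently_nhdsWithin_iff]
  exact hacc.mono fun y hy => ⟨hy.2.2, hy.1⟩

/-- coefficients in the field of meromorphic functions -/
noncomputable def am (F : ℂ → ℂ) (hF : DifferentiableOn ℂ F (Metric.ball 0 3)) :
    FractionRing An := algebraMap An (FractionRing An) (toAn F hF)

end Pool.Agent.HF
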