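import Mathlib
import Pool.Agent.Lib.MP_c95b3b_ag_HF.Defs

/-! Project HF (MP_c95b3b_ag), module NZ: Noether normalisation of a codimension two
intersection. -/

namespace Pool.Agent.HF

open Pool.Agent.L3 Pool.Agent.RS Module

namespace NoetherDim

theorem dim_le {R S : Type*} [CommRing R] [CommRing S] [Algebra R S] [Algebra.IsIntegral R S]
    (hinj : Function.Injective (algebraMap R S)) : ringKrullDim R ≤ ringKrullDim S := by
  refine iSup_le fun l => ?_
  have hker : RingHom.ker (algebraMap R S) ≤ (RelSeries.head l).asIdeal := by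
    rw [(RingHom.injective_iff_ker_eq_bot _).1 hinj]
    exact bot_le
  obtain ⟨P, -, hP, hPc⟩ := Ideal.exists_ideal_over_prime_of_isIntegral
    (RelSeries.head l).asIdeal (⊥ : Ideal S) hker
  have hlo : P.LiesOver (RelSeries.head l).asIdeal := ⟨hPc.symm⟩
  obtain ⟨L, hL, -, -⟩ := Ideal.exists_ltSeries_of_hasGoingUp l P
  rw [← hL]
  exact Order.LTSeries.length_le_krullDim L

theorem dim_mv (F : Type) [Field F] (n : ℕ) :
    ringKrullDim (MvPolynomial (Fin n) F) = n := by
  rw [MvPolynomial.ringKrullDim_of_isNoetherianRing, ringKrullDim_eq_zero_of_field, zero_add,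
    Nat.card_eq_fintype_card, Fintype.card_fin]

end NoetherDim

theorem noether_dim (F : Type) [Field F] {e : ℕ} (he : 1 ≤ e)
    (G1 G2 : MvPolynomial (Fin (e + 1)) F) (h1 : Irreducible G1) (h2 : ¬ G1 ∣ G2) :
    ∃ κ : ℕ, κ + 1 ≤ e ∧ ∃ φ : MvPolynomial (Fin κ) F →ₐ[F]
      (MvPolynomial (Fin (e + 1)) F ⧸ Ideal.span {G1, G2}), φ.Finite := by
  rcases subsingleton_or_nontrivial (MvPolynomial (Fin (e + 1)) F ⧸ Ideal.span {G1, G2}) with
    hA | hA
  · refine ⟨0, by omega, MvPolynomial.aeval 0, ?_⟩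
    exact RingHom.Finite.of_surjective _ fun x => ⟨0, Subsingleton.elim _ _⟩
  · obtain ⟨κ, φ, hinj, hfin⟩ := exists_finite_inj_algHom_of_fg F
      (MvPolynomial (Fin (e + 1)) F ⧸ Ideal.span {G1, G2})
    refine ⟨κ, ?_, φ, hfin⟩
    -- dimension of `F[w]`
    have hd1 : (κ : WithBot ℕ∞) ≤
        ringKrullDim (MvPolynomial (Fin (e + 1)) F ⧸ Ideal.span {G1, G2}) := by
      rw [← NoetherDim.dim_mv F κ]
      let := φ.toRingHom.toAlgebra
      have hint : Algebra.IsIntegral (MvPolynomial (Fin κ) F)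
          (MvPolynomial (Fin (e + 1)) F ⧸ Ideal.span {G1, G2}) :=
        ⟨fun x => hfin.to_isIntegral x⟩
      exact NoetherDim.dim_le hinj
    -- the two drops
    have hG1 : G1 ≠ 0 := h1.ne_zero
    have hp : Prime G1 := h1.prime
    have hpI : (Ideal.span {G1}).IsPrime := (Ideal.span_singleton_prime hG1).2 hp
    have hd2 : ringKrullDim (MvPolynomial (Fin (e + 1)) F ⧸ Ideal.span {G1}) + 1 ≤
        ((e + 1 : ℕ) : WithBot ℕ∞) := by
      rw [← NoetherDim.dim_mv F (e + 1)]
      exact ringKrullDim_quotient_succ_le_of_nonZeroDivisor (mem_nonZeroDivisors_of_ne_zero hG1)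
    have hle : Ideal.span {G1} ≤ Ideal.span {G1, G2} := by
      rw [Ideal.span_singleton_le_iff_mem]
      exact Ideal.subset_span (by simp)
    have hd3 : ringKrullDim (MvPolynomial (Fin (e + 1)) F ⧸ Ideal.span {G1, G2}) + 1 ≤
        ringKrullDim (MvPolynomial (Fin (e + 1)) F ⧸ Ideal.span {G1}) := by
      refine ringKrullDim_succ_le_of_surjective (Ideal.Quotient.factor hle)
        (Ideal.Quotient.factor_surjective hle) (r := Ideal.Quotient.mk _ G2) ?_ ?_
      · refine mem_nonZeroDivisors_of_ne_zero ?_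
        rw [Ne, Ideal.Quotient.eq_zero_iff_mem, Ideal.mem_span_singleton]
        exact h2
      · rw [Ideal.Quotient.factor_mk, Ideal.Quotient.eq_zero_iff_mem]
        exact Ideal.subset_span (by simp)
    have h3 : ((κ + 1 + 1 : ℕ) : WithBot ℕ∞) ≤ ((e + 1 : ℕ) : WithBot ℕ∞) := by
      refine le_trans ?_ hd2
      push_cast
      gcongr
      refine le_trans ?_ hd3
      gcongr
    have h4 : κ + 1 + 1 ≤ e + 1 := by exact_mod_cast h3
    omega

end Pool.Agent.HF
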