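import Mathlib
import Pool.Agent.Lib.MP_c95b3b_ag_HF.Defs
import Pool.Agent.Lib.MP_c95b3b_ag_HF.AnDomain
import Pool.Agent.Lib.MP_c95b3b_ag_HF.NoetherDim
import Pool.Agent.Lib.MP_c95b3b_ag_RS.Expand

/-! Project HF (MP_c95b3b_ag), module NE: expansion of monomials. -/

namespace Pool.Agent.HF

open Pool.Agent.L3 Pool.Agent.RS Module

namespace NE

open MvPolynomial

attribute [local instance] algebraMvPolynomial in
theorem clear {σ ι R F : Type} [Finite ι] [CommRing R] [IsDomain R] [Field F] [Algebra R F]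
    [IsFractionRing R F] (p : ι → MvPolynomial σ F) :
    ∃ d : R, d ≠ 0 ∧ ∃ p' : ι → MvPolynomial σ R,
      ∀ i, map (algebraMap R F) (p' i) = C (algebraMap R F d) * p i := by
  obtain ⟨b, hb⟩ := IsLocalization.exist_integer_multiples_of_finite
    ((nonZeroDivisors R).map (C (σ := σ))) p
  obtain ⟨d, hd, hdb⟩ := b.2
  choose p' hp' using hb
  refine ⟨d, nonZeroDivisors.ne_zero hd, p', fun i => ?_⟩
  have h1 := hp' i
  rw [algebraMap_def, Algebra.smul_def, algebraMap_def] at h1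
  rw [h1, ← hdb]
  simp

theorem alg_data {σ κ R F : Type} [Fintype σ] [Fintype κ] [CommRing R] [IsDomain R] [Field F]
    [Algebra R F] [IsFractionRing R F] (g1 g2 : MvPolynomial σ R)
    (φ : MvPolynomial κ F →ₐ[F] (MvPolynomial σ F ⧸ Ideal.span
      {map (algebraMap R F) g1, map (algebraMap R F) g2})) (hφ : φ.Finite) :
    ∃ (n : ℕ) (d : R) (w : κ → MvPolynomial σ R) (B : Fin (n + 1) → MvPolynomial σ R)
      (M : σ → Fin (n + 1) → Fin (n + 1) → MvPolynomial κ R)
      (U V : σ → Fin (n + 1) → MvPolynomial σ R), d ≠ 0 ∧ B 0 = 1 ∧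
      ∀ j l, C d * X j * B l = ∑ l', aeval w (M j l l') * B l' + (U j l * g1 + V j l * g2) := by
  classical
  let I : Ideal (MvPolynomial σ F) := Ideal.span
      {map (algebraMap R F) g1, map (algebraMap R F) g2}
  let mp : MvPolynomial σ R →+* MvPolynomial σ F := map (algebraMap R F)
  have hmpinj : Function.Injective mp := map_injective _ (IsFractionRing.injective R F)
  let π : MvPolynomial σ F →ₐ[F] (MvPolynomial σ F ⧸ I) := Ideal.Quotient.mkₐ F I
  have hπ : Function.Surjective π := Ideal.Quotient.mkₐ_surjective F I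
  -- generators
  let _inst : Algebra (MvPolynomial κ F) (MvPolynomial σ F ⧸ I) := φ.toRingHom.toAlgebra
  have hfin : Module.Finite (MvPolynomial κ F) (MvPolynomial σ F ⧸ I) := hφ
  obtain ⟨n, f, hf⟩ := Module.Finite.exists_fin' (MvPolynomial κ F) (MvPolynomial σ F ⧸ I)
  have hsmul : ∀ (p : MvPolynomial κ F) (a : MvPolynomial σ F ⧸ I), p • a = φ p * a := fun p a => rfl
  choose s hs using fun l : Fin n => hπ (f (Pi.single l 1))
  obtain ⟨r, hr, B', hB'⟩ := clear (R := R) s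
  choose wt hwt using fun i : κ => hπ (φ (X i))
  obtain ⟨t, ht, w, hw⟩ := clear (R := R) wt
  have hrF : algebraMap R F r ≠ 0 := by
    rw [Ne, IsFractionRing.to_map_eq_zero_iff]
    exact hr
  have htF : algebraMap R F t ≠ 0 := by
    rw [Ne, IsFractionRing.to_map_eq_zero_iff]
    exact ht
  let B : Fin (n + 1) → MvPolynomial σ R := Fin.cons 1 B'
  -- φ in terms of w
  have hphi : ∀ q : MvPolynomial κ F, ∃ q' : MvPolynomial κ F,
      φ q = π (aeval (fun i => mp (w i)) q') := by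
    intro q
    refine ⟨aeval (fun i => C (algebraMap R F t)⁻¹ * X i) q, ?_⟩
    have h1 : φ = (π.comp (aeval (fun i => mp (w i)))).comp
        (aeval (fun i => C (algebraMap R F t)⁻¹ * X i)) := by
      refine algHom_ext fun i => ?_
      simp only [AlgHom.comp_apply, aeval_X, map_mul, algHom_C]
      rw [← hwt i]
      change π (wt i) = _ * π (map (algebraMap R F) (w i))
      rw [hw i, map_mul]
      have h2 : π (C (algebraMap R F t)) = algebraMap F _ (algebraMap R F t) := by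
        rw [← algebraMap_eq, AlgHom.commutes]
      rw [h2, ← mul_assoc, AlgHom.commutes, ← map_mul, inv_mul_cancel₀ htF, map_one, one_mul]
    conv_lhs => rw [h1]
    rfl
  -- every element
  have hall : ∀ a : MvPolynomial σ F ⧸ I, ∃ q : Fin (n + 1) → MvPolynomial κ F,
      a = π (∑ l, aeval (fun i => mp (w i)) (q l) * mp (B l)) := by
    intro a
    obtain ⟨v, hv⟩ := hf a
    have h1 : a = ∑ l, φ (v l) * f (Pi.single l 1) := by
      rw [← hv]
      conv_lhs => rw [← Finset.univ_sum_single v, map_sum]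
      refine Finset.sum_congr rfl fun l _ => ?_
      rw [← hsmul, ← map_smul, ← Pi.single_smul, smul_eq_mul, mul_one]
    choose q hq using fun l => hphi (v l * C (algebraMap R F r)⁻¹)
    refine ⟨Fin.cons 0 q, ?_⟩
    rw [h1, Fin.sum_univ_succ]
    simp only [Fin.cons_zero, Fin.cons_succ, map_zero, zero_mul, zero_add, map_sum]
    refine Finset.sum_congr rfl fun l _ => ?_
    rw [map_mul π, ← hq l]
    have h3 : π (mp (B l.succ)) = φ (C (algebraMap R F r)) * f (Pi.single l 1) := by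
      change π (map (algebraMap R F) (B' l)) = _
      rw [hB' l, map_mul, hs l]
      congr 1
      rw [← algebraMap_eq, ← algebraMap_eq, AlgHom.commutes, AlgHom.commutes]
    rw [h3, ← mul_assoc, ← map_mul, mul_assoc, ← C_mul, inv_mul_cancel₀ hrF, C_1, mul_one]
  choose q hq using fun (j : σ) (l : Fin (n + 1)) => hall (π (X j * mp (B l)))
  have hmem : ∀ (j : σ) (l : Fin (n + 1)), ∃ a b : MvPolynomial σ F, a * mp g1 + b * mp g2 =
      X j * mp (B l) - ∑ l', aeval (fun i => mp (w i)) (q j l l') * mp (B l') := by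
    intro j l
    rw [← Ideal.mem_span_pair]
    exact (Ideal.Quotient.eq).mp (hq j l)
  choose u v huv using hmem
  obtain ⟨d1, hd1, M, hM⟩ := clear (R := R)
    (fun x : σ × Fin (n + 1) × Fin (n + 1) => q x.1 x.2.1 x.2.2)
  obtain ⟨d2, hd2, U, hU⟩ := clear (R := R) (fun x : σ × Fin (n + 1) => u x.1 x.2)
  obtain ⟨d3, hd3, V, hV⟩ := clear (R := R) (fun x : σ × Fin (n + 1) => v x.1 x.2)
  refine ⟨n, d1 * d2 * d3, w, B, fun j l l' => C (d2 * d3) * M (j, l, l'),
    fun j l => C (d1 * d3) * U (j, l), fun j l => C (d1 * d2) * V (j, l),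
    mul_ne_zero (mul_ne_zero hd1 hd2) hd3, rfl, fun j l => ?_⟩
  apply hmpinj
  have hae : ∀ p : MvPolynomial κ R, mp (aeval w p) =
      aeval (fun i => mp (w i)) (map (algebraMap R F) p) := by
    intro p
    have h1 : mp.comp (aeval w : MvPolynomial κ R →ₐ[R] MvPolynomial σ R).toRingHom =
        ((aeval (fun i => mp (w i)) : MvPolynomial κ F →ₐ[F] MvPolynomial σ F).toRingHom).comp
          (map (algebraMap R F)) := by
      refine ringHom_ext (fun r => ?_) (fun i => ?_)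
      · simp [mp]
      · simp [mp]
    exact congrArg (fun f => f p) h1
  have h5 := huv j l
  have h6 : X j * mp (B l) = ∑ l', aeval (fun i => mp (w i)) (q j l l') * mp (B l') +
      (u j l * mp g1 + v j l * mp g2) := by
    rw [h5]
    ring
  simp only [map_add, map_mul, map_sum, hae]
  have hC : ∀ x : R, mp (C x) = C (algebraMap R F x) := fun x => map_C _ _
  have hX : mp (X j) = X j := map_X _ _
  have hM' : ∀ l', map (algebraMap R F) (M (j, l, l')) =
    C (algebraMap R F d1) * q j l l' := fun l' => hM (j, l, l')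
  have hU' : mp (U (j, l)) = C (algebraMap R F d2) * u j l := hU (j, l)
  have hV' : mp (V (j, l)) = C (algebraMap R F d3) * v j l := hV (j, l)
  simp only [hX, hC, hM', hU', hV', map_C, map_mul, aeval_C, algebraMap_eq]
  rw [mul_assoc, h6, mul_add, Finset.mul_sum]
  congr 1
  · refine Finset.sum_congr rfl fun l' _ => ?_
    ring
  · ring


/-- a representative of an element of `An` -/
noncomputable def rep (f : An) : ℂ → ℂ := Classical.choose f.2

theorem rep_diff (f : An) : DifferentiableOn ℂ (rep f) (Metric.ball 0 3) :=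
  (Classical.choose_spec f.2).1

theorem rep_eq (f : An) (x : Metric.ball (0 : ℂ) 3) : f.1 x = rep f x :=
  (Classical.choose_spec f.2).2 x

/-- evaluation at `s` -/
noncomputable def ev (s : ℂ) (hs : s ∈ Metric.ball (0 : ℂ) 3) : An →+* ℂ :=
  (Pi.evalRingHom (fun _ : Metric.ball (0 : ℂ) 3 => ℂ) ⟨s, hs⟩).comp An.subtype

theorem ev_rep (s : ℂ) (hs : s ∈ Metric.ball (0 : ℂ) 3) (f : An) : ev s hs f = rep f s :=
  rep_eq f ⟨s, hs⟩

theorem ev_toAn (s : ℂ) (hs : s ∈ Metric.ball (0 : ℂ) 3) (F : ℂ → ℂ)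
    (hF : DifferentiableOn ℂ F (Metric.ball 0 3)) : ev s hs (toAn F hF) = F s := rfl

/-- the function of `s` and `z` given by a polynomial over `An` -/
noncomputable def fn {e : ℕ} (p : MvPolynomial (Fin e) An) (s : ℂ) (z : Fin e → ℂ) : ℂ :=
  ∑ m : p.support, rep (p.coeff m) s * ∏ k, z k ^ (m : Fin e →₀ ℕ) k

theorem fn_eq {e : ℕ} (p : MvPolynomial (Fin e) An) (s : ℂ) (hs : s ∈ Metric.ball (0 : ℂ) 3)
    (z : Fin e → ℂ) : fn p s z = eval₂Hom (ev s hs) z p := by
  rw [coe_eval₂Hom, eval₂_eq', fn, ← Finset.sum_coe_sort p.support]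
  refine Finset.sum_congr rfl fun m _ => ?_
  rw [ev_rep]

theorem bound {F : ℂ → ℂ} (hF : DifferentiableOn ℂ F (Metric.ball 0 3)) :
    ∃ c : ℝ, 1 ≤ c ∧ ∀ s ∈ Metric.closedBall (0 : ℂ) 2, ‖F s‖ ≤ c := by
  have h1 : Metric.closedBall (0 : ℂ) 2 ⊆ Metric.ball 0 3 :=
    Metric.closedBall_subset_ball (by norm_num)
  obtain ⟨c, hc⟩ := (isCompact_closedBall (0 : ℂ) 2).exists_bound_of_continuousOn
    (hF.continuousOn.mono h1)
  exact ⟨max c 1, le_max_right _ _, fun s hs => (hc s hs).trans (le_max_left _ _)⟩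

theorem fn_rep {e : ℕ} (p : MvPolynomial (Fin e) An) : ∃ (n : ℕ) (c : ℝ), EX.Rep n c (fn p) := by
  classical
  choose c hc1 hc using fun m : p.support => bound (rep_diff (p.coeff m))
  refine ⟨p.support.sup (fun m => ∑ k, m k), ∑ m, c m, EX.of_fam (ι := p.support)
    (fun m k => (m : Fin e →₀ ℕ) k) ?_ (fun m => rep (p.coeff m)) (fun m => rep_diff _) ?_ ?_⟩
  · intro m k
    refine le_trans ?_ (Finset.le_sup (f := fun m : Fin e →₀ ℕ => ∑ k, m k) m.2)
    exact Finset.single_le_sum (f := fun k => (m : Fin e →₀ ℕ) k) (fun _ _ => Nat.zero_le _)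
      (Finset.mem_univ k)
  · intro s hs
    exact Finset.sum_le_sum fun m _ => hc m s hs
  · intro s z
    rfl

theorem rep_unif {ι : Type} [Fintype ι] {e : ℕ} (p : ι → MvPolynomial (Fin e) An) :
    ∃ (n : ℕ) (c : ℝ), 1 ≤ c ∧ ∀ i, EX.Rep n c (fn (p i)) := by
  choose n c h using fun i => fn_rep (p i)
  refine ⟨∑ i, n i, 1 + ∑ i, |c i|, ?_, fun i => (h i).mono ?_ ?_⟩
  · have h1 : 0 ≤ ∑ i, |c i| := Finset.sum_nonneg fun i _ => abs_nonneg _
    linarith
  · exact Finset.single_le_sum (f := n) (fun _ _ => Nat.zero_le _) (Finset.mem_univ i)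
  · have h1 := Finset.single_le_sum (f := fun i => |c i|) (fun i _ => abs_nonneg _)
      (Finset.mem_univ i)
    have h2 := le_abs_self (c i)
    linarith

theorem rep_torus {e n : ℕ} {c : ℝ} {F : ℂ → (Fin e → ℂ) → ℂ} (h : EX.Rep n c F) {s : ℂ}
    (hs : s ∈ Metric.closedBall (0 : ℂ) 2) {z : Fin e → ℂ} (hz : ∀ j, ‖z j‖ = 1) :
    ‖F s z‖ ≤ c := by
  obtain ⟨a, -, hac, haF⟩ := h
  rw [haF]
  refine (norm_sum_le _ _).trans (le_trans (le_of_eq ?_) (hac s hs))
  refine Finset.sum_congr rfl fun μ _ => ?_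
  rw [norm_mul, norm_prod]
  simp [hz]

theorem iter {m κ n D : ℕ} {cM : ℝ} (d0 : ℂ → ℂ)
    (M : Fin m → Fin (n + 1) → Fin (n + 1) → ℂ → (Fin κ → ℂ) → ℂ)
    (hM : ∀ j l l', EX.Rep D cM (M j l l')) : ∀ (k : ℕ) (β : Fin m → ℕ), ∑ j, β j = k →
    ∃ P : Fin (n + 1) → ℂ → (Fin κ → ℂ) → ℂ,
      (∀ l, EX.Rep (k * D) ((((n + 1 : ℕ) : ℝ) * cM) ^ k) (P l)) ∧
      ∀ (s : ℂ) (z : Fin m → ℂ) (W : Fin κ → ℂ) (B : Fin (n + 1) → ℂ), B 0 = 1 →
        (∀ j l, d0 s * z j * B l = ∑ l', M j l l' s W * B l') →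
        d0 s ^ k * ∏ j, z j ^ β j = ∑ l, P l s W * B l := by
  classical
  intro k
  induction k with
  | zero =>
    intro β hβ
    have hβ0 : ∀ j, β j = 0 := by
      intro j
      exact (Finset.sum_eq_zero_iff.mp hβ) j (Finset.mem_univ j)
    refine ⟨fun l _ _ => if l = 0 then 1 else 0, fun l => ?_, ?_⟩
    · by_cases hl : l = 0
      · simpa [hl] using EX.rep_one (e := κ)
      · simpa [hl] using EX.rep_zero (e := κ) (n := 0) (c := 1) zero_le_one
    · intro s z W B hB _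
      simp [hβ0, hB]
  | succ k ih =>
    intro β hβ
    have h1 : ∑ j, β j ≠ 0 := by omega
    obtain ⟨j, -, hj⟩ := Finset.exists_ne_zero_of_sum_ne_zero h1
    let β' : Fin m → ℕ := fun i => β i - if i = j then 1 else 0
    have hββ : ∀ i, β i = β' i + if i = j then 1 else 0 := by
      intro i
      simp only [β']
      split_ifs with h
      · subst h
        omega
      · omega
    have hs' : ∑ i, β' i = k := by
      have h2 : ∑ i, β i = ∑ i, β' i + 1 := by
        rw [Finset.sum_congr rfl fun i _ => hββ i, Finset.sum_add_distrib]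
        simp
      omega
    obtain ⟨P, hP, hrel⟩ := ih β' hs'
    refine ⟨fun l' s w => ∑ l, P l s w * M j l l' s w, fun l' => ?_, ?_⟩
    · have h3 := EX.rep_sum (g := n + 1) (fun l => (hP l).mul (hM j l l'))
      refine h3.mono (le_of_eq (by ring)) (le_of_eq ?_)
      ring
    · intro s z W B hB hz
      have h4 := hrel s z W B hB hz
      have h5 : ∏ i, z i ^ β i = z j * ∏ i, z i ^ β' i := by
        rw [Finset.prod_congr rfl fun i _ => by rw [hββ i, pow_add], Finset.prod_mul_distrib,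
          mul_comm]
        congr 1
        simp
      have h6 : d0 s ^ (k + 1) * ∏ i, z i ^ β i =
          d0 s * z j * (d0 s ^ k * ∏ i, z i ^ β' i) := by
        rw [h5]
        ring
      rw [h6, h4, Finset.mul_sum]
      have h7 : ∀ l, d0 s * z j * (P l s W * B l) =
          ∑ l', P l s W * M j l l' s W * B l' := by
        intro l
        have h8 := hz j l
        calc d0 s * z j * (P l s W * B l) = P l s W * (d0 s * z j * B l) := by ring
          _ = _ := by
            rw [h8, Finset.mul_sum]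
            exact Finset.sum_congr rfl fun l' _ => by ring
      rw [Finset.sum_congr rfl fun l _ => h7 l, Finset.sum_comm]
      refine Finset.sum_congr rfl fun l' _ => ?_
      rw [Finset.sum_mul]

theorem gpol_map {e g : ℕ} (c : Fin g → ℂ → ℂ)
    (hc : ∀ k, DifferentiableOn ℂ (c k) (Metric.ball 0 3)) (b : Fin g → Fin e → ℕ) :
    gpol (fun k => am (c k) (hc k)) b =
      map (algebraMap An (FractionRing An)) (gpol (fun k => toAn (c k) (hc k)) b) := by
  simp only [gpol, map_sum, map_monomial, am]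

theorem gpol_eval {e g : ℕ} (c : Fin g → ℂ → ℂ)
    (hc : ∀ k, DifferentiableOn ℂ (c k) (Metric.ball 0 3)) (b : Fin g → Fin e → ℕ) (s : ℂ)
    (hs : s ∈ Metric.ball (0 : ℂ) 3) (z : Fin e → ℂ) :
    eval₂Hom (ev s hs) z (gpol (fun k => toAn (c k) (hc k)) b) =
      ∑ k, c k s * ∏ j, z j ^ b k j := by
  rw [gpol, map_sum]
  refine Finset.sum_congr rfl fun k _ => ?_
  rw [eval₂Hom_monomial, ev_toAn, Finsupp.prod_fintype _ _ (fun i => pow_zero _)]
  rfl

end NE

theorem noether_expand {e g : ℕ} (he : 1 ≤ e) (c c' : Fin g → ℂ → ℂ)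
    (hc : ∀ k, DifferentiableOn ℂ (c k) (Metric.ball 0 3))
    (hc' : ∀ k, DifferentiableOn ℂ (c' k) (Metric.ball 0 3)) (b b' : Fin g → Fin (e + 1) → ℕ)
    (hirr : Irreducible (gpol (fun k => am (c k) (hc k)) b))
    (hnd : ¬ gpol (fun k => am (c k) (hc k)) b ∣ gpol (fun k => am (c' k) (hc' k)) b') :
    ∃ (κ n C' : ℕ) (C : ℝ) (δ : ℂ → ℂ) (Wf : Fin κ → ℂ → (Fin (e + 1) → ℂ) → ℂ)
      (Bf : Fin n → ℂ → (Fin (e + 1) → ℂ) → ℂ),
      κ + 1 ≤ e ∧ 1 ≤ C ∧ DifferentiableOn ℂ δ (Metric.ball 0 3) ∧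
      (∃ s ∈ Metric.ball (0 : ℂ) 3, δ s ≠ 0) ∧
      (∀ s ∈ Metric.closedBall (0 : ℂ) 2, ∀ z : Fin (e + 1) → ℂ, (∀ j, ‖z j‖ = 1) →
        (∀ i, ‖Wf i s z‖ ≤ C) ∧ ∀ l, ‖Bf l s z‖ ≤ C) ∧
      ∀ N : ℕ, ∃ cf : (Fin (e + 1) → ℕ) → Fin n → (Fin κ → Fin (C' * N + 1)) → ℂ → ℂ,
        (∀ β l μ, DifferentiableOn ℂ (cf β l μ) (Metric.ball 0 3)) ∧
        (∀ β l μ, (∀ j, β j ≤ N) → ∀ s ∈ Metric.closedBall (0 : ℂ) 2,
          ‖cf β l μ s‖ ≤ C ^ (N + 1)) ∧
        ∀ β : Fin (e + 1) → ℕ, (∀ j, β j ≤ N) → ∀ s ∈ Metric.ball (0 : ℂ) 3,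
          ∀ z : Fin (e + 1) → ℂ, ∑ k, c k s * ∏ j, z j ^ b k j = 0 →
          ∑ k, c' k s * ∏ j, z j ^ b' k j = 0 →
          δ s ^ (N + 1) * ∏ j, z j ^ β j =
            ∑ l, (∑ μ, cf β l μ s * ∏ i, Wf i s z ^ (μ i : ℕ)) * Bf l s z := by
  classical
  rw [NE.gpol_map] at hirr hnd
  rw [NE.gpol_map] at hnd
  obtain ⟨κ, hκ, φ, hφ⟩ := noether_dim (FractionRing An) he _ _ hirr hnd
  obtain ⟨n, d, w, B, M, U, V, hd, hB0, hrel⟩ := NE.alg_data _ _ φ hφ
  -- uniform bounds
  obtain ⟨D, cM, hcM, hM⟩ := NE.rep_unif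
    (fun x : Fin (e + 1) × Fin (n + 1) × Fin (n + 1) => M x.1 x.2.1 x.2.2)
  obtain ⟨nW, cW, hcW, hW⟩ := NE.rep_unif w
  obtain ⟨nB, cB, hcB, hB⟩ := NE.rep_unif B
  obtain ⟨cD, hcD, hD⟩ := NE.bound (NE.rep_diff d)
  set Q : ℝ := ((n + 1 : ℕ) : ℝ) * cM with hQ
  have hQ1 : 1 ≤ Q := by
    have h1 : (1 : ℝ) ≤ ((n + 1 : ℕ) : ℝ) := by
      push_cast
      have := Nat.cast_nonneg (α := ℝ) n
      linarith
    exact one_le_mul_of_one_le_of_one_le h1 hcM
  set K : ℝ := (cD * Q) ^ (e + 1) with hK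
  have hDQ : 1 ≤ cD * Q := one_le_mul_of_one_le_of_one_le hcD hQ1
  have hK1 : 1 ≤ K := one_le_pow₀ hDQ
  -- the relation at a point
  have hpt : ∀ (s : ℂ) (hs : s ∈ Metric.ball (0 : ℂ) 3) (z : Fin (e + 1) → ℂ),
      ∑ k, c k s * ∏ j, z j ^ b k j = 0 → ∑ k, c' k s * ∏ j, z j ^ b' k j = 0 → ∀ j l,
      NE.rep d s * z j * NE.fn (B l) s z =
        ∑ l', NE.fn (M j l l') s (fun i => NE.fn (w i) s z) * NE.fn (B l') s z := by
    intro s hs z h1 h2 j l
    have h3 := congrArg (MvPolynomial.eval₂Hom (NE.ev s hs) z) (hrel j l)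
    rw [map_add, map_add, map_mul, map_mul, map_mul, map_mul, NE.gpol_eval, NE.gpol_eval, h1, h2,
      mul_zero, mul_zero, add_zero, add_zero, map_sum, MvPolynomial.eval₂Hom_C,
      MvPolynomial.eval₂Hom_X', NE.ev_rep, ← NE.fn_eq] at h3
    rw [h3]
    refine Finset.sum_congr rfl fun l' _ => ?_
    rw [map_mul, ← NE.fn_eq (B l') s hs]
    congr 1
    have h4 : (MvPolynomial.eval₂Hom (NE.ev s hs) z).comp
        (MvPolynomial.aeval w : MvPolynomial (Fin κ) An →ₐ[An] _).toRingHom =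
        MvPolynomial.eval₂Hom (NE.ev s hs) (fun i => NE.fn (w i) s z) := by
      refine MvPolynomial.ringHom_ext (fun r => ?_) (fun i => ?_)
      · simp
      · simp [NE.fn_eq _ s hs]
    have h5 := congrArg (fun f => f (M j l l')) h4
    rw [NE.fn_eq (M j l l') s hs]
    exact h5
  have hexp : ∀ (N : ℕ) (β : Fin (e + 1) → ℕ), ∃ a : Fin (n + 1) →
      (Fin κ → Fin ((e + 1) * D * N + 1)) → ℂ → ℂ,
      (∀ l μ, DifferentiableOn ℂ (a l μ) (Metric.ball 0 3)) ∧
      ((∀ j, β j ≤ N) → (∀ l μ, ∀ s ∈ Metric.closedBall (0 : ℂ) 2, ‖a l μ s‖ ≤ K ^ (N + 1)) ∧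
        ∀ s ∈ Metric.ball (0 : ℂ) 3, ∀ z : Fin (e + 1) → ℂ,
          ∑ k, c k s * ∏ j, z j ^ b k j = 0 → ∑ k, c' k s * ∏ j, z j ^ b' k j = 0 →
          (NE.rep d s ^ (e + 1)) ^ (N + 1) * ∏ j, z j ^ β j =
            ∑ l, (∑ μ, a l μ s * ∏ i, NE.fn (w i) s z ^ (μ i : ℕ)) * NE.fn (B l) s z) := by
    intro N β
    by_cases hβ : ∀ j, β j ≤ N
    · set k := ∑ j, β j with hk
      have hkN : k ≤ (e + 1) * N := by
        calc k ≤ ∑ _j : Fin (e + 1), N := Finset.sum_le_sum fun j _ => hβ j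
          _ = (e + 1) * N := by simp
      obtain ⟨P, hP, hPrel⟩ := NE.iter (NE.rep d)
        (fun j l l' => NE.fn (M j l l')) (fun j l l' => hM (j, l, l')) k β rfl
      have hdr : EX.Rep (e := κ) 0 (cD ^ ((e + 1) * (N + 1) - k))
          (fun s _ => NE.rep d s ^ ((e + 1) * (N + 1) - k)) := by
        refine EX.rep_const _ ((NE.rep_diff d).pow _) fun s hs => ?_
        rw [norm_pow]
        exact pow_le_pow_left₀ (norm_nonneg _) (hD s hs) _
      have hR : ∀ l, EX.Rep ((e + 1) * D * N) (K ^ (N + 1))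
          (fun s W => NE.rep d s ^ ((e + 1) * (N + 1) - k) * P l s W) := by
        intro l
        refine (hdr.mul (hP l)).mono ?_ ?_
        · rw [zero_add]
          calc k * D ≤ (e + 1) * N * D := Nat.mul_le_mul_right _ hkN
            _ = (e + 1) * D * N := by ring
        · have h1 : cD ^ ((e + 1) * (N + 1) - k) ≤ cD ^ ((e + 1) * (N + 1)) :=
            pow_le_pow_right₀ hcD (Nat.sub_le _ _)
          have h2 : Q ^ k ≤ Q ^ ((e + 1) * (N + 1)) :=
            pow_le_pow_right₀ hQ1 (hkN.trans (Nat.mul_le_mul_left _ (Nat.le_succ N)))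
          calc cD ^ ((e + 1) * (N + 1) - k) * Q ^ k ≤
              cD ^ ((e + 1) * (N + 1)) * Q ^ ((e + 1) * (N + 1)) :=
                mul_le_mul h1 h2 (by positivity) (by positivity)
            _ = K ^ (N + 1) := by rw [← mul_pow, hK, ← pow_mul]
      choose a ha hac haF using hR
      refine ⟨a, ha, fun _ => ⟨fun l μ s hs => ?_, fun s hs z h1 h2 => ?_⟩⟩
      · exact (Finset.single_le_sum (f := fun μ => ‖a l μ s‖) (fun _ _ => norm_nonneg _)
          (Finset.mem_univ μ)).trans (hac l s hs)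
      · have hB00 : NE.fn (B 0) s z = 1 := by
          rw [NE.fn_eq _ s hs, hB0, map_one]
        have h3 := hPrel s z (fun i => NE.fn (w i) s z) (fun l => NE.fn (B l) s z) hB00
          (hpt s hs z h1 h2)
        have h4 : (NE.rep d s ^ (e + 1)) ^ (N + 1) =
            NE.rep d s ^ ((e + 1) * (N + 1) - k) * NE.rep d s ^ k := by
          rw [← pow_mul, ← pow_add, Nat.sub_add_cancel
            (hkN.trans (Nat.mul_le_mul_left _ (Nat.le_succ N)))]
        rw [h4, mul_assoc, h3, Finset.mul_sum]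
        refine Finset.sum_congr rfl fun l _ => ?_
        rw [← haF l s (fun i => NE.fn (w i) s z)]
        ring
    · exact ⟨fun _ _ _ => 0, fun _ _ => differentiableOn_const _, fun h => absurd h hβ⟩
  choose cf hcf1 hcf2 using hexp
  have hCK : K ≤ K + cW + cB := by linarith
  refine ⟨κ, n + 1, (e + 1) * D, K + cW + cB, fun s => NE.rep d s ^ (e + 1),
    fun i => NE.fn (w i), fun l => NE.fn (B l), hκ, by linarith, (NE.rep_diff d).pow _, ?_, ?_,
    fun N => ⟨cf N, hcf1 N, ?_, ?_⟩⟩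
  · by_contra hcon
    push Not at hcon
    apply hd
    refine Subtype.ext (funext fun x => ?_)
    have h1 := hcon x x.2
    rw [NE.rep_eq]
    exact pow_eq_zero_iff (Nat.succ_ne_zero e) |>.mp h1
  · intro s hs z hz
    refine ⟨fun i => ?_, fun l => ?_⟩
    · have := NE.rep_torus (hW i) hs hz
      linarith
    · have := NE.rep_torus (hB l) hs hz
      linarith
  · intro β l μ hβ s hs
    exact ((hcf2 N β hβ).1 l μ s hs).trans
      (pow_le_pow_left₀ (le_trans zero_le_one hK1) hCK _)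
  · intro β hβ s hs z h1 h2
    exact (hcf2 N β hβ).2 s hs z h1 h2

end Pool.Agent.HF
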