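import Mathlib
import Pool.Agent.Lib.MP_c95b3b_ag_HF.Defs
import Pool.Agent.Lib.MP_c95b3b_ag_HF.NoetherExpand
import Pool.Agent.Lib.MP_c95b3b_ag_RS.PT
import Pool.Agent.Lib.MP_c95b3b_ag_RS.ArcAuxD

/-! Project HF (MP_c95b3b_ag), module TE: auxiliary polynomial, exact points. -/

namespace Pool.Agent.HF

open Pool.Agent.L3 Pool.Agent.RS Module

namespace TE

open Metric Finset

/-- the conjugate equation -/
theorem conj_eq {e g : ℕ} (b : Fin g → Fin (e + 1) → ℕ) (D : Fin (e + 1) → ℕ)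
    (hD : ∀ k j, b k j ≤ D j) (a : Fin g → ℂ → ℂ) (y : ℝ) (ζ : Fin (e + 1) → ℂ)
    (hζ : ∀ j, ‖ζ j‖ = 1) (h : ∑ k, a k y * ∏ j, ζ j ^ b k j = 0) :
    ∑ k, cj (a k) y * ∏ j, ζ j ^ (D j - b k j) = 0 := by
  have h2 : ∑ k, (starRingEnd ℂ) (a k y * ∏ j, ζ j ^ b k j) = 0 := by
    rw [← map_sum, h, map_zero]
  have h3 : ∀ k, cj (a k) y * ∏ j, ζ j ^ (D j - b k j) =
      (∏ j, ζ j ^ D j) * (starRingEnd ℂ) (a k y * ∏ j, ζ j ^ b k j) := by
    intro k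
    rw [cj_real, map_mul, map_prod]
    have h4 : ∏ j, ζ j ^ D j =
        (∏ j, ζ j ^ (D j - b k j)) * ∏ j, ζ j ^ b k j := by
      rw [← Finset.prod_mul_distrib]
      refine Finset.prod_congr rfl fun j _ => ?_
      rw [← pow_add, Nat.sub_add_cancel (hD k j)]
    have h5 : (∏ j, ζ j ^ b k j) * ∏ j, (starRingEnd ℂ) (ζ j ^ b k j) = 1 := by
      rw [← Finset.prod_mul_distrib]
      refine Finset.prod_eq_one fun j _ => ?_
      rw [map_pow, ← mul_pow, Complex.mul_conj', hζ j]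
      simp
    rw [h4]
    calc (starRingEnd ℂ) (a k y) * ∏ j, ζ j ^ (D j - b k j)
        = (starRingEnd ℂ) (a k y) * (∏ j, ζ j ^ (D j - b k j)) *
          ((∏ j, ζ j ^ b k j) * ∏ j, (starRingEnd ℂ) (ζ j ^ b k j)) := by rw [h5, mul_one]
      _ = _ := by ring
  rw [Finset.sum_congr rfl fun k _ => h3 k, ← Finset.mul_sum, h2, mul_zero]

theorem aeval_QP_tz {e N : ℕ} (r : (Fin (e + 1) → Fin N) → ℤ) (t : ℂ) (z : Fin (e + 1) → ℂ) :
    MvPolynomial.aeval (tz t z) (ArcAuxD.QP r) = ∑ i, (r i : ℂ) *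
      (t ^ (i 0 : ℕ) * ∏ k : Fin e, z k.succ ^ (i k.succ : ℕ)) := by
  rw [ArcAuxD.aeval_QP]
  refine Finset.sum_congr rfl fun i _ => ?_
  rw [Fin.prod_univ_succ]
  rfl

/-- the exponent vector with first entry zero -/
def bt {e N : ℕ} (i : Fin (e + 1) → Fin N) : Fin (e + 1) → ℕ := Fin.cons 0 (fun k => (i k.succ : ℕ))

theorem prod_bt {e N : ℕ} (i : Fin (e + 1) → Fin N) (z : Fin (e + 1) → ℂ) :
    ∏ j, z j ^ bt i j = ∏ k : Fin e, z k.succ ^ (i k.succ : ℕ) := by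
  rw [Fin.prod_univ_succ]
  simp [bt]

theorem bt_le {e N : ℕ} (i : Fin (e + 1) → Fin (N + 1)) (j : Fin (e + 1)) : bt i j ≤ N := by
  refine Fin.cases ?_ (fun k => ?_) j
  · simp [bt]
  · simp only [bt, Fin.cons_succ]
    exact Nat.lt_succ_iff.1 (i k.succ).2

theorem ub {q : ℕ} (c : Fin q → ℝ) (h : ∀ l, 1 ≤ c l) : ∃ C : ℝ, 1 ≤ C ∧ ∀ l, c l ≤ C := by
  refine ⟨1 + ∑ l, c l, ?_, fun l => ?_⟩
  · have : 0 ≤ ∑ l, c l := Finset.sum_nonneg fun l _ => zero_le_one.trans (h l)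
    linarith
  · have h1 : c l ≤ ∑ l, c l :=
      Finset.single_le_sum (f := fun l => c l) (fun l _ => zero_le_one.trans (h l))
        (Finset.mem_univ l)
    linarith

theorem ubN {q : ℕ} (c : Fin q → ℕ) : ∃ C : ℕ, ∀ l, c l ≤ C :=
  ⟨∑ l, c l, fun l => Finset.single_le_sum (f := fun l => c l) (fun _ _ => Nat.zero_le _)
    (Finset.mem_univ l)⟩

/-- the bound for a product of powers -/
theorem prod_pow_le {n N : ℕ} (z : Fin n → ℂ) (m : Fin n → ℕ) (C : ℝ) (hC : 1 ≤ C)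
    (hz : ∀ k, ‖z k‖ ≤ C) (hm : ∀ k, m k ≤ N) : ‖∏ k, z k ^ m k‖ ≤ (C ^ N) ^ n := by
  rw [norm_prod]
  calc ∏ k, ‖z k ^ m k‖ ≤ ∏ _k : Fin n, C ^ N := by
        refine Finset.prod_le_prod (fun _ _ => norm_nonneg _) fun k _ => ?_
        rw [norm_pow]
        exact (pow_le_pow_left₀ (norm_nonneg _) (hz k) _).trans (pow_le_pow_right₀ hC (hm k))
    _ = (C ^ N) ^ n := by rw [Finset.prod_const, Finset.card_univ, Fintype.card_fin]

end TE

theorem arc_exactH {q e g : ℕ} (he : 1 ≤ e) (b : Fin g → Fin (e + 1) → ℕ)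
    (D : Fin (e + 1) → ℕ) (hD : ∀ k j, b k j ≤ D j) (τ : Fin q → ℂ → ℂ)
    (ρ : Fin q → Fin (e + 1) → ℂ → ℂ) (a : Fin q → Fin g → ℂ → ℂ)
    (hτ : ∀ l, DifferentiableOn ℂ (τ l) (Metric.ball 0 3))
    (hρ : ∀ l j, DifferentiableOn ℂ (ρ l j) (Metric.ball 0 3))
    (ha : ∀ l k, DifferentiableOn ℂ (a l k) (Metric.ball 0 3))
    (hirr : ∀ l, Irreducible (gpol (fun k => am (a l k) (ha l k)) b))
    (hnd : ∀ l, ¬ gpol (fun k => am (a l k) (ha l k)) b ∣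
      gpol (fun k => am (cj (a l k)) (differentiableOn_cj (ha l k))) (fun k j => D j - b k j)) :
    ∃ δ : Fin q → ℂ → ℂ, (∀ l, DifferentiableOn ℂ (δ l) (Metric.ball 0 3)) ∧
      (∀ l, ∃ s ∈ Metric.ball (0 : ℂ) 3, δ l s ≠ 0) ∧
      ∀ A : ℝ, ∃ N : ℕ, 1 ≤ N ∧ ∃ Q : MvPolynomial (Fin (e + 1)) ℤ, Q ≠ 0 ∧
        (∀ i, Q.degreeOf i ≤ N) ∧ (∀ m, |((Q.coeff m : ℤ) : ℝ)| ≤ Real.exp N) ∧
        ∀ (l : Fin q) (y : ℝ) (ζ : Fin (e + 1) → ℂ), |y| ≤ 1 → (∀ j, ‖ζ j‖ = 1) →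
          ∑ k, a l k y * ∏ j, ζ j ^ b k j = 0 →
          ‖δ l y‖ ^ N * ‖MvPolynomial.aeval (tz (τ l y) (fun j => ρ l j y * ζ j)) Q‖ ≤
            Real.exp (-(A * N)) := by
  obtain ⟨f, rfl⟩ : ∃ f, e = f + 1 := ⟨e - 1, by omega⟩
  have hda : ∀ l k, DifferentiableOn ℂ (cj (a l k)) (Metric.ball 0 3) :=
    fun l k => differentiableOn_cj (ha l k)
  have hexp := fun l => noether_expand he (a l) (fun k => cj (a l k)) (ha l) (hda l) b
    (fun k j => D j - b k j) (hirr l) (hnd l)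
  choose κ n Cf' Cf δ0 Wf Bf hκ hCf1 hδd hδ0 hWB hexp using hexp
  refine ⟨fun l s => δ0 l s ^ 2, fun l => (hδd l).pow 2, fun l => ?_, fun A => ?_⟩
  · obtain ⟨s, hs, h⟩ := hδ0 l
    exact ⟨s, hs, pow_ne_zero 2 h⟩
  obtain ⟨Cτ, hCτ, hbτ⟩ := ArcAuxD.exists_bound τ hτ
  obtain ⟨Cδ, hCδ, hbδ⟩ := ArcAuxD.exists_bound δ0 hδd
  have hρ' := fun l => ArcAuxD.exists_bound (ρ l) (hρ l)
  choose Cρf hCρf hbρ using hρ'
  obtain ⟨Cρ, hCρ1, hCρ⟩ := TE.ub Cρf hCρf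
  obtain ⟨C, hC, hCf⟩ := TE.ub Cf hCf1
  obtain ⟨C', hCf'⟩ := TE.ubN Cf'
  obtain ⟨nb, hnb⟩ := TE.ubN n
  have hC0 : 0 < C := by linarith
  have hCρ0 : 0 < Cρ := by linarith
  have hCτ0 : 0 < Cτ := by linarith
  have hCδ0 : 0 < Cδ := by linarith
  obtain ⟨C1, hC1⟩ : ∃ C1 : ℝ, C1 = Cτ * Cρ ^ (f + 1) * C ^ 2 := ⟨_, rfl⟩
  obtain ⟨C2, hC2⟩ : ∃ C2 : ℝ, C2 = C ^ (f * C') := ⟨_, rfl⟩
  have hC11 : 1 ≤ C1 := by
    rw [hC1]
    exact one_le_mul_of_one_le_of_one_le (one_le_mul_of_one_le_of_one_le hCτ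
      (one_le_pow₀ hCρ1)) (one_le_pow₀ hC)
  have hC21 : 1 ≤ C2 := by
    rw [hC2]
    exact one_le_pow₀ hC
  obtain ⟨M, N, hN1, hMN, hpar⟩ := ArcAuxD.params (q * nb) f C' (A + Real.log Cδ) (C1 * C2)
    (1 + nb * C) (one_le_mul_of_one_le_of_one_le hC11 hC21) (by
      have : (0 : ℝ) ≤ nb * C := by positivity
      linarith)
  have hexpN := fun l => hexp l N
  choose cf hcd hcb hcx using hexpN
  -- the index types
  let Ξ : Type := Σ l : Fin q, Fin (n l) × (Fin (κ l) → Fin (Cf' l * N + 1))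
  let L : ℕ := Fintype.card Ξ
  have hL : L ≤ q * nb * (2 * (C' * N + 1) ^ f) := by
    have h1 : L = ∑ l : Fin q, n l * (Cf' l * N + 1) ^ κ l := by
      show Fintype.card (Σ l : Fin q, Fin (n l) × (Fin (κ l) → Fin (Cf' l * N + 1))) = _
      rw [Fintype.card_sigma]
      refine Finset.sum_congr rfl fun l _ => ?_
      rw [Fintype.card_prod, Fintype.card_fun, Fintype.card_fin, Fintype.card_fin,
        Fintype.card_fin]
    rw [h1]
    calc ∑ l : Fin q, n l * (Cf' l * N + 1) ^ κ l ≤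
          ∑ _l : Fin q, nb * (C' * N + 1) ^ f := by
          refine Finset.sum_le_sum fun l _ => ?_
          refine Nat.mul_le_mul (hnb l) ?_
          calc (Cf' l * N + 1) ^ κ l ≤ (C' * N + 1) ^ κ l := by
                gcongr
                exact hCf' l
            _ ≤ (C' * N + 1) ^ f :=
                Nat.pow_le_pow_right (Nat.succ_pos _) (by have := hκ l; omega)
      _ = q * (nb * (C' * N + 1) ^ f) := by
          rw [Finset.sum_const, Finset.card_univ, Fintype.card_fin, smul_eq_mul]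
      _ ≤ q * nb * (2 * (C' * N + 1) ^ f) := by
          rw [mul_assoc]
          gcongr
          omega
  let F0 : Ξ → (Fin (f + 1 + 1) → Fin (N + 1)) → ℂ → ℂ := fun ξ i s =>
    τ ξ.1 s ^ (i 0 : ℕ) * (∏ k : Fin (f + 1), ρ ξ.1 k.succ s ^ (i k.succ : ℕ)) *
      cf ξ.1 (TE.bt i) ξ.2.1 ξ.2.2 s
  let F : Fin L → (Fin (f + 1 + 1) → Fin (N + 1)) → ℂ → ℂ := fun a i =>
    F0 ((Fintype.equivFin Ξ).symm a) i
  have hF0 : ∀ ξ i, F ((Fintype.equivFin Ξ) ξ) i = F0 ξ i := by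
    intro ξ i
    show F0 ((Fintype.equivFin Ξ).symm ((Fintype.equivFin Ξ) ξ)) i = _
    rw [Equiv.symm_apply_apply]
  have hle : ∀ (i : Fin (f + 1 + 1) → Fin (N + 1)) k, (i k : ℕ) ≤ N :=
    fun i k => Nat.lt_succ_iff.1 (i k).2
  have hFd0 : ∀ ξ i, DifferentiableOn ℂ (F0 ξ i) (Metric.ball 0 3) := by
    intro ξ i
    refine DifferentiableOn.mul (DifferentiableOn.mul ((hτ ξ.1).pow _) ?_) (hcd _ _ _ _)
    exact DifferentiableOn.fun_finsetProd fun k _ => (hρ ξ.1 k.succ).pow _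
  have hFd : ∀ a i, DifferentiableOn ℂ (F a i) (Metric.ball 0 3) := fun a i => hFd0 _ i
  have hFW0 : ∀ ξ i, ∀ s ∈ Metric.closedBall (0 : ℂ) 2, ‖F0 ξ i s‖ ≤ C1 ^ N := by
    intro ξ i s hs
    show ‖τ ξ.1 s ^ (i 0 : ℕ) * (∏ k : Fin (f + 1), ρ ξ.1 k.succ s ^ (i k.succ : ℕ)) *
      cf ξ.1 (TE.bt i) ξ.2.1 ξ.2.2 s‖ ≤ C1 ^ N
    rw [norm_mul, norm_mul, norm_pow]
    have e1 : ‖τ ξ.1 s‖ ^ (i 0 : ℕ) ≤ Cτ ^ N :=
      (pow_le_pow_left₀ (norm_nonneg _) (hbτ _ s hs) _).trans (pow_le_pow_right₀ hCτ (hle i 0))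
    have e2 : ‖∏ k : Fin (f + 1), ρ ξ.1 k.succ s ^ (i k.succ : ℕ)‖ ≤ (Cρ ^ N) ^ (f + 1) :=
      TE.prod_pow_le _ _ Cρ hCρ1 (fun k => (hbρ ξ.1 k.succ s hs).trans (hCρ _))
        (fun k => hle i k.succ)
    have e3 : ‖cf ξ.1 (TE.bt i) ξ.2.1 ξ.2.2 s‖ ≤ C ^ (2 * N) := by
      refine (hcb ξ.1 (TE.bt i) ξ.2.1 ξ.2.2 (TE.bt_le i) s hs).trans ?_
      refine (pow_le_pow_left₀ (zero_le_one.trans (hCf1 _)) (hCf _) _).trans ?_
      exact pow_le_pow_right₀ hC (by omega)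
    calc ‖τ ξ.1 s‖ ^ (i 0 : ℕ) * ‖∏ k : Fin (f + 1), ρ ξ.1 k.succ s ^ (i k.succ : ℕ)‖ *
          ‖cf ξ.1 (TE.bt i) ξ.2.1 ξ.2.2 s‖ ≤ Cτ ^ N * (Cρ ^ N) ^ (f + 1) * C ^ (2 * N) := by
          gcongr
      _ = C1 ^ N := by
          rw [hC1, mul_pow, mul_pow, ← pow_mul, ← pow_mul, ← pow_mul, mul_comm N (f + 1)]
  have hFW : ∀ a i, ∀ s ∈ Metric.closedBall (0 : ℂ) 2, ‖F a i s‖ ≤ C1 ^ N :=
    fun a i s hs => hFW0 _ i s hs
  obtain ⟨H, hH⟩ : ∃ H : ℕ, H = ⌊Real.exp N⌋₊ := ⟨_, rfl⟩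
  obtain ⟨B, hBdef⟩ : ∃ B : ℕ, B = ⌈Real.exp ((M * N : ℕ) : ℝ)⌉₊ := ⟨_, rfl⟩
  have hB : 0 < B := by
    rw [hBdef]
    exact Nat.ceil_pos.2 (Real.exp_pos _)
  have hHr : (H : ℝ) ≤ Real.exp N := by
    rw [hH]
    exact Nat.floor_le (Real.exp_pos _).le
  have hHr' : Real.exp N < (H : ℝ) + 1 := by
    rw [hH]
    exact Nat.lt_floor_add_one _
  have hBr : Real.exp ((M * N : ℕ) : ℝ) ≤ B := by
    rw [hBdef]
    exact Nat.le_ceil _
  have hBr' : (B : ℝ) ≤ Real.exp ((M * N : ℕ) + 1 : ℝ) := by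
    have h1 : (B : ℝ) < Real.exp ((M * N : ℕ) : ℝ) + 1 := by
      rw [hBdef]
      exact Nat.ceil_lt_add_one (Real.exp_pos _).le
    have h2 : Real.exp ((M * N : ℕ) + 1 : ℝ) = Real.exp ((M * N : ℕ) : ℝ) * Real.exp 1 :=
      Real.exp_add _ _
    have h3 : (2 : ℝ) ≤ Real.exp 1 := by
      have := Real.add_one_le_exp (1 : ℝ)
      linarith
    have h4 : (1 : ℝ) ≤ Real.exp ((M * N : ℕ) : ℝ) := Real.one_le_exp (Nat.cast_nonneg _)
    rw [h2]
    nlinarith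
  have hcard : Fintype.card (Fin (f + 1 + 1) → Fin (N + 1)) = (N + 1) ^ (f + 2) := by
    rw [Fintype.card_fun, Fintype.card_fin, Fintype.card_fin]
  have hc : B ^ (2 * L * (M * N)) < (H + 1) ^ Fintype.card (Fin (f + 1 + 1) → Fin (N + 1)) := by
    rw [hcard]
    have h0 : 2 * L * (M * N) * (M * N + 1) ≤ N * (N + 1) ^ (f + 2) := by
      refine le_trans ?_ hMN
      gcongr
    have h1 : (B : ℝ) ^ (2 * L * (M * N)) ≤ Real.exp N ^ ((N + 1) ^ (f + 2)) := by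
      calc (B : ℝ) ^ (2 * L * (M * N)) ≤
            (Real.exp ((M * N : ℕ) + 1 : ℝ)) ^ (2 * L * (M * N)) := by
            gcongr
        _ = Real.exp ((2 * L * (M * N) * (M * N + 1) : ℕ) : ℝ) := by
            rw [← Real.exp_nat_mul]
            congr 1
            push_cast
            ring
        _ ≤ Real.exp ((N * (N + 1) ^ (f + 2) : ℕ) : ℝ) := by
            apply Real.exp_le_exp.2
            exact_mod_cast h0
        _ = Real.exp N ^ ((N + 1) ^ (f + 2)) := by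
            rw [← Real.exp_nat_mul]
            congr 1
            push_cast
            ring
    have h2 : Real.exp N ^ ((N + 1) ^ (f + 2)) < ((H : ℝ) + 1) ^ ((N + 1) ^ (f + 2)) :=
      pow_lt_pow_left₀ hHr' (Real.exp_pos _).le (by positivity)
    exact_mod_cast h1.trans_lt h2
  obtain ⟨r, hr0, hrH, hr⟩ := taylor_pigeon L (M * N) H B F hFd (C1 ^ N) hFW hB hc
  rw [hcard] at hr
  push_cast at hr
  refine ⟨N, hN1, ArcAuxD.QP r, ArcAuxD.QP_ne_zero hr0, fun i => ArcAuxD.degreeOf_QP r i, ?_, ?_⟩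
  · intro m
    rcases ArcAuxD.coeff_QP_eq r m with h | ⟨i, _, h⟩
    · rw [h, Int.cast_zero, abs_zero]
      exact (Real.exp_pos _).le
    · rw [h]
      refine le_trans ?_ hHr
      exact_mod_cast hrH i
  · intro l y ζ hy hζ hid
    have hyn : ‖(y : ℂ)‖ ≤ 1 := by rwa [Complex.norm_real, Real.norm_eq_abs]
    have hy1 : (y : ℂ) ∈ Metric.closedBall (0 : ℂ) 1 := by
      rwa [mem_closedBall_zero_iff]
    have hy2 : (y : ℂ) ∈ Metric.closedBall (0 : ℂ) 2 := by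
      rw [mem_closedBall_zero_iff]
      linarith
    have hy3 : (y : ℂ) ∈ Metric.ball (0 : ℂ) 3 := by
      rw [mem_ball_zero_iff]
      linarith
    have hid' := TE.conj_eq b D hD (a l) y ζ hζ hid
    have hWn : ∀ i, ‖Wf l i y ζ‖ ≤ C := fun i => ((hWB l y hy2 ζ hζ).1 i).trans (hCf l)
    have hBn : ∀ l', ‖Bf l l' y ζ‖ ≤ C := fun l' => ((hWB l y hy2 ζ hζ).2 l').trans (hCf l)
    obtain ⟨Fb, hFb⟩ : ∃ Fb : ℝ, Fb = 4 * ((M * N : ℕ) : ℝ) * ((N : ℝ) + 1) ^ (f + 2) *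
      C1 ^ N * Real.exp N / Real.exp ((M * N : ℕ) : ℝ) +
      2 * ((N : ℝ) + 1) ^ (f + 2) * C1 ^ N * Real.exp N / 2 ^ (M * N) := ⟨_, rfl⟩
    have hC10 : 0 ≤ C1 := by linarith
    have hFb0 : 0 ≤ Fb := by
      rw [hFb]
      positivity
    have hrF : ∀ a : Fin L, ‖∑ i, (r i : ℂ) * F a i y‖ ≤ Fb := by
      intro a
      refine (hr a y hy1).trans ?_
      rw [hFb]
      push_cast at hBr ⊢
      gcongr
    have hrF0 : ∀ ξ : Ξ, ‖∑ i, (r i : ℂ) * F0 ξ i y‖ ≤ Fb := by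
      intro ξ
      have h1 := hrF ((Fintype.equivFin Ξ) ξ)
      simp only [hF0] at h1
      exact h1
    have key : δ0 l y ^ (N + 1) *
        MvPolynomial.aeval (tz (τ l y) (fun j => ρ l j y * ζ j)) (ArcAuxD.QP r) =
        ∑ l', (∑ μ, (∑ i, (r i : ℂ) * F0 ⟨l, l', μ⟩ i y) * ∏ k, Wf l k y ζ ^ (μ k : ℕ)) *
          Bf l l' y ζ := by
      rw [TE.aeval_QP_tz, Finset.mul_sum]
      have h1 : ∀ i : Fin (f + 1 + 1) → Fin (N + 1), δ0 l y ^ (N + 1) * ((r i : ℂ) *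
          (τ l y ^ (i 0 : ℕ) * ∏ k : Fin (f + 1), (ρ l k.succ y * ζ k.succ) ^ (i k.succ : ℕ))) =
          ∑ l', (∑ μ, ((r i : ℂ) * F0 ⟨l, l', μ⟩ i y) * ∏ k, Wf l k y ζ ^ (μ k : ℕ)) *
            Bf l l' y ζ := by
        intro i
        have h2 := hcx l (TE.bt i) (TE.bt_le i) y hy3 ζ hid hid'
        rw [TE.prod_bt] at h2
        calc δ0 l y ^ (N + 1) * ((r i : ℂ) * (τ l y ^ (i 0 : ℕ) *
              ∏ k : Fin (f + 1), (ρ l k.succ y * ζ k.succ) ^ (i k.succ : ℕ)))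
            = ((r i : ℂ) * (τ l y ^ (i 0 : ℕ) *
              ∏ k : Fin (f + 1), ρ l k.succ y ^ (i k.succ : ℕ))) *
              (δ0 l y ^ (N + 1) * ∏ k : Fin (f + 1), ζ k.succ ^ (i k.succ : ℕ)) := by
              simp only [mul_pow, Finset.prod_mul_distrib]
              ring
          _ = _ := by
              rw [h2, Finset.mul_sum]
              refine Finset.sum_congr rfl fun l' _ => ?_
              rw [← mul_assoc, Finset.mul_sum]
              congr 1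
              refine Finset.sum_congr rfl fun μ _ => ?_
              simp only [F0]
              ring
      rw [Finset.sum_congr rfl fun i _ => h1 i, Finset.sum_comm]
      refine Finset.sum_congr rfl fun l' _ => ?_
      rw [← Finset.sum_mul, Finset.sum_comm]
      congr 1
      refine Finset.sum_congr rfl fun μ _ => ?_
      rw [Finset.sum_mul]
    have hmon : ∀ μ : Fin (κ l) → Fin (Cf' l * N + 1), ‖∏ k, Wf l k y ζ ^ (μ k : ℕ)‖ ≤
        C2 ^ N := by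
      intro μ
      refine (TE.prod_pow_le (N := C' * N) _ _ C hC hWn fun k => ?_).trans ?_
      · refine (Nat.lt_succ_iff.1 (μ k).2).trans ?_
        exact Nat.mul_le_mul_right _ (hCf' l)
      · rw [hC2, ← pow_mul, ← pow_mul]
        refine pow_le_pow_right₀ hC ?_
        have h5 : κ l ≤ f := by
          have := hκ l
          omega
        calc C' * N * κ l ≤ C' * N * f := Nat.mul_le_mul_left _ h5
          _ = f * C' * N := by ring
    have h4 : ‖δ0 l y ^ (N + 1) *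
        MvPolynomial.aeval (tz (τ l y) (fun j => ρ l j y * ζ j)) (ArcAuxD.QP r)‖ ≤
        Real.exp (-((A + Real.log Cδ) * N)) := by
      rw [key]
      refine le_trans ?_ hpar
      have h6 : ∀ l', ‖(∑ μ, (∑ i, (r i : ℂ) * F0 ⟨l, l', μ⟩ i y) *
          ∏ k, Wf l k y ζ ^ (μ k : ℕ)) * Bf l l' y ζ‖ ≤
          ((C' * N + 1 : ℕ) : ℝ) ^ f * (Fb * C2 ^ N) * C := by
        intro l'
        rw [norm_mul]
        refine mul_le_mul ?_ (hBn l') (norm_nonneg _) (by positivity)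
        refine (norm_sum_le _ _).trans ?_
        calc ∑ μ, ‖(∑ i, (r i : ℂ) * F0 ⟨l, l', μ⟩ i y) * ∏ k, Wf l k y ζ ^ (μ k : ℕ)‖
            ≤ ∑ _μ : Fin (κ l) → Fin (Cf' l * N + 1), Fb * C2 ^ N := by
              refine Finset.sum_le_sum fun μ _ => ?_
              rw [norm_mul]
              exact mul_le_mul (hrF0 _) (hmon μ) (norm_nonneg _) hFb0
          _ = ((Cf' l * N + 1 : ℕ) : ℝ) ^ κ l * (Fb * C2 ^ N) := by
              rw [Finset.sum_const, Finset.card_univ, Fintype.card_fun, Fintype.card_fin,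
                Fintype.card_fin, nsmul_eq_mul, Nat.cast_pow]
          _ ≤ ((C' * N + 1 : ℕ) : ℝ) ^ f * (Fb * C2 ^ N) := by
              have hC20 : 0 ≤ C2 := by linarith
              refine mul_le_mul_of_nonneg_right ?_ (by positivity)
              calc ((Cf' l * N + 1 : ℕ) : ℝ) ^ κ l ≤ ((C' * N + 1 : ℕ) : ℝ) ^ κ l := by
                    gcongr
                    exact hCf' l
                _ ≤ ((C' * N + 1 : ℕ) : ℝ) ^ f := by
                    refine pow_le_pow_right₀ ?_ (by have := hκ l; omega)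
                    exact_mod_cast Nat.succ_pos _
      have hC20 : 0 ≤ C2 := by linarith
      calc ‖∑ l', (∑ μ, (∑ i, (r i : ℂ) * F0 ⟨l, l', μ⟩ i y) *
          ∏ k, Wf l k y ζ ^ (μ k : ℕ)) * Bf l l' y ζ‖
          ≤ ∑ _l' : Fin (n l), ((C' * N + 1 : ℕ) : ℝ) ^ f * (Fb * C2 ^ N) * C :=
            (norm_sum_le _ _).trans (Finset.sum_le_sum fun l' _ => h6 l')
        _ = (n l : ℝ) * (((C' * N + 1 : ℕ) : ℝ) ^ f * (Fb * C2 ^ N) * C) := by
            rw [Finset.sum_const, Finset.card_univ, Fintype.card_fin, nsmul_eq_mul]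
        _ ≤ (nb : ℝ) * (((C' * N + 1 : ℕ) : ℝ) ^ f * (Fb * C2 ^ N) * C) := by
            refine mul_le_mul_of_nonneg_right ?_ (by positivity)
            exact_mod_cast hnb l
        _ = (nb * C) * (((C' * N + 1 : ℕ) : ℝ) ^ f * (Fb * C2 ^ N)) := by ring
        _ ≤ (1 + nb * C + 1) * (((C' * N + 1 : ℕ) : ℝ) ^ f * (Fb * C2 ^ N)) := by
            refine mul_le_mul_of_nonneg_right ?_ (by positivity)
            linarith
        _ = _ := by
            rw [hFb, mul_pow]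
            ring
    have h7 : ‖δ0 l y ^ 2‖ ^ N ≤ Cδ ^ N * ‖δ0 l y ^ (N + 1)‖ := by
      obtain ⟨N', rfl⟩ : ∃ N', N = N' + 1 := ⟨N - 1, by omega⟩
      rw [norm_pow, norm_pow, ← pow_mul, show 2 * (N' + 1) = N' + (N' + 1 + 1) by ring, pow_add]
      refine mul_le_mul_of_nonneg_right ?_ (by positivity)
      exact (pow_le_pow_left₀ (norm_nonneg _) (hbδ l y hy2) _).trans
        (pow_le_pow_right₀ hCδ (by omega))
    calc ‖δ0 l y ^ 2‖ ^ N *
          ‖MvPolynomial.aeval (tz (τ l y) (fun j => ρ l j y * ζ j)) (ArcAuxD.QP r)‖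
        ≤ Cδ ^ N * ‖δ0 l y ^ (N + 1)‖ *
          ‖MvPolynomial.aeval (tz (τ l y) (fun j => ρ l j y * ζ j)) (ArcAuxD.QP r)‖ :=
          mul_le_mul_of_nonneg_right h7 (norm_nonneg _)
      _ = Cδ ^ N * ‖δ0 l y ^ (N + 1) *
          MvPolynomial.aeval (tz (τ l y) (fun j => ρ l j y * ζ j)) (ArcAuxD.QP r)‖ := by
          rw [norm_mul, mul_assoc]
      _ ≤ Cδ ^ N * Real.exp (-((A + Real.log Cδ) * N)) :=
          mul_le_mul_of_nonneg_left h4 (by positivity)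
      _ = Real.exp (-(A * N)) := by
          have h8 : Cδ ^ N = Real.exp (Real.log Cδ * N) := by
            rw [mul_comm, Real.exp_nat_mul, Real.exp_log hCδ0]
          rw [h8, ← Real.exp_add]
          congr 1
          ring

end Pool.Agent.HF
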