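import Mathlib
import Pool.Agent.Lib.MP_c95b3b_ag_HF.Defs

/-! Project HF (MP_c95b3b_ag), module AF: arcs on the zero set of a harmonic function. -/

namespace Pool.Agent.HF

open Pool.Agent.L3 Pool.Agent.RS Module

namespace ArcFun

open Complex Filter Topology ComplexConjugate

/-- the holomorphic function with real part `lgs d (h z) - lgs d (h z0)` near `z0` -/
noncomputable def fz {M : ℕ} (h : Fin M → ℂ → ℂ) (d : Fin M → ℝ) (z0 z : ℂ) : ℂ :=
  ∑ i, (d i : ℂ) * Complex.log (h i z / h i z0)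

/-- the neighbourhood of `z0` on which the logarithms are holomorphic -/
def V {M : ℕ} (h : Fin M → ℂ → ℂ) (U : Set ℂ) (z0 : ℂ) : Set ℂ :=
  {z | z ∈ U ∧ ∀ i, h i z / h i z0 ∈ Complex.slitPlane}

variable {M : ℕ} {h : Fin M → ℂ → ℂ} {d : Fin M → ℝ} {U : Set ℂ} {z0 : ℂ}

theorem mem_V (h0 : z0 ∈ U) (hne : ∀ i, ∀ z ∈ U, h i z ≠ 0) : z0 ∈ V h U z0 := by
  refine ⟨h0, fun i => ?_⟩
  rw [div_self (hne i z0 h0)]
  exact one_mem_slitPlane

theorem isOpen_V (hU : IsOpen U) (hh : ∀ i, DifferentiableOn ℂ (h i) U) : IsOpen (V h U z0) := by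
  have e : V h U z0 = U ∩ ⋂ i, (U ∩ (fun z : ℂ => h i z / h i z0) ⁻¹' Complex.slitPlane) := by
    ext z
    simp only [V, Set.mem_ofPred_eq, Set.mem_inter_iff, Set.mem_iInter, Set.mem_preimage]
    constructor
    · rintro ⟨h1, h2⟩
      exact ⟨h1, fun i => ⟨h1, h2 i⟩⟩
    · rintro ⟨h1, h2⟩
      exact ⟨h1, fun i => (h2 i).2⟩
  rw [e]
  refine hU.inter (isOpen_iInter_of_finite fun i => ?_)
  exact ((hh i).continuousOn.div_const _).isOpen_inter_preimage hU isOpen_slitPlane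

theorem hasDerivAt_log' (hU : IsOpen U) (h0 : z0 ∈ U) (hh : ∀ i, DifferentiableOn ℂ (h i) U)
    (hne : ∀ i, ∀ z ∈ U, h i z ≠ 0) {z : ℂ} (hz : z ∈ V h U z0) (i : Fin M) :
    HasDerivAt (fun z => Complex.log (h i z / h i z0)) (deriv (h i) z / h i z) z := by
  have h1 : HasDerivAt (h i) (deriv (h i) z) z :=
    ((hh i).differentiableAt (hU.mem_nhds hz.1)).hasDerivAt
  have h2 := (h1.div_const (h i z0)).clog (hz.2 i)
  have h3 : h i z0 ≠ 0 := hne i z0 h0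
  have h4 : h i z ≠ 0 := hne i z hz.1
  have h5 : deriv (h i) z / h i z0 / (h i z / h i z0) = deriv (h i) z / h i z := by
    field_simp
  rwa [h5] at h2

theorem hasDerivAt_fz (hU : IsOpen U) (h0 : z0 ∈ U) (hh : ∀ i, DifferentiableOn ℂ (h i) U)
    (hne : ∀ i, ∀ z ∈ U, h i z ≠ 0) {z : ℂ} (hz : z ∈ V h U z0) :
    HasDerivAt (fz h d z0) (∑ i, (d i : ℂ) * (deriv (h i) z / h i z)) z := by
  have h1 : ∀ i ∈ (Finset.univ : Finset (Fin M)),
      HasDerivAt (fun z => (d i : ℂ) * Complex.log (h i z / h i z0))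
        ((d i : ℂ) * (deriv (h i) z / h i z)) z :=
    fun i _ => (hasDerivAt_log' hU h0 hh hne hz i).const_mul _
  exact HasDerivAt.fun_sum h1

theorem re_log' (h0 : z0 ∈ U) (hne : ∀ i, ∀ z ∈ U, h i z ≠ 0) {z : ℂ} (hz : z ∈ V h U z0)
    (i : Fin M) :
    (Complex.log (h i z / h i z0)).re = Real.log ‖h i z‖ - Real.log ‖h i z0‖ := by
  rw [Complex.log_re, norm_div, Real.log_div (norm_ne_zero_iff.2 (hne i z hz.1))
    (norm_ne_zero_iff.2 (hne i z0 h0))]

theorem fz_self (h0 : z0 ∈ U) (hne : ∀ i, ∀ z ∈ U, h i z ≠ 0) : fz h d z0 z0 = 0 := by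
  unfold fz
  refine Finset.sum_eq_zero fun i _ => ?_
  rw [div_self (hne i z0 h0), Complex.log_one, mul_zero]

theorem re_fz (h0 : z0 ∈ U) (hne : ∀ i, ∀ z ∈ U, h i z ≠ 0) {z : ℂ} (hz : z ∈ V h U z0) :
    (fz h d z0 z).re = lgs d (fun i => h i z) - lgs d (fun i => h i z0) := by
  unfold fz lgs
  rw [Complex.re_sum]
  simp only [Complex.re_ofReal_mul, re_log' h0 hne hz, mul_sub, Finset.sum_sub_distrib]

/-- the symmetric extension of `log |h i (τ y)|` -/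
noncomputable def Gf (h : Fin M → ℂ → ℂ) (z0 : ℂ) (τ : ℂ → ℂ) (i : Fin M) (y : ℂ) : ℂ :=
  ((Real.log ‖h i z0‖ : ℝ) : ℂ) + (Complex.log (h i (τ y) / h i z0) +
    conj (Complex.log (h i (τ (conj y)) / h i z0))) / 2

theorem Gf_diff (hU : IsOpen U) (h0 : z0 ∈ U) (hh : ∀ i, DifferentiableOn ℂ (h i) U)
    (hne : ∀ i, ∀ z ∈ U, h i z ≠ 0) {τ : ℂ → ℂ} {R : ℝ}
    (hτ : DifferentiableOn ℂ τ (Metric.ball 0 R))
    (hV : ∀ y ∈ Metric.ball (0 : ℂ) R, τ y ∈ V h U z0) (i : Fin M) :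
    DifferentiableOn ℂ (Gf h z0 τ i) (Metric.ball 0 R) := by
  have key : ∀ y ∈ Metric.ball (0 : ℂ) R,
      DifferentiableAt ℂ (fun y => Complex.log (h i (τ y) / h i z0)) y := by
    intro y hy
    have h1 : DifferentiableAt ℂ τ y := hτ.differentiableAt (Metric.isOpen_ball.mem_nhds hy)
    have h2 := (hasDerivAt_log' hU h0 hh hne (hV y hy) i).differentiableAt
    exact h2.comp y h1
  intro y hy
  apply DifferentiableAt.differentiableWithinAt
  have hy' : conj y ∈ Metric.ball (0 : ℂ) R := by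
    rw [mem_ball_zero_iff] at hy ⊢
    rwa [RCLike.norm_conj]
  have h2 := (key _ hy').conj_conj
  rw [Complex.conj_conj] at h2
  have h3 : DifferentiableAt ℂ
      (fun y => conj (Complex.log (h i (τ (conj y)) / h i z0))) y := h2
  exact (((key y hy).add h3).div_const 2).const_add _

theorem Gf_real (h0 : z0 ∈ U) (hne : ∀ i, ∀ z ∈ U, h i z ≠ 0) {τ : ℂ → ℂ} {y : ℝ}
    (hV : τ y ∈ V h U z0) (i : Fin M) :
    Gf h z0 τ i y = ((Real.log ‖h i (τ y)‖ : ℝ) : ℂ) := by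
  unfold Gf
  rw [Complex.conj_ofReal, Complex.add_conj, re_log' h0 hne hV]
  push_cast
  ring

end ArcFun

open Complex Filter Topology in
theorem exists_arc_fun {M : ℕ} (h : Fin M → ℂ → ℂ) (U : Set ℂ) (hU : IsOpen U) (z0 : ℂ)
    (hz0 : z0 ∈ U) (hh : ∀ i, DifferentiableOn ℂ (h i) U) (hne : ∀ i, ∀ z ∈ U, h i z ≠ 0)
    (d : Fin M → ℝ) (hz : lgs d (fun i => h i z0) = 0)
    (hd : ∑ i, (d i : ℂ) * (deriv (h i) z0 / h i z0) ≠ 0) :
    ∃ (τ : ℂ → ℂ) (G : Fin M → ℂ → ℂ), DifferentiableOn ℂ τ (Metric.ball 0 3) ∧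
      (∀ i, DifferentiableOn ℂ (G i) (Metric.ball 0 3)) ∧
      (∀ s ∈ Metric.ball (0 : ℂ) 3, τ s ∈ U) ∧ Set.InjOn τ (Metric.ball 0 3) ∧
      (∀ y : ℝ, |y| < 3 → (∀ i, G i y = ((Real.log ‖h i (τ y)‖ : ℝ) : ℂ)) ∧
        lgs d (fun i => h i (τ y)) = 0) ∧
      ∃ W ∈ nhds z0, ∀ η : ℝ, 0 < η → ∃ ε : ℝ, 0 < ε ∧
        ∀ z ∈ W, |lgs d (fun i => h i z)| ≤ ε → ∃ y : ℝ, |y| ≤ 1 ∧ ‖z - τ y‖ ≤ η := by
  have hU0 : z0 ∈ ArcFun.V h U z0 := ArcFun.mem_V hz0 hne
  have hUn : ArcFun.V h U z0 ∈ 𝓝 z0 := (ArcFun.isOpen_V hU hh).mem_nhds hU0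
  set f : ℂ → ℂ := ArcFun.fz h d z0 with hf
  have hfd : ∀ z ∈ ArcFun.V h U z0,
      HasDerivAt f (∑ i, (d i : ℂ) * (deriv (h i) z / h i z)) z :=
    fun z hz => ArcFun.hasDerivAt_fz hU hz0 hh hne hz
  have hdo : DifferentiableOn ℂ f (ArcFun.V h U z0) :=
    fun z hz => (hfd z hz).differentiableAt.differentiableWithinAt
  have hcd : ContDiffAt ℂ 1 f z0 := (hdo.analyticAt hUn).contDiffAt
  have hfe := (hfd z0 hU0).hasFDerivAt_equiv hd
  have hstr := hcd.hasStrictFDerivAt' hfe one_ne_zero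
  set ψ : ℂ → ℂ := hcd.localInverse hfe one_ne_zero with hψ
  have hf0 : f z0 = 0 := ArcFun.fz_self hz0 hne
  have hψ0 : ψ 0 = z0 := by
    have := hcd.localInverse_apply_image hfe one_ne_zero
    rwa [hf0] at this
  have hleft : ∀ᶠ z in 𝓝 z0, ψ (f z) = z := hstr.eventually_left_inverse
  have hright : ∀ᶠ y in 𝓝 (0 : ℂ), f (ψ y) = y := by
    have := hstr.eventually_right_inverse
    rwa [hf0] at this
  have hψc : ContDiffAt ℂ 1 ψ 0 := by
    have := hcd.to_localInverse hfe one_ne_zero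
    rwa [hf0] at this
  have e1 : ∀ᶠ y in 𝓝 (0 : ℂ), ContDiffAt ℂ 1 ψ y := hψc.eventually (by simp)
  have e2 : ∀ᶠ y in 𝓝 (0 : ℂ), ψ y ∈ ArcFun.V h U z0 := by
    apply hψc.continuousAt
    rw [hψ0]
    exact hUn
  obtain ⟨K, t, ht, hL⟩ := hψc.exists_lipschitzOnWith
  obtain ⟨ρ, hρ, hball⟩ := Metric.eventually_nhds_iff_ball.1 (((e1.and e2).and hright).and ht)
  have hs : 0 < ρ / 4 := by positivity
  set s : ℝ := ρ / 4 with hsdef
  have hin : ∀ y : ℂ, ‖y‖ < 3 → I * s * y ∈ Metric.ball (0 : ℂ) ρ := by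
    intro y hy
    rw [mem_ball_zero_iff, norm_mul, norm_mul, norm_I, one_mul, Complex.norm_real,
      Real.norm_of_nonneg hs.le]
    have : s * ‖y‖ ≤ s * 3 := by gcongr
    linarith
  set τ : ℂ → ℂ := fun y => ψ (I * s * y) with hτ
  have hτU : ∀ y ∈ Metric.ball (0 : ℂ) 3, τ y ∈ ArcFun.V h U z0 := by
    intro y hy
    rw [mem_ball_zero_iff] at hy
    exact (hball _ (hin y hy)).1.1.2
  have hτf : ∀ y ∈ Metric.ball (0 : ℂ) 3, f (τ y) = I * s * y := by
    intro y hy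
    rw [mem_ball_zero_iff] at hy
    exact (hball _ (hin y hy)).1.2
  have hτd : DifferentiableOn ℂ τ (Metric.ball 0 3) := by
    intro y hy
    rw [mem_ball_zero_iff] at hy
    apply DifferentiableAt.differentiableWithinAt
    have h1 : DifferentiableAt ℂ ψ (I * s * y) :=
      (hball _ (hin y hy)).1.1.1.differentiableAt one_ne_zero
    exact h1.comp y (by fun_prop)
  have hyb : ∀ y : ℝ, |y| < 3 → (y : ℂ) ∈ Metric.ball (0 : ℂ) 3 := by
    intro y hy
    rwa [mem_ball_zero_iff, Complex.norm_real, Real.norm_eq_abs]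
  refine ⟨τ, ArcFun.Gf h z0 τ, hτd, ArcFun.Gf_diff hU hz0 hh hne hτd hτU,
    fun y hy => (hτU y hy).1, ?_, fun y hy => ⟨fun i => ?_, ?_⟩, ?_⟩
  · intro y hy y' hy' he
    have h1 : I * s * y = I * s * y' := by rw [← hτf y hy, ← hτf y' hy', he]
    have h2 : I * (s : ℂ) ≠ 0 := mul_ne_zero I_ne_zero (by exact_mod_cast hs.ne')
    exact mul_left_cancel₀ h2 h1
  · exact ArcFun.Gf_real hz0 hne (hτU _ (hyb y hy)) i
  · have h1 := ArcFun.re_fz (d := d) hz0 hne (hτU _ (hyb y hy))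
    rw [hz, sub_zero] at h1
    rw [← h1]
    have h2 : ArcFun.fz h d z0 (τ y) = I * s * y := hτf _ (hyb y hy)
    rw [h2]
    simp
  · have e3 : ∀ᶠ z in 𝓝 z0, ‖f z‖ < s := by
      have h1 : ContinuousAt (fun z => ‖f z‖) z0 := (hfd z0 hU0).continuousAt.norm
      have h2 : ‖f z0‖ < s := by rw [hf0, norm_zero]; exact hs
      exact h1.eventually_lt continuousAt_const h2
    refine ⟨{z | (z ∈ ArcFun.V h U z0 ∧ ψ (f z) = z) ∧ ‖f z‖ < s},
      (((show ∀ᶠ z in 𝓝 z0, z ∈ ArcFun.V h U z0 from hUn).and hleft).and e3), ?_⟩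
    intro η hη
    refine ⟨η / (K + 1), by positivity, ?_⟩
    rintro z ⟨⟨hzU, hzψ⟩, hzs⟩ hphi
    have him : |(f z).im| < s := (Complex.abs_im_le_norm _).trans_lt hzs
    refine ⟨(f z).im / s, ?_, ?_⟩
    · rw [abs_div, abs_of_pos hs, div_le_one hs]
      exact him.le
    · have h1 : I * s * (((f z).im / s : ℝ) : ℂ) = I * (f z).im := by
        have hs' : (s : ℂ) ≠ 0 := by exact_mod_cast hs.ne'
        push_cast
        field_simp
      have h2 : τ (((f z).im / s : ℝ) : ℂ) = ψ (I * (f z).im) := by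
        simp only [hτ, h1]
      have h3 : f z ∈ t := by
        apply (hball _ _).2
        rw [mem_ball_zero_iff]
        linarith
      have h4 : I * (f z).im ∈ t := by
        apply (hball _ _).2
        rw [mem_ball_zero_iff, norm_mul, norm_I, one_mul, Complex.norm_real, Real.norm_eq_abs]
        linarith
      have h5 := hL.dist_le_mul _ h3 _ h4
      rw [dist_eq_norm, dist_eq_norm, hzψ] at h5
      have h6 : f z - I * (f z).im = ((f z).re : ℂ) := by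
        linear_combination -(Complex.re_add_im (f z))
      have h7 : (f z).re = lgs d (fun i => h i z) := by
        rw [hf, ArcFun.re_fz hz0 hne hzU, hz, sub_zero]
      rw [h6, Complex.norm_real, Real.norm_eq_abs, h7] at h5
      rw [h2]
      calc ‖z - ψ (I * (f z).im)‖ ≤ K * |lgs d (fun i => h i z)| := h5
        _ ≤ K * (η / (K + 1)) := by gcongr
        _ ≤ (K + 1) * (η / (K + 1)) := by
          gcongr
          linarith
        _ = η := by field_simp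

end Pool.Agent.HF
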