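import Mathlib
import Pool.Agent.Lib.MP_c95b3b_ag_HF.Defs
import Pool.Agent.Lib.MP_c95b3b_ag_HF.ArcFun
import Pool.Agent.Lib.MP_c95b3b_ag_HF.Bezout

/-! Project HF (MP_c95b3b_ag), module CV: finitely many arcs cover. -/

namespace Pool.Agent.HF

open Pool.Agent.L3 Pool.Agent.RS Module

theorem isCompact_KC {M : ℕ} (P : P2 ℂ) (N : Fin M → P2 ℂ) (ρ : ℝ) : IsCompact (KC P N ρ) := by
  have h1 : KC P N ρ = (Set.pi Set.univ fun _ : Fin 2 => Metric.closedBall (0 : ℂ) ρ) ∩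
      ({p | MvPolynomial.eval p P = 0} ∩ ⋂ i, {p : Fin 2 → ℂ | ρ⁻¹ ≤ ‖vN N p i‖}) := by
    ext p
    simp only [KC, Set.mem_ofPred_eq, Set.mem_inter_iff, Set.mem_pi, Set.mem_univ, forall_true_left,
      mem_closedBall_zero_iff, Set.mem_iInter]
    tauto
  rw [h1]
  refine (isCompact_univ_pi fun _ => isCompact_closedBall (0 : ℂ) ρ).inter_right
    (IsClosed.inter ?_ (isClosed_iInter fun i => ?_))
  · exact isClosed_eq (MvPolynomial.continuous_eval P) continuous_const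
  · exact isClosed_le continuous_const (MvPolynomial.continuous_eval (N i)).norm

namespace CV

theorem hasDerivAt_eval {v : ℂ → Fin 2 → ℂ} {v' : Fin 2 → ℂ} {w : ℂ}
    (hv : ∀ i, HasDerivAt (fun w => v w i) (v' i) w) (P : P2 ℂ) :
    HasDerivAt (fun w => MvPolynomial.eval (v w) P)
      (∑ i, v' i * MvPolynomial.eval (v w) (MvPolynomial.pderiv i P)) w := by
  induction P using MvPolynomial.induction_on with
  | C a =>
    simp only [MvPolynomial.eval_C, MvPolynomial.pderiv_C, map_zero, mul_zero,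
      Finset.sum_const_zero]
    exact hasDerivAt_const _ _
  | add p q hp hq =>
    simp only [map_add, mul_add, Finset.sum_add_distrib]
    exact hp.add hq
  | mul_X p i hp =>
    have h := hp.mul (hv i)
    simp only [map_mul, MvPolynomial.eval_X]
    refine h.congr_deriv ?_
    simp only [Derivation.leibniz, smul_eq_mul, map_add, map_mul, MvPolynomial.eval_X,
      MvPolynomial.pderiv_X, mul_add, Finset.sum_add_distrib]
    have h1 : ∑ x : Fin 2, v' x * (MvPolynomial.eval (v w) p *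
        MvPolynomial.eval (v w) ((Pi.single x 1 : Fin 2 → P2 ℂ) i)) =
        MvPolynomial.eval (v w) p * v' i := by
      rw [Finset.sum_eq_single i]
      · rw [Pi.single_eq_same, map_one, mul_one, mul_comm]
      · intro b _ hb
        rw [Pi.single_eq_of_ne (Ne.symm hb), map_zero, mul_zero, mul_zero]
      · intro hi
        exact absurd (Finset.mem_univ i) hi
    rw [h1, Finset.sum_mul, add_comm]
    congr 1
    apply Finset.sum_congr rfl
    intro x _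
    ring

/-- derivative along a graph -/
theorem hasDerivAt_graph (Q : P2 ℂ) {s : ℂ → ℂ} {t s' : ℂ} (hs : HasDerivAt s s' t) :
    HasDerivAt (fun t => MvPolynomial.eval ![t, s t] Q)
      (MvPolynomial.eval ![t, s t] (MvPolynomial.pderiv 0 Q) +
        s' * MvPolynomial.eval ![t, s t] (MvPolynomial.pderiv 1 Q)) t := by
  have h := hasDerivAt_eval (v := fun t => ![t, s t]) (v' := ![1, s']) (w := t) (fun i => by
    fin_cases i
    · simpa using hasDerivAt_id' t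
    · simpa using hs) Q
  rw [Fin.sum_univ_two] at h
  simpa using h

theorem contDiff_eval (P : P2 ℂ) :
    ContDiff ℂ 1 (fun u : ℂ × ℂ => MvPolynomial.eval ![u.1, u.2] P) := by
  induction P using MvPolynomial.induction_on with
  | C a =>
    simp only [MvPolynomial.eval_C]
    exact contDiff_const
  | add p q hp hq =>
    simp only [map_add]
    exact hp.add hq
  | mul_X p i hp =>
    simp only [map_mul, MvPolynomial.eval_X]
    refine hp.mul ?_
    fin_cases i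
    · exact contDiff_fst
    · exact contDiff_snd

theorem vec_eq (p : Fin 2 → ℂ) : ![p 0, p 1] = p := by
  ext i
  fin_cases i <;> rfl

theorem exists_implicit (P : P2 ℂ) (p : Fin 2 → ℂ) (hp : MvPolynomial.eval p P = 0)
    (hp1 : MvPolynomial.eval p (MvPolynomial.pderiv 1 P) ≠ 0) :
    ∃ (U : Set ℂ) (s : ℂ → ℂ), IsOpen U ∧ p 0 ∈ U ∧ DifferentiableOn ℂ s U ∧ s (p 0) = p 1 ∧
      (∀ t ∈ U, MvPolynomial.eval ![t, s t] P = 0) ∧
      ∃ O ∈ nhds p, ∀ x ∈ O, MvPolynomial.eval x P = 0 → x 0 ∈ U ∧ x 1 = s (x 0) := by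
  set f : ℂ × ℂ → ℂ := fun u => MvPolynomial.eval ![u.1, u.2] P with hf
  set u : ℂ × ℂ := (p 0, p 1) with hu
  have hfu : f u = 0 := by
    simp only [hf, hu, vec_eq, hp]
  have hcd : ContDiff ℂ 1 f := contDiff_eval P
  have cdf : ContDiffAt ℂ 1 f u := hcd.contDiffAt
  have hone : (1 : WithTop ℕ∞) ≠ 0 := one_ne_zero
  have hd : (fderiv ℂ f u) (0, 1) = MvPolynomial.eval p (MvPolynomial.pderiv 1 P) := by
    have h1 : HasDerivAt (fun w : ℂ => ((p 0, w) : ℂ × ℂ)) (0, 1) (p 1) :=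
      (hasDerivAt_const _ _).prodMk (hasDerivAt_id _)
    have h2 : HasFDerivAt f (fderiv ℂ f u) ((fun w : ℂ => ((p 0, w) : ℂ × ℂ)) (p 1)) :=
      (cdf.differentiableAt hone).hasFDerivAt
    have h3 := h2.comp_hasDerivAt (p 1) h1
    have h4 := hasDerivAt_eval (v := fun w => ![p 0, w]) (v' := ![0, 1]) (w := p 1) (fun i => by
      fin_cases i
      · simpa using hasDerivAt_const _ _
      · simpa using hasDerivAt_id' (p 1)) P
    rw [Fin.sum_univ_two] at h4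
    have h5 := h3.unique h4
    rw [h5, vec_eq]
    simp
  have if₂ : (fderiv ℂ f u ∘L .inr ℂ ℂ ℂ).IsInvertible := by
    refine ⟨ContinuousLinearEquiv.unitsEquivAut ℂ (Units.mk0 _ hp1), ?_⟩
    ext
    simp [ContinuousLinearEquiv.unitsEquivAut_apply, hd]
  set s : ℂ → ℂ := cdf.implicitFunction hone if₂ with hs
  have hs0 : s (p 0) = p 1 := cdf.implicitFunction_apply_self hone if₂
  have e1 : ∀ᶠ x in nhds (p 0), f (x, s x) = f u :=
    cdf.eventually_apply_implicitFunction hone if₂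
  have e2 : ∀ᶠ v in nhds u, f v = f u ↔ s v.1 = v.2 :=
    cdf.eventually_apply_eq_iff_implicitFunction hone if₂
  have e3 : ContDiffAt ℂ 1 s (p 0) := cdf.contDiffAt_implicitFunction hone if₂
  have e4 : ∀ᶠ x in nhds (p 0), ContDiffAt ℂ 1 s x := e3.eventually (by simp)
  have e5 : ∀ᶠ x in nhds (p 0), f (x, s x) = f u ∧ ContDiffAt ℂ 1 s x := e1.and e4
  obtain ⟨U, hU1, hU, hpU⟩ := mem_nhds_iff.mp e5
  refine ⟨U, s, hU, hpU, ?_, hs0, ?_, ?_⟩
  · intro t ht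
    exact ((hU1 ht).2.differentiableAt hone).differentiableWithinAt
  · intro t ht
    have := (hU1 ht).1
    rw [hfu] at this
    exact this
  · have c0 : ContinuousAt (fun x : Fin 2 → ℂ => x 0) p := (continuous_apply 0).continuousAt
    have c1 : ContinuousAt (fun x : Fin 2 → ℂ => ((x 0, x 1) : ℂ × ℂ)) p :=
      ((continuous_apply 0).prodMk (continuous_apply 1)).continuousAt
    have m1 : ∀ᶠ x in nhds p, x 0 ∈ U := c0.eventually (hU.mem_nhds hpU)
    have m2 : ∀ᶠ x : Fin 2 → ℂ in nhds p, (f (x 0, x 1) = f u ↔ s (x 0) = x 1) :=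
      c1.eventually e2
    refine ⟨_, m1.and m2, ?_⟩
    rintro x ⟨hx1, hx2⟩ hxP
    refine ⟨hx1, ((hx2.mp ?_)).symm⟩
    rw [hfu]
    simp only [hf, vec_eq, hxP]

theorem local_arc {M : ℕ} (P : P2 ℂ) (N : Fin M → P2 ℂ) (i0 : Fin M)
    (hi0 : N i0 = MvPolynomial.pderiv 1 P) (d : Fin M → ℝ) (p : Fin 2 → ℂ)
    (hp : MvPolynomial.eval p P = 0) (hN : ∀ i, vN N p i ≠ 0) (hz : lgs d (vN N p) = 0)
    (hOm : MvPolynomial.eval p (Om P N d) ≠ 0) :
    ∃ (τ σ : ℂ → ℂ) (G : Fin M → ℂ → ℂ), DifferentiableOn ℂ τ (Metric.ball 0 3) ∧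
      DifferentiableOn ℂ σ (Metric.ball 0 3) ∧
      (∀ i, DifferentiableOn ℂ (G i) (Metric.ball 0 3)) ∧
      (∀ s ∈ Metric.ball (0 : ℂ) 3, MvPolynomial.eval ![τ s, σ s] P = 0 ∧
        ∀ i, vN N ![τ s, σ s] i ≠ 0) ∧
      Set.InjOn τ (Metric.ball 0 3) ∧
      (∀ y : ℝ, |y| < 3 → (∀ i, G i y = ((Real.log ‖vN N ![τ y, σ y] i‖ : ℝ) : ℂ)) ∧
        lgs d (vN N ![τ y, σ y]) = 0) ∧
      ∃ O ∈ nhds p, ∀ η : ℝ, 0 < η → ∃ ε : ℝ, 0 < ε ∧
        ∀ x ∈ O, MvPolynomial.eval x P = 0 → |lgs d (vN N x)| ≤ ε →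
          ∃ y : ℝ, |y| ≤ 1 ∧ ‖x 0 - τ y‖ ≤ η ∧ ‖x 1 - σ y‖ ≤ η := by
  obtain ⟨U, s, hU, hpU, hs, hs0, hsP, O, hO, hOx⟩ := exists_implicit P p hp (by
    rw [← hi0]; exact hN i0)
  have hder : ∀ t ∈ U, HasDerivAt s (deriv s t) t := fun t ht =>
    (hs.differentiableAt (hU.mem_nhds ht)).hasDerivAt
  set h : Fin M → ℂ → ℂ := fun i t => vN N ![t, s t] i with hh
  have hhd : ∀ i, ∀ t ∈ U, HasDerivAt (h i)
      (MvPolynomial.eval ![t, s t] (MvPolynomial.pderiv 0 (N i)) +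
        deriv s t * MvPolynomial.eval ![t, s t] (MvPolynomial.pderiv 1 (N i))) t :=
    fun i t ht => hasDerivAt_graph (N i) (hder t ht)
  have hhU : ∀ i, DifferentiableOn ℂ (h i) U := fun i t ht =>
    (hhd i t ht).differentiableAt.differentiableWithinAt
  have hv0 : ![p 0, s (p 0)] = p := by rw [hs0, vec_eq]
  have hh0 : ∀ i, h i (p 0) = vN N p i := fun i => by
    simp only [hh, hv0]
  -- the domain
  set U' : Set ℂ := U ∩ (fun t i => h i t) ⁻¹' {v : Fin M → ℂ | ∀ i, v i ≠ 0} with hU'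
  have hop : IsOpen {v : Fin M → ℂ | ∀ i, v i ≠ 0} := by
    have : {v : Fin M → ℂ | ∀ i, v i ≠ 0} = ⋂ i, {v : Fin M → ℂ | v i ≠ 0} := by
      ext v
      simp
    rw [this]
    exact isOpen_iInter_of_finite fun i => isOpen_ne_fun (continuous_apply i) continuous_const
  have hU'o : IsOpen U' := by
    refine ContinuousOn.isOpen_inter_preimage ?_ hU hop
    exact continuousOn_pi.mpr fun i => (hhU i).continuousOn
  have hpU' : p 0 ∈ U' := ⟨hpU, fun i => by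
    show h i (p 0) ≠ 0
    rw [hh0]; exact hN i⟩
  have hU'U : U' ⊆ U := Set.inter_subset_left
  -- the logarithmic derivative
  have hPs : MvPolynomial.eval p (MvPolynomial.pderiv 0 P) +
      deriv s (p 0) * MvPolynomial.eval p (MvPolynomial.pderiv 1 P) = 0 := by
    have h1 := hasDerivAt_graph P (hder _ hpU)
    rw [hv0] at h1
    have h2 : HasDerivAt (fun t => MvPolynomial.eval ![t, s t] P) 0 (p 0) := by
      refine (hasDerivAt_const (p 0) (0 : ℂ)).congr_of_eventuallyEq ?_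
      filter_upwards [hU.mem_nhds hpU] with t ht
      exact hsP t ht
    exact h1.unique h2
  have hOm2 : MvPolynomial.eval p (Om P N d) =
      MvPolynomial.eval p (MvPolynomial.pderiv 1 P) * (∏ k, vN N p k) *
        ∑ i, (d i : ℂ) * (deriv (h i) (p 0) / h i (p 0)) := by
    rw [Om, map_sum, Finset.mul_sum]
    refine Finset.sum_congr rfl fun i _ => ?_
    rw [map_mul, map_mul, MvPolynomial.eval_C, map_prod, hh0, (hhd i _ hpU).deriv, hv0,
      ← Finset.mul_prod_erase Finset.univ (fun k => vN N p k) (Finset.mem_univ i), Dv,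
      map_sub, map_mul, map_mul]
    have h1 : MvPolynomial.eval p (MvPolynomial.pderiv 0 P) =
      - (deriv s (p 0) * MvPolynomial.eval p (MvPolynomial.pderiv 1 P)) := by
      linear_combination hPs
    have h2 : ∏ k ∈ Finset.univ.erase i, MvPolynomial.eval p (N k) =
      ∏ k ∈ Finset.univ.erase i, vN N p k := rfl
    rw [h1, h2]
    have h3 := hN i
    field_simp
    ring
  have hsum : ∑ i, (d i : ℂ) * (deriv (h i) (p 0) / h i (p 0)) ≠ 0 := by
    intro h0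
    rw [hOm2, h0, mul_zero] at hOm
    exact hOm rfl
  obtain ⟨τ, G, hτ, hG, hτU, hinj, hval, W, hW, hWη⟩ := exists_arc_fun h U' hU'o (p 0) hpU'
    (fun i => (hhU i).mono hU'U) (fun i z hz => hz.2 i) d
    (by
      have : (fun i => h i (p 0)) = vN N p := by
        ext i; exact hh0 i
      rw [this]; exact hz) hsum
  refine ⟨τ, fun y => s (τ y), G, hτ, ?_, hG, ?_, hinj, ?_, ?_⟩
  · exact (hs.mono hU'U).comp hτ (fun y hy => hτU y hy)
  · intro y hy
    exact ⟨hsP _ (hU'U (hτU y hy)), fun i => (hτU y hy).2 i⟩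
  · intro y hy
    exact hval y hy
  · -- uniform continuity of `s` near the arc
    have hseg : IsCompact ((fun y : ℝ => (y : ℂ)) '' Set.Icc (-1) 1) :=
      isCompact_Icc.image Complex.continuous_ofReal
    have hseg3 : (fun y : ℝ => (y : ℂ)) '' Set.Icc (-1) 1 ⊆ Metric.ball (0 : ℂ) 3 := by
      rintro _ ⟨y, hy, rfl⟩
      rw [mem_ball_zero_iff]
      simp only [Complex.norm_real, Real.norm_eq_abs]
      have := abs_le.mpr hy
      linarith
    have hK : IsCompact (τ '' ((fun y : ℝ => (y : ℂ)) '' Set.Icc (-1) 1)) :=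
      hseg.image_of_continuousOn (hτ.continuousOn.mono hseg3)
    have hKc : ∀ a ∈ τ '' ((fun y : ℝ => (y : ℂ)) '' Set.Icc (-1) 1), ContinuousAt s a := by
      rintro _ ⟨y, hy, rfl⟩
      exact (hs.differentiableAt (hU.mem_nhds (hU'U (hτU y (hseg3 hy))))).continuousAt
    refine ⟨O ∩ {x | x 0 ∈ W}, Filter.inter_mem hO
      ((continuous_apply 0).continuousAt.preimage_mem_nhds hW), ?_⟩
    intro η hη
    have huc := hK.uniformContinuousAt_of_continuousAt s hKc (Metric.dist_mem_uniformity hη)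
    obtain ⟨η', hη', hη'2⟩ := Metric.mem_uniformity_dist.mp huc
    obtain ⟨ε, hε, hε2⟩ := hWη (min η (η' / 2)) (lt_min hη (by linarith))
    refine ⟨ε, hε, ?_⟩
    rintro x ⟨hxO, hxW⟩ hxP hxε
    obtain ⟨hxU, hx1⟩ := hOx x hxO hxP
    have hvx : ![x 0, s (x 0)] = x := by rw [← hx1, vec_eq]
    have hlx : lgs d (fun i => h i (x 0)) = lgs d (vN N x) := by
      simp only [hh, hvx]
    obtain ⟨y, hy1, hy2⟩ := hε2 (x 0) hxW (by rw [hlx]; exact hxε)
    refine ⟨y, hy1, hy2.trans (min_le_left _ _), ?_⟩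
    have hmem : τ y ∈ τ '' ((fun y : ℝ => (y : ℂ)) '' Set.Icc (-1) 1) :=
      ⟨y, ⟨y, abs_le.mp hy1, rfl⟩, rfl⟩
    have hdist : dist (τ y) (x 0) < η' := by
      rw [dist_comm, dist_eq_norm]
      have := hy2.trans (min_le_right _ _)
      linarith
    have h5 : dist (s (τ y)) (s (x 0)) < η := hη'2 hdist hmem
    rw [hx1, ← dist_eq_norm, dist_comm]
    exact h5.le

theorem continuousOn_lgs {M : ℕ} (P : P2 ℂ) (N : Fin M → P2 ℂ) (d : Fin M → ℝ) {ρ : ℝ}
    (hρ : 0 < ρ) : ContinuousOn (fun p => lgs d (vN N p)) (KC P N ρ) := by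
  unfold lgs
  refine continuousOn_finsetSum _ fun i _ => ?_
  refine continuousOn_const.mul (ContinuousOn.log ?_ ?_)
  · exact (MvPolynomial.continuous_eval (N i)).norm.continuousOn
  · intro p hp
    exact ((inv_pos.mpr hρ).trans_le (hp.2.2 i)).ne'

theorem exists_lower {q : ℕ} (f : Fin q → ℝ) (hf : ∀ l, 0 < f l) :
    ∃ ε : ℝ, 0 < ε ∧ ∀ l, ε ≤ f l := by
  rcases Nat.eq_zero_or_pos q with h | h
  · subst h
    exact ⟨1, one_pos, fun l => l.elim0⟩
  · have : Nonempty (Fin q) := ⟨⟨0, h⟩⟩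
    obtain ⟨l, hl⟩ := Finite.exists_min f
    exact ⟨f l, hf l, hl⟩

end CV

theorem coverC {M : ℕ} (P : P2 ℂ) (hP : Irreducible P) (h1 : P.degreeOf 1 ≠ 0)
    (N : Fin M → P2 ℂ) (i0 : Fin M) (hi0 : N i0 = MvPolynomial.pderiv 1 P) (d : Fin M → ℝ)
    (hd : ¬ P ∣ Om P N d) :
    ∃ Z : Finset ℂ, ∀ ρ δ : ℝ, 0 < ρ → 0 < δ →
      ∃ (q : ℕ) (τ σ : Fin q → ℂ → ℂ) (G : Fin q → Fin M → ℂ → ℂ),
        (∀ l, DifferentiableOn ℂ (τ l) (Metric.ball 0 3)) ∧
        (∀ l, DifferentiableOn ℂ (σ l) (Metric.ball 0 3)) ∧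
        (∀ l i, DifferentiableOn ℂ (G l i) (Metric.ball 0 3)) ∧
        (∀ l, ∀ s ∈ Metric.ball (0 : ℂ) 3, MvPolynomial.eval ![τ l s, σ l s] P = 0 ∧
          ∀ i, vN N ![τ l s, σ l s] i ≠ 0) ∧
        (∀ l, Set.InjOn (τ l) (Metric.ball 0 3)) ∧
        (∀ l, ∀ y : ℝ, |y| < 3 →
          (∀ i, G l i y = ((Real.log ‖vN N ![τ l y, σ l y] i‖ : ℝ) : ℂ)) ∧
          lgs d (vN N ![τ l y, σ l y]) = 0) ∧
        ∀ η : ℝ, 0 < η → ∃ ε : ℝ, 0 < ε ∧ ∀ p ∈ KC P N ρ, |lgs d (vN N p)| ≤ ε →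
          (∃ z ∈ Z, ‖p 0 - z‖ < δ) ∨
          ∃ (l : Fin q) (y : ℝ), |y| ≤ 1 ∧ ‖p 0 - τ l y‖ ≤ η ∧ ‖p 1 - σ l y‖ ≤ η := by
  classical
  obtain ⟨w, hw0, hw⟩ := bezout P (Om P N d) hP h1 hd
  have hwZ : ∀ p : Fin 2 → ℂ, MvPolynomial.eval p P = 0 → MvPolynomial.eval p (Om P N d) = 0 →
      p 0 ∈ w.roots.toFinset := by
    intro p hp1 hp2
    rw [Multiset.mem_toFinset, Polynomial.mem_roots hw0, Polynomial.IsRoot.def]
    exact hw ℂ (RingHom.id ℂ) p hp1 hp2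
  refine ⟨w.roots.toFinset, fun ρ δ hρ hδ => ?_⟩
  -- the points far from the critical points
  set Y : Set (Fin 2 → ℂ) := {p | ∀ z ∈ w.roots.toFinset, δ ≤ ‖p 0 - z‖} with hY
  have hYc : IsClosed Y := by
    have : Y = ⋂ (z : ℂ) (_ : z ∈ w.roots.toFinset), {p : Fin 2 → ℂ | δ ≤ ‖p 0 - z‖} := by
      ext p
      simp [hY]
    rw [this]
    refine isClosed_iInter fun z => isClosed_iInter fun _ => ?_
    exact isClosed_le continuous_const ((continuous_apply 0).sub continuous_const).norm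
  have hX1 : IsCompact (KC P N ρ ∩ Y) := (isCompact_KC P N ρ).inter_right hYc
  have hcont : ContinuousOn (fun p => lgs d (vN N p)) (KC P N ρ ∩ Y) :=
    (CV.continuousOn_lgs P N d hρ).mono Set.inter_subset_left
  have hX0 : IsCompact ((KC P N ρ ∩ Y) ∩ (fun p => lgs d (vN N p)) ⁻¹' {0}) := by
    obtain ⟨u, hu, hu2⟩ := (continuousOn_iff_isClosed.mp hcont) {0} isClosed_singleton
    rw [Set.inter_comm, hu2, Set.inter_comm]
    exact hX1.inter_right hu
  have harc : ∀ p ∈ (KC P N ρ ∩ Y) ∩ (fun p => lgs d (vN N p)) ⁻¹' {0},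
      ∃ (τ σ : ℂ → ℂ) (G : Fin M → ℂ → ℂ), DifferentiableOn ℂ τ (Metric.ball 0 3) ∧
      DifferentiableOn ℂ σ (Metric.ball 0 3) ∧
      (∀ i, DifferentiableOn ℂ (G i) (Metric.ball 0 3)) ∧
      (∀ s ∈ Metric.ball (0 : ℂ) 3, MvPolynomial.eval ![τ s, σ s] P = 0 ∧
        ∀ i, vN N ![τ s, σ s] i ≠ 0) ∧
      Set.InjOn τ (Metric.ball 0 3) ∧
      (∀ y : ℝ, |y| < 3 → (∀ i, G i y = ((Real.log ‖vN N ![τ y, σ y] i‖ : ℝ) : ℂ)) ∧
        lgs d (vN N ![τ y, σ y]) = 0) ∧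
      ∃ O ∈ nhds p, ∀ η : ℝ, 0 < η → ∃ ε : ℝ, 0 < ε ∧
        ∀ x ∈ O, MvPolynomial.eval x P = 0 → |lgs d (vN N x)| ≤ ε →
          ∃ y : ℝ, |y| ≤ 1 ∧ ‖x 0 - τ y‖ ≤ η ∧ ‖x 1 - σ y‖ ≤ η := by
    rintro p ⟨⟨hp, hpY⟩, hp0⟩
    refine CV.local_arc P N i0 hi0 d p hp.1 (fun i => ?_) hp0 (fun h => ?_)
    · exact norm_ne_zero_iff.mp ((inv_pos.mpr hρ).trans_le (hp.2.2 i)).ne'
    · have := hpY _ (hwZ p hp.1 h)
      rw [sub_self, norm_zero] at this
      linarith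
  choose! τ σ G hτ hσ hG hball hinj hval O hO hOη using harc
  obtain ⟨t, htX, htc⟩ := hX0.elim_nhds_subcover (fun p => interior (O p))
    (fun p hp => interior_mem_nhds.mpr (hO p hp))
  let e : Fin t.card ≃ t := t.equivFin.symm
  have he : ∀ l, ((e l : t) : Fin 2 → ℂ) ∈
      (KC P N ρ ∩ Y) ∩ (fun p => lgs d (vN N p)) ⁻¹' {0} := fun l => htX _ (e l).2
  refine ⟨t.card, fun l => τ (e l), fun l => σ (e l), fun l => G (e l), fun l => hτ _ (he l),
    fun l => hσ _ (he l), fun l i => hG _ (he l) i, fun l s hs => hball _ (he l) s hs,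
    fun l => hinj _ (he l), fun l y hy => hval _ (he l) y hy, ?_⟩
  intro η hη
  have hex : ∀ l : Fin t.card, ∃ ε : ℝ, 0 < ε ∧
      ∀ x ∈ O (e l), MvPolynomial.eval x P = 0 → |lgs d (vN N x)| ≤ ε →
      ∃ y : ℝ, |y| ≤ 1 ∧ ‖x 0 - τ (e l) y‖ ≤ η ∧ ‖x 1 - σ (e l) y‖ ≤ η :=
    fun l => hOη _ (he l) η hη
  choose εl hεl hεl2 using hex
  obtain ⟨ε1, hε1, hε1l⟩ := CV.exists_lower εl hεl
  have hX2 : IsCompact ((KC P N ρ ∩ Y) \ ⋃ x ∈ t, interior (O x)) :=
    hX1.diff (isOpen_biUnion fun x _ => isOpen_interior)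
  have hpos : ∀ p ∈ (KC P N ρ ∩ Y) \ ⋃ x ∈ t, interior (O x), 0 < |lgs d (vN N p)| := by
    rintro p ⟨hp1, hp2⟩
    rw [abs_pos]
    intro h
    exact hp2 (htc ⟨hp1, h⟩)
  obtain ⟨ε0, hε0, hε0z⟩ := hX2.exists_forall_le' (f := fun p => |lgs d (vN N p)|)
    ((hcont.mono Set.sdiff_subset).abs) hpos
  refine ⟨min (ε0 / 2) ε1, lt_min (by linarith) hε1, ?_⟩
  intro p hp hpε
  by_cases hpY : p ∈ Y
  · right
    have hpX1 : p ∈ KC P N ρ ∩ Y := ⟨hp, hpY⟩
    by_cases hpU : p ∈ ⋃ x ∈ t, interior (O x)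
    · rw [Set.mem_iUnion₂] at hpU
      obtain ⟨x, hx, hpx⟩ := hpU
      have hex : ((e (e.symm ⟨x, hx⟩) : t) : Fin 2 → ℂ) = x := by rw [Equiv.apply_symm_apply]
      have hpW : p ∈ O (e (e.symm ⟨x, hx⟩) : t) := by
        rw [hex]
        exact interior_subset hpx
      obtain ⟨y, hy1, hy2⟩ := hεl2 (e.symm ⟨x, hx⟩) p hpW hp.1
        ((hpε.trans (min_le_right _ _)).trans (hε1l _))
      exact ⟨e.symm ⟨x, hx⟩, y, hy1, hy2⟩
    · exfalso
      have h1 := hε0z p ⟨hpX1, hpU⟩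
      have h2 := hpε.trans (min_le_left _ _)
      linarith
  · left
    by_contra hcon
    push Not at hcon
    exact hpY hcon

end Pool.Agent.HF
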