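import Mathlib
import Pool.Agent.Lib.MP_c95b3b_ag_HF.Defs
import Pool.Agent.Lib.MP_c95b3b_ag_HF.AnDomain

/-! Project HF (MP_c95b3b_ag), module MF: the field of meromorphic functions, constants and
derivation. -/

namespace Pool.Agent.HF

open Pool.Agent.L3 Pool.Agent.RS Module

/-- the constant functions -/
def cAn : ℂ →+* An where
  toFun c := ⟨fun _ => c, fun _ => c, differentiableOn_const _, fun _ => rfl⟩
  map_one' := rfl
  map_mul' _ _ := rfl
  map_zero' := rfl
  map_add' _ _ := rfl

noncomputable instance algebraMer : Algebra ℂ (FractionRing An) :=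
  ((algebraMap An (FractionRing An)).comp cAn).toAlgebra

namespace MerField

/-- every element of `An` is the class of a function -/
theorem rep (f : An) : ∃ (F : ℂ → ℂ) (hF : DifferentiableOn ℂ F (Metric.ball 0 3)),
    toAn F hF = f := by
  obtain ⟨F, hF, h⟩ := f.2
  exact ⟨F, hF, Subtype.ext (funext fun x => (h x).symm)⟩

theorem eqOn_of_toAn {F G : ℂ → ℂ} {hF : DifferentiableOn ℂ F (Metric.ball 0 3)}
    {hG : DifferentiableOn ℂ G (Metric.ball 0 3)} (h : toAn F hF = toAn G hG) :
    Set.EqOn F G (Metric.ball 0 3) := by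
  intro x hx
  exact congrFun (congrArg Subtype.val h) ⟨x, hx⟩

theorem toAn_congr {F G : ℂ → ℂ} (hF : DifferentiableOn ℂ F (Metric.ball 0 3))
    (hG : DifferentiableOn ℂ G (Metric.ball 0 3)) (h : Set.EqOn F G (Metric.ball 0 3)) :
    toAn F hF = toAn G hG :=
  Subtype.ext (funext fun x => h x.2)

theorem deriv_diff {F : ℂ → ℂ} (hF : DifferentiableOn ℂ F (Metric.ball 0 3)) :
    DifferentiableOn ℂ (deriv F) (Metric.ball 0 3) :=
  hF.deriv Metric.isOpen_ball

theorem deriv_eqOn {F G : ℂ → ℂ} (h : Set.EqOn F G (Metric.ball 0 3)) :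
    Set.EqOn (deriv F) (deriv G) (Metric.ball 0 3) := by
  intro x hx
  exact Filter.EventuallyEq.deriv_eq (Filter.eventuallyEq_of_mem
    (Metric.isOpen_ball.mem_nhds hx) h)

/-- the derivative -/
noncomputable def dAn (f : An) : An :=
  toAn (deriv (rep f).choose) (deriv_diff (rep f).choose_spec.choose)

theorem dAn_toAn {F : ℂ → ℂ} (hF : DifferentiableOn ℂ F (Metric.ball 0 3))
    (hF' : DifferentiableOn ℂ (deriv F) (Metric.ball 0 3)) :
    dAn (toAn F hF) = toAn (deriv F) hF' := by
  unfold dAn
  exact toAn_congr _ _ (deriv_eqOn (eqOn_of_toAn (rep (toAn F hF)).choose_spec.choose_spec))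

theorem dAn_add (f g : An) : dAn (f + g) = dAn f + dAn g := by
  obtain ⟨F, hF, rfl⟩ := rep f
  obtain ⟨G, hG, rfl⟩ := rep g
  have h0 : DifferentiableOn ℂ (fun x => F x + G x) (Metric.ball 0 3) := hF.add hG
  have h1 : toAn F hF + toAn G hG = toAn (fun x => F x + G x) h0 := rfl
  rw [h1, dAn_toAn h0 (deriv_diff h0), dAn_toAn hF (deriv_diff hF),
    dAn_toAn hG (deriv_diff hG)]
  refine Subtype.ext (funext fun x => ?_)
  have h2 := (hF x.1 x.2).differentiableAt (Metric.isOpen_ball.mem_nhds x.2)
  have h3 := (hG x.1 x.2).differentiableAt (Metric.isOpen_ball.mem_nhds x.2)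
  show deriv (fun x => F x + G x) x.1 = deriv F x.1 + deriv G x.1
  exact (h2.hasDerivAt.add h3.hasDerivAt).deriv

theorem dAn_mul (f g : An) : dAn (f * g) = f * dAn g + g * dAn f := by
  obtain ⟨F, hF, rfl⟩ := rep f
  obtain ⟨G, hG, rfl⟩ := rep g
  have h0 : DifferentiableOn ℂ (fun x => F x * G x) (Metric.ball 0 3) := hF.mul hG
  have h1 : toAn F hF * toAn G hG = toAn (fun x => F x * G x) h0 := rfl
  rw [h1, dAn_toAn h0 (deriv_diff h0), dAn_toAn hF (deriv_diff hF),
    dAn_toAn hG (deriv_diff hG)]
  refine Subtype.ext (funext fun x => ?_)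
  have h2 := (hF x.1 x.2).differentiableAt (Metric.isOpen_ball.mem_nhds x.2)
  have h3 := (hG x.1 x.2).differentiableAt (Metric.isOpen_ball.mem_nhds x.2)
  show deriv (fun x => F x * G x) x.1 = F x.1 * deriv G x.1 + G x.1 * deriv F x.1
  have h4 : deriv (fun x => F x * G x) x.1 = deriv F x.1 * G x.1 + F x.1 * deriv G x.1 :=
    (h2.hasDerivAt.mul h3.hasDerivAt).deriv
  rw [h4]
  ring

theorem dAn_const (c : ℂ) : dAn (cAn c) = 0 := by
  have h1 : cAn c = toAn (fun _ => c) (differentiableOn_const _) := rfl
  rw [h1, dAn_toAn _ (deriv_diff (differentiableOn_const _))]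
  refine Subtype.ext (funext fun x => ?_)
  show deriv (fun _ => c) x.1 = 0
  exact deriv_const _ _

theorem dAn_zero : dAn 0 = 0 := by
  have := dAn_const 0
  rwa [map_zero] at this

theorem dAn_one : dAn 1 = 0 := by
  have := dAn_const 1
  rwa [map_one] at this

/-- a dual number -/
noncomputable def dn (a b : FractionRing An) : TrivSqZeroExt (FractionRing An) (FractionRing An) :=
  TrivSqZeroExt.inl a + TrivSqZeroExt.inr b

theorem fst_dn (a b : FractionRing An) : (dn a b).fst = a := by simp [dn]

theorem snd_dn (a b : FractionRing An) : (dn a b).snd = b := by simp [dn]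

/-- the homomorphism `f ↦ f + ε f'` to the dual numbers -/
noncomputable def dualHom : An →+* TrivSqZeroExt (FractionRing An) (FractionRing An) where
  toFun f := dn (algebraMap An (FractionRing An) f) (algebraMap An (FractionRing An) (dAn f))
  map_one' := by
    refine TrivSqZeroExt.ext ?_ ?_
    · rw [fst_dn, map_one, TrivSqZeroExt.fst_one]
    · rw [snd_dn, dAn_one, map_zero, TrivSqZeroExt.snd_one]
  map_zero' := by
    refine TrivSqZeroExt.ext ?_ ?_
    · rw [fst_dn, map_zero, TrivSqZeroExt.fst_zero]
    · rw [snd_dn, dAn_zero, map_zero, TrivSqZeroExt.snd_zero]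
  map_add' f g := by
    refine TrivSqZeroExt.ext ?_ ?_
    · rw [TrivSqZeroExt.fst_add, fst_dn, fst_dn, fst_dn, map_add]
    · rw [TrivSqZeroExt.snd_add, snd_dn, snd_dn, snd_dn, dAn_add, map_add]
  map_mul' f g := by
    refine TrivSqZeroExt.ext ?_ ?_
    · rw [TrivSqZeroExt.fst_mul, fst_dn, fst_dn, fst_dn, map_mul]
    · rw [TrivSqZeroExt.snd_mul, fst_dn, fst_dn, snd_dn, snd_dn, snd_dn, dAn_mul, map_add,
        map_mul, map_mul, smul_eq_mul, op_smul_eq_mul]
      ring

theorem dualHom_unit (y : nonZeroDivisors An) : IsUnit (dualHom y) := by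
  rw [TrivSqZeroExt.isUnit_iff_isUnit_fst]
  have h : (dualHom y).fst = algebraMap An (FractionRing An) y := fst_dn _ _
  rw [h]
  exact IsLocalization.map_units (FractionRing An) y

/-- the extension to the field of fractions -/
noncomputable def dualLift :
    FractionRing An →+* TrivSqZeroExt (FractionRing An) (FractionRing An) :=
  IsLocalization.lift (M := nonZeroDivisors An) (g := dualHom) dualHom_unit

theorem dualLift_am (f : An) : dualLift (algebraMap An (FractionRing An) f) = dualHom f :=
  IsLocalization.lift_eq _ _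

/-- the first component -/
noncomputable def fstR :
    TrivSqZeroExt (FractionRing An) (FractionRing An) →+* FractionRing An where
  toFun x := x.fst
  map_one' := TrivSqZeroExt.fst_one
  map_zero' := TrivSqZeroExt.fst_zero
  map_add' _ _ := TrivSqZeroExt.fst_add _ _
  map_mul' _ _ := TrivSqZeroExt.fst_mul _ _

theorem dualLift_fst (x : FractionRing An) : (dualLift x).fst = x := by
  have h : (fstR.comp dualLift) = RingHom.id (FractionRing An) := by
    refine IsLocalization.ringHom_ext (nonZeroDivisors An) ?_
    refine RingHom.ext fun f => ?_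
    show (dualLift (algebraMap An (FractionRing An) f)).fst = algebraMap An (FractionRing An) f
    rw [dualLift_am]
    exact fst_dn _ _
  exact RingHom.congr_fun h x

theorem smul_eq (c : ℂ) (x : FractionRing An) :
    c • x = algebraMap An (FractionRing An) (cAn c) * x := rfl

/-- the derivation -/
noncomputable def derMer : Derivation ℂ (FractionRing An) (FractionRing An) :=
  Derivation.mk'
    { toFun := fun x => (dualLift x).snd
      map_add' := fun x y => by
        have h := RingHom.map_add dualLift x y
        rw [h, TrivSqZeroExt.snd_add]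
      map_smul' := fun c x => by
        have h1 : (dualHom (cAn c)).fst = algebraMap An (FractionRing An) (cAn c) := fst_dn _ _
        have h2 : (dualHom (cAn c)).snd = 0 := by
          have h3 : (dualHom (cAn c)).snd = algebraMap An (FractionRing An) (dAn (cAn c)) :=
            snd_dn _ _
          rw [h3, dAn_const, map_zero]
        rw [smul_eq, RingHom.map_mul dualLift, TrivSqZeroExt.snd_mul, dualLift_am, h1, h2,
          smul_zero, add_zero]
        rfl }
    (fun x y => by
      show (dualLift (x * y)).snd = x * (dualLift y).snd + y * (dualLift x).snd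
      rw [RingHom.map_mul dualLift, TrivSqZeroExt.snd_mul, dualLift_fst, dualLift_fst,
        smul_eq_mul, op_smul_eq_mul]
      ring)

end MerField

open MerField in
theorem exists_derMer : ∃ D0 : Derivation ℂ (FractionRing An) (FractionRing An),
    ∀ (F : ℂ → ℂ) (hF : DifferentiableOn ℂ F (Metric.ball 0 3))
      (hF' : DifferentiableOn ℂ (deriv F) (Metric.ball 0 3)),
      D0 (am F hF) = am (deriv F) hF' := by
  refine ⟨derMer, fun F hF hF' => ?_⟩
  show (dualLift (algebraMap An (FractionRing An) (toAn F hF))).snd =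
    algebraMap An (FractionRing An) (toAn (deriv F) hF')
  rw [dualLift_am, ← dAn_toAn hF hF']
  exact snd_dn _ _

end Pool.Agent.HF
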