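import Mathlib
import Pool.Agent.Lib.MP_c95b3b_ag_HF.Defs
import Pool.Agent.Lib.MP_c95b3b_ag_HF.AnDomain
import Pool.Agent.Lib.MP_c95b3b_ag_HF.Bezout
import Pool.Agent.Lib.MP_c95b3b_ag_HF.Generic
import Pool.Agent.Lib.MP_c95b3b_ag_HF.MerField
import Pool.Agent.Lib.MP_c95b3b_ag_HF.AlgCl
import Pool.Agent.Lib.MP_c95b3b_ag_HF.CoverC

/-! Project HF (MP_c95b3b_ag), module ND: the arc and its conjugate are algebraically dependent. -/

namespace Pool.Agent.HF

open Pool.Agent.L3 Pool.Agent.RS Module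

namespace ND

/-- `x` is the class of the function `F` -/
def Cls (x : FractionRing An) (F : ℂ → ℂ) : Prop :=
  ∃ hF : DifferentiableOn ℂ F (Metric.ball 0 3), am F hF = x

theorem cls_am {F : ℂ → ℂ} (hF : DifferentiableOn ℂ F (Metric.ball 0 3)) : Cls (am F hF) F :=
  ⟨hF, rfl⟩

theorem Cls.eqOn {x : FractionRing An} {F G : ℂ → ℂ} (h : Cls x F) (h' : Cls x G) :
    Set.EqOn F G (Metric.ball 0 3) := by
  obtain ⟨hF, h⟩ := h
  obtain ⟨hG, h'⟩ := h'
  exact MerField.eqOn_of_toAn (hF := hF) (hG := hG)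
    (IsFractionRing.injective An (FractionRing An) (h.trans h'.symm))

theorem Cls.unique {x y : FractionRing An} {F G : ℂ → ℂ} (h : Cls x F) (h' : Cls y G)
    (he : Set.EqOn F G (Metric.ball 0 3)) : x = y := by
  obtain ⟨hF, rfl⟩ := h
  obtain ⟨hG, rfl⟩ := h'
  unfold am
  rw [MerField.toAn_congr hF hG he]

theorem cls_const (c : ℂ) : Cls (algebraMap ℂ (FractionRing An) c) (fun _ => c) :=
  ⟨differentiableOn_const _, rfl⟩

theorem cls_zero : Cls 0 (fun _ => 0) := by
  have h := cls_const 0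
  rwa [map_zero] at h

theorem Cls.mul {x y : FractionRing An} {F G : ℂ → ℂ} (h : Cls x F) (h' : Cls y G) :
    Cls (x * y) (fun z => F z * G z) := by
  obtain ⟨hF, rfl⟩ := h
  obtain ⟨hG, rfl⟩ := h'
  exact ⟨hF.mul hG, map_mul (algebraMap An (FractionRing An)) (toAn F hF) (toAn G hG)⟩

theorem Cls.add {x y : FractionRing An} {F G : ℂ → ℂ} (h : Cls x F) (h' : Cls y G) :
    Cls (x + y) (fun z => F z + G z) := by
  obtain ⟨hF, rfl⟩ := h
  obtain ⟨hG, rfl⟩ := h'
  exact ⟨hF.add hG, map_add (algebraMap An (FractionRing An)) (toAn F hF) (toAn G hG)⟩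

theorem Cls.aeval {x y : FractionRing An} {F G : ℂ → ℂ} (hx : Cls x F) (hy : Cls y G)
    (R : MvPolynomial (Fin 2) ℂ) :
    Cls (MvPolynomial.aeval ![x, y] R) (fun z => MvPolynomial.eval ![F z, G z] R) := by
  induction R using MvPolynomial.induction_on with
  | C a =>
    simp only [MvPolynomial.aeval_C, MvPolynomial.eval_C]
    exact cls_const a
  | add p q hp hq =>
    simp only [map_add]
    exact hp.add hq
  | mul_X p i hp =>
    simp only [map_mul, MvPolynomial.aeval_X, MvPolynomial.eval_X]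
    refine hp.mul ?_
    fin_cases i
    · exact hx
    · exact hy

theorem Cls.paeval {x : FractionRing An} {F : ℂ → ℂ} (hx : Cls x F) (p : Polynomial ℂ) :
    Cls (Polynomial.aeval x p) (fun z => p.eval (F z)) := by
  induction p using Polynomial.induction_on with
  | C a =>
    simp only [Polynomial.aeval_C, Polynomial.eval_C]
    exact cls_const a
  | add p q hp hq =>
    simp only [map_add, Polynomial.eval_add]
    exact hp.add hq
  | monomial n a hp =>
    have h := hp.mul hx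
    have e1 : Polynomial.aeval x (Polynomial.C a * Polynomial.X ^ (n + 1)) =
        Polynomial.aeval x (Polynomial.C a * Polynomial.X ^ n) * x := by
      rw [pow_succ, ← mul_assoc, map_mul, Polynomial.aeval_X]
    have e2 : (fun z => (Polynomial.C a * Polynomial.X ^ (n + 1)).eval (F z)) =
        fun z => (Polynomial.C a * Polynomial.X ^ n).eval (F z) * F z := by
      funext z
      rw [pow_succ, ← mul_assoc, Polynomial.eval_mul, Polynomial.eval_X]
    rw [e1, e2]
    exact h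

/-- the conjugate polynomial -/
theorem eval_cj (τ σ : ℂ → ℂ) (R : MvPolynomial (Fin 2) ℂ) (z : ℂ) :
    MvPolynomial.eval ![cj τ z, cj σ z] (MvPolynomial.map (starRingEnd ℂ) R) =
      (starRingEnd ℂ) (MvPolynomial.eval
        ![τ ((starRingEnd ℂ) z), σ ((starRingEnd ℂ) z)] R) := by
  induction R using MvPolynomial.induction_on with
  | C a => simp only [MvPolynomial.map_C, MvPolynomial.eval_C]
  | add p q hp hq => simp only [map_add, hp, hq]
  | mul_X p i hp =>
    simp only [map_mul, MvPolynomial.map_X, MvPolynomial.eval_X, hp]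
    congr 1
    fin_cases i <;> rfl

theorem conj_mem_ball {z : ℂ} (hz : z ∈ Metric.ball (0 : ℂ) 3) :
    (starRingEnd ℂ) z ∈ Metric.ball (0 : ℂ) 3 := by
  rw [mem_ball_zero_iff] at hz ⊢
  rwa [RCLike.norm_conj]

theorem real_mem_ball {y : ℝ} (hy : |y| < 3) : (y : ℂ) ∈ Metric.ball (0 : ℂ) 3 := by
  rw [mem_ball_zero_iff, Complex.norm_real]
  exact hy

/-- an injective function on the ball is not a root of a polynomial -/
theorem poly_zero {τ : ℂ → ℂ} (hinj : Set.InjOn τ (Metric.ball 0 3)) (w : Polynomial ℂ)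
    (h : ∀ z ∈ Metric.ball (0 : ℂ) 3, w.eval (τ z) = 0) : w = 0 := by
  refine Polynomial.eq_zero_of_infinite_isRoot w ?_
  have h1 : (τ '' Metric.ball 0 3).Infinite := by
    refine Set.Infinite.image hinj ?_
    have h2 : (Metric.ball (0 : ℂ) 3) ∈ nhds (0 : ℂ) := Metric.ball_mem_nhds _ (by norm_num)
    exact infinite_of_mem_nhds (0 : ℂ) h2
  refine h1.mono ?_
  rintro _ ⟨z, hz, rfl⟩
  exact h z hz

theorem transc_of_inj {x : FractionRing An} {τ : ℂ → ℂ} (hx : Cls x τ)
    (hinj : Set.InjOn τ (Metric.ball 0 3)) : Transcendental ℂ x := by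
  rintro ⟨p, hp, h⟩
  refine hp (poly_zero hinj p fun z hz => ?_)
  have h1 := hx.paeval p
  rw [h] at h1
  exact h1.eqOn cls_zero hz

/-- a quotient of polynomials in two dependent elements -/
theorem dep_ratio {K : Type} [Field K] [Algebra ℂ K] (x y : K) (hx : Transcendental ℂ x)
    (P : P2 ℂ) (hP : P ≠ 0) (h : MvPolynomial.aeval ![x, y] P = 0) (A B : P2 ℂ) :
    ∃ R : P2 ℂ, R ≠ 0 ∧ MvPolynomial.aeval
      ![x, MvPolynomial.aeval ![x, y] B / MvPolynomial.aeval ![x, y] A] R = 0 := by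
  obtain ⟨R', hR', h'⟩ := AC.swap_rel x y P hP h
  have hy := AC.alg_of_rel x hx y R' hR' h'
  have hx' : IsAlgebraic (IntermediateField.adjoin ℂ {x}) x := by
    have h1 := isAlgebraic_algebraMap (R := IntermediateField.adjoin ℂ {x}) (A := K)
      (⟨x, IntermediateField.mem_adjoin_simple_self ℂ x⟩ : IntermediateField.adjoin ℂ {x})
    exact h1
  have hQ : ∀ Q : P2 ℂ, IsAlgebraic (IntermediateField.adjoin ℂ {x})
      (MvPolynomial.aeval ![x, y] Q) := by
    intro Q
    induction Q using MvPolynomial.induction_on with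
    | C a =>
      rw [MvPolynomial.aeval_C]
      have h1 := isAlgebraic_algebraMap (R := IntermediateField.adjoin ℂ {x}) (A := K)
        (algebraMap ℂ (IntermediateField.adjoin ℂ {x}) a)
      exact h1
    | add p q hp hq =>
      rw [map_add]
      exact hp.add hq
    | mul_X p i hp =>
      rw [map_mul, MvPolynomial.aeval_X]
      refine hp.mul ?_
      fin_cases i
      · exact hx'
      · exact hy
  refine AC.rel_of_alg x _ _ hx' ?_
  rw [div_eq_mul_inv]
  exact (hQ B).mul (hQ A).inv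

/-- the chain rule along the arc -/
theorem hasDerivAt_arc (Q : P2 ℂ) {τ σ : ℂ → ℂ} (hτ : DifferentiableOn ℂ τ (Metric.ball 0 3))
    (hσ : DifferentiableOn ℂ σ (Metric.ball 0 3)) {z : ℂ} (hz : z ∈ Metric.ball (0 : ℂ) 3) :
    HasDerivAt (fun z => MvPolynomial.eval ![τ z, σ z] Q)
      (deriv τ z * MvPolynomial.eval ![τ z, σ z] (MvPolynomial.pderiv 0 Q) +
        deriv σ z * MvPolynomial.eval ![τ z, σ z] (MvPolynomial.pderiv 1 Q)) z := by
  have h1 := (hτ.differentiableAt (Metric.isOpen_ball.mem_nhds hz)).hasDerivAt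
  have h2 := (hσ.differentiableAt (Metric.isOpen_ball.mem_nhds hz)).hasDerivAt
  have h := CV.hasDerivAt_eval (v := fun t => ![τ t, σ t]) (v' := ![deriv τ z, deriv σ z])
    (w := z) (fun i => by
    fin_cases i
    · simpa using h1
    · simpa using h2) Q
  rw [Fin.sum_univ_two] at h
  simpa using h

/-- the numerator of the logarithmic derivative along the arc -/
theorem eval_Om {M : ℕ} (P : P2 ℂ) (N : Fin M → P2 ℂ) (d : Fin M → ℝ) {τ σ : ℂ → ℂ}
    (hτ : DifferentiableOn ℂ τ (Metric.ball 0 3)) (hσ : DifferentiableOn ℂ σ (Metric.ball 0 3))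
    (hP0 : ∀ z ∈ Metric.ball (0 : ℂ) 3, MvPolynomial.eval ![τ z, σ z] P = 0 ∧
      ∀ i, vN N ![τ z, σ z] i ≠ 0) {z : ℂ} (hz : z ∈ Metric.ball (0 : ℂ) 3) :
    deriv τ z * MvPolynomial.eval ![τ z, σ z] (Om P N d) =
      MvPolynomial.eval ![τ z, σ z] (MvPolynomial.pderiv 1 P) * (∏ k, vN N ![τ z, σ z] k) *
        ∑ i, (d i : ℂ) * (deriv (fun t => vN N ![τ t, σ t] i) z / vN N ![τ z, σ z] i) := by
  have hhd : ∀ i, deriv (fun t => vN N ![τ t, σ t] i) z =
      deriv τ z * MvPolynomial.eval ![τ z, σ z] (MvPolynomial.pderiv 0 (N i)) +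
        deriv σ z * MvPolynomial.eval ![τ z, σ z] (MvPolynomial.pderiv 1 (N i)) :=
    fun i => (hasDerivAt_arc (N i) hτ hσ hz).deriv
  have hPs : deriv τ z * MvPolynomial.eval ![τ z, σ z] (MvPolynomial.pderiv 0 P) +
      deriv σ z * MvPolynomial.eval ![τ z, σ z] (MvPolynomial.pderiv 1 P) = 0 := by
    have h1 := hasDerivAt_arc P hτ hσ hz
    have h2 : HasDerivAt (fun t => MvPolynomial.eval ![τ t, σ t] P) 0 z := by
      refine (hasDerivAt_const z (0 : ℂ)).congr_of_eventuallyEq ?_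
      filter_upwards [Metric.isOpen_ball.mem_nhds hz] with t ht
      exact (hP0 t ht).1
    exact h1.unique h2
  rw [Om, map_sum, Finset.mul_sum, Finset.mul_sum]
  refine Finset.sum_congr rfl fun i _ => ?_
  rw [map_mul, map_mul, MvPolynomial.eval_C, map_prod, hhd i,
    ← Finset.mul_prod_erase Finset.univ (fun k => vN N ![τ z, σ z] k) (Finset.mem_univ i), Dv,
    map_sub, map_mul, map_mul]
  have h2 : ∏ k ∈ Finset.univ.erase i, MvPolynomial.eval ![τ z, σ z] (N k) =
    ∏ k ∈ Finset.univ.erase i, vN N ![τ z, σ z] k := rfl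
  rw [h2]
  have h3 := (hP0 z hz).2 i
  have h4 : MvPolynomial.eval ![τ z, σ z] (MvPolynomial.pderiv 1 P) *
      (vN N ![τ z, σ z] i * ∏ k ∈ Finset.univ.erase i, vN N ![τ z, σ z] k) *
      ((d i : ℂ) * ((deriv τ z * MvPolynomial.eval ![τ z, σ z] (MvPolynomial.pderiv 0 (N i)) +
        deriv σ z * MvPolynomial.eval ![τ z, σ z] (MvPolynomial.pderiv 1 (N i))) /
          vN N ![τ z, σ z] i)) =
      MvPolynomial.eval ![τ z, σ z] (MvPolynomial.pderiv 1 P) *
      (∏ k ∈ Finset.univ.erase i, vN N ![τ z, σ z] k) *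
      ((d i : ℂ) * (deriv τ z * MvPolynomial.eval ![τ z, σ z] (MvPolynomial.pderiv 0 (N i)) +
        deriv σ z * MvPolynomial.eval ![τ z, σ z] (MvPolynomial.pderiv 1 (N i)))) := by
    field_simp
  rw [h4]
  linear_combination (-((d i : ℂ) * (∏ k ∈ Finset.univ.erase i, vN N ![τ z, σ z] k) *
    MvPolynomial.eval ![τ z, σ z] (MvPolynomial.pderiv 1 (N i)))) * hPs

/-- the logarithmic derivative is purely imaginary at real points -/
theorem re_log_deriv {M : ℕ} (h : Fin M → ℂ → ℂ) (d : Fin M → ℝ)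
    (hh : ∀ i, DifferentiableOn ℂ (h i) (Metric.ball 0 3))
    (hne : ∀ z ∈ Metric.ball (0 : ℂ) 3, ∀ i, h i z ≠ 0)
    (hz : ∀ y : ℝ, |y| < 3 → lgs d (fun i => h i y) = 0) (y : ℝ) (hy : |y| < 3) :
    (∑ i, (d i : ℂ) * (deriv (h i) y / h i y)).re = 0 := by
  have hy' := real_mem_ball hy
  have hev : ∀ᶠ t : ℝ in nhds y, |t| < 3 :=
    (isOpen_lt continuous_abs continuous_const).mem_nhds hy
  -- derivative of the logarithm of the norm
  have key : ∀ i, HasDerivAt (fun t : ℝ => Real.log ‖h i t‖) (deriv (h i) y / h i y).re y := by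
    intro i
    have h1 : HasDerivAt (h i) (deriv (h i) y) y :=
      ((hh i).differentiableAt (Metric.isOpen_ball.mem_nhds hy')).hasDerivAt
    have h2 : HasDerivAt (fun t : ℝ => h i t) (deriv (h i) y) y := h1.comp_ofReal
    have hy0 := hne _ hy' i
    -- normalize at `y`
    have h3 : HasDerivAt (fun t : ℝ => h i t / h i y) (deriv (h i) y / h i y) y :=
      h2.div_const _
    have h4 : HasDerivAt (fun t : ℝ => Complex.log (h i t / h i y))
        (deriv (h i) y / h i y) y := by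
      have h5 := h3.clog_real (by rw [div_self hy0]; exact Complex.one_mem_slitPlane)
      rw [div_self hy0, div_one] at h5
      exact h5
    have h6 : HasDerivAt (fun t : ℝ => (Complex.log (h i t / h i y)).re)
        (deriv (h i) y / h i y).re y := by
      have h7 := Complex.reCLM.hasFDerivAt.comp_hasDerivAt y h4
      exact h7
    have h8 : HasDerivAt (fun t : ℝ => (Complex.log (h i t / h i y)).re + Real.log ‖h i y‖)
        (deriv (h i) y / h i y).re y := h6.add_const _
    refine h8.congr_of_eventuallyEq ?_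
    filter_upwards [hev] with t ht
    have ht0 := hne _ (real_mem_ball ht) i
    rw [Complex.log_re, norm_div, Real.log_div (norm_ne_zero_iff.mpr ht0)
      (norm_ne_zero_iff.mpr hy0)]
    ring
  have h1 : HasDerivAt (fun t : ℝ => ∑ i, d i * Real.log ‖h i t‖)
      (∑ i, d i * (deriv (h i) y / h i y).re) y :=
    HasDerivAt.fun_sum fun i _ => (key i).const_mul (d i)
  have h2 : HasDerivAt (fun t : ℝ => ∑ i, d i * Real.log ‖h i t‖) 0 y := by
    refine (hasDerivAt_const y (0 : ℝ)).congr_of_eventuallyEq ?_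
    filter_upwards [hev] with t ht
    exact hz t ht
  have h3 := h1.unique h2
  rw [Complex.re_sum, ← h3]
  refine Finset.sum_congr rfl fun i _ => ?_
  rw [Complex.re_ofReal_mul]

end ND

open ND in
theorem arc_dep {M : ℕ} (P : P2 ℂ) (hP : Irreducible P) (h1 : P.degreeOf 1 ≠ 0)
    (N : Fin M → P2 ℂ) (i0 : Fin M) (hi0 : N i0 = MvPolynomial.pderiv 1 P) (d d' : Fin M → ℝ)
    (hd : ∀ u v : ℝ, (u ≠ 0 ∨ v ≠ 0) → ¬ P ∣ Om P N (fun i => u * d i + v * d' i))
    (τ σ : ℂ → ℂ) (hτ : DifferentiableOn ℂ τ (Metric.ball 0 3))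
    (hσ : DifferentiableOn ℂ σ (Metric.ball 0 3)) (hinj : Set.InjOn τ (Metric.ball 0 3))
    (hP0 : ∀ z ∈ Metric.ball (0 : ℂ) 3, MvPolynomial.eval ![τ z, σ z] P = 0 ∧
      ∀ i, vN N ![τ z, σ z] i ≠ 0)
    (hz : ∀ y : ℝ, |y| < 3 → lgs d (vN N ![τ y, σ y]) = 0 ∧ lgs d' (vN N ![τ y, σ y]) = 0) :
    ∃ R : MvPolynomial (Fin 2) ℂ, R ≠ 0 ∧
      MvPolynomial.aeval ![am τ hτ, am (cj τ) (differentiableOn_cj hτ)] R = 0 := by
  have hcτ := differentiableOn_cj hτ
  have hcσ := differentiableOn_cj hσ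
  -- the arc is a generic point
  have hgen : ∀ Q : P2 ℂ, ¬ P ∣ Q →
      ¬ ∀ z ∈ Metric.ball (0 : ℂ) 3, MvPolynomial.eval ![τ z, σ z] Q = 0 := by
    intro Q hQ h
    obtain ⟨w, hw0, hw⟩ := bezout P Q hP h1 hQ
    refine hw0 (poly_zero hinj w fun z hz => ?_)
    exact hw ℂ (RingHom.id ℂ) ![τ z, σ z] (hP0 z hz).1 (h z hz)
  -- the numerators
  obtain ⟨A, hA⟩ : ∃ A, A = Om P N d := ⟨_, rfl⟩
  obtain ⟨B, hB⟩ : ∃ B, B = Om P N d' := ⟨_, rfl⟩
  have hlin : ∀ u v : ℝ, Om P N (fun i => u * d i + v * d' i) =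
      MvPolynomial.C (u : ℂ) * A + MvPolynomial.C (v : ℂ) * B := by
    intro u v
    rw [hA, hB]
    simp only [Om, Finset.mul_sum, ← Finset.sum_add_distrib]
    refine Finset.sum_congr rfl fun i _ => ?_
    push_cast
    rw [map_add, map_mul, map_mul]
    ring
  have hAP : ¬ P ∣ A := by
    have h2 := hd 1 0 (Or.inl one_ne_zero)
    rw [hlin] at h2
    simpa using h2
  obtain ⟨T, hT⟩ : ∃ T, T = am τ hτ := ⟨_, rfl⟩
  obtain ⟨S, hS⟩ : ∃ S, S = am σ hσ := ⟨_, rfl⟩
  obtain ⟨cT, hcT⟩ : ∃ cT, cT = am (cj τ) hcτ := ⟨_, rfl⟩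
  obtain ⟨cS, hcS⟩ : ∃ cS, cS = am (cj σ) hcσ := ⟨_, rfl⟩
  have rT : Cls T τ := hT ▸ cls_am hτ
  have rS : Cls S σ := hS ▸ cls_am hσ
  have rcT : Cls cT (cj τ) := hcT ▸ cls_am hcτ
  have rcS : Cls cS (cj σ) := hcS ▸ cls_am hcσ
  rw [← hT, ← hcT]
  have hinjc : Set.InjOn (cj τ) (Metric.ball 0 3) := by
    intro x hx y hy hxy
    have h2 : τ ((starRingEnd ℂ) x) = τ ((starRingEnd ℂ) y) :=
      (starRingEnd ℂ).injective hxy
    exact (starRingEnd ℂ).injective (hinj (conj_mem_ball hx) (conj_mem_ball hy) h2)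
  have hTt : Transcendental ℂ T := transc_of_inj rT hinj
  have hcTt : Transcendental ℂ cT := transc_of_inj rcT hinjc
  -- the values
  obtain ⟨a, ha⟩ : ∃ a, a = MvPolynomial.aeval ![T, S] A := ⟨_, rfl⟩
  obtain ⟨b, hb⟩ : ∃ b, b = MvPolynomial.aeval ![T, S] B := ⟨_, rfl⟩
  obtain ⟨ca, hca⟩ : ∃ ca, ca = MvPolynomial.aeval ![cT, cS]
    (MvPolynomial.map (starRingEnd ℂ) A) := ⟨_, rfl⟩
  obtain ⟨cb, hcb⟩ : ∃ cb, cb = MvPolynomial.aeval ![cT, cS]
    (MvPolynomial.map (starRingEnd ℂ) B) := ⟨_, rfl⟩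
  have ra : Cls a (fun z => MvPolynomial.eval ![τ z, σ z] A) := ha ▸ rT.aeval rS A
  have rb : Cls b (fun z => MvPolynomial.eval ![τ z, σ z] B) := hb ▸ rT.aeval rS B
  have rca : Cls ca (fun z => MvPolynomial.eval ![cj τ z, cj σ z]
    (MvPolynomial.map (starRingEnd ℂ) A)) := hca ▸ rcT.aeval rcS _
  have rcb : Cls cb (fun z => MvPolynomial.eval ![cj τ z, cj σ z]
    (MvPolynomial.map (starRingEnd ℂ) B)) := hcb ▸ rcT.aeval rcS _
  have ha0 : a ≠ 0 := by
    rintro rfl
    exact hgen A hAP fun z hz => ra.eqOn cls_zero hz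
  have hca0 : ca ≠ 0 := by
    rintro rfl
    refine hgen A hAP fun z hz => ?_
    have h2 := rca.eqOn cls_zero (conj_mem_ball hz)
    simp only at h2
    rw [eval_cj, Complex.conj_conj] at h2
    exact (starRingEnd ℂ).injective (h2.trans (map_zero _).symm)
  -- the derivative of the arc
  obtain ⟨T', hT'⟩ : ∃ T', T' = am (deriv τ) (MerField.deriv_diff hτ) := ⟨_, rfl⟩
  obtain ⟨cT', hcT'⟩ : ∃ cT', cT' = am (cj (deriv τ))
    (differentiableOn_cj (MerField.deriv_diff hτ)) := ⟨_, rfl⟩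
  have rT' : Cls T' (deriv τ) := hT' ▸ cls_am _
  have rcT' : Cls cT' (cj (deriv τ)) := hcT' ▸ cls_am _
  have hconst : ¬ ∀ z ∈ Metric.ball (0 : ℂ) 3, deriv τ z = 0 := by
    intro h
    have h0 : (0 : ℂ) ∈ Metric.ball (0 : ℂ) 3 := Metric.mem_ball_self (by norm_num)
    have h1 : (1 : ℂ) ∈ Metric.ball (0 : ℂ) 3 := by
      rw [mem_ball_zero_iff, norm_one]
      norm_num
    have h2 : τ 0 = τ 1 := by
      refine (convex_ball (0 : ℂ) 3).is_const_of_fderivWithin_eq_zero hτ (fun z hz => ?_) h0 h1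
      rw [fderivWithin_of_isOpen Metric.isOpen_ball hz]
      have h3 : HasDerivAt τ 0 z := by
        have h4 := (hτ.differentiableAt (Metric.isOpen_ball.mem_nhds hz)).hasDerivAt
        rwa [h z hz] at h4
      have h5 := h3.hasFDerivAt.fderiv
      rw [h5]
      ext
      simp
    exact zero_ne_one (hinj h0 h1 h2)
  have hT'0 : T' ≠ 0 := by
    rintro rfl
    exact hconst fun z hz => rT'.eqOn cls_zero hz
  have hcT'0 : cT' ≠ 0 := by
    rintro rfl
    refine hconst fun z hz => ?_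
    have h2 := rcT'.eqOn cls_zero (conj_mem_ball hz)
    simp only [cj, Complex.conj_conj] at h2
    exact (starRingEnd ℂ).injective (h2.trans (map_zero _).symm)
  -- the relation on the real axis
  have hreal : ∀ y : ℝ, |y| < 3 →
      MvPolynomial.eval ![τ y, σ y] A * (starRingEnd ℂ) (MvPolynomial.eval ![τ y, σ y] B) *
        (deriv τ y * (starRingEnd ℂ) (deriv τ y)) =
      MvPolynomial.eval ![τ y, σ y] B * (starRingEnd ℂ) (MvPolynomial.eval ![τ y, σ y] A) *
        (deriv τ y * (starRingEnd ℂ) (deriv τ y)) := by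
    intro y hy
    have hy' := real_mem_ball hy
    have hh : ∀ i, DifferentiableOn ℂ (fun z => vN N ![τ z, σ z] i) (Metric.ball 0 3) :=
      fun i z hz => (hasDerivAt_arc (N i) hτ hσ hz).differentiableAt.differentiableWithinAt
    have hne : ∀ z ∈ Metric.ball (0 : ℂ) 3, ∀ i, vN N ![τ z, σ z] i ≠ 0 :=
      fun z hz => (hP0 z hz).2
    have e1 := eval_Om P N d hτ hσ hP0 hy'
    have e2 := eval_Om P N d' hτ hσ hP0 hy'
    have r1 := re_log_deriv (fun i z => vN N ![τ z, σ z] i) d hh hne (fun y hy => (hz y hy).1) y hy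
    have r2 := re_log_deriv (fun i z => vN N ![τ z, σ z] i) d' hh hne (fun y hy => (hz y hy).2)
      y hy
    rw [← hA] at e1
    rw [← hB] at e2
    generalize (∑ i, (d i : ℂ) * (deriv (fun z => vN N ![τ z, σ z] i) y /
      vN N ![τ y, σ y] i)) = L1 at e1 r1
    generalize (∑ i, (d' i : ℂ) * (deriv (fun z => vN N ![τ z, σ z] i) y /
      vN N ![τ y, σ y] i)) = L2 at e2 r2
    generalize MvPolynomial.eval ![τ y, σ y] (MvPolynomial.pderiv 1 P) *
      ∏ k, vN N ![τ y, σ y] k = m at e1 e2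
    have c1 : (starRingEnd ℂ) L1 = - L1 := by
      apply Complex.ext
      · rw [Complex.conj_re, Complex.neg_re, r1, neg_zero]
      · rw [Complex.conj_im, Complex.neg_im]
    have c2 : (starRingEnd ℂ) L2 = - L2 := by
      apply Complex.ext
      · rw [Complex.conj_re, Complex.neg_re, r2, neg_zero]
      · rw [Complex.conj_im, Complex.neg_im]
    have f1 := congrArg (starRingEnd ℂ) e1
    have f2 := congrArg (starRingEnd ℂ) e2
    rw [map_mul, map_mul, c1] at f1
    rw [map_mul, map_mul, c2] at f2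
    linear_combination (deriv τ y * MvPolynomial.eval ![τ y, σ y] A) * f2 +
      (-((starRingEnd ℂ) m * L2)) * e1 -
      (deriv τ y * MvPolynomial.eval ![τ y, σ y] B) * f1 + ((starRingEnd ℂ) m * L1) * e2
  have hrel : a * cb = b * ca := by
    have r1 := ((ra.mul rcb).mul (rT'.mul rcT'))
    have r2 := ((rb.mul rca).mul (rT'.mul rcT'))
    obtain ⟨hF1, hF1'⟩ := r1
    obtain ⟨hF2, hF2'⟩ := r2
    have h3 : Set.EqOn (fun z => MvPolynomial.eval ![τ z, σ z] A *
        MvPolynomial.eval ![cj τ z, cj σ z] (MvPolynomial.map (starRingEnd ℂ) B) *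
        (deriv τ z * cj (deriv τ) z))
        (fun z => MvPolynomial.eval ![τ z, σ z] B *
        MvPolynomial.eval ![cj τ z, cj σ z] (MvPolynomial.map (starRingEnd ℂ) A) *
        (deriv τ z * cj (deriv τ) z)) (Metric.ball 0 3) := by
      have h4 := toAn_eq_zero (F := fun z => (MvPolynomial.eval ![τ z, σ z] A *
        MvPolynomial.eval ![cj τ z, cj σ z] (MvPolynomial.map (starRingEnd ℂ) B) *
        (deriv τ z * cj (deriv τ) z)) - (MvPolynomial.eval ![τ z, σ z] B *
        MvPolynomial.eval ![cj τ z, cj σ z] (MvPolynomial.map (starRingEnd ℂ) A) *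
        (deriv τ z * cj (deriv τ) z))) (hF1.sub hF2) (by
        refine Set.Infinite.mono (s := Set.Icc (-2 : ℝ) 2) ?_ (Set.Icc_infinite (by norm_num))
        intro y hy
        have hy2 : |y| ≤ 2 := abs_le.mpr hy
        refine ⟨hy2, ?_⟩
        have hy3 : |y| < 3 := by linarith
        have h5 := hreal y hy3
        rw [eval_cj, eval_cj, cj_real, Complex.conj_ofReal]
        exact sub_eq_zero.mpr h5)
      intro z hz
      have h5 := congrFun (congrArg Subtype.val h4) ⟨z, hz⟩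
      exact sub_eq_zero.mp h5
    have h4 : a * cb * (T' * cT') = b * ca * (T' * cT') :=
      Cls.unique ⟨hF1, hF1'⟩ ⟨hF2, hF2'⟩ h3
    exact mul_right_cancel₀ (mul_ne_zero hT'0 hcT'0) h4
  -- the quotient
  obtain ⟨f, hf⟩ : ∃ f, f = b / a := ⟨_, rfl⟩
  have hf' : f = cb / ca := by
    rw [hf, div_eq_div_iff ha0 hca0, ← hrel]
    ring
  by_cases hft : Transcendental ℂ f
  · -- the transcendental case
    have hrP : MvPolynomial.aeval ![T, S] P = 0 :=
      (rT.aeval rS P).unique cls_zero fun z hz => (hP0 z hz).1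
    have hrcP : MvPolynomial.aeval ![cT, cS] (MvPolynomial.map (starRingEnd ℂ) P) = 0 :=
      (rcT.aeval rcS _).unique cls_zero fun z hz => by
        simp only
        rw [eval_cj, (hP0 _ (conj_mem_ball hz)).1, map_zero]
    have hcP : MvPolynomial.map (starRingEnd ℂ) P ≠ 0 := by
      intro h
      exact hP.ne_zero ((map_eq_zero_iff _
        (MvPolynomial.map_injective _ (starRingEnd ℂ).injective)).mp h)
    obtain ⟨R1, hR1, h1'⟩ := dep_ratio T S hTt P hP.ne_zero hrP A B
    obtain ⟨R2, hR2, h2'⟩ := dep_ratio cT cS hcTt _ hcP hrcP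
      (MvPolynomial.map (starRingEnd ℂ) A) (MvPolynomial.map (starRingEnd ℂ) B)
    rw [← ha, ← hb, ← hf] at h1'
    rw [← hca, ← hcb, ← hf'] at h2'
    exact AC.rel_of_alg f T cT (AC.alg_of_rel f hft T R1 hR1 h1')
      (AC.alg_of_rel f hft cT R2 hR2 h2')
  · -- the constant case
    exfalso
    have halg : IsAlgebraic ℂ f := by
      by_contra h
      exact hft h
    obtain ⟨c, hc⟩ : ∃ c : ℂ, f = algebraMap ℂ (FractionRing An) c := by
      have hint := halg.isIntegral
      have h2 := IsAlgClosed.degree_eq_one_of_irreducible ℂ (minpoly.irreducible hint)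
      rw [minpoly.degree_eq_one_iff] at h2
      obtain ⟨c, hc⟩ := h2
      exact ⟨c, hc.symm⟩
    have hbc : b = algebraMap ℂ (FractionRing An) c * a := by
      rw [← hc, hf, div_mul_cancel₀ _ ha0]
    have hfun : ∀ z ∈ Metric.ball (0 : ℂ) 3, MvPolynomial.eval ![τ z, σ z] B =
        c * MvPolynomial.eval ![τ z, σ z] A := by
      have h2 := (cls_const c).mul ra
      rw [← hbc] at h2
      exact fun z hz => rb.eqOn h2 hz
    -- a real point where `A` and the derivative do not vanish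
    obtain ⟨y, hy, hyA, hyT⟩ : ∃ y : ℝ, |y| < 3 ∧ MvPolynomial.eval ![τ y, σ y] A ≠ 0 ∧
        deriv τ y ≠ 0 := by
      by_contra hno
      push Not at hno
      obtain ⟨hF, hF'⟩ := ra.mul rT'
      have h2 := toAn_eq_zero hF (by
        refine Set.Infinite.mono (s := Set.Icc (-2 : ℝ) 2) ?_ (Set.Icc_infinite (by norm_num))
        intro y hy
        have hy2 : |y| ≤ 2 := abs_le.mpr hy
        refine ⟨hy2, ?_⟩
        by_cases h3 : MvPolynomial.eval ![τ y, σ y] A = 0
        · rw [h3, zero_mul]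
        · rw [hno y (by linarith) h3, mul_zero])
      have h3 : a * T' = 0 := by
        rw [← hF']
        unfold am
        rw [h2, map_zero]
      exact (mul_ne_zero ha0 hT'0) h3
    have hcr : (starRingEnd ℂ) c = c := by
      have h2 := hreal y hy
      rw [hfun _ (real_mem_ball hy), map_mul] at h2
      have h3 : MvPolynomial.eval ![τ y, σ y] A *
        (starRingEnd ℂ) (MvPolynomial.eval ![τ y, σ y] A) *
        (deriv τ y * (starRingEnd ℂ) (deriv τ y)) ≠ 0 := by
        refine mul_ne_zero (mul_ne_zero hyA ?_) (mul_ne_zero hyT ?_)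
        · exact (map_ne_zero _).mpr hyA
        · exact (map_ne_zero _).mpr hyT
      apply mul_right_cancel₀ h3
      linear_combination h2
    obtain ⟨r, hr⟩ := Complex.conj_eq_iff_real.mp hcr
    refine hgen _ (hd (-r) 1 (Or.inr one_ne_zero)) fun z hz => ?_
    rw [hlin, map_add, map_mul, map_mul, MvPolynomial.eval_C, MvPolynomial.eval_C, hfun z hz, hr]
    push_cast
    ring

end Pool.Agent.HF
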