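import Mathlib
import Pool.Agent.Lib.MP_c95b3b_ag_HF.Defs
import Pool.Agent.Lib.MP_c95b3b_ag_HF.ArcAuxH
import Pool.Agent.Lib.MP_c95b3b_ag_RS.ArcNear

/-! Project HF (MP_c95b3b_ag), module TN: auxiliary polynomial, points near arcs. -/

namespace Pool.Agent.HF

open Pool.Agent.L3 Pool.Agent.RS Module

namespace ArcNearH

open Filter Topology

open Pool.Agent.RS.ArcNear (tendsto_of_diff exists_bound continuous_aeval eq_of_tendsto)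

theorem tendsto_tz {e : ℕ} {t : ℕ → ℂ} {z : ℕ → Fin (e + 1) → ℂ} {t0 : ℂ}
    {z0 : Fin (e + 1) → ℂ} (ht : Tendsto t atTop (𝓝 t0)) (hz : Tendsto z atTop (𝓝 z0)) :
    Tendsto (fun n => tz (t n) (z n)) atTop (𝓝 (tz t0 z0)) := by
  rw [tendsto_pi_nhds]
  intro i
  exact Fin.cases ht (fun i => tendsto_pi_nhds.1 hz i.succ) i

/-- one chart -/
theorem one {e g N : ℕ} {Q : MvPolynomial (Fin (e + 1)) ℤ} {E E' : ℝ} (hE : E < E')
    (b : Fin g → Fin (e + 1) → ℕ) (τ δ : ℂ → ℂ) (ρ : Fin (e + 1) → ℂ → ℂ) (a : Fin g → ℂ → ℂ)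
    (hτ : DifferentiableOn ℂ τ (Metric.ball 0 3)) (hδ : DifferentiableOn ℂ δ (Metric.ball 0 3))
    (hρ : ∀ k, DifferentiableOn ℂ (ρ k) (Metric.ball 0 3))
    (ha : ∀ k, DifferentiableOn ℂ (a k) (Metric.ball 0 3))
    (hex : ∀ (y : ℝ) (ζ : Fin (e + 1) → ℂ), |y| ≤ 1 → (∀ j, ‖ζ j‖ = 1) →
        ∑ k, a k y * ∏ j, ζ j ^ b k j = 0 →
        ‖δ y‖ ^ N * ‖MvPolynomial.aeval (tz (τ y) (fun j => ρ j y * ζ j)) Q‖ ≤ E) :
    ∃ η : ℝ, 0 < η ∧ ∀ (y : ℝ) (ζ : Fin (e + 1) → ℂ) (t : ℂ) (z : Fin (e + 1) → ℂ), |y| ≤ 1 →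
        (∀ j, ‖ζ j‖ = 1) → ‖t - τ y‖ ≤ η → (∀ j, ‖z j - ρ j y * ζ j‖ ≤ η) →
        ‖∑ k, a k y * ∏ j, ζ j ^ b k j‖ ≤ η →
        ‖δ y‖ ^ N * ‖MvPolynomial.aeval (tz t z) Q‖ ≤ E' := by
  by_contra hcon
  push Not at hcon
  have hpos : ∀ n : ℕ, (0 : ℝ) < 1 / ((n : ℝ) + 1) := fun n => by positivity
  have hle : ∀ n : ℕ, 1 / ((n : ℝ) + 1) ≤ 1 := fun n => by
    rw [div_le_one (by positivity)]
    have : (0 : ℝ) ≤ n := Nat.cast_nonneg n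
    linarith
  choose s ζ t z hs hζ h1 h2 h5 h7 using fun n : ℕ => hcon _ (hpos n)
  -- bounds
  obtain ⟨C1, hC1, hτb⟩ := exists_bound hτ
  choose C4 hC4 hρb using fun k => exists_bound (hρ k)
  set S4 : ℝ := ∑ k, C4 k with hS4
  have hS4n : 0 ≤ S4 := Finset.sum_nonneg fun k _ => hC4 k
  have hmem : ∀ n, (s n, ζ n, t n, z n) ∈
      (Set.Icc (-1 : ℝ) 1) ×ˢ (Metric.closedBall (0 : Fin (e + 1) → ℂ) 1) ×ˢ
      (Metric.closedBall (0 : ℂ) (C1 + 1)) ×ˢ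
      (Metric.closedBall (0 : Fin (e + 1) → ℂ) (S4 + 1)) := by
    intro n
    simp only [Set.mem_prod, mem_closedBall_zero_iff]
    refine ⟨abs_le.1 (hs n), ?_, ?_, ?_⟩
    · rw [pi_norm_le_iff_of_nonneg zero_le_one]
      exact fun k => (hζ n k).le
    · calc ‖t n‖ = ‖(t n - τ (s n)) + τ (s n)‖ := by rw [sub_add_cancel]
        _ ≤ ‖t n - τ (s n)‖ + ‖τ (s n)‖ := norm_add_le _ _
        _ ≤ 1 + C1 := add_le_add ((h1 n).trans (hle n)) (hτb _ (hs n))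
        _ = C1 + 1 := add_comm _ _
    · rw [pi_norm_le_iff_of_nonneg (by linarith)]
      intro k
      have h8 : C4 k ≤ S4 := Finset.single_le_sum (fun k _ => hC4 k) (Finset.mem_univ k)
      calc ‖z n k‖ = ‖(z n k - ρ k (s n) * ζ n k) + ρ k (s n) * ζ n k‖ := by
            rw [sub_add_cancel]
        _ ≤ ‖z n k - ρ k (s n) * ζ n k‖ + ‖ρ k (s n) * ζ n k‖ := norm_add_le _ _
        _ ≤ 1 + C4 k := by
            refine add_le_add ((h2 n k).trans (hle n)) ?_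
            rw [norm_mul, hζ n k, mul_one]
            exact hρb k _ (hs n)
        _ ≤ S4 + 1 := by linarith
  have hK : IsCompact ((Set.Icc (-1 : ℝ) 1) ×ˢ (Metric.closedBall (0 : Fin (e + 1) → ℂ) 1) ×ˢ
      (Metric.closedBall (0 : ℂ) (C1 + 1)) ×ˢ
      (Metric.closedBall (0 : Fin (e + 1) → ℂ) (S4 + 1))) :=
    isCompact_Icc.prod ((isCompact_closedBall _ _).prod ((isCompact_closedBall _ _).prod
      (isCompact_closedBall _ _)))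
  obtain ⟨⟨s0, ζ0, t0, z0⟩, hp, φ, hφ, hlim⟩ := hK.tendsto_subseq hmem
  have hs0 : |s0| ≤ 1 := abs_le.2 hp.1
  have lim : ∀ {α : Type} [TopologicalSpace α]
      (π : ℝ × (Fin (e + 1) → ℂ) × ℂ × (Fin (e + 1) → ℂ) → α), Continuous π →
      Tendsto (fun n => π (s (φ n), ζ (φ n), t (φ n), z (φ n))) atTop
        (𝓝 (π (s0, ζ0, t0, z0))) := fun π hπ => (hπ.tendsto _).comp hlim
  have ls : Tendsto (fun n => s (φ n)) atTop (𝓝 s0) := lim (fun p => p.1) (by fun_prop)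
  have lζ : Tendsto (fun n => ζ (φ n)) atTop (𝓝 ζ0) := lim (fun p => p.2.1) (by fun_prop)
  have lt : Tendsto (fun n => t (φ n)) atTop (𝓝 t0) := lim (fun p => p.2.2.1) (by fun_prop)
  have lz : Tendsto (fun n => z (φ n)) atTop (𝓝 z0) := lim (fun p => p.2.2.2) (by fun_prop)
  have hζ0 : ∀ k, ‖ζ0 k‖ = 1 := by
    intro k
    have h8 : Tendsto (fun n => ‖ζ (φ n) k‖) atTop (𝓝 ‖ζ0 k‖) := (tendsto_pi_nhds.1 lζ k).norm
    have h9 : Tendsto (fun n => ‖ζ (φ n) k‖) atTop (𝓝 1) := by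
      simp only [hζ]
      exact tendsto_const_nhds
    exact tendsto_nhds_unique h8 h9
  have hη0 : Tendsto (fun n => 1 / ((φ n : ℝ) + 1)) atTop (𝓝 0) :=
    tendsto_one_div_add_atTop_nhds_zero_nat.comp hφ.tendsto_atTop
  have e1 : t0 = τ s0 := by
    have := eq_of_tendsto (lt.sub (tendsto_of_diff hτ ls hs0)) hη0 fun n => h1 (φ n)
    exact sub_eq_zero.1 this
  have e2 : z0 = fun k => ρ k s0 * ζ0 k := by
    funext k
    have := eq_of_tendsto ((tendsto_pi_nhds.1 lz k).sub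
      ((tendsto_of_diff (hρ k) ls hs0).mul (tendsto_pi_nhds.1 lζ k))) hη0 fun n => h2 (φ n) k
    exact sub_eq_zero.1 this
  have e5 : ∑ k, a k s0 * ∏ j, ζ0 j ^ b k j = 0 := by
    refine eq_of_tendsto (tendsto_finsetSum _ fun k _ =>
      (tendsto_of_diff (ha k) ls hs0).mul (tendsto_finsetProd _ fun j _ =>
        (tendsto_pi_nhds.1 lζ j).pow (b k j))) hη0 fun n => h5 (φ n)
  have e7 : E' ≤ ‖δ s0‖ ^ N * ‖MvPolynomial.aeval (tz t0 z0) Q‖ := by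
    have h8 : Tendsto (fun n => ‖δ (s (φ n))‖ ^ N *
        ‖MvPolynomial.aeval (tz (t (φ n)) (z (φ n))) Q‖) atTop
        (𝓝 (‖δ s0‖ ^ N * ‖MvPolynomial.aeval (tz t0 z0) Q‖)) := by
      refine ((tendsto_of_diff hδ ls hs0).norm.pow N).mul (Tendsto.norm ?_)
      exact ((continuous_aeval Q).tendsto _).comp (tendsto_tz lt lz)
    exact ge_of_tendsto' h8 fun n => (h7 (φ n)).le
  have e8 := hex s0 ζ0 hs0 hζ0 e5
  rw [← e1, ← e2] at e8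
  exact absurd (e7.trans e8) (not_le.2 hE)

end ArcNearH

theorem arc_nearH {q e g : ℕ} (he : 1 ≤ e) (b : Fin g → Fin (e + 1) → ℕ)
    (D : Fin (e + 1) → ℕ) (hD : ∀ k j, b k j ≤ D j) (τ : Fin q → ℂ → ℂ)
    (ρ : Fin q → Fin (e + 1) → ℂ → ℂ) (a : Fin q → Fin g → ℂ → ℂ)
    (hτ : ∀ l, DifferentiableOn ℂ (τ l) (Metric.ball 0 3))
    (hρ : ∀ l j, DifferentiableOn ℂ (ρ l j) (Metric.ball 0 3))
    (ha : ∀ l k, DifferentiableOn ℂ (a l k) (Metric.ball 0 3))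
    (hirr : ∀ l, Irreducible (gpol (fun k => am (a l k) (ha l k)) b))
    (hnd : ∀ l, ¬ gpol (fun k => am (a l k) (ha l k)) b ∣
      gpol (fun k => am (cj (a l k)) (differentiableOn_cj (ha l k))) (fun k j => D j - b k j)) :
    ∃ δ : Fin q → ℂ → ℂ, (∀ l, DifferentiableOn ℂ (δ l) (Metric.ball 0 3)) ∧
      (∀ l, ∃ s ∈ Metric.ball (0 : ℂ) 3, δ l s ≠ 0) ∧
      ∀ A : ℝ, ∃ N : ℕ, 1 ≤ N ∧ ∃ η : ℝ, 0 < η ∧ ∃ Q : MvPolynomial (Fin (e + 1)) ℤ, Q ≠ 0 ∧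
        (∀ i, Q.degreeOf i ≤ N) ∧ (∀ m, |((Q.coeff m : ℤ) : ℝ)| ≤ Real.exp N) ∧
        ∀ (l : Fin q) (y : ℝ) (ζ : Fin (e + 1) → ℂ) (t : ℂ) (z : Fin (e + 1) → ℂ), |y| ≤ 1 →
          (∀ j, ‖ζ j‖ = 1) → ‖t - τ l y‖ ≤ η → (∀ j, ‖z j - ρ l j y * ζ j‖ ≤ η) →
          ‖∑ k, a l k y * ∏ j, ζ j ^ b k j‖ ≤ η →
          ‖δ l y‖ ^ N * ‖MvPolynomial.aeval (tz t z) Q‖ ≤ Real.exp (-(A * N)) := by
  obtain ⟨δ, hδ, hδ0, hall⟩ := arc_exactH he b D hD τ ρ a hτ hρ ha hirr hnd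
  refine ⟨δ, hδ, hδ0, fun A => ?_⟩
  obtain ⟨N, hN, Q, hQ, hdeg, hcoeff, hex⟩ := hall (A + 1)
  have hN' : (1 : ℝ) ≤ N := by exact_mod_cast hN
  have hlt : Real.exp (-((A + 1) * N)) < Real.exp (-(A * N)) := by
    rw [Real.exp_lt_exp]
    linarith
  choose η hη hnear using fun l : Fin q => ArcNearH.one hlt b (τ l) (δ l) (ρ l) (a l)
    (hτ l) (hδ l) (hρ l) (ha l) (hex l)
  have hsum : 0 ≤ ∑ l, (η l)⁻¹ := Finset.sum_nonneg fun l _ => (inv_pos.2 (hη l)).le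
  refine ⟨N, hN, (1 + ∑ l, (η l)⁻¹)⁻¹, inv_pos.2 (by linarith), Q, hQ, hdeg, hcoeff, ?_⟩
  intro l y ζ t z hy hζ h1 h2 h3
  have hle : (1 + ∑ l, (η l)⁻¹)⁻¹ ≤ η l := by
    rw [inv_le_comm₀ (by linarith) (hη l)]
    have h7 : (η l)⁻¹ ≤ ∑ l, (η l)⁻¹ :=
      Finset.single_le_sum (f := fun l => (η l)⁻¹) (fun l _ => (inv_pos.2 (hη l)).le)
        (Finset.mem_univ l)
    linarith
  exact hnear l y ζ t z hy hζ (h1.trans hle) (fun k => (h2 k).trans hle) (h3.trans hle)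

end Pool.Agent.HF
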