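import Mathlib
import Pool.Agent.Lib.MP_c95b3b_ag_HF.Defs
import Pool.Agent.Lib.MP_c95b3b_ag_HF.Generic

/-! Project HF (MP_c95b3b_ag), module GI: geometric irreducibility over the number field. -/

namespace Pool.Agent.HF

open Pool.Agent.L3 Pool.Agent.RS Module

namespace GI

/-- divisibility descends under an extension of fields -/
theorem dvd {σ : Type} {K L : Type} [Field K] [Field L] (φ : K →+* L) (P Q : MvPolynomial σ K)
    (h : MvPolynomial.map φ P ∣ MvPolynomial.map φ Q) : P ∣ Q := by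
  classical
  let _ : Algebra K L := φ.toAlgebra
  obtain ⟨p, hp⟩ := LinearMap.exists_leftInverse_of_injective (Algebra.linearMap K L)
    (LinearMap.ker_eq_bot.mpr (algebraMap K L).injective)
  have hp1 : ∀ x : K, p (φ x) = x := fun x => LinearMap.congr_fun hp x
  have hp2 : ∀ (x : K) (y : L), p (φ x * y) = x * p y := fun x y => by
    have h1 : φ x * y = x • y := (Algebra.smul_def x y).symm
    rw [h1, map_smul, smul_eq_mul]
  obtain ⟨R, hR⟩ := h
  refine ⟨∑ m ∈ R.support, MvPolynomial.monomial m (p (R.coeff m)), ?_⟩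
  have hco : ∀ m, (∑ m ∈ R.support, MvPolynomial.monomial m (p (R.coeff m))).coeff m =
      p (R.coeff m) := by
    intro m
    rw [MvPolynomial.coeff_sum]
    simp only [MvPolynomial.coeff_monomial]
    rw [Finset.sum_ite_eq']
    split_ifs with h1
    · rfl
    · rw [MvPolynomial.notMem_support_iff.mp h1, map_zero]
  ext m
  rw [MvPolynomial.coeff_mul]
  simp only [hco]
  have h2 : φ (Q.coeff m) = ∑ x ∈ Finset.HasAntidiagonal.antidiagonal m, φ (P.coeff x.1) * R.coeff x.2 := by
    rw [← MvPolynomial.coeff_map, hR, MvPolynomial.coeff_mul]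
    simp only [MvPolynomial.coeff_map]
  rw [← hp1 (Q.coeff m), h2, map_sum]
  exact Finset.sum_congr rfl fun x _ => hp2 _ _

/-- irreducibility descends under an extension of fields -/
theorem irr {σ : Type} {K L : Type} [Field K] [Field L] (φ : K →+* L) (P : MvPolynomial σ K)
    (h : Irreducible (MvPolynomial.map φ P)) : Irreducible P := by
  have hu : ∀ x : MvPolynomial σ K, IsUnit (MvPolynomial.map φ x) → IsUnit x := by
    intro x hx
    rw [isUnit_iff_dvd_one] at hx ⊢
    refine dvd φ x 1 ?_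
    rwa [map_one]
  refine ⟨fun hP => h.not_isUnit (hP.map (MvPolynomial.map φ)), ?_⟩
  intro x y hxy
  rcases h.isUnit_or_isUnit (a := MvPolynomial.map φ x) (b := MvPolynomial.map φ y)
    (by rw [hxy, map_mul]) with h1 | h1
  · exact Or.inl (hu x h1)
  · exact Or.inr (hu y h1)

/-- amalgamation of two homomorphisms to fields with the same kernel -/
theorem amalg {A L L2 : Type} [CommRing A] [Field L] [Field L2] (φ : A →+* L) (ψ : A →+* L2)
    (h : ∀ a, φ a = 0 ↔ ψ a = 0) :
    ∃ (L' : Type) (_ : Field L') (j : L →+* L') (k : L2 →+* L'), ∀ a, j (φ a) = k (ψ a) := by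
  have hprime : (RingHom.ker φ).IsPrime := RingHom.ker_isPrime φ
  let B := A ⧸ RingHom.ker φ
  have hdom : IsDomain B := Ideal.Quotient.isDomain _
  let φ' : B →+* L := Ideal.Quotient.lift (RingHom.ker φ) φ fun a ha => ha
  let ψ' : B →+* L2 := Ideal.Quotient.lift (RingHom.ker φ) ψ fun a ha => (h a).mp ha
  have hφ' : Function.Injective φ' := by
    rw [injective_iff_map_eq_zero]
    intro x hx
    obtain ⟨a, rfl⟩ := Ideal.Quotient.mk_surjective x
    exact Ideal.Quotient.eq_zero_iff_mem.mpr hx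
  have hψ' : Function.Injective ψ' := by
    rw [injective_iff_map_eq_zero]
    intro x hx
    obtain ⟨a, rfl⟩ := Ideal.Quotient.mk_surjective x
    exact Ideal.Quotient.eq_zero_iff_mem.mpr ((h a).mpr hx)
  let E := FractionRing B
  let e1 : E →+* L := IsFractionRing.lift hφ'
  let e2 : E →+* L2 := IsFractionRing.lift hψ'
  let _ : Algebra E L := e1.toAlgebra
  let _ : Algebra E L2 := e2.toAlgebra
  have hinj : Function.Injective (Algebra.TensorProduct.includeLeft : L →ₐ[E] TensorProduct E L L2) :=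
    Algebra.TensorProduct.includeLeft_injective (algebraMap E L2).injective
  have hnt : Nontrivial (TensorProduct E L L2) := hinj.nontrivial
  obtain ⟨M, hM⟩ := Ideal.exists_maximal (TensorProduct E L L2)
  refine ⟨TensorProduct E L L2 ⧸ M, Ideal.Quotient.field M,
    (Ideal.Quotient.mk M).comp
      (Algebra.TensorProduct.includeLeft : L →ₐ[E] TensorProduct E L L2).toRingHom,
    (Ideal.Quotient.mk M).comp
      (Algebra.TensorProduct.includeRight : L2 →ₐ[E] TensorProduct E L L2).toRingHom, ?_⟩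
  intro a
  have h1 : φ a = algebraMap E L (algebraMap B E (Ideal.Quotient.mk _ a)) := by
    change φ a = e1 (algebraMap B E (Ideal.Quotient.mk _ a))
    rw [IsFractionRing.lift_algebraMap]
    rfl
  have h2 : ψ a = algebraMap E L2 (algebraMap B E (Ideal.Quotient.mk _ a)) := by
    change ψ a = e2 (algebraMap B E (Ideal.Quotient.mk _ a))
    rw [IsFractionRing.lift_algebraMap]
    rfl
  rw [h1, h2]
  change Ideal.Quotient.mk M ((Algebra.TensorProduct.includeLeft : L →ₐ[E] TensorProduct E L L2)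
      (algebraMap E L _)) = Ideal.Quotient.mk M
      ((Algebra.TensorProduct.includeRight : L2 →ₐ[E] TensorProduct E L L2) (algebraMap E L2 _))
  rw [AlgHom.commutes, AlgHom.commutes]

end GI

theorem geomIrr_descend (K0 : Type) [Field K0] (φ0 : K0 →+* ℂ) {M g d : ℕ} (P : P2 K0)
    (hP : Irreducible (MvPolynomial.map φ0 P)) (N : Fin M → P2 K0) (hN : ∀ i, ¬ P ∣ N i)
    (ν : Fin g → Fin M → ℤ) (b : Fin g → Fin d → ℕ) (hb : Function.Injective b)
    (hG : GeomIrr (MvPolynomial.map φ0 P) (fun i => MvPolynomial.map φ0 (N i)) ν b) :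
    GeomIrr P N ν b := by
  intro L _ φ hφ
  obtain ⟨L2, _, _, q, hq, -⟩ := exists_gen (MvPolynomial.map φ0 P) hP
  let ψ : P2 ℂ →+* L2 := (MvPolynomial.aeval q : P2 ℂ →ₐ[ℂ] L2).toRingHom
  have hψ : ∀ Q, ψ Q = 0 ↔ MvPolynomial.map φ0 P ∣ Q := hq
  obtain ⟨L', _, j, k, hjk⟩ := GI.amalg φ (ψ.comp (MvPolynomial.map φ0)) (by
    intro Q
    rw [hφ Q, RingHom.comp_apply, hψ]
    exact ⟨fun ⟨R, hR⟩ => ⟨MvPolynomial.map φ0 R, by rw [hR, map_mul]⟩, GI.dvd φ0 P Q⟩)
  have hgen : Gen (MvPolynomial.map φ0 P) (k.comp ψ) := by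
    intro Q
    rw [RingHom.comp_apply, map_eq_zero_iff k k.injective, hψ]
  have h1 := hG L' (k.comp ψ) hgen
  refine GI.irr j _ ?_
  have h2 : MvPolynomial.map j (gpol (fun kk => mon (fun i => φ (N i)) (ν kk)) b) =
      gpol (fun kk => mon (fun i => (k.comp ψ) (MvPolynomial.map φ0 (N i))) (ν kk)) b := by
    unfold gpol
    rw [map_sum]
    refine Finset.sum_congr rfl fun kk _ => ?_
    rw [MvPolynomial.map_monomial, map_mon]
    congr 2
    funext i
    exact hjk (N i)
  rw [h2]
  exact h1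

theorem irr_descend (K0 : Type) [Field K0] (φ0 : K0 →+* ℂ) (P : P2 K0)
    (hP : Irreducible (MvPolynomial.map φ0 P)) : Irreducible P := GI.irr φ0 P hP

theorem dvd_descend (K0 : Type) [Field K0] (φ0 : K0 →+* ℂ) (P Q : P2 K0)
    (h : MvPolynomial.map φ0 P ∣ MvPolynomial.map φ0 Q) : P ∣ Q := GI.dvd φ0 P Q h

end Pool.Agent.HF
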