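import Mathlib
import Pool.Agent.Lib.MP_c95b3b_ag_HF.Defs

/-! Project HF (MP_c95b3b_ag), module SY: divisibility of sparse polynomials and symmetry of
their supports. -/

namespace Pool.Agent.HF

open Pool.Agent.L3 Pool.Agent.RS Module

/-- coefficients of a sum of monomials with distinct exponents -/
theorem coeff_sy {F : Type} [Field F] {g d : ℕ} (c : Fin g → F) (b : Fin g → Fin d → ℕ)
    (J : Finset (Fin g)) (m : Fin d →₀ ℕ) :
    MvPolynomial.coeff m (∑ k ∈ J, MvPolynomial.monomial
      (Finsupp.equivFunOnFinite.symm (b k)) (c k)) =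
      ∑ k ∈ J, if Finsupp.equivFunOnFinite.symm (b k) = m then c k else 0 := by
  rw [MvPolynomial.coeff_sum]
  exact Finset.sum_congr rfl fun k _ => MvPolynomial.coeff_monomial _ _ _

theorem coeff_sy_self {F : Type} [Field F] {g d : ℕ} (c : Fin g → F) (b : Fin g → Fin d → ℕ)
    (hb : Function.Injective b) (J : Finset (Fin g)) (k : Fin g) :
    MvPolynomial.coeff (Finsupp.equivFunOnFinite.symm (b k)) (∑ k ∈ J, MvPolynomial.monomial
      (Finsupp.equivFunOnFinite.symm (b k)) (c k)) = if k ∈ J then c k else 0 := by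
  classical
  rw [coeff_sy]
  have h : ∀ k', (Finsupp.equivFunOnFinite.symm (b k') = Finsupp.equivFunOnFinite.symm (b k)) ↔
      k = k' := fun k' => by
    rw [Finsupp.equivFunOnFinite.symm.injective.eq_iff, hb.eq_iff, eq_comm]
  simp only [h]
  rw [Finset.sum_ite_eq]

/-- the degrees of a sum of monomials -/
theorem degreeOf_sy_le {F : Type} [Field F] {g d : ℕ} (c : Fin g → F) (b : Fin g → Fin d → ℕ)
    (J : Finset (Fin g)) (j : Fin d) (D : ℕ) (hD : ∀ k ∈ J, b k j ≤ D) :
    MvPolynomial.degreeOf j (∑ k ∈ J, MvPolynomial.monomial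
      (Finsupp.equivFunOnFinite.symm (b k)) (c k)) ≤ D := by
  refine (MvPolynomial.degreeOf_sum_le _ _ _).trans (Finset.sup_le fun k hk => ?_)
  by_cases h0 : c k = 0
  · rw [h0, map_zero, MvPolynomial.degreeOf_zero]
    exact Nat.zero_le _
  · rw [MvPolynomial.degreeOf_monomial_eq _ _ h0]
    exact hD k hk

theorem le_degreeOf_sy {F : Type} [Field F] {g d : ℕ} (c : Fin g → F) (hc : ∀ k, c k ≠ 0)
    (b : Fin g → Fin d → ℕ) (hb : Function.Injective b) (J : Finset (Fin g)) (j : Fin d)
    (k : Fin g) (hk : k ∈ J) :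
    b k j ≤ MvPolynomial.degreeOf j (∑ k ∈ J, MvPolynomial.monomial
      (Finsupp.equivFunOnFinite.symm (b k)) (c k)) := by
  refine MvPolynomial.degreeOf_le_iff.mp le_rfl (Finsupp.equivFunOnFinite.symm (b k)) ?_
  rw [MvPolynomial.mem_support_iff, coeff_sy_self c b hb J k, if_pos hk]
  exact hc k

/-- a divisor of the same multidegree is an associate -/
theorem eq_C_mul_of_dvd {F : Type} [Field F] {d : ℕ} (p q : MvPolynomial (Fin d) F)
    (hq : q ≠ 0) (h : p ∣ q)
    (hd : ∀ j, MvPolynomial.degreeOf j q ≤ MvPolynomial.degreeOf j p) :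
    ∃ l : F, l ≠ 0 ∧ q = MvPolynomial.C l * p := by
  obtain ⟨r, rfl⟩ := h
  have hp : p ≠ 0 := left_ne_zero_of_mul hq
  have hr : r ≠ 0 := right_ne_zero_of_mul hq
  have h0 : ∀ j, MvPolynomial.degreeOf j r = 0 := fun j => by
    have := hd j
    rw [MvPolynomial.degreeOf_mul_eq hp hr] at this
    omega
  have h1 : r = MvPolynomial.C (MvPolynomial.coeff 0 r) := by
    ext m
    rw [MvPolynomial.coeff_C]
    split_ifs with hm
    · rw [← hm]
    · by_contra hne
      refine hm ?_
      ext j
      have := MvPolynomial.degreeOf_le_iff.mp (h0 j).le m (MvPolynomial.mem_support_iff.mpr hne)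
      simpa using (Nat.le_zero.mp this).symm
  refine ⟨MvPolynomial.coeff 0 r, fun h2 => hr ?_, ?_⟩
  · rw [h1, h2, map_zero]
  · rw [← h1, mul_comm]

theorem sym_of_dvd {F : Type} [Field F] {g d : ℕ} (c c' : Fin g → F) (hc : ∀ k, c k ≠ 0)
    (hc' : ∀ k, c' k ≠ 0) (b : Fin g → Fin d → ℕ) (hb : Function.Injective b) (hg : 0 < g)
    (D : Fin d → ℕ) (hD : ∀ j, D j = Finset.univ.sup (fun k => b k j))
    (h : gpol c b ∣ gpol c' (fun k j => D j - b k j)) :
    ∃ l : F, l ≠ 0 ∧ ∀ k, ∃ k', Sy b D k k' ∧ c' k = l * c k' := by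
  classical
  have hle : ∀ k j, b k j ≤ D j := fun k j => by
    rw [hD j]
    exact Finset.le_sup (f := fun k => b k j) (Finset.mem_univ k)
  have hb' : Function.Injective (fun (k : Fin g) (j : Fin d) => D j - b k j) := fun k k' hk => by
    refine hb (funext fun j => ?_)
    have h1 := congrFun hk j
    have h2 := hle k j
    have h3 := hle k' j
    simp only at h1
    omega
  have hco : ∀ k, MvPolynomial.coeff (Finsupp.equivFunOnFinite.symm (fun j => D j - b k j))
      (gpol c' (fun k j => D j - b k j)) = c' k := fun k => by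
    have := coeff_sy_self c' (fun (k : Fin g) (j : Fin d) => D j - b k j) hb' Finset.univ k
    rw [if_pos (Finset.mem_univ k)] at this
    exact this
  have hne : gpol c' (fun k j => D j - b k j) ≠ 0 := fun h0 => by
    have := hco ⟨0, hg⟩
    rw [h0, MvPolynomial.coeff_zero] at this
    exact hc' _ this.symm
  obtain ⟨l, hl, hq⟩ := eq_C_mul_of_dvd _ _ hne h fun j => by
    have h1 : MvPolynomial.degreeOf j (gpol c' (fun k j => D j - b k j)) ≤ D j :=
      degreeOf_sy_le c' (fun (k : Fin g) (j : Fin d) => D j - b k j) Finset.univ j (D j)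
        fun k _ => Nat.sub_le _ _
    refine h1.trans ?_
    rw [hD j]
    exact Finset.sup_le fun k hk => le_degreeOf_sy c hc b hb Finset.univ j k hk
  refine ⟨l, hl, fun k => ?_⟩
  have h2 := hco k
  rw [hq, MvPolynomial.coeff_C_mul, gpol, coeff_sy] at h2
  have h3 : (∑ k' : Fin g, if Finsupp.equivFunOnFinite.symm (b k') =
      Finsupp.equivFunOnFinite.symm (fun j => D j - b k j) then c k' else 0) ≠ 0 := fun h0 => by
    rw [h0, mul_zero] at h2
    exact hc' k h2.symm
  obtain ⟨k', hk', hk2⟩ := Finset.exists_ne_zero_of_sum_ne_zero h3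
  have h4 : Finsupp.equivFunOnFinite.symm (b k') =
      Finsupp.equivFunOnFinite.symm (fun j => D j - b k j) := by
    by_contra h5
    rw [if_neg h5] at hk2
    exact hk2 rfl
  have h5 : b k' = fun j => D j - b k j := Finsupp.equivFunOnFinite.symm.injective h4
  refine ⟨k', fun j => ?_, ?_⟩
  · have h6 : b k' j = D j - b k j := congrFun h5 j
    have h7 := hle k j
    omega
  · rw [← h2]
    congr 1
    rw [Finset.sum_eq_single k', if_pos h4]
    · intro k'' _ hk''
      rw [if_neg]
      intro h6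
      exact hk'' (hb ((Finsupp.equivFunOnFinite.symm.injective h6).trans h5.symm))
    · intro h6
      exact absurd (Finset.mem_univ _) h6

theorem not_dvd_subsum {F : Type} [Field F] {g d : ℕ} (c : Fin g → F) (hc : ∀ k, c k ≠ 0)
    (b : Fin g → Fin d → ℕ) (hb : Function.Injective b) (J : Finset (Fin g)) (hJ : J.Nonempty)
    (hJ' : J ≠ Finset.univ) :
    ¬ gpol c b ∣ ∑ k ∈ J, MvPolynomial.monomial (Finsupp.equivFunOnFinite.symm (b k)) (c k) := by
  classical
  intro h
  obtain ⟨k0, hk0⟩ := hJ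
  have hne : (∑ k ∈ J, MvPolynomial.monomial (Finsupp.equivFunOnFinite.symm (b k)) (c k)) ≠ 0 :=
    fun h0 => by
      have := coeff_sy_self c b hb J k0
      rw [h0, MvPolynomial.coeff_zero, if_pos hk0] at this
      exact hc _ this.symm
  obtain ⟨l, hl, hq⟩ := eq_C_mul_of_dvd _ _ hne h fun j =>
    degreeOf_sy_le c b J j _ fun k _ => le_degreeOf_sy c hc b hb Finset.univ j k
      (Finset.mem_univ k)
  refine hJ' (Finset.eq_univ_of_forall fun k => ?_)
  by_contra hk
  have h1 := coeff_sy_self c b hb J k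
  rw [if_neg hk, hq, MvPolynomial.coeff_C_mul, gpol, coeff_sy_self c b hb Finset.univ k,
    if_pos (Finset.mem_univ k)] at h1
  exact mul_ne_zero hl (hc k) h1

end Pool.Agent.HF
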