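import Mathlib
import Pool.Agent.Lib.MP_c95b3b_ag_HF.Defs
import Pool.Agent.Lib.MP_c95b3b_ag_HF.Bezout
import Pool.Agent.Lib.MP_c95b3b_ag_HF.Generic
import Pool.Agent.Lib.MP_c95b3b_ag_HF.Sym

/-! Project HF (MP_c95b3b_ag), module EL: vanishing subsums. -/

namespace Pool.Agent.HF

open Pool.Agent.L3 Pool.Agent.RS Module

namespace EL

open MvPolynomial

/-- an irreducible polynomial of positive degree over a factorial domain and a polynomial which it
does not divide: elimination of the variable -/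
theorem coprime_step {R : Type} [CommRing R] [IsDomain R] [UniqueFactorizationMonoid R]
    (G Q : Polynomial R) (hG : Irreducible G) (hd : G.natDegree ≠ 0) (hQ : ¬ G ∣ Q) :
    ∃ (A B : Polynomial R) (r : R), r ≠ 0 ∧ A * G + B * Q = Polynomial.C r := by
  classical
  let : NormalizedGCDMonoid R := Classical.arbitrary _
  have hprim : G.IsPrimitive := hG.isPrimitive hd
  have hirr : Irreducible (G.map (algebraMap R (FractionRing R))) :=
    (hprim.irreducible_iff_irreducible_map_fraction_map (K := FractionRing R)).1 hG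
  have hinj : Function.Injective (Polynomial.map (algebraMap R (FractionRing R))) :=
    Polynomial.map_injective _ (IsFractionRing.injective R (FractionRing R))
  have hnd : ¬ G.map (algebraMap R (FractionRing R)) ∣ Q.map (algebraMap R (FractionRing R)) := by
    rintro ⟨h, hh⟩
    obtain ⟨c, c0, hc⟩ := IsLocalization.integerNormalization_spec (nonZeroDivisors R) h
    set h' := IsLocalization.integerNormalization (nonZeroDivisors R) h with hh'
    have hc0 : c ≠ 0 := nonZeroDivisors.ne_zero c0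
    have h1 : Polynomial.C c * Q = G * h' := by
      apply hinj
      simp only [Polynomial.map_mul, Polynomial.map_C]
      rw [hc, hh, Algebra.smul_def]
      rw [show algebraMap R (Polynomial (FractionRing R)) c =
        Polynomial.C (algebraMap R (FractionRing R) c) from rfl]
      ring
    have hpr : Prime G := hG.prime
    rcases hpr.dvd_or_dvd (⟨h', h1⟩ : G ∣ Polynomial.C c * Q) with h2 | h2
    · have h3 := Polynomial.natDegree_le_of_dvd h2 (Polynomial.C_ne_zero.2 hc0)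
      rw [Polynomial.natDegree_C] at h3
      exact hd (Nat.le_zero.1 h3)
    · exact hQ h2
  have hcop : IsCoprime (G.map (algebraMap R (FractionRing R)))
      (Q.map (algebraMap R (FractionRing R))) := (hirr.coprime_iff_not_dvd).2 hnd
  obtain ⟨a, b, hab⟩ := hcop
  obtain ⟨c, c0, hc⟩ := IsLocalization.integerNormalization_spec (nonZeroDivisors R) a
  obtain ⟨d, d0, hd'⟩ := IsLocalization.integerNormalization_spec (nonZeroDivisors R) b
  have hc0 : c ≠ 0 := nonZeroDivisors.ne_zero c0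
  have hd0 : d ≠ 0 := nonZeroDivisors.ne_zero d0
  refine ⟨Polynomial.C d * IsLocalization.integerNormalization (nonZeroDivisors R) a,
    Polynomial.C c * IsLocalization.integerNormalization (nonZeroDivisors R) b, c * d,
    mul_ne_zero hc0 hd0, ?_⟩
  apply hinj
  simp only [Polynomial.map_mul, Polynomial.map_add, Polynomial.map_C]
  rw [hc, hd', Algebra.smul_def, Algebra.smul_def, map_mul]
  rw [show algebraMap R (Polynomial (FractionRing R)) c =
      Polynomial.C (algebraMap R (FractionRing R) c) from rfl,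
    show algebraMap R (Polynomial (FractionRing R)) d =
      Polynomial.C (algebraMap R (FractionRing R) d) from rfl, map_mul]
  linear_combination (Polynomial.C (algebraMap R (FractionRing R) c) *
    Polynomial.C (algebraMap R (FractionRing R) d)) * hab

/-- the same for polynomials in several variables, elimination of the first one -/
theorem coprime_mv {F : Type} [Field F] {n : ℕ} (G Q : MvPolynomial (Fin (n + 1)) F)
    (hG : Irreducible G) (hd : G.degreeOf 0 ≠ 0) (hQ : ¬ G ∣ Q) :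
    ∃ (A B : MvPolynomial (Fin (n + 1)) F) (r : MvPolynomial (Fin n) F), r ≠ 0 ∧
      A * G + B * Q = rename Fin.succ r := by
  have h1 : Irreducible (finSuccEquiv F n G) := by
    rwa [MulEquiv.irreducible_iff]
  have h2 : (finSuccEquiv F n G).natDegree ≠ 0 := by rwa [natDegree_finSuccEquiv]
  have h3 : ¬ finSuccEquiv F n G ∣ finSuccEquiv F n Q := by
    intro h
    rw [map_dvd_iff] at h
    exact hQ h
  obtain ⟨A, B, r, hr, hAB⟩ := coprime_step _ _ h1 h2 h3
  refine ⟨(finSuccEquiv F n).symm A, (finSuccEquiv F n).symm B, r, hr, ?_⟩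
  apply (finSuccEquiv F n).injective
  rw [map_add, map_mul, map_mul, AlgEquiv.apply_symm_apply, AlgEquiv.apply_symm_apply, hAB]
  have h4 : ((finSuccEquiv F n : MvPolynomial (Fin (n + 1)) F →ₐ[F] _).comp
      (rename Fin.succ : MvPolynomial (Fin n) F →ₐ[F] MvPolynomial (Fin (n + 1)) F)) =
      (Algebra.ofId (MvPolynomial (Fin n) F) (Polynomial (MvPolynomial (Fin n) F))).restrictScalars
        F := by
    apply MvPolynomial.algHom_ext
    intro i
    simp only [AlgHom.comp_apply, rename_X]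
    exact finSuccEquiv_X_succ
  exact (DFunLike.congr_fun h4 r).symm

variable {K0 : Type} [Field K0]

/-- clearing denominators -/
theorem clear_den {P : P2 K0} (hP : Irreducible P) {L : Type} [Field L] [Algebra K0 L]
    {q : Fin 2 → L}
    (hL : ∀ x : L, ∃ A B : P2 K0, ¬ P ∣ B ∧ x * aeval q B = aeval q A) {σ : Type}
    (A : MvPolynomial σ L) : ∃ (B : P2 K0) (A' : MvPolynomial σ (P2 K0)), ¬ P ∣ B ∧
      MvPolynomial.map ((aeval q : P2 K0 →ₐ[K0] L) : P2 K0 →+* L) A' = C (aeval q B) * A := by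
  induction A using MvPolynomial.induction_on with
  | C a =>
    obtain ⟨A0, B0, hB, h⟩ := hL a
    refine ⟨B0, C A0, hB, ?_⟩
    rw [map_C, ← C_mul]
    congr 1
    rw [mul_comm, h]
    rfl
  | add p r hp hr =>
    obtain ⟨B1, A1, hB1, h1⟩ := hp
    obtain ⟨B2, A2, hB2, h2⟩ := hr
    refine ⟨B1 * B2, C B2 * A1 + C B1 * A2, ?_, ?_⟩
    · intro h
      rcases hP.prime.dvd_or_dvd h with h | h
      · exact hB1 h
      · exact hB2 h
    · rw [map_add, map_mul, map_mul, h1, h2, map_C, map_C, map_mul, C_mul]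
      simp only [RingHom.coe_coe]
      ring
  | mul_X p n hp =>
    obtain ⟨B1, A1, hB1, h1⟩ := hp
    refine ⟨B1, A1 * X n, hB1, ?_⟩
    rw [map_mul, h1, map_X]
    ring

/-- a polynomial whose coefficients vanish at the generic point vanishes at all points -/
theorem eval_zero {P : P2 K0} {L : Type} [Field L] [Algebra K0 L] {q : Fin 2 → L}
    (hq : ∀ Q : P2 K0, aeval q Q = 0 ↔ P ∣ Q) {σ : Type} (U : MvPolynomial σ (P2 K0))
    (hU : MvPolynomial.map ((aeval q : P2 K0 →ₐ[K0] L) : P2 K0 →+* L) U = 0)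
    {K : Type} [Field K] [Algebra K0 K] (p : Fin 2 → K) (hp : aeval p P = 0) (z : σ → K) :
    eval₂ ((aeval p : P2 K0 →ₐ[K0] K) : P2 K0 →+* K) z U = 0 := by
  rw [eval₂_eq]
  refine Finset.sum_eq_zero fun m _ => ?_
  have h1 : aeval q (coeff m U) = 0 := by
    have h2 := congrArg (coeff m) hU
    rw [coeff_map, coeff_zero] at h2
    exact h2
  obtain ⟨V, hV⟩ := (hq _).1 h1
  rw [hV, RingHom.coe_coe, map_mul, hp, zero_mul, zero_mul]

/-- the coefficients of `gpol` -/
theorem coeff_gpol {R : Type} [CommRing R] {g d : ℕ} (c : Fin g → R) (b : Fin g → Fin d → ℕ)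
    (hb : Function.Injective b) (k : Fin g) :
    coeff (Finsupp.equivFunOnFinite.symm (b k)) (gpol c b) = c k := by
  classical
  unfold gpol
  rw [coeff_sum, Finset.sum_eq_single k]
  · rw [coeff_monomial, if_pos rfl]
  · intro l _ hl
    rw [coeff_monomial, if_neg]
    intro h
    exact hl (hb (Finsupp.equivFunOnFinite.symm.injective h))
  · intro h; exact absurd (Finset.mem_univ _) h

/-- the exponents made nonnegative -/
def nx {M g : ℕ} (ν : Fin g → Fin M → ℤ) (k : Fin g) (i : Fin M) : ℕ :=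
  (ν k i + ((∑ l, (ν l i).natAbs : ℕ) : ℤ)).toNat

theorem nx_eq {M g : ℕ} (ν : Fin g → Fin M → ℤ) (k : Fin g) (i : Fin M) :
    ((nx ν k i : ℕ) : ℤ) = ν k i + ((∑ l, (ν l i).natAbs : ℕ) : ℤ) := by
  unfold nx
  apply Int.toNat_of_nonneg
  have h1 : (ν k i).natAbs ≤ ∑ l, (ν l i).natAbs :=
    Finset.single_le_sum (f := fun l => (ν l i).natAbs) (fun l _ => Nat.zero_le _)
      (Finset.mem_univ k)
  omega

theorem prod_nx {F : Type} [Field F] {M g : ℕ} (ν : Fin g → Fin M → ℤ) (v : Fin M → F)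
    (hv : ∀ i, v i ≠ 0) (k : Fin g) :
    ∏ i, v i ^ nx ν k i = (∏ i, v i ^ (∑ l, (ν l i).natAbs)) * mon v (ν k) := by
  rw [mon, ← Finset.prod_mul_distrib]
  refine Finset.prod_congr rfl fun i _ => ?_
  rw [← zpow_natCast (v i) (nx ν k i), nx_eq, zpow_add₀ (hv i), zpow_natCast, mul_comm]

/-- the polynomial with cleared denominators -/
noncomputable def GT {M g d : ℕ} (N : Fin M → P2 K0) (ν : Fin g → Fin M → ℤ)
    (b : Fin g → Fin d → ℕ) (J : Finset (Fin g)) : MvPolynomial (Fin d) (P2 K0) :=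
  ∑ k ∈ J, monomial (Finsupp.equivFunOnFinite.symm (b k)) (∏ i, N i ^ nx ν k i)

theorem map_GT {M g d : ℕ} (N : Fin M → P2 K0) (ν : Fin g → Fin M → ℤ)
    (b : Fin g → Fin d → ℕ) (J : Finset (Fin g)) {L : Type} [Field L] [Algebra K0 L]
    (q : Fin 2 → L) (hN : ∀ i, aeval q (N i) ≠ 0) :
    MvPolynomial.map ((aeval q : P2 K0 →ₐ[K0] L) : P2 K0 →+* L) (GT N ν b J) =
      C (∏ i, aeval q (N i) ^ (∑ l, (ν l i).natAbs)) *
        ∑ k ∈ J, monomial (Finsupp.equivFunOnFinite.symm (b k))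
          (mon (fun i => aeval q (N i)) (ν k)) := by
  unfold GT
  rw [map_sum, Finset.mul_sum]
  refine Finset.sum_congr rfl fun k _ => ?_
  rw [map_monomial, C_mul_monomial]
  congr 1
  rw [← prod_nx ν (fun i => aeval q (N i)) hN k, RingHom.coe_coe, map_prod]
  exact Finset.prod_congr rfl fun i _ => map_pow _ _ _

theorem eval_GT {M g d : ℕ} (N : Fin M → P2 K0) (ν : Fin g → Fin M → ℤ)
    (b : Fin g → Fin d → ℕ) (J : Finset (Fin g)) {K : Type} [Field K] [Algebra K0 K]
    (p : Fin 2 → K) (hN : ∀ i, aeval p (N i) ≠ 0) (z : Fin d → K) :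
    eval₂ ((aeval p : P2 K0 →ₐ[K0] K) : P2 K0 →+* K) z (GT N ν b J) =
      (∏ i, aeval p (N i) ^ (∑ l, (ν l i).natAbs)) *
        ∑ k ∈ J, mon (fun i => aeval p (N i)) (ν k) * ∏ j, z j ^ b k j := by
  unfold GT
  rw [eval₂_sum, Finset.mul_sum]
  refine Finset.sum_congr rfl fun k _ => ?_
  rw [eval₂_monomial, ← mul_assoc, ← prod_nx ν (fun i => aeval p (N i)) hN k, RingHom.coe_coe,
    map_prod]
  congr 1
  · exact Finset.prod_congr rfl fun i _ => map_pow _ _ _
  · rw [Finsupp.prod_fintype _ _ (fun i => pow_zero _)]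
    rfl

/-- the variables `s`, `t` among `s`, `t`, `z 1`, ... -/
def fts (e : ℕ) : Fin 2 → Fin (e + 2) := ![1, 0]

theorem fts_inj (e : ℕ) : Function.Injective (fts e) := by
  intro i j h
  fin_cases i <;> fin_cases j <;> simp_all [fts]

theorem prime_rename {σ τ : Type} {f : σ → τ} (hf : Function.Injective f) {P : MvPolynomial σ K0}
    (hP : Prime P) : Prime (rename f P) := by
  have h1 : Prime (rename (Equiv.ofInjective f hf) P) := by
    have := (MulEquiv.prime_iff (renameEquiv K0 (Equiv.ofInjective f hf))).2 hP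
    exact this
  have h2 := (prime_rename_iff (Set.range f)).2 h1
  rw [rename_rename] at h2
  exact h2

/-- elimination of `s` -/
theorem elim_s {P : P2 K0} (hP : Irreducible P) (h1 : P.degreeOf 1 ≠ 0) {L : Type} [Field L]
    [Algebra K0 L] {q : Fin 2 → L} (hq : ∀ Q : P2 K0, aeval q Q = 0 ↔ P ∣ Q) {e : ℕ}
    (R : MvPolynomial (Fin e) (P2 K0))
    (hR : MvPolynomial.map ((aeval q : P2 K0 →ₐ[K0] L) : P2 K0 →+* L) R ≠ 0) :
    ∃ F : MvPolynomial (Fin (e + 1)) K0, F ≠ 0 ∧
      ∀ (K : Type) [Field K] [Algebra K0 K] (p : Fin 2 → K) (z : Fin (e + 1) → K),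
        aeval p P = 0 →
        eval₂ ((aeval p : P2 K0 →ₐ[K0] K) : P2 K0 →+* K) (fun j : Fin e => z j.succ) R = 0 →
        aeval (tz (p 0) z) F = 0 := by
  classical
  -- the polynomial ring in `s`, `t`, `z 1`, ...
  set κ : MvPolynomial (Fin e) (P2 K0) →+* MvPolynomial (Fin (e + 2)) K0 :=
    eval₂Hom ((rename (fts e) : P2 K0 →ₐ[K0] _) : P2 K0 →+* _) (fun j => X j.succ.succ) with hκ
  -- the generic point
  set Ψ : MvPolynomial (Fin (e + 2)) K0 →ₐ[K0] MvPolynomial (Fin e) L :=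
    aeval (Fin.cons (C (q 1)) (Fin.cons (C (q 0)) fun j => X j)) with hΨ
  have hΨκ : (Ψ : MvPolynomial (Fin (e + 2)) K0 →+* MvPolynomial (Fin e) L).comp κ =
      MvPolynomial.map ((aeval q : P2 K0 →ₐ[K0] L) : P2 K0 →+* L) := by
    apply MvPolynomial.ringHom_ext
    · intro Q
      have h2 : (Ψ.comp (rename (fts e) : P2 K0 →ₐ[K0] _)) =
          ((Algebra.ofId L (MvPolynomial (Fin e) L)).restrictScalars K0).comp
            (aeval q : P2 K0 →ₐ[K0] L) := by
        apply MvPolynomial.algHom_ext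
        intro i
        fin_cases i <;> simp [hΨ, fts]
      have h3 := DFunLike.congr_fun h2 Q
      simp only [RingHom.comp_apply, hκ, coe_eval₂Hom, eval₂_C, map_C]
      exact h3
    · intro j
      simp only [RingHom.comp_apply, hκ, coe_eval₂Hom, eval₂_X, map_X, RingHom.coe_coe, hΨ,
        aeval_X, Fin.cons_succ]
  have hΨP : Ψ (rename (fts e) P) = 0 := by
    have h2 := DFunLike.congr_fun hΨκ (C P)
    simp only [RingHom.comp_apply, hκ, coe_eval₂Hom, eval₂_C, map_C, RingHom.coe_coe] at h2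
    rw [h2, (hq P).2 (dvd_refl P), map_zero]
  have hnd : ¬ rename (fts e) P ∣ κ R := by
    rintro ⟨V, hV⟩
    apply hR
    rw [← DFunLike.congr_fun hΨκ R, RingHom.comp_apply, hV, RingHom.coe_coe, map_mul, hΨP, zero_mul]
  have hirr : Irreducible (rename (fts e) P) := (prime_rename (fts_inj e) hP.prime).irreducible
  have hdeg : (rename (fts e) P).degreeOf 0 ≠ 0 := by
    have h2 := degreeOf_rename_of_injective (p := P) (fts_inj e) 1
    rw [show fts e 1 = 0 from rfl] at h2
    rw [h2]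
    exact h1
  obtain ⟨A, B, F, hF, hAB⟩ := coprime_mv _ _ hirr hdeg hnd
  refine ⟨F, hF, ?_⟩
  intro K _ _ p z hp hz
  have h2 : (aeval (Fin.cons (p 1) (tz (p 0) z)) : MvPolynomial (Fin (e + 2)) K0 →ₐ[K0] K)
      (rename (fts e) P) = 0 := by
    rw [aeval_rename]
    have h3 : (Fin.cons (p 1) (tz (p 0) z) : Fin (e + 2) → K) ∘ fts e = p := by
      funext i
      fin_cases i <;> rfl
    rw [h3, hp]
  have h3 : (aeval (Fin.cons (p 1) (tz (p 0) z)) : MvPolynomial (Fin (e + 2)) K0 →ₐ[K0] K)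
      (κ R) = 0 := by
    rw [← hz]
    have h4 : ((aeval (Fin.cons (p 1) (tz (p 0) z)) : MvPolynomial (Fin (e + 2)) K0 →ₐ[K0] K) :
        MvPolynomial (Fin (e + 2)) K0 →+* K).comp κ =
        eval₂Hom ((aeval p : P2 K0 →ₐ[K0] K) : P2 K0 →+* K) (fun j : Fin e => z j.succ) := by
      apply MvPolynomial.ringHom_ext
      · intro Q
        simp only [RingHom.comp_apply, hκ, coe_eval₂Hom, eval₂_C, RingHom.coe_coe]
        rw [aeval_rename]
        have h3 : (Fin.cons (p 1) (tz (p 0) z) : Fin (e + 2) → K) ∘ fts e = p := by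
          funext i
          fin_cases i <;> rfl
        rw [h3]
      · intro j
        simp only [RingHom.comp_apply, hκ, coe_eval₂Hom, eval₂_X, RingHom.coe_coe, aeval_X]
        rfl
    exact DFunLike.congr_fun h4 R
  have h4 := congrArg (aeval (Fin.cons (p 1) (tz (p 0) z)) :
    MvPolynomial (Fin (e + 2)) K0 →ₐ[K0] K) hAB
  rw [map_add, map_mul, map_mul, h2, h3, mul_zero, mul_zero, add_zero, aeval_rename] at h4
  exact h4.symm

/-- one subsum -/
theorem one_J {M e g : ℕ} (P : P2 K0) (hP : Irreducible P)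
    (h1 : P.degreeOf 1 ≠ 0) (N : Fin M → P2 K0) (hN : ∀ i, ¬ P ∣ N i) (ν : Fin g → Fin M → ℤ)
    (b : Fin g → Fin (e + 1) → ℕ) (hb : Function.Injective b) (hb0 : ∃ k l, b k 0 ≠ b l 0)
    (hG : GeomIrr P N ν b) (J : Finset (Fin g)) (hJ : J.Nonempty) (hJ' : J ≠ Finset.univ) :
    ∃ F : MvPolynomial (Fin (e + 1)) K0, F ≠ 0 ∧
      ∀ (K : Type) [Field K] [Algebra K0 K] (p : Fin 2 → K) (z : Fin (e + 1) → K),
        aeval p P = 0 → (∀ i, aeval p (N i) ≠ 0) →
        GG (fun i => aeval p (N i)) ν b z = 0 →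
        ∑ k ∈ J, mon (fun i => aeval p (N i)) (ν k) * ∏ j, z j ^ b k j = 0 →
        aeval (tz (p 0) z) F = 0 := by
  classical
  obtain ⟨L, _, _, q, hq, hL⟩ := exists_gen P hP
  set φ : P2 K0 →+* L := ((aeval q : P2 K0 →ₐ[K0] L) : P2 K0 →+* L) with hφ
  have hNq : ∀ i, aeval q (N i) ≠ 0 := fun i h => hN i ((hq _).1 h)
  set c : Fin g → L := fun k => mon (fun i => aeval q (N i)) (ν k) with hc
  have hc0 : ∀ k, c k ≠ 0 := fun k =>
    Finset.prod_ne_zero_iff.2 fun i _ => zpow_ne_zero _ (hNq i)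
  have hirr : Irreducible (gpol c b) := hG L φ hq
  have hnd := not_dvd_subsum c hc0 b hb J hJ hJ'
  have hdeg : (gpol c b).degreeOf 0 ≠ 0 := by
    obtain ⟨k, l, hkl⟩ := hb0
    have key : ∀ k : Fin g, b k 0 ≤ (gpol c b).degreeOf 0 := by
      intro k
      have h2 : Finsupp.equivFunOnFinite.symm (b k) ∈ (gpol c b).support := by
        rw [MvPolynomial.mem_support_iff, coeff_gpol c b hb k]
        exact hc0 k
      exact monomial_le_degreeOf 0 h2
    have hk := key k
    have hl := key l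
    omega
  obtain ⟨A, B, r, hr, hAB⟩ := coprime_mv _ _ hirr hdeg hnd
  obtain ⟨DA, A', hDA, hA'⟩ := clear_den hP hL A
  obtain ⟨DB, B', hDB, hB'⟩ := clear_den hP hL B
  obtain ⟨Dr, r', hDr, hr'⟩ := clear_den hP hL r
  set μN : P2 K0 := ∏ i, N i ^ (∑ l, (ν l i).natAbs) with hμN
  have hμ : aeval q μN = ∏ i, aeval q (N i) ^ (∑ l, (ν l i).natAbs) := by
    rw [hμN, map_prod]
    exact Finset.prod_congr rfl fun i _ => map_pow _ _ _
  have hμ0 : aeval q μN ≠ 0 := by
    rw [hμ]
    exact Finset.prod_ne_zero_iff.2 fun i _ => pow_ne_zero _ (hNq i)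
  -- the identity with cleared denominators
  have hid : MvPolynomial.map φ (C (DB * Dr) * A' * GT N ν b Finset.univ +
      C (DA * Dr) * B' * GT N ν b J - C (DA * DB * μN) * rename Fin.succ r') = 0 := by
    simp only [map_sub, map_add, map_mul, map_C]
    rw [hφ, map_GT N ν b _ q hNq, map_GT N ν b _ q hNq, hA', hB', map_rename, hr', ← hμ]
    simp only [RingHom.coe_coe, map_mul, rename_C]
    have h5 : (∑ k ∈ (Finset.univ : Finset (Fin g)),
        monomial (Finsupp.equivFunOnFinite.symm (b k)) (mon (fun i => aeval q (N i)) (ν k))) =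
        gpol c b := rfl
    rw [h5]
    linear_combination (C (aeval q DA) * C (aeval q DB) * C (aeval q Dr) * C (aeval q μN)) * hAB
  have hne : MvPolynomial.map φ (C (DA * DB * μN) * r') ≠ 0 := by
    rw [map_mul, map_C, hφ, hr']
    simp only [RingHom.coe_coe, map_mul]
    have e1 : (C (aeval q DA) : MvPolynomial (Fin e) L) ≠ 0 := by
      rw [Ne, C_eq_zero]; exact fun h => hDA ((hq _).1 h)
    have e2 : (C (aeval q DB) : MvPolynomial (Fin e) L) ≠ 0 := by
      rw [Ne, C_eq_zero]; exact fun h => hDB ((hq _).1 h)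
    have e3 : (C (aeval q Dr) : MvPolynomial (Fin e) L) ≠ 0 := by
      rw [Ne, C_eq_zero]; exact fun h => hDr ((hq _).1 h)
    have e4 : (C (aeval q μN) : MvPolynomial (Fin e) L) ≠ 0 := by
      rw [Ne, C_eq_zero]; exact hμ0
    exact mul_ne_zero (mul_ne_zero (mul_ne_zero e1 e2) e4) (mul_ne_zero e3 hr)
  obtain ⟨F, hF, hFz⟩ := elim_s hP h1 hq (C (DA * DB * μN) * r') hne
  refine ⟨F, hF, ?_⟩
  intro K _ _ p z hp hNp hGz hJz
  apply hFz K p z hp
  have h6 := eval_zero hq _ hid p hp z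
  simp only [eval₂_sub, eval₂_add, eval₂_mul] at h6
  rw [eval_GT N ν b _ p hNp, eval_GT N ν b _ p hNp, hJz] at h6
  have h7 : ∑ k ∈ (Finset.univ : Finset (Fin g)),
      mon (fun i => aeval p (N i)) (ν k) * ∏ j, z j ^ b k j = 0 := hGz
  rw [h7] at h6
  simp only [mul_zero, add_zero, zero_sub, neg_eq_zero] at h6
  rw [eval₂_C, eval₂_rename] at h6
  rw [eval₂_mul, eval₂_C]
  exact h6

end EL

theorem subsum_elim (K0 : Type) [Field K0] {M e g : ℕ} (P : P2 K0) (hP : Irreducible P)
    (h1 : P.degreeOf 1 ≠ 0) (N : Fin M → P2 K0) (hN : ∀ i, ¬ P ∣ N i) (ν : Fin g → Fin M → ℤ)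
    (b : Fin g → Fin (e + 1) → ℕ) (hb : Function.Injective b) (hb0 : ∃ k l, b k 0 ≠ b l 0)
    (hG : GeomIrr P N ν b) :
    ∃ F : MvPolynomial (Fin (e + 1)) K0, F ≠ 0 ∧
      ∀ (K : Type) [Field K] [Algebra K0 K] (p : Fin 2 → K) (z : Fin (e + 1) → K),
        MvPolynomial.aeval p P = 0 → (∀ i, MvPolynomial.aeval p (N i) ≠ 0) → (∀ j, z j ≠ 0) →
        GG (fun i => MvPolynomial.aeval p (N i)) ν b z = 0 →
        (∃ J : Finset (Fin g), J.Nonempty ∧ J ≠ Finset.univ ∧
          ∑ k ∈ J, mon (fun i => MvPolynomial.aeval p (N i)) (ν k) * ∏ j, z j ^ b k j = 0) →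
        MvPolynomial.aeval (tz (p 0) z) F = 0 := by
  classical
  have key := fun (J : {J : Finset (Fin g) // J.Nonempty ∧ J ≠ Finset.univ}) =>
    EL.one_J P hP h1 N hN ν b hb hb0 hG J.1 J.2.1 J.2.2
  choose F hF hFz using key
  refine ⟨∏ J, F J, Finset.prod_ne_zero_iff.2 fun J _ => hF J, ?_⟩
  intro K _ _ p z hp hNp _ hGz hJ
  obtain ⟨J, hJ1, hJ2, hJ3⟩ := hJ
  rw [map_prod]
  exact Finset.prod_eq_zero (Finset.mem_univ ⟨J, hJ1, hJ2⟩) (hFz ⟨J, hJ1, hJ2⟩ K p z hp hNp hGz hJ3)

end Pool.Agent.HF
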