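import Mathlib
import Pool.Agent.Lib.MP_c95b3b_ag_HF.Defs

/-! Project HF (MP_c95b3b_ag), module HC: rational vectors near a real vector. -/

namespace Pool.Agent.HF

open Pool.Agent.L3 Pool.Agent.RS Module

theorem cone_clear {m : ℕ} (w : Fin m → ℚ) :
    ∃ (N : ℕ) (c : Fin m → ℤ), 0 < N ∧ ∀ j, (c j : ℚ) = N * w j := by
  refine ⟨∏ i, (w i).den, fun j => (w j).num * ∏ i ∈ Finset.univ.erase j, ((w i).den : ℤ),
    Finset.prod_pos fun i _ => (w i).pos, fun j => ?_⟩
  rw [← Finset.mul_prod_erase Finset.univ (fun i => (w i).den) (Finset.mem_univ j)]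
  push_cast
  have h : ((w j).num : ℚ) = w j * (w j).den := (Rat.mul_den_eq_num (w j)).symm
  rw [h]
  ring

/-- rational points are dense in rational subspaces -/
theorem cone_dense {m : ℕ} (r0 : Fin m → ℝ) (W : Set (Fin m → ℝ)) (hW : W ∈ nhds r0) :
    ∃ a : Fin m → ℚ, (fun j => (a j : ℝ)) ∈ W ∧
      ∀ ν : Fin m → ℚ, ∑ j, r0 j * (ν j : ℝ) = 0 → ∑ j, a j * ν j = 0 := by
  classical
  let V : Submodule ℚ ℝ := Submodule.span ℚ (Set.range r0)
  have : Module.Finite ℚ V := Module.Finite.span_of_finite ℚ (Set.finite_range r0)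
  let b := Module.finBasis ℚ V
  have hr : ∀ j, r0 j ∈ V := fun j => Submodule.subset_span ⟨j, rfl⟩
  let s := Module.finrank ℚ V
  let Q : Fin m → Fin s → ℚ := fun j i => b.repr ⟨r0 j, hr j⟩ i
  have hQ : ∀ j, r0 j = ∑ i, (Q j i : ℝ) * (b i : ℝ) := by
    intro j
    have h := congrArg (fun v : V => (v : ℝ)) (b.sum_repr ⟨r0 j, hr j⟩)
    simp only [Submodule.coe_sum, Submodule.coe_smul] at h
    rw [← h]
    exact Finset.sum_congr rfl fun i _ => by rw [Rat.smul_def]
  let T : (Fin s → ℝ) → Fin m → ℝ := fun β j => ∑ i, (Q j i : ℝ) * β i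
  have hT : Continuous T := by
    refine continuous_pi fun j => continuous_finsetSum _ fun i _ => ?_
    exact continuous_const.mul (continuous_apply i)
  have hTb : T (fun i => (b i : ℝ)) = r0 := by
    funext j
    exact (hQ j).symm
  have hpre : T ⁻¹' W ∈ nhds (fun i => (b i : ℝ)) := by
    apply hT.continuousAt.preimage_mem_nhds
    rw [hTb]
    exact hW
  have hdense : DenseRange (fun q : Fin s → ℚ => fun i => (q i : ℝ)) :=
    DenseRange.piMap (fun _ => Rat.denseRange_cast)
  obtain ⟨x, ⟨β, rfl⟩, hx1⟩ := hdense.inter_nhds_nonempty hpre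
  refine ⟨fun j => ∑ i, Q j i * β i, ?_, ?_⟩
  · have h : (fun j => ((∑ i, Q j i * β i : ℚ) : ℝ)) = T (fun i => (β i : ℝ)) := by
      funext j
      push_cast
      rfl
    rw [h]
    exact hx1
  · intro ν hν
    have h1 : ∑ i, ((∑ j, ν j * Q j i : ℚ)) • (b i : V) = 0 := by
      apply Subtype.ext
      simp only [Submodule.coe_sum, Submodule.coe_smul, ZeroMemClass.coe_zero, Rat.smul_def]
      rw [← hν]
      simp only [hQ]
      push_cast
      simp only [Finset.sum_mul]
      rw [Finset.sum_comm]
      refine Finset.sum_congr rfl fun j _ => Finset.sum_congr rfl fun i _ => ?_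
      ring
    have h2 := Fintype.linearIndependent_iff.1 b.linearIndependent _ h1
    calc ∑ j, (∑ i, Q j i * β i) * ν j = ∑ i, (∑ j, ν j * Q j i) * β i := by
          simp only [Finset.sum_mul]
          rw [Finset.sum_comm]
          refine Finset.sum_congr rfl fun j _ => Finset.sum_congr rfl fun i _ => ?_
          ring
      _ = 0 := Finset.sum_eq_zero fun i _ => by rw [h2 i, zero_mul]

theorem cone {m : ℕ} (𝒩 : Finset (Fin m → ℚ)) (r0 : Fin m → ℝ) (hr0 : r0 ≠ 0) :
    ∃ (a : Fin m → ℤ) (q : ℕ) (c : Fin q → Fin m → ℤ) (U : Set (Fin m → ℝ)), a ≠ 0 ∧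
      U ∈ nhds r0 ∧
      (∀ r ∈ U, ∃ l : Fin q → ℝ, (∀ k, 0 ≤ l k) ∧ (∃ k, 0 < l k) ∧
        ∀ j, r j = ∑ k, l k * c k j) ∧
      ∀ ν ∈ 𝒩, ∀ k,
        (0 ≤ ∑ j, (c k j : ℚ) * ν j → 0 ≤ ∑ j, (a j : ℚ) * ν j) ∧
        (∑ j, (c k j : ℚ) * ν j ≤ 0 → ∑ j, (a j : ℚ) * ν j ≤ 0) := by
  classical
  let D : (Fin m → ℚ) → (Fin m → ℝ) → ℝ := fun ν ρ => ∑ j, ρ j * (ν j : ℝ)
  have hD : ∀ ν, Continuous (D ν) := fun ν =>
    continuous_finsetSum _ fun j _ => (continuous_apply j).mul continuous_const
  -- the open set in which the signs are the same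
  let W : Set (Fin m → ℝ) := {ρ | ρ ≠ 0 ∧ ∀ ν ∈ 𝒩, (0 < D ν r0 → 0 < D ν ρ) ∧
    (D ν r0 < 0 → D ν ρ < 0)}
  have hW : W ∈ nhds r0 := by
    have h1 : ∀ᶠ ρ in nhds r0, ρ ≠ 0 := isOpen_ne.mem_nhds hr0
    have h2 : ∀ᶠ ρ in nhds r0, ∀ ν ∈ 𝒩, (0 < D ν r0 → 0 < D ν ρ) ∧
        (D ν r0 < 0 → D ν ρ < 0) := by
      rw [Filter.eventually_all_finset]
      intro ν _
      refine Filter.Eventually.and ?_ ?_
      · by_cases h : 0 < D ν r0
        · exact (((hD ν).continuousAt.eventually (lt_mem_nhds h))).mono fun ρ hρ _ => hρ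
        · exact Filter.Eventually.of_forall fun ρ h' => absurd h' h
      · by_cases h : D ν r0 < 0
        · exact (((hD ν).continuousAt.eventually (gt_mem_nhds h))).mono fun ρ hρ _ => hρ
        · exact Filter.Eventually.of_forall fun ρ h' => absurd h' h
    exact h1.and h2
  obtain ⟨a', ha'W, ha'0⟩ := cone_dense r0 W hW
  obtain ⟨Na, a, hNa, ha⟩ := cone_clear a'
  obtain ⟨δ, hδ, hball⟩ := Metric.mem_nhds_iff.1 hW
  -- the centre and the size of the octahedron
  obtain ⟨ε, hε0, hε⟩ : ∃ ε : ℚ, 0 < (ε : ℝ) ∧ (ε : ℝ) < δ / 2 := exists_rat_btwn (by linarith)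
  have hη : 0 < (ε : ℝ) / (m + 1) := by positivity
  have hden : DenseRange (fun q : Fin m → ℚ => fun i => (q i : ℝ)) :=
    DenseRange.piMap (fun _ => Rat.denseRange_cast)
  obtain ⟨x, ⟨p, rfl⟩, hx1⟩ := hden.inter_nhds_nonempty (Metric.ball_mem_nhds r0 hη)
  have hp : ∀ j, |(p j : ℝ) - r0 j| < ε / (m + 1) := by
    intro j
    have h := (dist_pi_lt_iff hη).1 (Metric.mem_ball.1 hx1) j
    rwa [Real.dist_eq] at h
  -- the vectors
  let vec : Option (Fin m × Bool) → Fin m → ℚ := fun o =>
    match o with
    | none => p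
    | some (i, t) => fun j => p j + if j = i then (if t then ε else -ε) else 0
  have hvecW : ∀ o, (fun j => (vec o j : ℝ)) ∈ W := by
    intro o
    apply hball
    rw [Metric.mem_ball, dist_pi_lt_iff hδ]
    intro j
    rw [Real.dist_eq]
    have hpj := hp j
    have h1 : (ε : ℝ) / (m + 1) ≤ ε := by
      rw [div_le_iff₀ (by positivity)]
      have : (0 : ℝ) ≤ m := Nat.cast_nonneg m
      nlinarith
    have h2 : |(vec o j : ℝ) - p j| ≤ ε := by
      rcases o with _ | ⟨i, t⟩
      · simp only [vec, sub_self, abs_zero]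
        exact hε0.le
      · simp only [vec]
        push_cast
        by_cases hji : j = i
        · cases t
          · simp [hji, abs_of_pos hε0]
          · simp [hji, abs_of_pos hε0]
        · simp [hji, hε0.le]
    calc |(vec o j : ℝ) - r0 j| ≤ |(vec o j : ℝ) - p j| + |(p j : ℝ) - r0 j| := abs_sub_le _ _ _
      _ < δ := by linarith
  have hvec : ∀ o, ∃ (N : ℕ) (c : Fin m → ℤ), 0 < N ∧ ∀ j, (c j : ℚ) = N * vec o j := fun o =>
    cone_clear (vec o)
  choose No co hNo hco using hvec
  let e := Fintype.equivFin (Option (Fin m × Bool))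
  refine ⟨a, Fintype.card (Option (Fin m × Bool)), fun k => co (e.symm k),
    {r | ∑ j, |r j - p j| < ε}, ?_, ?_, ?_, ?_⟩
  · -- a ≠ 0
    intro ha0
    apply ha'W.1
    funext j
    have h1 := ha j
    rw [ha0] at h1
    simp only [Pi.zero_apply, Int.cast_zero] at h1
    have h2 : (Na : ℚ) ≠ 0 := by exact_mod_cast hNa.ne'
    have h3 : a' j = 0 := by
      rcases mul_eq_zero.1 h1.symm with h | h
      · exact absurd h h2
      · exact h
    simp [h3]
  · -- neighbourhood
    have hopen : IsOpen {r : Fin m → ℝ | ∑ j, |r j - p j| < (ε : ℝ)} := by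
      apply isOpen_lt _ continuous_const
      exact continuous_finsetSum _ fun j _ => ((continuous_apply j).sub continuous_const).abs
    apply hopen.mem_nhds
    show ∑ j, |r0 j - p j| < (ε : ℝ)
    calc ∑ j, |r0 j - p j| ≤ ∑ _j : Fin m, (ε : ℝ) / (m + 1) :=
          Finset.sum_le_sum fun j _ => by rw [abs_sub_comm]; exact (hp j).le
      _ = m * ((ε : ℝ) / (m + 1)) := by
          rw [Finset.sum_const, Finset.card_univ, Fintype.card_fin, nsmul_eq_mul]
      _ < ε := by
          rw [mul_div_assoc', div_lt_iff₀ (by positivity)]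
          nlinarith
  · -- combinations
    intro r hr
    have hr' : ∑ j, |r j - p j| < (ε : ℝ) := hr
    let lo : Option (Fin m × Bool) → ℝ := fun o =>
      match o with
      | none => 1 - (∑ j, |r j - p j|) / ε
      | some (i, true) => max (r i - p i) 0 / ε
      | some (i, false) => max (-(r i - p i)) 0 / ε
    have hlo : ∀ o, 0 ≤ lo o := by
      intro o
      rcases o with _ | ⟨i, t⟩
      · simp only [lo]
        rw [sub_nonneg, div_le_one hε0]
        exact hr'.le
      · cases t
        · exact div_nonneg (le_max_right _ _) hε0.le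
        · exact div_nonneg (le_max_right _ _) hε0.le
    have hlo0 : 0 < lo none := by
      simp only [lo]
      rw [sub_pos, div_lt_one hε0]
      exact hr'
    have hNpos : ∀ o, (0 : ℝ) < No o := fun o => by exact_mod_cast hNo o
    refine ⟨fun k => lo (e.symm k) / No (e.symm k), fun k => div_nonneg (hlo _) (hNpos _).le,
      ⟨e none, ?_⟩, ?_⟩
    · show 0 < lo (e.symm (e none)) / No (e.symm (e none))
      rw [e.symm_apply_apply]
      exact div_pos hlo0 (hNpos _)
    · intro j
      have h1 : ∑ k, lo (e.symm k) / No (e.symm k) * (co (e.symm k) j : ℝ) =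
          ∑ o, lo o / No o * (co o j : ℝ) :=
        Equiv.sum_comp e.symm (fun o => lo o / No o * (co o j : ℝ))
      rw [h1]
      have h2 : ∀ o, lo o / No o * (co o j : ℝ) = lo o * (vec o j : ℝ) := by
        intro o
        have h3 : (co o j : ℝ) = No o * (vec o j : ℝ) := by
          have := congrArg (fun x : ℚ => (x : ℝ)) (hco o j)
          push_cast at this
          exact this
        rw [h3]
        field_simp [(hNpos o).ne']
      simp only [h2]
      rw [Fintype.sum_option, Fintype.sum_prod_type]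
      simp only [Fintype.sum_bool]
      have h4 : ∀ i, lo (some (i, true)) * (vec (some (i, true)) j : ℝ) +
          lo (some (i, false)) * (vec (some (i, false)) j : ℝ) =
          |r i - p i| / ε * p j + if j = i then (r i - p i) else 0 := by
        intro i
        have hm1 : max (r i - p i) 0 + max (-(r i - p i)) 0 = |r i - p i| := by
          rcases le_total 0 (r i - (p i : ℝ)) with h | h
          · rw [max_eq_left h, max_eq_right (by linarith), abs_of_nonneg h, add_zero]
          · rw [max_eq_right h, max_eq_left (by linarith), abs_of_nonpos h, zero_add]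
        have hm2 : max (r i - p i) 0 - max (-(r i - p i)) 0 = r i - p i := by
          rcases le_total 0 (r i - (p i : ℝ)) with h | h
          · rw [max_eq_left h, max_eq_right (by linarith), sub_zero]
          · rw [max_eq_right h, max_eq_left (by linarith)]
            ring
        have hv1 : (vec (some (i, true)) j : ℝ) = p j + if j = i then (ε : ℝ) else 0 := by
          by_cases hji : j = i
          · simp [vec, hji]
          · simp [vec, hji]
        have hv2 : (vec (some (i, false)) j : ℝ) = p j - if j = i then (ε : ℝ) else 0 := by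
          by_cases hji : j = i
          · simp [vec, hji, sub_eq_add_neg]
          · simp [vec, hji]
        have hl1 : lo (some (i, true)) = max (r i - p i) 0 / ε := rfl
        have hl2 : lo (some (i, false)) = max (-(r i - p i)) 0 / ε := rfl
        rw [hv1, hv2, hl1, hl2, ← hm1]
        by_cases hji : j = i
        · simp only [if_pos hji]
          have hε' : (ε : ℝ) ≠ 0 := hε0.ne'
          have key : ∀ A B : ℝ, A / ε * (p j + ε) + B / ε * (p j - ε) =
              (A + B) / ε * p j + (A - B) := by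
            intro A B
            field_simp
            ring
          rw [key, hm2]
        · simp only [if_neg hji]
          ring
      simp only [h4]
      rw [Finset.sum_add_distrib, Finset.sum_ite_eq, if_pos (Finset.mem_univ j),
        ← Finset.sum_mul, ← Finset.sum_div]
      simp only [lo, vec]
      ring
  · -- signs
    intro ν hν k
    have hcast : ∀ (w : Fin m → ℚ), ((∑ j, w j * ν j : ℚ) : ℝ) = D ν (fun j => (w j : ℝ)) := by
      intro w
      push_cast
      rfl
    have hmul : ∀ (N : ℕ) (c : Fin m → ℤ) (w : Fin m → ℚ), (∀ j, (c j : ℚ) = N * w j) →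
        ∑ j, (c j : ℚ) * ν j = N * ∑ j, w j * ν j := by
      intro N c w h
      rw [Finset.mul_sum]
      exact Finset.sum_congr rfl fun j _ => by rw [h j]; ring
    have hNa' : (0 : ℚ) < Na := by exact_mod_cast hNa
    have hNk' : (0 : ℚ) < No (e.symm k) := by exact_mod_cast hNo (e.symm k)
    rw [hmul Na a a' ha, hmul _ _ _ (hco (e.symm k))]
    rcases lt_trichotomy (D ν r0) 0 with h | h | h
    · have h1 : ∑ j, a' j * ν j < 0 := by
        have := (ha'W.2 ν hν).2 h
        rw [← hcast] at this
        exact_mod_cast this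
      have h2 : ∑ j, vec (e.symm k) j * ν j < 0 := by
        have := ((hvecW (e.symm k)).2 ν hν).2 h
        rw [← hcast] at this
        exact_mod_cast this
      constructor
      · intro h3
        exact absurd h3 (not_le.2 (mul_neg_of_pos_of_neg hNk' h2))
      · intro _
        exact (mul_neg_of_pos_of_neg hNa' h1).le
    · have h1 : ∑ j, a' j * ν j = 0 := ha'0 ν h
      rw [h1, mul_zero]
      exact ⟨fun _ => le_refl _, fun _ => le_refl _⟩
    · have h1 : 0 < ∑ j, a' j * ν j := by
        have := (ha'W.2 ν hν).1 h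
        rw [← hcast] at this
        exact_mod_cast this
      have h2 : 0 < ∑ j, vec (e.symm k) j * ν j := by
        have := ((hvecW (e.symm k)).2 ν hν).1 h
        rw [← hcast] at this
        exact_mod_cast this
      constructor
      · intro _
        exact (mul_pos hNa' h1).le
      · intro h3
        exact absurd h3 (not_le.2 (mul_pos hNk' h2))

end Pool.Agent.HF
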