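import Mathlib
import Pool.Agent.Lib.MP_c95b3b_ag_HF.Defs

/-! Project HF (MP_c95b3b_ag), module HD: finitely many directions. -/

namespace Pool.Agent.HF

open Pool.Agent.L3 Pool.Agent.RS Module

namespace Dirs

theorem zsmul_nonpos' {H : Type*} [AddCommGroup H] [LinearOrder H] [IsOrderedAddMonoid H] {x : H}
    (hx : x ≤ 0) {n : ℤ} (hn : 0 ≤ n) : n • x ≤ 0 := by
  have := zsmul_nonneg (neg_nonneg.2 hx) hn
  rwa [smul_neg, neg_nonneg] at this

/-- the additive version -/
theorem core {H : Type*} [AddCommGroup H] [LinearOrder H] [IsOrderedAddMonoid H] {m : ℕ} (γ : H)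
    (g : Fin m → H) (p q : Fin m → ℤ) (hq : ∀ j, q j ≠ 0) (h : ∀ j, q j • g j = p j • γ)
    (a : Fin m → ℤ) : (γ < 0 → (∑ j, a j • g j ≤ 0 ↔ 0 ≤ ∑ j, (a j : ℚ) * (p j / q j))) ∧
      (0 < γ → (∑ j, a j • g j ≤ 0 ↔ 0 ≤ ∑ j, (a j : ℚ) * (-(p j / q j)))) := by
  classical
  set Q : ℤ := ∏ j, q j ^ 2 with hQ
  have hQ0 : 0 < Q := Finset.prod_pos fun j _ => by have := hq j; positivity
  set r : Fin m → ℤ := fun j => q j * ∏ k ∈ Finset.univ.erase j, q k ^ 2 with hr
  have hrQ : ∀ j, Q = r j * q j := by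
    intro j
    rw [hQ, hr, ← Finset.mul_prod_erase Finset.univ (fun j => q j ^ 2) (Finset.mem_univ j)]
    ring
  set n : ℤ := ∑ j, a j * r j * p j with hn
  have h1 : Q • ∑ j, a j • g j = n • γ := by
    rw [Finset.smul_sum, hn, Finset.sum_smul]
    refine Finset.sum_congr rfl fun j _ => ?_
    rw [mul_smul, ← h j, ← mul_smul, ← mul_smul, hrQ j]
    congr 1
    ring
  have h2 : (n : ℚ) = Q * ∑ j, (a j : ℚ) * (p j / q j) := by
    rw [hn, Finset.mul_sum]
    push_cast
    refine Finset.sum_congr rfl fun j _ => ?_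
    have hqj : (q j : ℚ) ≠ 0 := by exact_mod_cast hq j
    have h3 : (Q : ℚ) = r j * q j := by exact_mod_cast hrQ j
    rw [h3]
    field_simp
  have hQq : (0 : ℚ) < Q := by exact_mod_cast hQ0
  have h3 : (∑ j, a j • g j ≤ 0) ↔ n • γ ≤ 0 := by
    rw [← h1]
    constructor
    · intro h4
      exact zsmul_nonpos' h4 hQ0.le
    · intro h4
      by_contra h5
      exact absurd (zsmul_pos (not_le.1 h5) hQ0) (not_lt.2 h4)
  have h4 : (0 ≤ ∑ j, (a j : ℚ) * (p j / q j)) ↔ 0 ≤ n := by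
    have h5 : (0 ≤ n) ↔ (0 : ℚ) ≤ n := by norm_cast
    rw [h5, h2]
    exact (mul_nonneg_iff_of_pos_left hQq).symm
  have h5 : (0 ≤ ∑ j, (a j : ℚ) * (-(p j / q j))) ↔ n ≤ 0 := by
    have h6 : ∑ j, (a j : ℚ) * (-(p j / q j)) = -∑ j, (a j : ℚ) * (p j / q j) := by
      rw [← Finset.sum_neg_distrib]
      exact Finset.sum_congr rfl fun j _ => by ring
    have h7 : (n ≤ 0) ↔ (n : ℚ) ≤ 0 := by norm_cast
    rw [h6, h7, h2, neg_nonneg]
    constructor
    · intro h8
      exact mul_nonpos_of_nonneg_of_nonpos hQq.le h8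
    · intro h8
      by_contra h9
      exact absurd (mul_pos hQq (not_le.1 h9)) (not_lt.2 h8)
  constructor
  · intro hγ
    rw [h3, h4]
    constructor
    · intro h6
      by_contra h7
      have h8 : 0 < n • γ := by
        have := zsmul_pos (neg_pos.2 hγ) (neg_pos.2 (not_le.1 h7))
        rwa [smul_neg, neg_smul, neg_neg] at this
      exact absurd h8 (not_lt.2 h6)
    · intro h6
      exact zsmul_nonpos' hγ.le h6
  · intro hγ
    rw [h3, h5]
    constructor
    · intro h6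
      by_contra h7
      exact absurd (zsmul_pos hγ (not_le.1 h7)) (not_lt.2 h6)
    · intro h6
      have := zsmul_nonneg hγ.le (neg_nonneg.2 h6)
      rwa [neg_smul, neg_nonneg] at this

/-- constants have valuation one -/
theorem val_const {K0 L : Type} [Field K0] [Field L] [Algebra K0 L] (V : ValuationSubring L)
    (hV : ∀ c : K0, algebraMap K0 L c ∈ V) {c : K0} (hc : c ≠ 0) :
    V.valuation (algebraMap K0 L c) = 1 := by
  have h1 : V.valuation (algebraMap K0 L c) ≤ 1 := (V.valuation_le_one_iff _).2 (hV c)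
  have h2 : V.valuation (algebraMap K0 L c⁻¹) ≤ 1 := (V.valuation_le_one_iff _).2 (hV c⁻¹)
  have h3 : V.valuation (algebraMap K0 L c) * V.valuation (algebraMap K0 L c⁻¹) = 1 := by
    rw [← map_mul, ← map_mul, mul_inv_cancel₀ hc, map_one, map_one]
  refine le_antisymm h1 ?_
  calc (1 : V.ValueGroup) = V.valuation (algebraMap K0 L c) *
        V.valuation (algebraMap K0 L c⁻¹) := h3.symm
    _ ≤ V.valuation (algebraMap K0 L c) * 1 := mul_le_mul_right h2 _
    _ = _ := mul_one _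

/-- the maximum is attained twice -/
theorem twice {L ι : Type} [Field L] {Γ : Type} [LinearOrderedCommGroupWithZero Γ]
    (v : Valuation L Γ) (s : Finset ι) (f : ι → L) (hf : ∀ i ∈ s, f i ≠ 0) (hs : s.Nonempty)
    (h0 : ∑ i ∈ s, f i = 0) : ∃ i ∈ s, ∃ j ∈ s, i ≠ j ∧ v (f i) = v (f j) := by
  classical
  obtain ⟨i, hi, hmax⟩ := s.exists_max_image (fun i => v (f i)) hs
  by_contra hcon
  push Not at hcon
  have h1 : ∀ j ∈ s.erase i, v (f j) < v (f i) := by
    intro j hj
    rw [Finset.mem_erase] at hj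
    exact lt_of_le_of_ne (hmax j hj.2) fun h => hcon i hi j hj.2 hj.1.symm h.symm
  have h2 : v (∑ j ∈ s.erase i, f j) < v (f i) :=
    v.map_sum_lt ((v.ne_zero_iff).2 (hf i hi)) h1
  have h3 : ∑ j ∈ s.erase i, f j = -f i := by
    rw [← Finset.add_sum_erase s f hi] at h0
    linear_combination h0
  rw [h3, Valuation.map_neg] at h2
  exact lt_irrefl _ h2

end Dirs

theorem dirs (K0 L : Type) [Field K0] [Field L] [Algebra K0 L] {m : ℕ} (x : Fin m → L)
    (hx : ∀ j, x j ≠ 0)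
    (hdep : ∀ i j, ∃ R : P2 K0, R ≠ 0 ∧ MvPolynomial.aeval ![x i, x j] R = 0) :
    ∃ 𝒩 : Finset (Fin m → ℚ), ∀ V : ValuationSubring L, (∀ c : K0, algebraMap K0 L c ∈ V) →
      ∃ ν ∈ 𝒩, ∀ a : Fin m → ℤ, mon x a ∈ V ↔ 0 ≤ ∑ j, (a j : ℚ) * ν j := by
  classical
  choose R hR0 hR using hdep
  set Θ : Fin m → Fin m → Finset ℚ := fun i j =>
    ((R i j).support ×ˢ (R i j).support).image fun e =>
      ((((e.1 0 : ℤ) - (e.2 0 : ℤ) : ℤ) : ℚ) / (((e.2 1 : ℤ) - (e.1 1 : ℤ) : ℤ) : ℚ)) with hΘ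
  set 𝒩 : Finset (Fin m → ℚ) := {0} ∪ (Finset.univ.biUnion fun i => Fintype.piFinset (Θ i)) ∪
    (Finset.univ.biUnion fun i => (Fintype.piFinset (Θ i)).image fun θ j => -θ j) with h𝒩
  refine ⟨𝒩, fun V hV => ?_⟩
  set v := V.valuation with hv
  have hvx : ∀ j, v (x j) ≠ 0 := fun j => (v.ne_zero_iff).2 (hx j)
  set g : Fin m → Additive (V.ValueGroupˣ) := fun j => Additive.ofMul (Units.mk0 (v (x j)) (hvx j))
    with hg
  have hmem : ∀ a : Fin m → ℤ, mon x a ∈ V ↔ ∑ j, a j • g j ≤ 0 := by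
    intro a
    rw [← V.valuation_le_one_iff]
    have h1 : ∑ j, a j • g j = Additive.ofMul (∏ j, (Units.mk0 (v (x j)) (hvx j)) ^ a j) := by
      rw [ofMul_prod]
      exact Finset.sum_congr rfl fun j _ => by rw [ofMul_zpow]
    have h2 : (∑ j, a j • g j ≤ 0) ↔ (∏ j, (Units.mk0 (v (x j)) (hvx j)) ^ a j) ≤ 1 := by
      rw [h1, ← ofMul_one, Additive.ofMul_le]
    rw [h2, ← Units.val_le_val, Units.val_one, Units.coe_prod]
    have h3 : V.valuation (mon x a) = ∏ j, (((Units.mk0 (v (x j)) (hvx j)) ^ a j :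
        V.ValueGroupˣ) : V.ValueGroup) := by
      rw [mon, map_prod]
      refine Finset.prod_congr rfl fun j _ => ?_
      rw [map_zpow₀, Units.val_zpow_eq_zpow_val, Units.val_mk0]
    rw [h3]
  by_cases hall : ∀ j, g j = 0
  · refine ⟨0, by rw [h𝒩]; simp, fun a => ?_⟩
    rw [hmem]
    simp [hall]
  · push Not at hall
    obtain ⟨i, hi⟩ := hall
    -- the relations
    have hrel : ∀ j, ∃ e ∈ (R i j).support, ∃ e' ∈ (R i j).support,
        ((e' 1 : ℤ) - (e 1 : ℤ)) ≠ 0 ∧
        ((e' 1 : ℤ) - (e 1 : ℤ)) • g j = ((e 0 : ℤ) - (e' 0 : ℤ)) • g i := by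
      intro j
      have h1 := hR i j
      rw [MvPolynomial.aeval_def, MvPolynomial.eval₂_eq'] at h1
      have hne : (R i j).support.Nonempty := by
        rw [Finset.nonempty_iff_ne_empty, Ne, MvPolynomial.support_eq_empty]
        exact hR0 i j
      have hterm : ∀ e ∈ (R i j).support, (algebraMap K0 L) ((R i j).coeff e) *
          ∏ k : Fin 2, ![x i, x j] k ^ e k ≠ 0 := by
        intro e he
        rw [Fin.prod_univ_two]
        have h2 : (R i j).coeff e ≠ 0 := MvPolynomial.mem_support_iff.1 he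
        have h3 : (algebraMap K0 L) ((R i j).coeff e) ≠ 0 := by
          rwa [Ne, map_eq_zero]
        exact mul_ne_zero h3 (mul_ne_zero (pow_ne_zero _ (hx i)) (pow_ne_zero _ (hx j)))
      obtain ⟨e, he, e', he', hee, heq⟩ := Dirs.twice v _ _ hterm hne h1
      have hval : ∀ e ∈ (R i j).support, v ((algebraMap K0 L) ((R i j).coeff e) *
          ∏ k : Fin 2, ![x i, x j] k ^ e k) = v (x i) ^ (e 0) * v (x j) ^ (e 1) := by
        intro e he
        have h2 : (R i j).coeff e ≠ 0 := MvPolynomial.mem_support_iff.1 he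
        rw [Fin.prod_univ_two, map_mul, hv, Dirs.val_const V hV h2, one_mul, map_mul, map_pow,
          map_pow]
        rfl
      rw [hval e he, hval e' he'] at heq
      have hadd : (e 0 : ℤ) • g i + (e 1 : ℤ) • g j = (e' 0 : ℤ) • g i + (e' 1 : ℤ) • g j := by
        have h4 : Units.mk0 (v (x i)) (hvx i) ^ (e 0) * Units.mk0 (v (x j)) (hvx j) ^ (e 1) =
            Units.mk0 (v (x i)) (hvx i) ^ (e' 0) * Units.mk0 (v (x j)) (hvx j) ^ (e' 1) := by
          apply Units.ext
          simp only [Units.val_mul, Units.val_pow_eq_pow_val, Units.val_mk0]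
          exact heq
        have h5 := congrArg Additive.ofMul h4
        simp only [ofMul_mul, ofMul_pow] at h5
        simpa only [natCast_zsmul] using h5
      have hrel' : ((e' 1 : ℤ) - (e 1 : ℤ)) • g j = ((e 0 : ℤ) - (e' 0 : ℤ)) • g i := by
        rw [sub_smul, sub_smul, sub_eq_sub_iff_add_eq_add, add_comm, ← hadd, add_comm]
      refine ⟨e, he, e', he', fun hq => ?_, hrel'⟩
      rw [hq, zero_smul] at hrel'
      have h6 : (e 0 : ℤ) - (e' 0 : ℤ) ≠ 0 := by
        intro h7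
        apply hee
        ext k
        fin_cases k
        · simp only [Fin.zero_eta]
          omega
        · simp only [Fin.mk_one]
          omega
      exact (smul_ne_zero h6 hi) hrel'.symm
    choose e he e' he' hq hrel using hrel
    have hcore := fun a => Dirs.core (g i) g (fun j => (e j 0 : ℤ) - (e' j 0 : ℤ))
      (fun j => (e' j 1 : ℤ) - (e j 1 : ℤ)) hq hrel a
    set θ : Fin m → ℚ := fun j => ((((e j 0 : ℤ) - (e' j 0 : ℤ) : ℤ) : ℚ) /
      (((e' j 1 : ℤ) - (e j 1 : ℤ) : ℤ) : ℚ)) with hθ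
    have hθmem : θ ∈ Fintype.piFinset (Θ i) := by
      rw [Fintype.mem_piFinset]
      intro j
      rw [hΘ]
      refine Finset.mem_image.2 ⟨(e j, e' j), Finset.mem_product.2 ⟨he j, he' j⟩, rfl⟩
    rcases lt_or_gt_of_ne hi with h | h
    · refine ⟨θ, ?_, fun a => ?_⟩
      · rw [h𝒩]
        refine Finset.mem_union_left _ (Finset.mem_union_right _ ?_)
        exact Finset.mem_biUnion.2 ⟨i, Finset.mem_univ _, hθmem⟩
      · rw [hmem]
        exact (hcore a).1 h
    · refine ⟨fun j => -θ j, ?_, fun a => ?_⟩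
      · rw [h𝒩]
        refine Finset.mem_union_right _ ?_
        exact Finset.mem_biUnion.2 ⟨i, Finset.mem_univ _, Finset.mem_image.2 ⟨θ, hθmem, rfl⟩⟩
      · rw [hmem]
        exact (hcore a).2 h

end Pool.Agent.HF
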