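import Mathlib
import Pool.Agent.Lib.MP_c95b3b_ag_HF.Defs
import Pool.Agent.Lib.MP_c95b3b_ag_RS.Height

/-! Project HF (MP_c95b3b_ag), module HL: integral elements are locally bounded. -/

namespace Pool.Agent.HF

open Pool.Agent.L3 Pool.Agent.RS Module

namespace LocBound

theorem mon_comb {F : Type} [Field F] {M : ℕ} {v : Fin M → F} (hv : ∀ i, v i ≠ 0)
    (u w : Fin M → ℤ) (a b : ℕ) :
    mon v (fun k => (a : ℤ) * u k + (b : ℤ) * w k) = mon v u ^ a * mon v w ^ b := by
  simp only [mon, ← Finset.prod_pow, ← Finset.prod_mul_distrib]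
  refine Finset.prod_congr rfl fun k _ => ?_
  rw [zpow_add₀ (hv k), mul_comm (a : ℤ), mul_comm (b : ℤ), zpow_mul, zpow_mul, zpow_natCast,
    zpow_natCast]

/-- multiplication by a monomial makes the exponents nonnegative -/
theorem shift_sum {K0 F : Type} [Field K0] [Field F] [Algebra K0 F] {M : ℕ} {v : Fin M → F}
    (hv : ∀ i, v i ≠ 0) {ι : Type} (s : Finset ι) (c : ι → K0) (e : ι → Fin M → ℤ) (T : ℤ)
    (hT : ∀ k ∈ s, ∀ i, 0 ≤ e k i + T) :
    ∑ k ∈ s, algebraMap K0 F (c k) * ∏ i, v i ^ (e k i + T).toNat =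
      mon v (fun _ => T) * ∑ k ∈ s, algebraMap K0 F (c k) * mon v (e k) := by
  rw [Finset.mul_sum]
  refine Finset.sum_congr rfl fun k hk => ?_
  have h1 : ∏ i, v i ^ (e k i + T).toNat = mon v (e k) * mon v (fun _ => T) := by
    rw [← mon_add hv, mon]
    refine Finset.prod_congr rfl fun i _ => ?_
    rw [Pi.add_apply, ← zpow_natCast, Int.toNat_of_nonneg (hT k hk i)]
  rw [h1]
  ring

/-- a linear relation between monomials at the generic point holds at every point -/
theorem transfer {K0 L K : Type} [Field K0] [Field L] [Algebra K0 L] [Field K] [Algebra K0 K]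
    {M : ℕ} (P : P2 K0) (N : Fin M → P2 K0) (hN : ∀ i, ¬ P ∣ N i) (q : Fin 2 → L)
    (hq : ∀ Q : P2 K0, MvPolynomial.aeval q Q = 0 ↔ P ∣ Q) (p : Fin 2 → K)
    (hp : MvPolynomial.aeval p P = 0) (hNp : ∀ i, MvPolynomial.aeval p (N i) ≠ 0)
    {ι : Type} (s : Finset ι) (c : ι → K0) (e : ι → Fin M → ℤ)
    (h : ∑ k ∈ s, algebraMap K0 L (c k) * mon (fun i => MvPolynomial.aeval q (N i)) (e k) = 0) :
    ∑ k ∈ s, algebraMap K0 K (c k) * mon (fun i => MvPolynomial.aeval p (N i)) (e k) = 0 := by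
  have hNq : ∀ i, MvPolynomial.aeval q (N i) ≠ 0 := fun i h0 => hN i ((hq _).mp h0)
  set T : ℤ := ∑ k ∈ s, ∑ i, |e k i| with hTdef
  have hT : ∀ k ∈ s, ∀ i, 0 ≤ e k i + T := by
    intro k hk i
    have h1 : |e k i| ≤ ∑ i, |e k i| :=
      Finset.single_le_sum (f := fun i => |e k i|) (fun _ _ => abs_nonneg _) (Finset.mem_univ i)
    have h2 : ∑ i, |e k i| ≤ T :=
      Finset.single_le_sum (f := fun k => ∑ i, |e k i|)
        (fun _ _ => Finset.sum_nonneg fun _ _ => abs_nonneg _) hk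
    have h3 := neg_abs_le (e k i)
    linarith
  set H : P2 K0 := ∑ k ∈ s, MvPolynomial.C (c k) * ∏ i, N i ^ (e k i + T).toNat with hH
  have hev : ∀ (F : Type) [Field F] [Algebra K0 F] (x : Fin 2 → F),
      MvPolynomial.aeval x H = ∑ k ∈ s, algebraMap K0 F (c k) *
        ∏ i, MvPolynomial.aeval x (N i) ^ (e k i + T).toNat := by
    intro F _ _ x
    rw [hH, map_sum]
    refine Finset.sum_congr rfl fun k _ => ?_
    rw [map_mul, MvPolynomial.aeval_C, map_prod]
    simp only [map_pow]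
  have h1 : MvPolynomial.aeval q H = 0 := by
    rw [hev L q, shift_sum hNq s c e T hT, h, mul_zero]
  obtain ⟨Q, hQ⟩ := (hq H).mp h1
  have h2 : MvPolynomial.aeval p H = 0 := by
    rw [hQ, map_mul, hp, zero_mul]
  rw [hev K p, shift_sum hNp s c e T hT] at h2
  exact (mul_eq_zero.mp h2).resolve_left (mon_ne_zero hNp _)

theorem real_aux {x A B : ℝ} {n : ℕ} (hn : 0 < n) (hx : 0 < x) (hA : 0 ≤ A) (hB : 1 ≤ B)
    (h : 1 < x → x ^ n ≤ B * Real.exp A * x ^ (n - 1)) : Real.log x ≤ A + Real.log B := by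
  have hB0 : 0 < B := by linarith
  rcases le_or_gt x 1 with h1 | h1
  · have h2 : Real.log x ≤ 0 := Real.log_nonpos hx.le h1
    have h3 : 0 ≤ Real.log B := Real.log_nonneg hB
    linarith
  · have h2 := h h1
    have h3 : x ^ n = x * x ^ (n - 1) := by
      rw [← pow_succ', Nat.sub_add_cancel hn]
    rw [h3] at h2
    have h4 : x ≤ B * Real.exp A := le_of_mul_le_mul_right h2 (by positivity)
    have h5 := Real.log_le_log hx h4
    rw [Real.log_mul hB0.ne' (Real.exp_pos A).ne', Real.log_exp] at h5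
    linarith

theorem place_bound {K : Type} [Field K] {R : Subring K} (W : Places K R) (v : W.Pl) {n m : ℕ}
    (hn : 0 < n) (c : ℕ → ℕ → K) {F G : K} (hF : F ≠ 0) (hG : G ≠ 0)
    (h : F ^ n + ∑ i ∈ Finset.range n, ∑ j ∈ Finset.range m, c i j * (G ^ j * F ^ i) = 0)
    (hg : W.lg v G ≤ 0) :
    W.lg v F ≤ ∑ i ∈ Finset.range n, ∑ j ∈ Finset.range m, |W.lg v (c i j)| +
      Real.log ((n : ℝ) * m + 1) * W.arch v := by
  set A : ℝ := ∑ i ∈ Finset.range n, ∑ j ∈ Finset.range m, |W.lg v (c i j)| with hA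
  have hA0 : 0 ≤ A := Finset.sum_nonneg fun _ _ => Finset.sum_nonneg fun _ _ => abs_nonneg _
  have hcA : ∀ i ∈ Finset.range n, ∀ j ∈ Finset.range m, W.lg v (c i j) ≤ A := by
    intro i hi j hj
    have h1 : |W.lg v (c i j)| ≤ ∑ j ∈ Finset.range m, |W.lg v (c i j)| :=
      Finset.single_le_sum (f := fun j => |W.lg v (c i j)|) (fun _ _ => abs_nonneg _) hj
    have h2 : ∑ j ∈ Finset.range m, |W.lg v (c i j)| ≤ A :=
      Finset.single_le_sum (f := fun i => ∑ j ∈ Finset.range m, |W.lg v (c i j)|)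
        (fun _ _ => Finset.sum_nonneg fun _ _ => abs_nonneg _) hi
    exact (le_abs_self _).trans (h1.trans h2)
  have hFn : F ^ n = -∑ i ∈ Finset.range n, ∑ j ∈ Finset.range m, c i j * (G ^ j * F ^ i) :=
    eq_neg_of_add_eq_zero_left h
  rcases v with a | b
  · rw [W.arch_inl, mul_one]
    rw [W.lg_inl] at hg ⊢
    have hFp : 0 < ‖W.σ a F‖ := norm_pos_iff.mpr (by simpa using hF)
    have hGp : 0 < ‖W.σ a G‖ := norm_pos_iff.mpr (by simpa using hG)
    have hG1 : ‖W.σ a G‖ ≤ 1 := by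
      rw [← Real.exp_log hGp]
      exact Real.exp_le_one_iff.mpr hg
    have hc : ∀ i ∈ Finset.range n, ∀ j ∈ Finset.range m, ‖W.σ a (c i j)‖ ≤ Real.exp A := by
      intro i hi j hj
      rcases eq_or_ne (c i j) 0 with h0 | h0
      · rw [h0, map_zero, norm_zero]
        exact (Real.exp_pos A).le
      · have hp : 0 < ‖W.σ a (c i j)‖ := norm_pos_iff.mpr (by simpa using h0)
        have h1 := hcA i hi j hj
        rw [W.lg_inl] at h1
        rw [← Real.exp_log hp]
        exact Real.exp_le_exp.mpr h1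
    have hB : (1 : ℝ) ≤ (n : ℝ) * m + 1 := by
      have : (0 : ℝ) ≤ (n : ℝ) * m := by positivity
      linarith
    refine real_aux hn hFp hA0 hB fun hF1 => ?_
    have h1 : ‖W.σ a F‖ ^ n = ‖W.σ a (F ^ n)‖ := by rw [map_pow, norm_pow]
    rw [h1, hFn, map_neg, norm_neg, map_sum]
    have h2 : ‖∑ i ∈ Finset.range n, W.σ a (∑ j ∈ Finset.range m, c i j * (G ^ j * F ^ i))‖ ≤
        ∑ i ∈ Finset.range n, ∑ j ∈ Finset.range m, Real.exp A * ‖W.σ a F‖ ^ (n - 1) := by
      refine (norm_sum_le _ _).trans (Finset.sum_le_sum fun i hi => ?_)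
      rw [map_sum]
      refine (norm_sum_le _ _).trans (Finset.sum_le_sum fun j hj => ?_)
      rw [map_mul, map_mul, map_pow, map_pow, norm_mul, norm_mul, norm_pow, norm_pow]
      refine mul_le_mul (hc i hi j hj) ?_ (by positivity) (Real.exp_pos A).le
      calc ‖W.σ a G‖ ^ j * ‖W.σ a F‖ ^ i ≤ 1 * ‖W.σ a F‖ ^ i :=
            mul_le_mul_of_nonneg_right (pow_le_one₀ hGp.le hG1) (by positivity)
        _ = ‖W.σ a F‖ ^ i := one_mul _
        _ ≤ ‖W.σ a F‖ ^ (n - 1) :=
            pow_le_pow_right₀ hF1.le (Nat.le_sub_one_of_lt (Finset.mem_range.1 hi))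
    refine h2.trans ?_
    simp only [Finset.sum_const, Finset.card_range, nsmul_eq_mul]
    have h3 : 0 ≤ Real.exp A * ‖W.σ a F‖ ^ (n - 1) := by positivity
    nlinarith
  · rw [W.arch_inr, mul_zero, add_zero]
    rw [W.lg_inr] at hg ⊢
    have hFp : 0 < W.v b F := (W.v b).pos hF
    have hGp : 0 < W.v b G := (W.v b).pos hG
    have hG1 : W.v b G ≤ 1 := by
      rw [← Real.exp_log hGp]
      exact Real.exp_le_one_iff.mpr hg
    have hc : ∀ i ∈ Finset.range n, ∀ j ∈ Finset.range m, W.v b (c i j) ≤ Real.exp A := by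
      intro i hi j hj
      rcases eq_or_ne (c i j) 0 with h0 | h0
      · rw [h0, map_zero]
        exact (Real.exp_pos A).le
      · have hp : 0 < W.v b (c i j) := (W.v b).pos h0
        have h1 := hcA i hi j hj
        rw [W.lg_inr] at h1
        rw [← Real.exp_log hp]
        exact Real.exp_le_exp.mpr h1
    have h0 := real_aux (A := A) (B := 1) hn hFp hA0 le_rfl fun hF1 => ?_
    · rwa [Real.log_one, add_zero] at h0
    have h1 : W.v b F ^ n = W.v b (F ^ n) := by rw [map_pow]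
    rw [h1, hFn, AbsoluteValue.map_neg, one_mul]
    refine W.v_sum_le b _ _ (by positivity) fun i hi => ?_
    refine W.v_sum_le b _ _ (by positivity) fun j hj => ?_
    rw [map_mul, map_mul, map_pow, map_pow]
    refine mul_le_mul (hc i hi j hj) ?_ (by positivity) (Real.exp_pos A).le
    calc W.v b G ^ j * W.v b F ^ i ≤ 1 * W.v b F ^ i :=
          mul_le_mul_of_nonneg_right (pow_le_one₀ hGp.le hG1) (by positivity)
      _ = W.v b F ^ i := one_mul _
      _ ≤ W.v b F ^ (n - 1) :=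
          pow_le_pow_right₀ hF1.le (Nat.le_sub_one_of_lt (Finset.mem_range.1 hi))

/-- the integral equation written out -/
theorem unfold_int {K0 L : Type} [Field K0] [Field L] [Algebra K0 L] {f g : L}
    (hint : IsIntegral (Algebra.adjoin K0 {g}) f) :
    ∃ (n m : ℕ) (c : ℕ → ℕ → K0), 0 < n ∧
      f ^ n + ∑ i ∈ Finset.range n, ∑ j ∈ Finset.range m,
        algebraMap K0 L (c i j) * (g ^ j * f ^ i) = 0 := by
  obtain ⟨Q, hmon, hev⟩ := hint
  have hcoef : ∀ i, ∃ r : Polynomial K0, Polynomial.aeval g r = (Q.coeff i : L) := by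
    intro i
    have h1 : ∀ x ∈ Algebra.adjoin K0 {g}, ∃ r : Polynomial K0, Polynomial.aeval g r = x := by
      intro x hx
      rw [Algebra.adjoin_singleton_eq_range_aeval] at hx
      exact hx
    exact h1 _ (Q.coeff i).2
  choose r hr using hcoef
  set n := Q.natDegree with hn
  set m := (∑ i ∈ Finset.range n, (r i).natDegree) + 1 with hm
  have hn0 : 0 < n := by
    rcases Nat.eq_zero_or_pos n with h0 | h0
    · have h1 : Q = 1 := hmon.natDegree_eq_zero.mp h0
      rw [h1, Polynomial.eval₂_one] at hev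
      exact absurd hev one_ne_zero
    · exact h0
  refine ⟨n, m, fun i j => (r i).coeff j, hn0, ?_⟩
  rw [Polynomial.eval₂_eq_sum_range, Finset.sum_range_succ, hmon.coeff_natDegree, map_one,
    one_mul, add_comm] at hev
  rw [← hev]
  congr 1
  refine Finset.sum_congr rfl fun i hi => ?_
  have h1 : (r i).natDegree < m := by
    have h2 : (r i).natDegree ≤ ∑ i ∈ Finset.range n, (r i).natDegree :=
      Finset.single_le_sum (f := fun i => (r i).natDegree) (fun _ _ => Nat.zero_le _) hi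
    omega
  have h3 : algebraMap (Algebra.adjoin K0 {g}) L (Q.coeff i) = (Q.coeff i : L) := rfl
  rw [h3, ← hr i, Polynomial.aeval_eq_sum_range' h1, Finset.sum_mul]
  refine Finset.sum_congr rfl fun j _ => ?_
  rw [Algebra.smul_def, mul_assoc]

end LocBound

open LocBound in
theorem loc_bound (K0 : Type) [Field K0] [NumberField K0] {M : ℕ} (P : P2 K0)
    (N : Fin M → P2 K0) (hN : ∀ i, ¬ P ∣ N i) (L : Type) [Field L] [Algebra K0 L] (q : Fin 2 → L)
    (hq : ∀ Q : P2 K0, MvPolynomial.aeval q Q = 0 ↔ P ∣ Q) (u w : Fin M → ℤ)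
    (hint : IsIntegral (Algebra.adjoin K0 {mon (fun i => MvPolynomial.aeval q (N i)) w})
      (mon (fun i => MvPolynomial.aeval q (N i)) u)) :
    ∃ C : ℝ, ∀ (K : Type) [Field K] [Algebra K0 K] (R : Subring K) (W : Places K R)
      (p : Fin 2 → K), MvPolynomial.aeval p P = 0 → (∀ i, MvPolynomial.aeval p (N i) ≠ 0) →
      ∃ cw : W.Pl → ℝ, (∀ v, 0 ≤ cw v) ∧ W.avg cw ≤ C ∧
        ∀ v, W.lg v (mon (fun i => MvPolynomial.aeval p (N i)) w) ≤ 0 →
          W.lg v (mon (fun i => MvPolynomial.aeval p (N i)) u) ≤ cw v := by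
  obtain ⟨n, m, c, hn, hrel⟩ := unfold_int hint
  choose CC hCC using fun x : ℕ × ℕ => const_avg K0 (c x.1 x.2)
  have hNq : ∀ i, MvPolynomial.aeval q (N i) ≠ 0 := fun i h0 => hN i ((hq _).mp h0)
  have hB : (0 : ℝ) ≤ Real.log ((n : ℝ) * m + 1) := by
    refine Real.log_nonneg ?_
    have : (0 : ℝ) ≤ (n : ℝ) * m := by positivity
    linarith
  refine ⟨∑ i ∈ Finset.range n, ∑ j ∈ Finset.range m, CC (i, j) +
    Real.log ((n : ℝ) * m + 1), ?_⟩
  intro K _ _ R W p hp hNp
  refine ⟨fun v => ∑ i ∈ Finset.range n, ∑ j ∈ Finset.range m,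
    |W.lg v (algebraMap K0 K (c i j))| + Real.log ((n : ℝ) * m + 1) * W.arch v, ?_, ?_, ?_⟩
  · intro v
    exact add_nonneg (Finset.sum_nonneg fun _ _ => Finset.sum_nonneg fun _ _ => abs_nonneg _)
      (mul_nonneg hB (W.arch_nonneg v))
  · rw [W.avg_add, W.avg_const_arch, W.avg_sum]
    have h1 : ∀ i ∈ Finset.range n, W.avg (fun v => ∑ j ∈ Finset.range m,
        |W.lg v (algebraMap K0 K (c i j))|) ≤ ∑ j ∈ Finset.range m, CC (i, j) := by
      intro i _
      rw [W.avg_sum]
      exact Finset.sum_le_sum fun j _ => hCC (i, j) K R W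
    have h2 := Finset.sum_le_sum h1
    linarith
  · intro v hv
    refine place_bound W v hn (fun i j => algebraMap K0 K (c i j)) (mon_ne_zero hNp u)
      (mon_ne_zero hNp w) ?_ hv
    have h1 : ∑ k ∈ Finset.insertNone (Finset.range n ×ˢ Finset.range m),
        algebraMap K0 L (Option.elim k 1 fun x => c x.1 x.2) *
          mon (fun i => MvPolynomial.aeval q (N i))
            (Option.elim k (fun l => ((n : ℕ) : ℤ) * u l + ((0 : ℕ) : ℤ) * w l)
              fun x l => ((x.1 : ℕ) : ℤ) * u l + ((x.2 : ℕ) : ℤ) * w l) = 0 := by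
      rw [Finset.sum_insertNone, Finset.sum_product]
      simp only [Option.elim_none, Option.elim_some, map_one, one_mul, mon_comb hNq, pow_zero,
        mul_one]
      rw [← hrel]
      congr 1
      refine Finset.sum_congr rfl fun i _ => Finset.sum_congr rfl fun j _ => ?_
      rw [mul_comm (mon _ u ^ i)]
    have h2 := transfer P N hN q hq p hp hNp _ _ _ h1
    rw [Finset.sum_insertNone, Finset.sum_product] at h2
    simp only [Option.elim_none, Option.elim_some, map_one, one_mul, mon_comb hNp, pow_zero,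
      mul_one] at h2
    rw [← h2]
    congr 1
    refine Finset.sum_congr rfl fun i _ => Finset.sum_congr rfl fun j _ => ?_
    rw [mul_comm (mon _ u ^ i)]

end Pool.Agent.HF
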