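import Mathlib
import Pool.Agent.Lib.MP_c95b3b_ag_HF.Defs
import Pool.Agent.Lib.MP_c95b3b_ag_HF.Dirs
import Pool.Agent.Lib.MP_c95b3b_ag_HF.Cone
import Pool.Agent.Lib.MP_c95b3b_ag_HF.LocBound
import Pool.Agent.Lib.MP_c95b3b_ag_HF.AlgHeight
import Pool.Agent.Lib.MP_c95b3b_ag_HF.Generic

/-! Project HF (MP_c95b3b_ag), module HH: one real relation on the base bounds the height. -/

namespace Pool.Agent.HF

open Pool.Agent.L3 Pool.Agent.RS Module

namespace HH

/-- an element which lies in all valuation rings containing `K0` and `w` is integral over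
`K0[w]` -/
theorem isIntegral_of_val {K0 L : Type} [Field K0] [Field L] [Algebra K0 L] (w x : L)
    (h : ∀ V : ValuationSubring L, (∀ c : K0, algebraMap K0 L c ∈ V) → w ∈ V → x ∈ V) :
    IsIntegral (Algebra.adjoin K0 {w}) x := by
  have h1 : x ∈ (⨅ V : {V : ValuationSubring L //
      ((Algebra.adjoin K0 {w} : Subalgebra K0 L) : Set L) ⊆ V.toSubring}, V.1.toSubring) := by
    rw [Subring.mem_iInf]
    rintro ⟨V, hV⟩
    exact h V (fun c => hV ((Algebra.adjoin K0 {w}).algebraMap_mem c))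
      (hV (Algebra.self_mem_adjoin_singleton K0 w))
  rw [iInf_valuationSubring_superset] at h1
  obtain ⟨p, hp, hpx⟩ := h1
  have hle : Subring.closure ((Algebra.adjoin K0 {w} : Subalgebra K0 L) : Set L) ≤
      (Algebra.adjoin K0 {w}).toSubring := Subring.closure_le.mpr fun _ h => h
  refine ⟨p.map (Subring.inclusion hle), hp.map _, ?_⟩
  rw [Polynomial.eval₂_map]
  exact hpx

/-- the exponents of the monomial `x^a`, `x j = mon N (n j)` -/
def cb {M m : ℕ} (n : Fin m → Fin M → ℤ) (a : Fin m → ℤ) (i : Fin M) : ℤ := ∑ j, a j * n j i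

theorem cb_neg {M m : ℕ} (n : Fin m → Fin M → ℤ) (a : Fin m → ℤ) : cb n (-a) = -cb n a := by
  funext i
  simp only [cb, Pi.neg_apply, neg_mul, Finset.sum_neg_distrib]

theorem zpow_sum {F : Type} [Field F] {x : F} (hx : x ≠ 0) {ι : Type} (s : Finset ι) (f : ι → ℤ) :
    x ^ (∑ i ∈ s, f i) = ∏ i ∈ s, x ^ f i := by
  classical
  induction s using Finset.induction_on with
  | empty => simp
  | insert b s hb ih => rw [Finset.sum_insert hb, Finset.prod_insert hb, zpow_add₀ hx, ih]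

theorem mon_cb {F : Type} [Field F] {M m : ℕ} (n : Fin m → Fin M → ℤ) (a : Fin m → ℤ)
    {y : Fin M → F} (hy : ∀ i, y i ≠ 0) : mon y (cb n a) = mon (fun j => mon y (n j)) a := by
  simp only [mon, cb, ← Finset.prod_zpow, ← zpow_mul]
  rw [Finset.prod_comm]
  refine Finset.prod_congr rfl fun i _ => ?_
  rw [zpow_sum (hy i)]
  exact Finset.prod_congr rfl fun j _ => by rw [mul_comm]

theorem lg_cb {K : Type} [Field K] {R : Subring K} (W : Places K R) (v : W.Pl) {M m : ℕ}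
    (n : Fin m → Fin M → ℤ) (a : Fin m → ℤ) {y : Fin M → K} (hy : ∀ i, y i ≠ 0) :
    W.lg v (mon y (cb n a)) = ∑ j, (a j : ℝ) * W.lg v (mon y (n j)) := by
  rw [mon_cb n a hy, lg_mon W v (fun j => mon_ne_zero hy (n j))]

/-- the value of the polynomial `Q` has bounded height in terms of the height of a monomial,
for finitely many `Q` -/
theorem alg_heights (K0 : Type) [Field K0] [NumberField K0] {M : ℕ} (P : P2 K0)
    (hP : Irreducible P) (h1 : P.degreeOf 1 ≠ 0) (N : Fin M → P2 K0) (hN : ∀ i, ¬ P ∣ N i)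
    (L : Type) [Field L] [Algebra K0 L] (q : Fin 2 → L)
    (hq : ∀ Q : P2 K0, MvPolynomial.aeval q Q = 0 ↔ P ∣ Q) (u : Fin M → ℤ)
    (hu : Transcendental K0 (mon (fun i => MvPolynomial.aeval q (N i)) u))
    {ι : Type} (s : Finset ι) (H : ι → P2 K0) :
    ∃ (C : ℝ) (f : Polynomial K0) (Cst : Finset K0), 0 ≤ C ∧ f ≠ 0 ∧
      ∀ (K : Type) [Field K] [Algebra K0 K] (R : Subring K) (W : Places K R) (p : Fin 2 → K),
        (∀ c ∈ Cst, algebraMap K0 K c ∈ R) → MvPolynomial.aeval p P = 0 →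
        (∀ i, MvPolynomial.aeval p (N i) ≠ 0 ∧ MvPolynomial.aeval p (N i) ∈ R ∧
          (MvPolynomial.aeval p (N i))⁻¹ ∈ R) →
        Polynomial.aeval (p 0) f ≠ 0 →
        ∀ i ∈ s, W.avg (fun v => |W.lg v (MvPolynomial.aeval p (H i))|) ≤
          C * (1 + W.avg (fun v => |W.lg v (mon (fun i => MvPolynomial.aeval p (N i)) u)|)) := by
  classical
  induction s using Finset.induction_on with
  | empty =>
    exact ⟨0, 1, ∅, le_refl 0, one_ne_zero, fun K _ _ R W p _ _ _ _ i hi =>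
      absurd hi (Finset.notMem_empty i)⟩
  | insert b s hb ih =>
    obtain ⟨C, f, Cst, hC, hf, h⟩ := ih
    by_cases hH : P ∣ H b
    · refine ⟨C, f, Cst, hC, hf, fun K _ _ R W p h2 h3 h4 h5 i hi => ?_⟩
      rcases Finset.mem_insert.mp hi with rfl | hi
      · obtain ⟨Q, hQ⟩ := hH
        have h6 : MvPolynomial.aeval p (H i) = 0 := by rw [hQ, map_mul, h3, zero_mul]
        have h7 : W.avg (fun v => |W.lg v (MvPolynomial.aeval p (H i))|) = 0 := by
          simp [h6, W.lg_zero, Places.avg]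
        rw [h7]
        have h8 : 0 ≤ W.avg
            (fun v => |W.lg v (mon (fun i => MvPolynomial.aeval p (N i)) u)|) :=
          W.avg_nonneg fun v => abs_nonneg _
        positivity
      · exact h K R W p h2 h3 h4 h5 i hi
    · obtain ⟨C', f', Cst', hf', h'⟩ := alg_height K0 P hP h1 N hN L q hq u hu (H b) hH
      refine ⟨max C C', f * f', Cst ∪ Cst', le_max_of_le_left hC, mul_ne_zero hf hf',
        fun K _ _ R W p h2 h3 h4 h5 i hi => ?_⟩
      rw [map_mul] at h5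
      have h8 : 0 ≤ W.avg
          (fun v => |W.lg v (mon (fun i => MvPolynomial.aeval p (N i)) u)|) :=
        W.avg_nonneg fun v => abs_nonneg _
      rcases Finset.mem_insert.mp hi with rfl | hi
      · refine (h' K R W p (fun c hc => h2 c (Finset.mem_union_right _ hc)) h3 h4
          (right_ne_zero_of_mul h5)).trans ?_
        exact mul_le_mul_of_nonneg_right (le_max_right _ _) (by linarith)
      · refine (h K R W p (fun c hc => h2 c (Finset.mem_union_left _ hc)) h3 h4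
          (left_ne_zero_of_mul h5) i hi).trans ?_
        exact mul_le_mul_of_nonneg_right (le_max_left _ _) (by linarith)

/-- the assertion of the theorem for the relations `r` in `S` -/
def Bd (K0 : Type) [Field K0] [NumberField K0] {M m : ℕ} (P : P2 K0) (N : Fin M → P2 K0)
    (n : Fin m → Fin M → ℤ) (S : Set (Fin m → ℝ)) : Prop :=
  ∃ (B : ℝ) (f : Polynomial K0) (Cst : Finset K0), f ≠ 0 ∧
    ∀ (K : Type) [Field K] [Algebra K0 K] (R : Subring K) (W : Places K R) (p : Fin 2 → K),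
      (∀ c ∈ Cst, algebraMap K0 K c ∈ R) → MvPolynomial.aeval p P = 0 →
      (∀ i, MvPolynomial.aeval p (N i) ≠ 0 ∧ MvPolynomial.aeval p (N i) ∈ R ∧
        (MvPolynomial.aeval p (N i))⁻¹ ∈ R) →
      Polynomial.aeval (p 0) f ≠ 0 →
      (∃ r ∈ S, ∀ v,
        ∑ j, r j * W.lg v (mon (fun i => MvPolynomial.aeval p (N i)) (n j)) = 0) →
      (∀ i, W.avg (fun v => |W.lg v (p i)|) ≤ B) ∧
        ∀ i, W.avg (fun v => |W.lg v (MvPolynomial.aeval p (N i))|) ≤ B

theorem Bd.mono {K0 : Type} [Field K0] [NumberField K0] {M m : ℕ} {P : P2 K0} {N : Fin M → P2 K0}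
    {n : Fin m → Fin M → ℤ} {S T : Set (Fin m → ℝ)} (hST : S ⊆ T) (h : Bd K0 P N n T) :
    Bd K0 P N n S := by
  obtain ⟨B, f, Cst, hf, h⟩ := h
  refine ⟨B, f, Cst, hf, fun K _ _ R W p h2 h3 h4 h5 h6 => ?_⟩
  obtain ⟨r, hr, h6⟩ := h6
  exact h K R W p h2 h3 h4 h5 ⟨r, hST hr, h6⟩

theorem Bd.union {K0 : Type} [Field K0] [NumberField K0] {M m : ℕ} {P : P2 K0}
    {N : Fin M → P2 K0} {n : Fin m → Fin M → ℤ} {S T : Set (Fin m → ℝ)} (h : Bd K0 P N n S)
    (h' : Bd K0 P N n T) : Bd K0 P N n (S ∪ T) := by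
  classical
  obtain ⟨B, f, Cst, hf, h⟩ := h
  obtain ⟨B', f', Cst', hf', h'⟩ := h'
  refine ⟨max B B', f * f', Cst ∪ Cst', mul_ne_zero hf hf', fun K _ _ R W p h2 h3 h4 h5 h6 => ?_⟩
  rw [map_mul] at h5
  obtain ⟨r, hr | hr, h6⟩ := h6
  · obtain ⟨h7, h8⟩ := h K R W p (fun c hc => h2 c (Finset.mem_union_left _ hc)) h3 h4
      (left_ne_zero_of_mul h5) ⟨r, hr, h6⟩
    exact ⟨fun i => (h7 i).trans (le_max_left _ _), fun i => (h8 i).trans (le_max_left _ _)⟩
  · obtain ⟨h7, h8⟩ := h' K R W p (fun c hc => h2 c (Finset.mem_union_right _ hc)) h3 h4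
      (right_ne_zero_of_mul h5) ⟨r, hr, h6⟩
    exact ⟨fun i => (h7 i).trans (le_max_right _ _), fun i => (h8 i).trans (le_max_right _ _)⟩

/-- the local statement -/
theorem local_bound (K0 : Type) [Field K0] [NumberField K0] {M m : ℕ} (P : P2 K0)
    (hP : Irreducible P) (h1 : P.degreeOf 1 ≠ 0) (N : Fin M → P2 K0) (hN : ∀ i, ¬ P ∣ N i)
    (n : Fin m → Fin M → ℤ)
    (htr : ∀ (L : Type) [Field L] [Algebra K0 L] (q : Fin 2 → L),
      (∀ Q : P2 K0, MvPolynomial.aeval q Q = 0 ↔ P ∣ Q) → ∀ a : Fin m → ℤ, a ≠ 0 →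
      Transcendental K0
        (mon (fun i => MvPolynomial.aeval q (N i)) (fun i => ∑ j, a j * n j i)))
    (r0 : Fin m → ℝ) (hr0 : r0 ≠ 0) : ∃ U ∈ nhds r0, Bd K0 P N n U := by
  obtain ⟨L, _, _, q, hq, hL⟩ := exists_gen P hP
  have hy : ∀ i, MvPolynomial.aeval q (N i) ≠ 0 := fun i h => hN i ((hq _).mp h)
  set y : Fin M → L := fun i => MvPolynomial.aeval q (N i) with hydef
  obtain ⟨𝒩, h𝒩⟩ := dirs K0 L (fun j => mon y (n j)) (fun j => mon_ne_zero hy (n j))
    (fun i j => alg_dep P hP L q hq hL _ _)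
  obtain ⟨a, g, c, U, ha, hU, hcone, hint⟩ := cone 𝒩 r0 hr0
  refine ⟨U, hU, ?_⟩
  -- integrality
  have hi1 : ∀ k, IsIntegral (Algebra.adjoin K0 {mon y (cb n (c k))}) (mon y (cb n a)) := by
    intro k
    refine isIntegral_of_val _ _ fun V hV hw => ?_
    obtain ⟨ν, hν, h2⟩ := h𝒩 V hV
    rw [mon_cb n _ hy] at hw ⊢
    exact (h2 a).mpr ((hint ν hν k).1 ((h2 (c k)).mp hw))
  have hi2 : ∀ k, IsIntegral (Algebra.adjoin K0 {mon y (cb n (-c k))}) (mon y (cb n (-a))) := by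
    intro k
    refine isIntegral_of_val _ _ fun V hV hw => ?_
    obtain ⟨ν, hν, h2⟩ := h𝒩 V hV
    rw [mon_cb n _ hy] at hw ⊢
    have h3 := (h2 (-c k)).mp hw
    refine (h2 (-a)).mpr ?_
    have h4 : ∀ b : Fin m → ℤ, ∑ j, (((-b) j : ℤ) : ℚ) * ν j = -∑ j, (b j : ℚ) * ν j := by
      intro b
      rw [← Finset.sum_neg_distrib]
      refine Finset.sum_congr rfl fun j _ => ?_
      rw [Pi.neg_apply]
      push_cast
      ring
    rw [h4] at h3 ⊢
    have := (hint ν hν k).2 (by linarith)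
    linarith
  choose C1 hC1 using fun k => loc_bound K0 P N hN L q hq (cb n a) (cb n (c k)) (hi1 k)
  choose C2 hC2 using fun k => loc_bound K0 P N hN L q hq (cb n (-a)) (cb n (-c k)) (hi2 k)
  have hu : Transcendental K0 (mon y (cb n a)) := htr L q hq a ha
  obtain ⟨C, f, Cst, hC, hf, h⟩ := alg_heights K0 P hP h1 N hN L q hq (cb n a) hu
    (Finset.univ : Finset (Fin 2 ⊕ Fin M)) (Sum.elim (fun i => MvPolynomial.X i) N)
  refine ⟨C * (1 + ∑ k, (C1 k + C2 k)), f, Cst, hf, fun K _ _ R W p h2 h3 h4 h5 h6 => ?_⟩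
  obtain ⟨r, hr, h6⟩ := h6
  obtain ⟨l, hl, ⟨k0, hk0⟩, hrl⟩ := hcone r hr
  have hz : ∀ i, MvPolynomial.aeval p (N i) ≠ 0 := fun i => (h4 i).1
  set z : Fin M → K := fun i => MvPolynomial.aeval p (N i) with hzdef
  choose w1 hw1 hw1' hw1'' using fun k => hC1 k K R W p h3 hz
  choose w2 hw2 hw2' hw2'' using fun k => hC2 k K R W p h3 hz
  have key : ∀ v, |W.lg v (mon z (cb n a))| ≤ ∑ k, (w1 k v + w2 k v) := by
    intro v
    have e1 : ∑ k, l k * W.lg v (mon z (cb n (c k))) = 0 := by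
      rw [← h6 v]
      simp only [hrl, Finset.sum_mul]
      rw [Finset.sum_comm]
      refine Finset.sum_congr rfl fun k _ => ?_
      rw [lg_cb W v n _ hz, Finset.mul_sum]
      exact Finset.sum_congr rfl fun j _ => by ring
    have e2 : ∀ b : Fin m → ℤ, W.lg v (mon z (cb n (-b))) = -W.lg v (mon z (cb n b)) := by
      intro b
      rw [cb_neg, mon_neg, W.lg_inv]
    have hnn : ∀ k, 0 ≤ w1 k v + w2 k v := fun k => add_nonneg (hw1 k v) (hw2 k v)
    have hle : ∀ k, w1 k v + w2 k v ≤ ∑ k, (w1 k v + w2 k v) := fun k =>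
      Finset.single_le_sum (f := fun k => w1 k v + w2 k v) (fun k _ => hnn k) (Finset.mem_univ k)
    have e3 : ∃ k, W.lg v (mon z (cb n (c k))) ≤ 0 := by
      by_contra hcon
      push Not at hcon
      have h7 : 0 < ∑ k, l k * W.lg v (mon z (cb n (c k))) :=
        Finset.sum_pos' (fun k _ => mul_nonneg (hl k) (hcon k).le)
          ⟨k0, Finset.mem_univ k0, mul_pos hk0 (hcon k0)⟩
      linarith
    have e4 : ∃ k, 0 ≤ W.lg v (mon z (cb n (c k))) := by
      by_contra hcon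
      push Not at hcon
      have h7 : 0 < ∑ k, l k * -W.lg v (mon z (cb n (c k))) :=
        Finset.sum_pos' (fun k _ => mul_nonneg (hl k) (by linarith [hcon k]))
          ⟨k0, Finset.mem_univ k0, mul_pos hk0 (by linarith [hcon k0])⟩
      simp only [mul_neg, Finset.sum_neg_distrib] at h7
      linarith
    obtain ⟨k1, hk1⟩ := e3
    obtain ⟨k2, hk2⟩ := e4
    rw [abs_le]
    constructor
    · have h8 := hw2'' k2 v (by rw [e2]; linarith)
      rw [e2] at h8
      have h9 := hw1 k2 v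
      have h10 := hle k2
      linarith
    · have h8 := hw1'' k1 v hk1
      have h9 := hw2 k1 v
      have h10 := hle k1
      linarith
  have havg : W.avg (fun v => |W.lg v (mon z (cb n a))|) ≤ ∑ k, (C1 k + C2 k) := by
    refine (W.avg_mono key).trans ?_
    rw [W.avg_sum]
    refine Finset.sum_le_sum fun k _ => ?_
    rw [W.avg_add]
    exact add_le_add (hw1' k) (hw2' k)
  have hfin : ∀ i : Fin 2 ⊕ Fin M, W.avg (fun v => |W.lg v (MvPolynomial.aeval p
      ((Sum.elim (fun i => MvPolynomial.X i) N : Fin 2 ⊕ Fin M → P2 K0) i))|) ≤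
      C * (1 + ∑ k, (C1 k + C2 k)) := by
    intro i
    refine (h K R W p h2 h3 h4 h5 i (Finset.mem_univ i)).trans ?_
    exact mul_le_mul_of_nonneg_left (by linarith) hC
  refine ⟨fun i => ?_, fun i => hfin (Sum.inr i)⟩
  have h7 := hfin (Sum.inl i)
  simp only [Sum.elim_inl, MvPolynomial.aeval_X] at h7
  exact h7

end HH

theorem heightC (K0 : Type) [Field K0] [NumberField K0] {M m : ℕ} (P : P2 K0)
    (hP : Irreducible P) (h1 : P.degreeOf 1 ≠ 0) (N : Fin M → P2 K0) (hN : ∀ i, ¬ P ∣ N i)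
    (n : Fin m → Fin M → ℤ)
    (htr : ∀ (L : Type) [Field L] [Algebra K0 L] (q : Fin 2 → L),
      (∀ Q : P2 K0, MvPolynomial.aeval q Q = 0 ↔ P ∣ Q) → ∀ a : Fin m → ℤ, a ≠ 0 →
      Transcendental K0
        (mon (fun i => MvPolynomial.aeval q (N i)) (fun i => ∑ j, a j * n j i))) :
    ∃ (B : ℝ) (f : Polynomial K0) (Cst : Finset K0), f ≠ 0 ∧
      ∀ (K : Type) [Field K] [Algebra K0 K] (R : Subring K) (W : Places K R) (p : Fin 2 → K),
        (∀ c ∈ Cst, algebraMap K0 K c ∈ R) → MvPolynomial.aeval p P = 0 →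
        (∀ i, MvPolynomial.aeval p (N i) ≠ 0 ∧ MvPolynomial.aeval p (N i) ∈ R ∧
          (MvPolynomial.aeval p (N i))⁻¹ ∈ R) →
        Polynomial.aeval (p 0) f ≠ 0 →
        (∃ r : Fin m → ℝ, r ≠ 0 ∧ ∀ v,
          ∑ j, r j * W.lg v (mon (fun i => MvPolynomial.aeval p (N i)) (n j)) = 0) →
        (∀ i, W.avg (fun v => |W.lg v (p i)|) ≤ B) ∧
          ∀ i, W.avg (fun v => |W.lg v (MvPolynomial.aeval p (N i))|) ≤ B := by
  have hS : HH.Bd K0 P N n (Metric.sphere (0 : Fin m → ℝ) 1) := by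
    refine (isCompact_sphere (0 : Fin m → ℝ) 1).induction_on
      (p := fun S => HH.Bd K0 P N n S) ?_ (fun S T hST h => h.mono hST)
      (fun S T h h' => h.union h') ?_
    · refine ⟨0, 1, ∅, one_ne_zero, fun K _ _ R W p _ _ _ _ h => ?_⟩
      obtain ⟨r, hr, -⟩ := h
      exact absurd hr (Set.notMem_empty r)
    · intro r0 hr0
      have hne : r0 ≠ 0 := by
        rintro rfl
        simp at hr0
      obtain ⟨U, hU, hb⟩ := HH.local_bound K0 P hP h1 N hN n htr r0 hne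
      exact ⟨U, mem_nhdsWithin_of_mem_nhds hU, hb⟩
  obtain ⟨B, f, Cst, hf, h⟩ := hS
  refine ⟨B, f, Cst, hf, fun K _ _ R W p h2 h3 h4 h5 h6 => ?_⟩
  obtain ⟨r, hr, h6⟩ := h6
  have hr1 : 0 < ‖r‖ := norm_pos_iff.mpr hr
  refine h K R W p h2 h3 h4 h5 ⟨‖r‖⁻¹ • r, ?_, fun v => ?_⟩
  · rw [mem_sphere_zero_iff_norm, norm_smul, norm_inv, norm_norm, inv_mul_cancel₀ hr1.ne']
  · have h7 := h6 v
    simp only [Pi.smul_apply, smul_eq_mul, mul_assoc]
    rw [← Finset.mul_sum, h7, mul_zero]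

end Pool.Agent.HF
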