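import Mathlib
import Pool.Agent.Lib.MP_c95b3b_ag_HF.Defs
import Pool.Agent.Lib.MP_c95b3b_ag_HF.Rosenlicht
import Pool.Agent.Lib.MP_c95b3b_ag_HF.Generic
import Pool.Agent.Lib.MP_c95b3b_ag_HF.Bezout

/-! Project HF (MP_c95b3b_ag), module RC: real logarithmic differentials on the curve. -/

namespace Pool.Agent.HF

open Pool.Agent.L3 Pool.Agent.RS Module

namespace OmNe

theorem zpow_sum {F : Type} [Field F] {v : F} (hv : v ≠ 0) {ι : Type*} (s : Finset ι)
    (f : ι → ℤ) : v ^ (∑ j ∈ s, f j) = ∏ j ∈ s, v ^ f j := by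
  classical
  induction s using Finset.induction_on with
  | empty => simp
  | insert x s hx ih => rw [Finset.sum_insert hx, Finset.prod_insert hx, zpow_add₀ hv, ih]

theorem prod_mon {F : Type} [Field F] {M m : ℕ} {v : Fin M → F} (hv : ∀ i, v i ≠ 0)
    (n : Fin m → Fin M → ℤ) (a : Fin m → ℤ) :
    ∏ j, mon v (n j) ^ a j = mon v (fun i => ∑ j, a j * n j i) := by
  unfold mon
  simp only [zpow_sum (hv _), ← Finset.prod_zpow]
  rw [Finset.prod_comm]
  refine Finset.prod_congr rfl fun i _ => Finset.prod_congr rfl fun j _ => ?_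
  rw [← zpow_mul, mul_comm]

theorem mon_mul_neg {F : Type} [Field F] {M : ℕ} {v : Fin M → F} (hv : ∀ i, v i ≠ 0)
    (e : Fin M → ℤ) : mon v e * ∏ i, v i ^ (-(e i)).toNat = ∏ i, v i ^ (e i).toNat := by
  unfold mon
  rw [← Finset.prod_mul_distrib]
  refine Finset.prod_congr rfl fun i _ => ?_
  rw [← zpow_natCast, ← zpow_natCast, ← zpow_add₀ (hv i)]
  congr 1
  have := Int.toNat_sub_toNat_neg (e i)
  omega

section logd
variable {L : Type} [Field L] [Algebra ℂ L] (D : Derivation ℂ L L)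

theorem logd_mul {x y : L} (hx : x ≠ 0) (hy : y ≠ 0) :
    D (x * y) / (x * y) = D x / x + D y / y := by
  rw [Derivation.leibniz, smul_eq_mul, smul_eq_mul]
  field_simp
  ring

theorem logd_prod {ι : Type*} (s : Finset ι) (f : ι → L) (hf : ∀ i, f i ≠ 0) :
    D (∏ i ∈ s, f i) / (∏ i ∈ s, f i) = ∑ i ∈ s, D (f i) / f i := by
  classical
  induction s using Finset.induction_on with
  | empty => simp
  | insert x s hx ih =>
    rw [Finset.sum_insert hx, Finset.prod_insert hx,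
      logd_mul D (hf x) (Finset.prod_ne_zero_iff.2 fun i _ => hf i), ih]

theorem logd_zpow {x : L} (hx : x ≠ 0) (k : ℤ) :
    D (x ^ k) / x ^ k = (k : L) * (D x / x) := by
  rw [Derivation.leibniz_zpow, smul_eq_mul, zsmul_eq_mul, zpow_sub_one₀ hx]
  have := zpow_ne_zero k hx
  field_simp

theorem logd_mon {M : ℕ} {v : Fin M → L} (hv : ∀ i, v i ≠ 0) (e : Fin M → ℤ) :
    D (mon v e) / mon v e = ∑ i, (e i : L) * (D (v i) / v i) := by
  unfold mon
  rw [logd_prod D _ _ fun i => zpow_ne_zero _ (hv i)]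
  exact Finset.sum_congr rfl fun i _ => logd_zpow D (hv i) _

end logd

/-- real numbers are integer combinations of rationally independent numbers, up to a common
factor -/
theorem exists_basis {m : ℕ} (r : Fin m → ℝ) : ∃ (k : ℕ) (ω : Fin k → ℝ) (a : Fin m → Fin k → ℤ)
    (T : ℤ), T ≠ 0 ∧ LinearIndependent ℚ (fun l => (ω l : ℂ)) ∧
      ∀ j, (T : ℝ) * r j = ∑ l, (a j l : ℝ) * ω l := by
  classical
  let W : Submodule ℚ ℝ := Submodule.span ℚ (Set.range r)
  have hfd : FiniteDimensional ℚ W := FiniteDimensional.span_of_finite ℚ (Set.finite_range r)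
  let B := Module.finBasis ℚ W
  have hr : ∀ j, r j ∈ W := fun j => Submodule.subset_span ⟨j, rfl⟩
  obtain ⟨T, hT⟩ := IsLocalization.exist_integer_multiples_of_finite (nonZeroDivisors ℤ)
    (fun x : Fin m × Fin (Module.finrank ℚ W) => (B.repr ⟨r x.1, hr x.1⟩ x.2 : ℚ))
  choose c hc using hT
  refine ⟨Module.finrank ℚ W, fun l => (B l : ℝ), fun j l => c (j, l), T,
    nonZeroDivisors.ne_zero T.2, ?_, ?_⟩
  · have h1 : LinearIndependent ℚ (fun l => B l) := B.linearIndependent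
    have h2 := h1.map' ((Complex.ofRealCLM.toLinearMap.restrictScalars ℚ).comp W.subtype) (by
      rw [LinearMap.ker_eq_bot]
      intro x y hxy
      have h3 : ((x : ℝ) : ℂ) = ((y : ℝ) : ℂ) := hxy
      exact Subtype.ext (Complex.ofReal_injective h3))
    exact h2
  · intro j
    have h1 : (⟨r j, hr j⟩ : W) = ∑ l, B.repr ⟨r j, hr j⟩ l • B l := (B.sum_repr _).symm
    have h2 : r j = ∑ l, ((B.repr ⟨r j, hr j⟩ l : ℚ) : ℝ) * (B l : ℝ) := by
      have h3 := congrArg (fun x : W => (x : ℝ)) h1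
      simp only [Submodule.coe_sum, Submodule.coe_smul, Rat.smul_def] at h3
      exact h3
    conv_lhs => rw [h2]
    rw [Finset.mul_sum]
    refine Finset.sum_congr rfl fun l _ => ?_
    have h4 : ((c (j, l) : ℤ) : ℚ) = (T : ℤ) • (B.repr ⟨r j, hr j⟩ l : ℚ) := hc (j, l)
    have h5 : ((c (j, l) : ℤ) : ℝ) = ((T : ℤ) : ℝ) * ((B.repr ⟨r j, hr j⟩ l : ℚ) : ℝ) := by
      have h6 := congrArg (fun x : ℚ => (x : ℝ)) h4
      simpa [zsmul_eq_mul] using h6
    rw [h5, mul_assoc]

end OmNe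

open OmNe in
theorem om_ne (P : P2 ℂ) (hP : Irreducible P) (h1 : P.degreeOf 1 ≠ 0) {M m : ℕ}
    (N : Fin M → P2 ℂ) (hN : ∀ i, ¬ P ∣ N i) (n : Fin m → Fin M → ℤ)
    (hind : ∀ a : Fin m → ℤ, (∃ c : ℂ, ∀ p : Fin 2 → ℂ, MvPolynomial.eval p P = 0 →
      (∀ i, vN N p i ≠ 0) → ∏ j, mon (vN N p) (n j) ^ a j = c) → a = 0)
    (r : Fin m → ℝ) (hr : r ≠ 0) : ¬ P ∣ Om P N (nvec n r) := by
  intro hdvd
  apply hr
  obtain ⟨L, _, _, q, hq, hL⟩ := exists_gen P hP
  obtain ⟨D, hD, hDv⟩ := exists_der P hP h1 L q hq hL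
  have halg := alg_dep P hP L q hq hL
  have hv : ∀ i, MvPolynomial.aeval q (N i) ≠ 0 := fun i h => hN i ((hq _).1 h)
  obtain ⟨v, hvdef⟩ : ∃ v : Fin M → L, v = fun i => MvPolynomial.aeval q (N i) := ⟨_, rfl⟩
  have hv' : ∀ i, v i ≠ 0 := fun i => by rw [hvdef]; exact hv i
  -- the logarithmic differential vanishes
  have hOm : ∑ i, algebraMap ℂ L (nvec n r i : ℂ) * (D (v i) / v i) = 0 := by
    have h2 : MvPolynomial.aeval q (Om P N (nvec n r)) = 0 := (hq _).2 hdvd
    unfold Om at h2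
    rw [map_sum] at h2
    have hprod : (∏ i, v i) ≠ 0 := Finset.prod_ne_zero_iff.2 fun i _ => hv' i
    have h3 : (∏ i, v i) * ∑ i, algebraMap ℂ L (nvec n r i : ℂ) * (D (v i) / v i) = 0 := by
      rw [Finset.mul_sum]
      refine Eq.trans (Finset.sum_congr rfl fun i _ => ?_) h2
      rw [map_mul, map_mul, MvPolynomial.aeval_C, ← hDv, map_prod]
      have h4 : ∏ k, v k = v i * ∏ k ∈ Finset.univ.erase i, v k :=
        (Finset.mul_prod_erase _ _ (Finset.mem_univ i)).symm
      rw [h4]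
      have h5 := hv' i
      field_simp
      rw [hvdef]
      ring
    exact (mul_eq_zero.1 h3).resolve_left hprod
  obtain ⟨k, ω, a, T, hT, hω, ha⟩ := exists_basis r
  -- the exponents
  obtain ⟨e, he⟩ : ∃ e : Fin k → Fin M → ℤ, e = fun l i => ∑ j, a j l * n j i := ⟨_, rfl⟩
  have hsum : ∑ l, (ω l : ℂ) • (D (mon v (e l)) / mon v (e l)) = 0 := by
    have h2 : (algebraMap ℂ L (T : ℂ)) *
        ∑ i, algebraMap ℂ L (nvec n r i : ℂ) * (D (v i) / v i) = 0 := by rw [hOm, mul_zero]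
    rw [← h2, Finset.mul_sum]
    simp only [logd_mon D hv', Algebra.smul_def, Finset.mul_sum]
    rw [Finset.sum_comm]
    refine Finset.sum_congr rfl fun i _ => ?_
    rw [← mul_assoc, ← map_mul]
    have h3 : (T : ℂ) * (nvec n r i : ℂ) = ∑ l, (ω l : ℂ) * (e l i : ℂ) := by
      have h4 : (T : ℝ) * nvec n r i = ∑ l, ω l * (e l i : ℝ) := by
        unfold nvec
        rw [Finset.mul_sum, he]
        have h5 : ∀ j, (T : ℝ) * (r j * (n j i : ℝ)) = ∑ l, (a j l : ℝ) * ω l * (n j i : ℝ) := by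
          intro j
          rw [← mul_assoc, ha j, Finset.sum_mul]
        simp only [h5]
        rw [Finset.sum_comm]
        refine Finset.sum_congr rfl fun l _ => ?_
        push_cast
        rw [Finset.mul_sum]
        exact Finset.sum_congr rfl fun j _ => by ring
      have h6 := congrArg (fun x : ℝ => (x : ℂ)) h4
      simpa using h6
    rw [h3, map_sum, Finset.sum_mul]
    refine Finset.sum_congr rfl fun l _ => ?_
    rw [map_mul, map_intCast]
    ring
  have hconst := rosenlicht L D hD halg (fun l => mon v (e l)) (fun l => mon_ne_zero hv' _)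
    (fun l => (ω l : ℂ)) hω hsum
  have ha0 : ∀ l, (fun j => a j l) = 0 := by
    intro l
    obtain ⟨c, hc⟩ := hconst l
    obtain ⟨F1, hF1⟩ : ∃ F1 : P2 ℂ, F1 = ∏ i, N i ^ (e l i).toNat := ⟨_, rfl⟩
    obtain ⟨F2, hF2⟩ : ∃ F2 : P2 ℂ, F2 = ∏ i, N i ^ (-(e l i)).toNat := ⟨_, rfl⟩
    have hdvd2 : P ∣ F1 - MvPolynomial.C c * F2 := by
      rw [← hq, map_sub, map_mul, MvPolynomial.aeval_C, ← hc, hF1, hF2, map_prod, map_prod]
      simp only [map_pow]
      have h2 := mon_mul_neg hv' (e l)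
      rw [hvdef] at h2 ⊢
      rw [h2, sub_self]
    refine hind (fun j => a j l) ⟨c, fun p hp hp' => ?_⟩
    rw [prod_mon hp']
    have h5 := mon_mul_neg hp' (e l)
    have h6 : ∏ i, vN N p i ^ (e l i).toNat = MvPolynomial.eval p F1 := by
      rw [hF1, map_prod]
      simp only [map_pow]
      rfl
    have h7 : ∏ i, vN N p i ^ (-(e l i)).toNat = MvPolynomial.eval p F2 := by
      rw [hF2, map_prod]
      simp only [map_pow]
      rfl
    have h8 : MvPolynomial.eval p F2 ≠ 0 := by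
      rw [← h7]; exact Finset.prod_ne_zero_iff.2 fun i _ => pow_ne_zero _ (hp' i)
    obtain ⟨W, hW⟩ := hdvd2
    have h9 : MvPolynomial.eval p F1 = c * MvPolynomial.eval p F2 := by
      have := congrArg (MvPolynomial.eval p) hW
      rw [map_mul, hp, zero_mul, map_sub, map_mul, MvPolynomial.eval_C, sub_eq_zero] at this
      exact this
    rw [h6, h7, h9] at h5
    have h10 : mon (vN N p) (e l) = c := mul_right_cancel₀ h8 h5
    rw [he] at h10
    exact h10
  funext j
  have h2 := ha j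
  have h3 : ∀ l, (a j l : ℝ) = 0 := fun l => by
    have := congrFun (ha0 l) j
    simp only [Pi.zero_apply] at this
    rw [this, Int.cast_zero]
  simp only [h3, zero_mul, Finset.sum_const_zero] at h2
  have h4 : (T : ℝ) ≠ 0 := Int.cast_ne_zero.2 hT
  exact (mul_eq_zero.1 h2).resolve_left h4

end Pool.Agent.HF
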