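import Mathlib
import Pool.Agent.Lib.MP_c95b3b_ag_HF.Defs
import Pool.Agent.Lib.MP_c95b3b_ag_RS.T0

/-! Project HF (MP_c95b3b_ag), module T0: compact families of pairs. -/

namespace Pool.Agent.HF

open Pool.Agent.L3 Pool.Agent.RS Module

namespace T0C

theorem continuous_vN {M : ℕ} (N : Fin M → P2 ℂ) (i : Fin M) :
    Continuous fun p : Fin 2 → ℂ => vN N p i :=
  MvPolynomial.continuous_eval (N i)

theorem isCompact_KC {M : ℕ} (P : P2 ℂ) (N : Fin M → P2 ℂ) (ρ : ℝ) : IsCompact (KC P N ρ) := by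
  refine Metric.isCompact_of_isClosed_isBounded ?_ ?_
  · have h1 : IsClosed {p : Fin 2 → ℂ | MvPolynomial.eval p P = 0} :=
      isClosed_eq (MvPolynomial.continuous_eval P) continuous_const
    have h2 : IsClosed {p : Fin 2 → ℂ | ∀ i, ‖p i‖ ≤ ρ} := by
      simp only [Set.ofPred_forall]
      exact isClosed_iInter fun i => isClosed_le (by fun_prop) continuous_const
    have h3 : IsClosed {p : Fin 2 → ℂ | ∀ i, ρ⁻¹ ≤ ‖vN N p i‖} := by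
      simp only [Set.ofPred_forall]
      exact isClosed_iInter fun i => isClosed_le continuous_const (continuous_vN N i).norm
    exact h1.inter (h2.inter h3)
  · refine (Metric.isBounded_closedBall (x := (0 : Fin 2 → ℂ)) (r := max ρ 0)).subset ?_
    intro p hp
    rw [mem_closedBall_zero_iff, pi_norm_le_iff_of_nonneg (le_max_right _ _)]
    exact fun i => (hp.2.1 i).trans (le_max_left _ _)

theorem vN_ne_zero {M : ℕ} {P : P2 ℂ} {N : Fin M → P2 ℂ} {ρ : ℝ} (hρ : 0 < ρ) {p : Fin 2 → ℂ}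
    (hp : p ∈ KC P N ρ) (i : Fin M) : vN N p i ≠ 0 := by
  intro h
  have h1 := hp.2.2 i
  rw [h, norm_zero] at h1
  exact absurd (inv_pos.2 hρ) (not_lt.2 h1)

theorem lgs_cont {M : ℕ} (N : Fin M → P2 ℂ) {d0 : Fin M → ℝ} {p0 : Fin 2 → ℂ}
    (h : ∀ i, vN N p0 i ≠ 0) :
    ContinuousAt (fun x : (Fin M → ℝ) × (Fin 2 → ℂ) => lgs x.1 (vN N x.2)) (d0, p0) := by
  have h1 : ∀ i, ContinuousAt
      (fun x : (Fin M → ℝ) × (Fin 2 → ℂ) => x.1 i * Real.log ‖vN N x.2 i‖) (d0, p0) := by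
    intro i
    have h2 : Continuous fun x : (Fin M → ℝ) × (Fin 2 → ℂ) => ‖vN N x.2 i‖ :=
      ((continuous_vN N i).comp continuous_snd).norm
    refine ContinuousAt.mul (by fun_prop) (ContinuousAt.log h2.continuousAt ?_)
    exact norm_ne_zero_iff.2 (h i)
  exact tendsto_finsetSum _ fun i _ => h1 i

/-- the sum of the absolute values of the two functions -/
noncomputable def hh {M : ℕ} (N : Fin M → P2 ℂ)
    (x : ((Fin M → ℝ) × (Fin M → ℝ)) × (Fin 2 → ℂ)) : ℝ :=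
  |lgs x.1.1 (vN N x.2)| + |lgs x.1.2 (vN N x.2)|

theorem hh_cont {M : ℕ} (N : Fin M → P2 ℂ) {d0 : (Fin M → ℝ) × (Fin M → ℝ)} {p0 : Fin 2 → ℂ}
    (h : ∀ i, vN N p0 i ≠ 0) : ContinuousAt (hh N) (d0, p0) := by
  have h1 : ContinuousAt (fun x : ((Fin M → ℝ) × (Fin M → ℝ)) × (Fin 2 → ℂ) =>
      lgs x.1.1 (vN N x.2)) (d0, p0) := by
    have h2 : ContinuousAt (fun x : ((Fin M → ℝ) × (Fin M → ℝ)) × (Fin 2 → ℂ) =>
        (x.1.1, x.2)) (d0, p0) := by fun_prop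
    exact ContinuousAt.comp (x := (d0, p0)) (f := fun x : ((Fin M → ℝ) × (Fin M → ℝ)) ×
      (Fin 2 → ℂ) => (x.1.1, x.2)) (g := fun x : (Fin M → ℝ) × (Fin 2 → ℂ) =>
      lgs x.1 (vN N x.2)) (lgs_cont N (d0 := d0.1) h) h2
  have h3 : ContinuousAt (fun x : ((Fin M → ℝ) × (Fin M → ℝ)) × (Fin 2 → ℂ) =>
      lgs x.1.2 (vN N x.2)) (d0, p0) := by
    have h4 : ContinuousAt (fun x : ((Fin M → ℝ) × (Fin M → ℝ)) × (Fin 2 → ℂ) =>
        (x.1.2, x.2)) (d0, p0) := by fun_prop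
    exact ContinuousAt.comp (x := (d0, p0)) (f := fun x : ((Fin M → ℝ) × (Fin M → ℝ)) ×
      (Fin 2 → ℂ) => (x.1.2, x.2)) (g := fun x : (Fin M → ℝ) × (Fin 2 → ℂ) =>
      lgs x.1 (vN N x.2)) (lgs_cont N (d0 := d0.2) h) h4
  exact h1.abs.add h3.abs

/-- the bound away from the common zeros, near one pair -/
theorem near {M : ℕ} (P : P2 ℂ) (N : Fin M → P2 ℂ) (d0 : (Fin M → ℝ) × (Fin M → ℝ)) {ρ δ : ℝ}
    (hρ : 0 < ρ) (hδ : 0 < δ) {q : ℕ} (zz : Fin q → Fin 2 → ℂ)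
    (hz : ∀ p, p ∈ KC P N ρ → lgs d0.1 (vN N p) = 0 → lgs d0.2 (vN N p) = 0 → ∃ l, p = zz l) :
    ∃ c : ℝ, 0 < c ∧ ∀ᶠ d in nhds d0, ∀ p, p ∈ KC P N ρ → hh N (d, p) ≤ c →
      ∃ l, ‖p - zz l‖ ≤ δ := by
  set Kd : Set (Fin 2 → ℂ) := KC P N ρ ∩ {p | ∀ l, δ ≤ ‖p - zz l‖} with hKd
  have hcl : IsClosed {p : Fin 2 → ℂ | ∀ l, δ ≤ ‖p - zz l‖} := by
    simp only [Set.ofPred_forall]
    exact isClosed_iInter fun l => isClosed_le continuous_const (by fun_prop)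
  have hKc : IsCompact Kd := (isCompact_KC P N ρ).inter_right hcl
  have hcont : ContinuousOn (fun p => hh N (d0, p)) Kd := by
    intro p hp
    have h1 := hh_cont N (d0 := d0) (fun i => vN_ne_zero hρ hp.1 i)
    have h2 : ContinuousAt (fun p : Fin 2 → ℂ => (d0, p)) p := by fun_prop
    exact (ContinuousAt.comp (g := hh N) h1 h2).continuousWithinAt
  have hpos : ∀ p ∈ Kd, 0 < hh N (d0, p) := by
    intro p hpK
    by_contra hcon
    have h1 : 0 ≤ |lgs d0.1 (vN N p)| := abs_nonneg _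
    have h2 : 0 ≤ |lgs d0.2 (vN N p)| := abs_nonneg _
    have h3 : |lgs d0.1 (vN N p)| + |lgs d0.2 (vN N p)| ≤ 0 := not_lt.1 hcon
    have h4 : lgs d0.1 (vN N p) = 0 := abs_eq_zero.1 (by linarith)
    have h5 : lgs d0.2 (vN N p) = 0 := abs_eq_zero.1 (by linarith)
    obtain ⟨l, hl⟩ := hz p hpK.1 h4 h5
    have h6 := hpK.2 l
    rw [hl, sub_self, norm_zero] at h6
    linarith
  obtain ⟨c, hc, hcK⟩ : ∃ c : ℝ, 0 < c ∧ ∀ p ∈ Kd, c < hh N (d0, p) := by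
    rcases Kd.eq_empty_or_nonempty with he | hne
    · exact ⟨1, one_pos, fun p hp => by rw [he] at hp; exact absurd hp (Set.notMem_empty p)⟩
    · obtain ⟨p1, hp1, hmin⟩ := hKc.exists_isMinOn hne hcont
      refine ⟨hh N (d0, p1) / 2, half_pos (hpos p1 hp1), fun p hp => ?_⟩
      have h1 : hh N (d0, p1) ≤ hh N (d0, p) := hmin hp
      have h2 := hpos p1 hp1
      linarith
  refine ⟨c, hc, ?_⟩
  have hev : ∀ᶠ d in nhds d0, ∀ p ∈ Kd, c < hh N (d, p) := by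
    refine hKc.eventually_forall_of_forall_eventually fun p hp => ?_
    have h1 := hh_cont N (d0 := d0) (fun i => vN_ne_zero hρ hp.1 i)
    exact h1.eventually (lt_mem_nhds (hcK p hp))
  filter_upwards [hev] with d hd p hpK hle
  by_contra hcon
  simp only [not_exists, not_le] at hcon
  have := hd p ⟨hpK, fun l => (hcon l).le⟩
  linarith

/-- the statement for a set of pairs -/
def Good {M : ℕ} (P : P2 ℂ) (N : Fin M → P2 ℂ) (ρ B θ : ℝ)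
    (s : Set ((Fin M → ℝ) × (Fin M → ℝ))) : Prop :=
  ∃ ε : ℝ, 0 < ε ∧ ∃ f : Polynomial ℤ, f ≠ 0 ∧
    ∀ (K : Type) [Field K] (R : Subring K) (W : Places K R) (t : K), t ∈ R →
      W.avg (fun v => max 0 (W.lg v t)) ≤ B →
      ∀ d ∈ s, (∃ S : Finset (Fin W.D), θ * W.D ≤ S.card ∧ ∀ i ∈ S, ∃ p ∈ KC P N ρ,
        p 0 = W.σ i t ∧ |lgs d.1 (vN N p)| ≤ ε ∧ |lgs d.2 (vN N p)| ≤ ε) →
      Polynomial.aeval t f = 0

end T0C

theorem t0_unifC {M : ℕ} (P : P2 ℂ) (N : Fin M → P2 ℂ) (D : Set ((Fin M → ℝ) × (Fin M → ℝ)))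
    (hD : IsCompact D) (ρ B θ : ℝ) (hρ : 0 < ρ) (hθ : 0 < θ)
    (hfin : ∀ d ∈ D, {p : Fin 2 → ℂ | p ∈ KC P N ρ ∧ lgs d.1 (vN N p) = 0 ∧
      lgs d.2 (vN N p) = 0}.Finite) :
    ∃ ε : ℝ, 0 < ε ∧ ∃ f : Polynomial ℤ, f ≠ 0 ∧
      ∀ (K : Type) [Field K] (R : Subring K) (W : Places K R) (t : K), t ∈ R →
        W.avg (fun v => max 0 (W.lg v t)) ≤ B →
        ∀ d ∈ D, (∃ S : Finset (Fin W.D), θ * W.D ≤ S.card ∧ ∀ i ∈ S, ∃ p ∈ KC P N ρ,
          p 0 = W.σ i t ∧ |lgs d.1 (vN N p)| ≤ ε ∧ |lgs d.2 (vN N p)| ≤ ε) →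
        Polynomial.aeval t f = 0 := by
  refine hD.induction_on (p := T0C.Good P N ρ B θ) ?_ ?_ ?_ ?_
  · exact ⟨1, one_pos, 1, one_ne_zero, fun K _ R W t _ _ d hd => absurd hd (Set.notMem_empty d)⟩
  · rintro s t hst ⟨ε, hε, f, hf, h⟩
    exact ⟨ε, hε, f, hf, fun K _ R W t ht hB d hd => h K R W t ht hB d (hst hd)⟩
  · rintro s1 s2 ⟨ε1, hε1, f1, hf1, h1⟩ ⟨ε2, hε2, f2, hf2, h2⟩
    refine ⟨min ε1 ε2, lt_min hε1 hε2, f1 * f2, mul_ne_zero hf1 hf2, ?_⟩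
    rintro K _ R W t ht hB d hd ⟨S, hS, hi⟩
    rw [map_mul]
    rcases hd with hd | hd
    · rw [h1 K R W t ht hB d hd ⟨S, hS, fun i his => ?_⟩, zero_mul]
      obtain ⟨p, hp, g1, g2, g3⟩ := hi i his
      exact ⟨p, hp, g1, g2.trans (min_le_left _ _), g3.trans (min_le_left _ _)⟩
    · rw [h2 K R W t ht hB d hd ⟨S, hS, fun i his => ?_⟩, mul_zero]
      obtain ⟨p, hp, g1, g2, g3⟩ := hi i his
      exact ⟨p, hp, g1, g2.trans (min_le_right _ _), g3.trans (min_le_right _ _)⟩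
  · intro d0 hd0
    have hf0 := hfin d0 hd0
    set Z := hf0.toFinset with hZ
    set zz : Fin Z.card → Fin 2 → ℂ := fun l => (Z.equivFin.symm l : Fin 2 → ℂ) with hzz
    obtain ⟨δ, hδ, f, hf, h⟩ := t0 (fun l => zz l 0) B θ hθ
    obtain ⟨c, hc, hev⟩ := T0C.near P N d0 hρ hδ zz (by
      intro p h1 h2 h3
      have hzZ : p ∈ Z := hf0.mem_toFinset.2 ⟨h1, h2, h3⟩
      exact ⟨Z.equivFin ⟨p, hzZ⟩, by simp [hzz]⟩)
    refine ⟨_, mem_nhdsWithin_of_mem_nhds hev, c / 2, half_pos hc, f, hf, ?_⟩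
    rintro K _ R W t ht hB d hd ⟨S, hS, hi⟩
    refine h K R W t ht hB ⟨S, hS, fun i his => ?_⟩
    obtain ⟨p, g0, g1, g2, g3⟩ := hi i his
    have h4 : T0C.hh N (d, p) = |lgs d.1 (vN N p)| + |lgs d.2 (vN N p)| := rfl
    obtain ⟨l, hl⟩ := hd p g0 (by rw [h4]; linarith)
    refine ⟨l, ?_⟩
    rw [← g1]
    exact (norm_le_pi_norm (p - zz l) 0).trans hl

end Pool.Agent.HF
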