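import Mathlib
import Pool.Agent.Lib.MP_c95b3b_ag_HF.Defs
import Pool.Agent.Lib.MP_c95b3b_ag_HF.ArcNearH
import Pool.Agent.Lib.MP_c95b3b_ag_RS.PFD

/-! Project HF (MP_c95b3b_ag), module T1: conjugates near finitely many arcs. -/

namespace Pool.Agent.HF

open Pool.Agent.L3 Pool.Agent.RS Module

namespace T1

theorem forall_tz {F : Type} {e : ℕ} {p : F → Prop} {t : F} {z : Fin (e + 1) → F} (h0 : p t)
    (h1 : ∀ j, p (z j)) (i : Fin (e + 1)) : p (tz t z i) := by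
  refine Fin.cases h0 (fun i => ?_) i
  exact h1 i.succ

theorem map_tz {F G : Type} {e : ℕ} (f : F → G) (t : F) (z : Fin (e + 1) → F) :
    (fun i => f (tz t z i)) = tz (f t) (fun j => f (z j)) := by
  funext i
  exact Fin.cases rfl (fun i => rfl) i

theorem sum_tz_le {F : Type} {e : ℕ} (f : F → ℝ) (hf : ∀ x, 0 ≤ f x) (t : F)
    (z : Fin (e + 1) → F) : ∑ i, f (tz t z i) ≤ f t + ∑ j, f (z j) := by
  rw [Fin.sum_univ_succ, Fin.sum_univ_succ (fun j => f (z j))]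
  have h0 := hf (z 0)
  have h1 : f (tz t z 0) = f t := rfl
  have h2 : ∑ i : Fin e, f (tz t z i.succ) = ∑ i : Fin e, f (z i.succ) := rfl
  rw [h1, h2]
  linarith

end T1

theorem t1H {q e g : ℕ} (he : 1 ≤ e) (b : Fin g → Fin (e + 1) → ℕ)
    (D : Fin (e + 1) → ℕ) (hD : ∀ k j, b k j ≤ D j) (τ : Fin q → ℂ → ℂ)
    (ρ : Fin q → Fin (e + 1) → ℂ → ℂ) (a : Fin q → Fin g → ℂ → ℂ)
    (hτ : ∀ l, DifferentiableOn ℂ (τ l) (Metric.ball 0 3))
    (hρ : ∀ l j, DifferentiableOn ℂ (ρ l j) (Metric.ball 0 3))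
    (ha : ∀ l k, DifferentiableOn ℂ (a l k) (Metric.ball 0 3))
    (hirr : ∀ l, Irreducible (gpol (fun k => am (a l k) (ha l k)) b))
    (hnd : ∀ l, ¬ gpol (fun k => am (a l k) (ha l k)) b ∣
      gpol (fun k => am (cj (a l k)) (differentiableOn_cj (ha l k))) (fun k j => D j - b k j)) :
    ∃ δ : Fin q → ℂ → ℂ, (∀ l, DifferentiableOn ℂ (δ l) (Metric.ball 0 3)) ∧
      (∀ l, ∃ s ∈ Metric.ball (0 : ℂ) 3, δ l s ≠ 0) ∧
      ∀ c0 B θ : ℝ, 0 < c0 → 0 < θ → ∃ η : ℝ, 0 < η ∧ ∃ Q : MvPolynomial (Fin (e + 1)) ℤ, Q ≠ 0 ∧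
        ∀ (K : Type) [Field K] (R : Subring K) (W : Places K R) (t : K) (z : Fin (e + 1) → K),
          t ∈ R → (∀ j, z j ∈ R) →
          W.avg (fun v => max 0 (W.lg v t) + ∑ j, max 0 (W.lg v (z j))) ≤ B →
          (∃ S : Finset (Fin W.D), θ * W.D ≤ S.card ∧ ∀ i ∈ S, ∃ (l : Fin q) (y : ℝ)
            (ζ : Fin (e + 1) → ℂ), |y| ≤ 1 ∧ (∀ j, ‖ζ j‖ = 1) ∧ c0 ≤ ‖δ l y‖ ∧
            ‖W.σ i t - τ l y‖ ≤ η ∧ (∀ j, ‖W.σ i (z j) - ρ l j y * ζ j‖ ≤ η) ∧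
            ‖∑ k, a l k y * ∏ j, ζ j ^ b k j‖ ≤ η) →
          MvPolynomial.aeval (tz t z) Q = 0 := by
  obtain ⟨δ, hδ, hδ0, hδ1⟩ := arc_nearH he b D hD τ ρ a hτ hρ ha hirr hnd
  refine ⟨δ, hδ, hδ0, ?_⟩
  intro c0 B θ hc0 hθ
  set A : ℝ := (e + 3 + |B|) / θ with hA
  have hAθ : θ * A = e + 3 + |B| := by rw [hA]; field_simp
  obtain ⟨N, hN, η, hη, Q, hQ0, hdeg, hcoef, hQ⟩ := hδ1 (A - Real.log c0)
  refine ⟨η, hη, Q, hQ0, ?_⟩
  intro K _ R W t z ht hz havg hS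
  obtain ⟨S, hScard, hS⟩ := hS
  refine pfd W (tz t z) (fun i => T1.forall_tz ht hz i) B θ A hθ ?_ ?_ N hN Q hdeg hcoef S hScard ?_
  · rw [hAθ]
    have := le_abs_self B
    push_cast
    linarith
  · exact (W.avg_mono fun w => T1.sum_tz_le (fun x => max 0 (W.lg w x)) (fun x => le_max_left _ _)
      t z).trans havg
  · intro i hi
    obtain ⟨l, y, ζ, hy, hζ, hc, e1, e2, e3⟩ := hS i hi
    have h3 := hQ l y ζ (W.σ i t) (fun j => W.σ i (z j)) hy hζ e1 e2 e3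
    rw [T1.map_tz (W.σ i) t z]
    set v := ‖MvPolynomial.aeval (tz (W.σ i t) (fun j => W.σ i (z j))) Q‖ with hv
    have hv0 : 0 ≤ v := norm_nonneg _
    have h5 : c0 ^ N ≤ ‖δ l y‖ ^ N := pow_le_pow_left₀ hc0.le hc N
    have h6 : c0 ^ N * v ≤ Real.exp (-((A - Real.log c0) * N)) :=
      (mul_le_mul_of_nonneg_right h5 hv0).trans h3
    have h7 : Real.exp (-((A - Real.log c0) * N)) = c0 ^ N * Real.exp (-(A * N)) := by
      have h8 : c0 ^ N = Real.exp (N * Real.log c0) := by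
        rw [Real.exp_nat_mul, Real.exp_log hc0]
      rw [h8, ← Real.exp_add]
      congr 1
      ring
    rw [h7] at h6
    exact le_of_mul_le_mul_left h6 (by positivity)

end Pool.Agent.HF
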