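import Mathlib
import Pool.Agent.Lib.MP_c95b3b_ag_HF.Defs
import Pool.Agent.Lib.MP_c95b3b_ag_HF.AnDomain
import Pool.Agent.Lib.MP_c95b3b_ag_HF.Bezout
import Pool.Agent.Lib.MP_c95b3b_ag_HF.Sym
import Pool.Agent.Lib.MP_c95b3b_ag_HF.CoverC
import Pool.Agent.Lib.MP_c95b3b_ag_HF.T1H
import Pool.Agent.Lib.MP_c95b3b_ag_RS.T0

/-! Project HF (MP_c95b3b_ag), module TF: one real curve. -/

namespace Pool.Agent.HF

open Pool.Agent.L3 Pool.Agent.RS Module

namespace TF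

/-! ### calculus in the ring of analytic functions -/

theorem toAn_congr {F G : ℂ → ℂ} (hF : DifferentiableOn ℂ F (Metric.ball 0 3))
    (hG : DifferentiableOn ℂ G (Metric.ball 0 3))
    (h : ∀ s ∈ Metric.ball (0 : ℂ) 3, F s = G s) : toAn F hF = toAn G hG :=
  Subtype.ext (funext fun x => h x x.2)

theorem am_congr {F G : ℂ → ℂ} (hF : DifferentiableOn ℂ F (Metric.ball 0 3))
    (hG : DifferentiableOn ℂ G (Metric.ball 0 3))
    (h : ∀ s ∈ Metric.ball (0 : ℂ) 3, F s = G s) : am F hF = am G hG := by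
  rw [am, am, toAn_congr hF hG h]

theorem of_am_eq {F G : ℂ → ℂ} {hF : DifferentiableOn ℂ F (Metric.ball 0 3)}
    {hG : DifferentiableOn ℂ G (Metric.ball 0 3)} (h : am F hF = am G hG) (s : ℂ)
    (hs : s ∈ Metric.ball (0 : ℂ) 3) : F s = G s := by
  have h1 : toAn F hF = toAn G hG := IsFractionRing.injective An (FractionRing An) h
  exact congrFun (congrArg Subtype.val h1) ⟨s, hs⟩

theorem am_mul {F G : ℂ → ℂ} (hF : DifferentiableOn ℂ F (Metric.ball 0 3))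
    (hG : DifferentiableOn ℂ G (Metric.ball 0 3))
    (hFG : DifferentiableOn ℂ (fun s => F s * G s) (Metric.ball 0 3)) :
    am (fun s => F s * G s) hFG = am F hF * am G hG := by
  rw [am, am, am, ← map_mul]
  rfl

theorem am_one (h : DifferentiableOn ℂ (fun _ : ℂ => (1 : ℂ)) (Metric.ball 0 3)) :
    am (fun _ => 1) h = 1 := by
  rw [am, ← map_one (algebraMap An (FractionRing An))]
  rfl

theorem am_ne_zero {F : ℂ → ℂ} (hF : DifferentiableOn ℂ F (Metric.ball 0 3))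
    (h : F 0 ≠ 0) : am F hF ≠ 0 := by
  intro h1
  have h2 : am F hF = am (fun _ => 0) (differentiableOn_const _) := by
    rw [h1, am, ← map_zero (algebraMap An (FractionRing An))]
    rfl
  exact h (of_am_eq h2 0 (Metric.mem_ball_self (by norm_num)))

theorem am_pow {F : ℂ → ℂ} (hF : DifferentiableOn ℂ F (Metric.ball 0 3)) (n : ℕ)
    (h : DifferentiableOn ℂ (fun s => F s ^ n) (Metric.ball 0 3)) :
    am (fun s => F s ^ n) h = am F hF ^ n := by
  rw [am, am, ← map_pow]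
  rfl

theorem am_zpow {F : ℂ → ℂ} (hF : DifferentiableOn ℂ F (Metric.ball 0 3))
    (hne : ∀ s ∈ Metric.ball (0 : ℂ) 3, F s ≠ 0) (n : ℤ)
    (h : DifferentiableOn ℂ (fun s => F s ^ n) (Metric.ball 0 3)) :
    am (fun s => F s ^ n) h = am F hF ^ n := by
  rcases Int.eq_nat_or_neg n with ⟨m, rfl | rfl⟩
  · rw [zpow_natCast, ← am_pow hF m (hF.fun_pow m)]
    exact am_congr _ _ fun s _ => zpow_natCast _ _
  · rw [zpow_neg, zpow_natCast]
    refine eq_inv_of_mul_eq_one_left ?_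
    rw [← am_pow hF m (hF.fun_pow m), ← am_mul _ _ (h.mul (hF.fun_pow m)),
      ← am_one (differentiableOn_const _)]
    refine am_congr _ _ fun s hs => ?_
    rw [zpow_neg, zpow_natCast, inv_mul_cancel₀ (pow_ne_zero _ (hne s hs))]

theorem am_prod {ι : Type} (S : Finset ι) (F : ι → ℂ → ℂ)
    (hF : ∀ i, DifferentiableOn ℂ (F i) (Metric.ball 0 3))
    (h : DifferentiableOn ℂ (fun s => ∏ i ∈ S, F i s) (Metric.ball 0 3)) :
    am (fun s => ∏ i ∈ S, F i s) h = ∏ i ∈ S, am (F i) (hF i) := by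
  classical
  induction S using Finset.induction_on with
  | empty =>
    rw [Finset.prod_empty, ← am_one (differentiableOn_const _)]
    exact am_congr _ _ fun s _ => by rw [Finset.prod_empty]
  | insert a S ha ih =>
    have h1 : DifferentiableOn ℂ (fun s => ∏ i ∈ S, F i s) (Metric.ball 0 3) :=
      DifferentiableOn.fun_finsetProd fun i _ => hF i
    rw [Finset.prod_insert ha, ← ih h1, ← am_mul (hF a) h1 ((hF a).mul h1)]
    exact am_congr _ _ fun s _ => by rw [Finset.prod_insert ha]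

/-! ### the generic point given by an arc -/

theorem diff_eval {τ σ : ℂ → ℂ} (hτ : DifferentiableOn ℂ τ (Metric.ball 0 3))
    (hσ : DifferentiableOn ℂ σ (Metric.ball 0 3)) (Q : P2 ℂ) :
    DifferentiableOn ℂ (fun s => MvPolynomial.eval ![τ s, σ s] Q) (Metric.ball 0 3) := by
  induction Q using MvPolynomial.induction_on with
  | C c =>
    simp only [MvPolynomial.eval_C]
    exact differentiableOn_const c
  | add p q hp hq =>
    simp only [map_add]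
    exact hp.fun_add hq
  | mul_X p i hp =>
    simp only [map_mul, MvPolynomial.eval_X]
    refine hp.fun_mul ?_
    fin_cases i
    · exact hτ
    · exact hσ

/-- restriction of polynomials to the arc -/
noncomputable def phi {τ σ : ℂ → ℂ} (hτ : DifferentiableOn ℂ τ (Metric.ball 0 3))
    (hσ : DifferentiableOn ℂ σ (Metric.ball 0 3)) : P2 ℂ →+* An where
  toFun Q := toAn (fun s => MvPolynomial.eval ![τ s, σ s] Q) (diff_eval hτ hσ Q)
  map_one' := Subtype.ext (funext fun x => by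
    show MvPolynomial.eval ![τ x, σ x] 1 = 1
    rw [map_one])
  map_mul' Q Q' := Subtype.ext (funext fun x => by
    show MvPolynomial.eval ![τ x, σ x] (Q * Q') =
      MvPolynomial.eval ![τ x, σ x] Q * MvPolynomial.eval ![τ x, σ x] Q'
    rw [map_mul])
  map_zero' := Subtype.ext (funext fun x => by
    show MvPolynomial.eval ![τ x, σ x] 0 = 0
    rw [map_zero])
  map_add' Q Q' := Subtype.ext (funext fun x => by
    show MvPolynomial.eval ![τ x, σ x] (Q + Q') =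
      MvPolynomial.eval ![τ x, σ x] Q + MvPolynomial.eval ![τ x, σ x] Q'
    rw [map_add])

/-- the generic point of the curve given by the arc -/
noncomputable def phiF {τ σ : ℂ → ℂ} (hτ : DifferentiableOn ℂ τ (Metric.ball 0 3))
    (hσ : DifferentiableOn ℂ σ (Metric.ball 0 3)) : P2 ℂ →+* FractionRing An :=
  (algebraMap An (FractionRing An)).comp (phi hτ hσ)

theorem phiF_apply {τ σ : ℂ → ℂ} (hτ : DifferentiableOn ℂ τ (Metric.ball 0 3))
    (hσ : DifferentiableOn ℂ σ (Metric.ball 0 3)) (Q : P2 ℂ) :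
    phiF hτ hσ Q = am (fun s => MvPolynomial.eval ![τ s, σ s] Q) (diff_eval hτ hσ Q) := rfl

theorem gen_phiF {τ σ : ℂ → ℂ} (hτ : DifferentiableOn ℂ τ (Metric.ball 0 3))
    (hσ : DifferentiableOn ℂ σ (Metric.ball 0 3)) (P : P2 ℂ) (hP : Irreducible P)
    (h1 : P.degreeOf 1 ≠ 0)
    (hz : ∀ s ∈ Metric.ball (0 : ℂ) 3, MvPolynomial.eval ![τ s, σ s] P = 0)
    (hinj : Set.InjOn τ (Metric.ball 0 3)) : Gen P (phiF hτ hσ) := by
  intro Q
  constructor
  · intro h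
    by_contra hPQ
    obtain ⟨w, hw, hwz⟩ := bezout P Q hP h1 hPQ
    have h2 : ∀ s ∈ Metric.ball (0 : ℂ) 3, MvPolynomial.eval ![τ s, σ s] Q = 0 := by
      intro s hs
      have h3 : phiF hτ hσ Q = am (fun _ => 0) (differentiableOn_const _) := by
        rw [h, am, ← map_zero (algebraMap An (FractionRing An))]
        rfl
      rw [phiF_apply] at h3
      exact of_am_eq h3 s hs
    apply hw
    refine Polynomial.eq_zero_of_infinite_isRoot w ?_
    have h4 : (Metric.ball (0 : ℂ) 3).Infinite :=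
      infinite_of_mem_nhds 0 (Metric.ball_mem_nhds 0 (by norm_num))
    refine (h4.image hinj).mono ?_
    rintro _ ⟨s, hs, rfl⟩
    have h5 := hwz ℂ (RingHom.id ℂ) ![τ s, σ s] (by
      rw [MvPolynomial.eval₂_id]; exact hz s hs) (by
      rw [MvPolynomial.eval₂_id]; exact h2 s hs)
    rw [Polynomial.eval₂_id] at h5
    exact h5
  · rintro ⟨R, rfl⟩
    rw [map_mul]
    have h3 : phiF hτ hσ P = 0 := by
      rw [phiF_apply, ← map_zero (algebraMap An (FractionRing An))]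
      have h4 : am (fun s => MvPolynomial.eval ![τ s, σ s] P) (diff_eval hτ hσ P) =
          am (fun _ => 0) (differentiableOn_const _) := am_congr _ _ hz
      rw [h4]
      rfl
    rw [h3, zero_mul]

/-! ### rescaling -/

theorem irreducible_rescale {F : Type} [Field F] {g d : ℕ} (c : Fin g → F)
    (b : Fin g → Fin d → ℕ) (r : Fin d → F) (hr : ∀ j, r j ≠ 0) (h : Irreducible (gpol c b)) :
    Irreducible (gpol (fun k => c k * ∏ j, r j ^ b k j) b) := by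
  have key : ∀ r : Fin d → F, ∀ r' : Fin d → F, (∀ j, r' j * r j = 1) →
      (MvPolynomial.aeval (fun j => MvPolynomial.C (r j) * MvPolynomial.X j) :
        MvPolynomial (Fin d) F →ₐ[F] MvPolynomial (Fin d) F).comp
      (MvPolynomial.aeval (fun j => MvPolynomial.C (r' j) * MvPolynomial.X j)) =
      AlgHom.id F _ := by
    intro r r' hrr
    refine MvPolynomial.algHom_ext fun j => ?_
    rw [AlgHom.comp_apply, MvPolynomial.aeval_X, map_mul, MvPolynomial.aeval_X,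
      MvPolynomial.algHom_C, MvPolynomial.algebraMap_eq, ← mul_assoc, ← MvPolynomial.C_mul, hrr,
      MvPolynomial.C_1, one_mul, AlgHom.id_apply]
  let E : MvPolynomial (Fin d) F ≃ₐ[F] MvPolynomial (Fin d) F := AlgEquiv.ofAlgHom
    (MvPolynomial.aeval (fun j => MvPolynomial.C (r j) * MvPolynomial.X j))
    (MvPolynomial.aeval (fun j => MvPolynomial.C (r j)⁻¹ * MvPolynomial.X j))
    (key r (fun j => (r j)⁻¹) fun j => inv_mul_cancel₀ (hr j))
    (key (fun j => (r j)⁻¹) r fun j => mul_inv_cancel₀ (hr j))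
  have hE : E (gpol c b) = gpol (fun k => c k * ∏ j, r j ^ b k j) b := by
    show MvPolynomial.aeval (fun j => MvPolynomial.C (r j) * MvPolynomial.X j) (gpol c b) = _
    rw [gpol, gpol, map_sum]
    refine Finset.sum_congr rfl fun k _ => ?_
    rw [MvPolynomial.aeval_monomial, MvPolynomial.monomial_eq, MvPolynomial.algebraMap_eq,
      Finsupp.prod_fintype _ _ fun j => pow_zero _, Finsupp.prod_fintype _ _ fun j => pow_zero _,
      MvPolynomial.C_mul, map_prod]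
    simp only [mul_pow, Finset.prod_mul_distrib, MvPolynomial.C_pow,
      Finsupp.equivFunOnFinite_symm_apply_apply, mul_assoc]
  rw [← hE]
  exact (MulEquiv.irreducible_iff E).mpr h

/-! ### the functions along an arc -/

/-- the holomorphic extension of `exp (lgs d' (values))` -/
noncomputable def rh {M : ℕ} (G : Fin M → ℂ → ℂ) (d' : Fin M → ℝ) (s : ℂ) : ℂ :=
  Complex.exp (∑ i, (d' i : ℂ) * G i s)

/-- the coefficients along the arc -/
noncomputable def af {M d : ℕ} (N : Fin M → P2 ℂ) (τ σ : ℂ → ℂ) (G : Fin M → ℂ → ℂ)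
    (dρ : Fin d → Fin M → ℝ) (ν : Fin M → ℤ) (b : Fin d → ℕ) (s : ℂ) : ℂ :=
  mon (vN N ![τ s, σ s]) ν * ∏ j, rh G (dρ j) s ^ b j

theorem diff_rh {M : ℕ} {G : Fin M → ℂ → ℂ}
    (hG : ∀ i, DifferentiableOn ℂ (G i) (Metric.ball 0 3)) (d' : Fin M → ℝ) :
    DifferentiableOn ℂ (rh G d') (Metric.ball 0 3) := by
  unfold rh
  exact (DifferentiableOn.fun_sum fun i _ => (differentiableOn_const _).mul (hG i)).cexp

theorem rh_ne_zero {M : ℕ} (G : Fin M → ℂ → ℂ) (d' : Fin M → ℝ) (s : ℂ) : rh G d' s ≠ 0 :=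
  Complex.exp_ne_zero _

theorem diff_mon {M : ℕ} {N : Fin M → P2 ℂ} {τ σ : ℂ → ℂ}
    (hτ : DifferentiableOn ℂ τ (Metric.ball 0 3)) (hσ : DifferentiableOn ℂ σ (Metric.ball 0 3))
    (hne : ∀ s ∈ Metric.ball (0 : ℂ) 3, ∀ i, vN N ![τ s, σ s] i ≠ 0) (ν : Fin M → ℤ) :
    DifferentiableOn ℂ (fun s => mon (vN N ![τ s, σ s]) ν) (Metric.ball 0 3) := by
  unfold mon
  refine DifferentiableOn.fun_finsetProd fun i _ => ?_
  exact (diff_eval hτ hσ (N i)).zpow (Or.inl fun s hs => hne s hs i)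

theorem diff_af {M d : ℕ} {N : Fin M → P2 ℂ} {τ σ : ℂ → ℂ} {G : Fin M → ℂ → ℂ}
    (hτ : DifferentiableOn ℂ τ (Metric.ball 0 3)) (hσ : DifferentiableOn ℂ σ (Metric.ball 0 3))
    (hG : ∀ i, DifferentiableOn ℂ (G i) (Metric.ball 0 3))
    (hne : ∀ s ∈ Metric.ball (0 : ℂ) 3, ∀ i, vN N ![τ s, σ s] i ≠ 0)
    (dρ : Fin d → Fin M → ℝ) (ν : Fin M → ℤ) (b : Fin d → ℕ) :
    DifferentiableOn ℂ (af N τ σ G dρ ν b) (Metric.ball 0 3) := by
  unfold af
  refine (diff_mon hτ hσ hne ν).fun_mul ?_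
  exact DifferentiableOn.fun_finsetProd fun j _ => (diff_rh hG (dρ j)).fun_pow _

theorem af_ne_zero {M d : ℕ} {N : Fin M → P2 ℂ} {τ σ : ℂ → ℂ} (G : Fin M → ℂ → ℂ)
    (dρ : Fin d → Fin M → ℝ) (ν : Fin M → ℤ) (b : Fin d → ℕ) {s : ℂ}
    (hne : ∀ i, vN N ![τ s, σ s] i ≠ 0) : af N τ σ G dρ ν b s ≠ 0 :=
  mul_ne_zero (mon_ne_zero hne ν) (Finset.prod_ne_zero_iff.mpr fun j _ =>
    pow_ne_zero _ (rh_ne_zero G (dρ j) s))

/-- irreducibility along the arc -/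
theorem irr_af {M g d : ℕ} {P : P2 ℂ} (hP : Irreducible P) (h1 : P.degreeOf 1 ≠ 0)
    {N : Fin M → P2 ℂ} {τ σ : ℂ → ℂ} {G : Fin M → ℂ → ℂ}
    (hτ : DifferentiableOn ℂ τ (Metric.ball 0 3)) (hσ : DifferentiableOn ℂ σ (Metric.ball 0 3))
    (hG : ∀ i, DifferentiableOn ℂ (G i) (Metric.ball 0 3))
    (hz : ∀ s ∈ Metric.ball (0 : ℂ) 3, MvPolynomial.eval ![τ s, σ s] P = 0)
    (hne : ∀ s ∈ Metric.ball (0 : ℂ) 3, ∀ i, vN N ![τ s, σ s] i ≠ 0)
    (hinj : Set.InjOn τ (Metric.ball 0 3)) (dρ : Fin d → Fin M → ℝ) (ν : Fin g → Fin M → ℤ)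
    (b : Fin g → Fin d → ℕ) (hI : GeomIrr P N ν b) :
    Irreducible (gpol (fun k => am (af N τ σ G dρ (ν k) (b k))
      (diff_af hτ hσ hG hne dρ (ν k) (b k))) b) := by
  have h2 := hI (FractionRing An) (phiF hτ hσ) (gen_phiF hτ hσ P hP h1 hz hinj)
  have h3 := irreducible_rescale _ b (fun j => am (rh G (dρ j)) (diff_rh hG (dρ j)))
    (fun j => am_ne_zero _ (rh_ne_zero G (dρ j) 0)) h2
  have h4 : (fun k => am (af N τ σ G dρ (ν k) (b k)) (diff_af hτ hσ hG hne dρ (ν k) (b k))) =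
      fun k => mon (fun i => phiF hτ hσ (N i)) (ν k) *
        ∏ j, am (rh G (dρ j)) (diff_rh hG (dρ j)) ^ b k j := by
    funext k
    have e1 : DifferentiableOn ℂ (fun s => ∏ j, rh G (dρ j) s ^ b k j) (Metric.ball 0 3) :=
      DifferentiableOn.fun_finsetProd fun j _ => (diff_rh hG (dρ j)).fun_pow _
    have e2 := am_mul (diff_mon hτ hσ hne (ν k)) e1 (diff_af hτ hσ hG hne dρ (ν k) (b k))
    have e3 : am (fun s => ∏ j, rh G (dρ j) s ^ b k j) e1 =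
        ∏ j, am (rh G (dρ j)) (diff_rh hG (dρ j)) ^ b k j := by
      rw [am_prod Finset.univ (fun j s => rh G (dρ j) s ^ b k j)
        (fun j => (diff_rh hG (dρ j)).fun_pow _) e1]
      exact Finset.prod_congr rfl fun j _ => am_pow _ _ _
    have e4 : am (fun s => mon (vN N ![τ s, σ s]) (ν k)) (diff_mon hτ hσ hne (ν k)) =
        mon (fun i => phiF hτ hσ (N i)) (ν k) := by
      have e5 := am_prod Finset.univ (fun i s => MvPolynomial.eval ![τ s, σ s] (N i) ^ ν k i)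
        (fun i => (diff_eval hτ hσ (N i)).zpow (Or.inl fun s hs => hne s hs i))
        (diff_mon hτ hσ hne (ν k))
      refine e5.trans ?_
      rw [mon]
      refine Finset.prod_congr rfl fun i _ => ?_
      rw [phiF_apply]
      exact am_zpow _ (fun s hs => hne s hs i) _ _
    rw [← e3, ← e4]
    exact e2
  rw [h4]
  exact h3

theorem rh_real {M : ℕ} {G : Fin M → ℂ → ℂ} {v : Fin M → ℂ} {y : ℝ}
    (h : ∀ i, G i y = ((Real.log ‖v i‖ : ℝ) : ℂ)) (d' : Fin M → ℝ) :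
    rh G d' y = ((Real.exp (lgs d' v) : ℝ) : ℂ) := by
  rw [rh, lgs, Complex.ofReal_exp]
  congr 1
  push_cast
  exact Finset.sum_congr rfl fun i _ => by rw [h i]

theorem af_real {M d : ℕ} {N : Fin M → P2 ℂ} {τ σ : ℂ → ℂ} {G : Fin M → ℂ → ℂ}
    (dρ : Fin d → Fin M → ℝ) (ν : Fin M → ℤ) (b : Fin d → ℕ) {y : ℝ}
    (h : ∀ i, G i y = ((Real.log ‖vN N ![τ y, σ y] i‖ : ℝ) : ℂ)) :
    af N τ σ G dρ ν b y = cfR (vN N ![τ y, σ y]) ν b dρ := by
  rw [af, cfR]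
  congr 1
  exact Finset.prod_congr rfl fun j _ => by rw [rh_real h]

theorem not_dvd_af {M g d : ℕ} {P : P2 ℂ} {N : Fin M → P2 ℂ} {τ σ : ℂ → ℂ}
    {G : Fin M → ℂ → ℂ}
    (hτ : DifferentiableOn ℂ τ (Metric.ball 0 3)) (hσ : DifferentiableOn ℂ σ (Metric.ball 0 3))
    (hG : ∀ i, DifferentiableOn ℂ (G i) (Metric.ball 0 3))
    (hz : ∀ s ∈ Metric.ball (0 : ℂ) 3, MvPolynomial.eval ![τ s, σ s] P = 0)
    (hne : ∀ s ∈ Metric.ball (0 : ℂ) 3, ∀ i, vN N ![τ s, σ s] i ≠ 0)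
    (hinj : Set.InjOn τ (Metric.ball 0 3)) (δ : Fin M → ℝ) (dρ : Fin d → Fin M → ℝ)
    (ν : Fin g → Fin M → ℤ) (b : Fin g → Fin d → ℕ) (hb : Function.Injective b) (hg : 0 < g)
    (hsym : SymOK P N ν b δ dρ)
    (hreal : ∀ y : ℝ, |y| < 3 → (∀ i, G i y = ((Real.log ‖vN N ![τ y, σ y] i‖ : ℝ) : ℂ)) ∧
      lgs δ (vN N ![τ y, σ y]) = 0) :
    ¬ gpol (fun k => am (af N τ σ G dρ (ν k) (b k)) (diff_af hτ hσ hG hne dρ (ν k) (b k))) b ∣
      gpol (fun k => am (cj (af N τ σ G dρ (ν k) (b k)))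
        (differentiableOn_cj (diff_af hτ hσ hG hne dρ (ν k) (b k))))
        (fun k j => Finset.univ.sup (fun k => b k j) - b k j) := by
  intro hdvd
  have h0 : (0 : ℂ) ∈ Metric.ball (0 : ℂ) 3 := Metric.mem_ball_self (by norm_num)
  have hc0 : ∀ k, af N τ σ G dρ (ν k) (b k) 0 ≠ 0 := fun k => af_ne_zero G dρ (ν k) (b k) (hne 0 h0)
  obtain ⟨l, hl, hlk⟩ := sym_of_dvd _ _ (fun k => am_ne_zero _ (hc0 k))
    (fun k => am_ne_zero _ (by
      rw [cj, map_zero]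
      exact (map_ne_zero _).mpr (hc0 k))) b hb hg (fun j => Finset.univ.sup fun k => b k j)
      (fun j => rfl) hdvd
  have hfin := hsym (fun j => Finset.univ.sup fun k => b k j) fun k => by
    obtain ⟨k', h1, _⟩ := hlk k
    exact ⟨k', h1⟩
  have e1 : ∀ k k', Sy b (fun j => Finset.univ.sup fun k => b k j) k k' →
      am (cj (af N τ σ G dρ (ν k) (b k)))
        (differentiableOn_cj (diff_af hτ hσ hG hne dρ (ν k) (b k))) =
      l * am (af N τ σ G dρ (ν k') (b k')) (diff_af hτ hσ hG hne dρ (ν k') (b k')) := by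
    intro k k' hkk
    obtain ⟨k2, h1, h2⟩ := hlk k
    have h3 : k2 = k' := hb (funext fun j => by have := h1 j; have := hkk j; omega)
    rw [← h3]
    exact h2
  obtain ⟨k1, hk1, -⟩ := hlk ⟨0, hg⟩
  have e3 : ∀ k k', Sy b (fun j => Finset.univ.sup fun k => b k j) k k' →
      am (fun s => cj (af N τ σ G dρ (ν k) (b k)) s * af N τ σ G dρ (ν k1) (b k1) s)
      ((differentiableOn_cj (diff_af hτ hσ hG hne dρ (ν k) (b k))).fun_mul
        (diff_af hτ hσ hG hne dρ (ν k1) (b k1))) =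
      am (fun s => cj (af N τ σ G dρ (ν ⟨0, hg⟩) (b ⟨0, hg⟩)) s * af N τ σ G dρ (ν k') (b k') s)
      ((differentiableOn_cj (diff_af hτ hσ hG hne dρ (ν ⟨0, hg⟩) (b ⟨0, hg⟩))).fun_mul
        (diff_af hτ hσ hG hne dρ (ν k') (b k'))) := by
    intro k k' hkk
    rw [am_mul (differentiableOn_cj (diff_af hτ hσ hG hne dρ (ν k) (b k)))
      (diff_af hτ hσ hG hne dρ (ν k1) (b k1)),
      am_mul (differentiableOn_cj (diff_af hτ hσ hG hne dρ (ν ⟨0, hg⟩) (b ⟨0, hg⟩)))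
      (diff_af hτ hσ hG hne dρ (ν k') (b k')), e1 k k' hkk, e1 ⟨0, hg⟩ k1 hk1]
    ring
  have h3 : {y : ℝ | |y| < 3}.Infinite := by
    refine infinite_of_mem_nhds (0 : ℝ) ?_
    have : {y : ℝ | |y| < 3} = Metric.ball 0 3 := by
      ext y
      simp
    rw [this]
    exact Metric.ball_mem_nhds 0 (by norm_num)
  have hball : ∀ y : ℝ, |y| < 3 → (y : ℂ) ∈ Metric.ball (0 : ℂ) 3 := fun y hy => by
    rwa [mem_ball_zero_iff, Complex.norm_real]
  have hinj2 : Set.InjOn (fun y : ℝ => ![τ y, σ y]) {y : ℝ | |y| < 3} := by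
    intro y hy y' hy' h
    have h4 : τ y = τ y' := congrFun h 0
    exact_mod_cast hinj (hball y hy) (hball y' hy') h4
  refine (h3.image hinj2) (hfin.subset ?_)
  rintro _ ⟨y, hy, rfl⟩
  have hy3 := hball y hy
  have hr := (hreal y hy).1
  refine ⟨hz y hy3, hne y hy3, (hreal y hy).2,
    (starRingEnd ℂ) (cfR (vN N ![τ y, σ y]) (ν ⟨0, hg⟩) (b ⟨0, hg⟩) dρ) /
      cfR (vN N ![τ y, σ y]) (ν k1) (b k1) dρ, fun k k' hkk => ?_⟩
  have e4 := of_am_eq (e3 k k' hkk) y hy3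
  simp only [cj_real] at e4
  have e5 : af N τ σ G dρ (ν k1) (b k1) y ≠ 0 := af_ne_zero G dρ (ν k1) (b k1) (hne y hy3)
  rw [af_real dρ (ν k) (b k) hr, af_real dρ (ν k1) (b k1) hr,
    af_real dρ (ν ⟨0, hg⟩) (b ⟨0, hg⟩) hr, af_real dρ (ν k') (b k') hr] at e4
  rw [af_real dρ (ν k1) (b k1) hr] at e5
  rw [div_mul_eq_mul_div, eq_div_iff e5]
  exact e4

/-! ### comparison of a point and a near point of the arc -/

/-- the data which must be compared -/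
noncomputable def cmp {M g d : ℕ} (N : Fin M → P2 ℂ) (ν : Fin g → Fin M → ℤ)
    (b : Fin g → Fin d → ℕ) (dρ : Fin d → Fin M → ℝ) (x : (Fin 2 → ℂ) × (Fin d → ℝ)) :
    (Fin d → ℝ) × (Fin g → ℂ) :=
  (fun j => Real.exp (lgs (dρ j) (vN N x.1) + x.2 j),
    fun k => mon (vN N x.1) (ν k) *
      ∏ j, ((Real.exp (lgs (dρ j) (vN N x.1) + x.2 j) : ℝ) : ℂ) ^ b k j)

theorem continuousAt_cmp {M g d : ℕ} (N : Fin M → P2 ℂ) (ν : Fin g → Fin M → ℤ)
    (b : Fin g → Fin d → ℕ) (dρ : Fin d → Fin M → ℝ) (x : (Fin 2 → ℂ) × (Fin d → ℝ))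
    (hx : ∀ i, vN N x.1 i ≠ 0) : ContinuousAt (cmp N ν b dρ) x := by
  have h1 : ∀ i, ContinuousAt (fun x : (Fin 2 → ℂ) × (Fin d → ℝ) => vN N x.1 i) x := fun i =>
    ((MvPolynomial.continuous_eval (N i)).comp continuous_fst).continuousAt
  have h2 : ∀ j, ContinuousAt (fun x : (Fin 2 → ℂ) × (Fin d → ℝ) =>
      Real.exp (lgs (dρ j) (vN N x.1) + x.2 j)) x := by
    intro j
    have h3 : ContinuousAt (fun x : (Fin 2 → ℂ) × (Fin d → ℝ) => x.2 j) x := by fun_prop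
    have h4 : ContinuousAt (fun x : (Fin 2 → ℂ) × (Fin d → ℝ) => lgs (dρ j) (vN N x.1)) x := by
      unfold lgs
      refine tendsto_finsetSum _ fun i _ => ?_
      exact continuousAt_const.mul ((h1 i).norm.log (norm_ne_zero_iff.mpr (hx i)))
    exact Real.continuous_exp.continuousAt.comp (h4.add h3)
  unfold cmp
  refine ContinuousAt.prodMk (continuousAt_pi.mpr h2) (continuousAt_pi.mpr fun k => ?_)
  refine ContinuousAt.mul ?_ ?_
  · unfold mon
    refine tendsto_finsetProd _ fun i _ => ?_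
    exact (h1 i).zpow₀ _ (Or.inl (hx i))
  · refine tendsto_finsetProd _ fun j _ => ?_
    exact (Complex.continuous_ofReal.continuousAt.comp (h2 j)).pow _

theorem unif {M g d : ℕ} (P : P2 ℂ) (N : Fin M → P2 ℂ) (ν : Fin g → Fin M → ℤ)
    (b : Fin g → Fin d → ℕ) (dρ : Fin d → Fin M → ℝ) (ρ0 : ℝ) (hρ : 0 < ρ0) (η : ℝ)
    (hη : 0 < η) :
    ∃ η' : ℝ, 0 < η' ∧ ∀ p ∈ KC P N ρ0, ∀ (p' : Fin 2 → ℂ) (u : Fin d → ℝ),
      (∀ i, ‖p i - p' i‖ ≤ η') → (∀ j, |u j| ≤ η') →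
      dist (cmp N ν b dρ (p, 0)) (cmp N ν b dρ (p', u)) ≤ η := by
  have hc : IsCompact (KC P N ρ0 ×ˢ ({0} : Set (Fin d → ℝ))) :=
    (isCompact_KC P N ρ0).prod isCompact_singleton
  have h1 := hc.uniformContinuousAt_of_continuousAt (cmp N ν b dρ) (fun x hx => by
    refine continuousAt_cmp N ν b dρ x fun i h => ?_
    have h2 := hx.1.2.2 i
    rw [h, norm_zero] at h2
    have h3 : 0 < ρ0⁻¹ := inv_pos.mpr hρ
    linarith) (Metric.dist_mem_uniformity hη)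
  obtain ⟨ε, hε, h2⟩ := Metric.mem_uniformity_dist.mp h1
  refine ⟨ε / 2, by positivity, fun p hp p' u hp' hu => ?_⟩
  have h3 : dist ((p, 0) : (Fin 2 → ℂ) × (Fin d → ℝ)) (p', u) < ε := by
    have h4 : dist ((p, 0) : (Fin 2 → ℂ) × (Fin d → ℝ)) (p', u) ≤ ε / 2 := by
      rw [Prod.dist_eq]
      refine max_le ?_ ?_
      · refine (dist_pi_le_iff (by positivity)).mpr fun i => ?_
        rw [dist_eq_norm]
        exact hp' i
      · refine (dist_pi_le_iff (by positivity)).mpr fun j => ?_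
        rw [dist_eq_norm]
        simpa using hu j
    linarith
  exact (h2 h3 ⟨hp, rfl⟩).le

theorem errors {M g d : ℕ} (P : P2 ℂ) (N : Fin M → P2 ℂ) (ν : Fin g → Fin M → ℤ)
    (b : Fin g → Fin d → ℕ) (dρ : Fin d → Fin M → ℝ) (ρ0 : ℝ) (hρ : 0 < ρ0) (η : ℝ)
    (hη : 0 < η) :
    ∃ η' : ℝ, 0 < η' ∧ ∀ p ∈ KC P N ρ0, ∀ (p' : Fin 2 → ℂ) (z : Fin d → ℂ),
      (∀ i, ‖p i - p' i‖ ≤ η') → (∀ j, z j ≠ 0) →
      (∀ j, |Real.log ‖z j‖ - lgs (dρ j) (vN N p)| ≤ η') → GG (vN N p) ν b z = 0 →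
      (∀ j, ‖z j - ((Real.exp (lgs (dρ j) (vN N p')) : ℝ) : ℂ) * (z j / (‖z j‖ : ℂ))‖ ≤ η) ∧
      ‖∑ k, (mon (vN N p') (ν k) *
        ∏ j, ((Real.exp (lgs (dρ j) (vN N p')) : ℝ) : ℂ) ^ b k j) *
        ∏ j, (z j / (‖z j‖ : ℂ)) ^ b k j‖ ≤ η := by
  have hg : (0 : ℝ) < g + 1 := by positivity
  obtain ⟨η', hη', h1⟩ := unif P N ν b dρ ρ0 hρ (η / (2 * (g + 1))) (by positivity)
  refine ⟨η', hη', fun p hp p' z hp' hz hlog hG => ?_⟩
  have h2 := h1 p hp p' 0 hp' (fun j => by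
    rw [Pi.zero_apply, abs_zero]
    exact hη'.le)
  have h3 := h1 p hp p (fun j => Real.log ‖z j‖ - lgs (dρ j) (vN N p)) (fun i => by
    rw [sub_self, norm_zero]
    exact hη'.le) hlog
  have h4 : dist (cmp N ν b dρ (p', 0))
      (cmp N ν b dρ (p, fun j => Real.log ‖z j‖ - lgs (dρ j) (vN N p))) ≤ η / (g + 1) := by
    have h5 := dist_triangle_left (cmp N ν b dρ (p', 0))
      (cmp N ν b dρ (p, fun j => Real.log ‖z j‖ - lgs (dρ j) (vN N p))) (cmp N ν b dρ (p, 0))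
    have h6 : η / (g + 1) = η / (2 * (g + 1)) + η / (2 * (g + 1)) := by
      field_simp
      norm_num
    linarith
  have hη0 : 0 ≤ η / (g + 1) := by positivity
  have hηg : η / (g + 1) ≤ η := by
    rw [div_le_iff₀ hg]
    nlinarith [(Nat.cast_nonneg g : (0 : ℝ) ≤ g)]
  have hexp : ∀ j, Real.exp (Real.log ‖z j‖) = ‖z j‖ := fun j =>
    Real.exp_log (norm_pos_iff.mpr (hz j))
  rw [Prod.dist_eq, max_le_iff] at h4
  obtain ⟨h5, h6⟩ := h4
  have h5' := (dist_pi_le_iff hη0).mp h5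
  have h6' := (dist_pi_le_iff hη0).mp h6
  simp only [cmp, Pi.zero_apply, add_zero, add_sub_cancel, hexp, dist_eq_norm] at h5' h6'
  have hzc : ∀ j, ((‖z j‖ : ℝ) : ℂ) ≠ 0 := fun j =>
    Complex.ofReal_ne_zero.mpr (norm_ne_zero_iff.mpr (hz j))
  have hz1 : ∀ j, ‖z j / (‖z j‖ : ℂ)‖ = 1 := by
    intro j
    rw [norm_div, Complex.norm_real, norm_norm, div_self (norm_ne_zero_iff.mpr (hz j))]
  refine ⟨fun j => ?_, ?_⟩
  · have h9 : z j - ((Real.exp (lgs (dρ j) (vN N p')) : ℝ) : ℂ) * (z j / (‖z j‖ : ℂ)) =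
        ((‖z j‖ - Real.exp (lgs (dρ j) (vN N p')) : ℝ) : ℂ) * (z j / (‖z j‖ : ℂ)) := by
      push_cast
      rw [sub_mul, mul_div_cancel₀ _ (hzc j)]
    rw [h9, norm_mul, hz1, mul_one, Complex.norm_real, norm_sub_rev]
    exact (h5' j).trans hηg
  · have h10 : ∑ k, (mon (vN N p') (ν k) *
        ∏ j, ((Real.exp (lgs (dρ j) (vN N p')) : ℝ) : ℂ) ^ b k j) *
        ∏ j, (z j / (‖z j‖ : ℂ)) ^ b k j =
        ∑ k, (mon (vN N p') (ν k) *
          ∏ j, ((Real.exp (lgs (dρ j) (vN N p')) : ℝ) : ℂ) ^ b k j -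
          mon (vN N p) (ν k) * ∏ j, ((‖z j‖ : ℝ) : ℂ) ^ b k j) *
          ∏ j, (z j / (‖z j‖ : ℂ)) ^ b k j := by
      have h11 : ∑ k, (mon (vN N p) (ν k) * ∏ j, ((‖z j‖ : ℝ) : ℂ) ^ b k j) *
          ∏ j, (z j / (‖z j‖ : ℂ)) ^ b k j = 0 := by
        rw [← hG, GG]
        refine Finset.sum_congr rfl fun k _ => ?_
        rw [mul_assoc, ← Finset.prod_mul_distrib]
        congr 1
        refine Finset.prod_congr rfl fun j _ => ?_
        rw [← mul_pow, mul_div_cancel₀ _ (hzc j)]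
      simp only [sub_mul, Finset.sum_sub_distrib, h11, sub_zero]
    rw [h10]
    refine (norm_sum_le _ _).trans ?_
    refine (Finset.sum_le_sum (g := fun _ => η / (g + 1)) fun k _ => ?_).trans ?_
    · have h12 : ‖∏ j, (z j / (‖z j‖ : ℂ)) ^ b k j‖ = 1 := by
        rw [norm_prod]
        exact Finset.prod_eq_one fun j _ => by rw [norm_pow, hz1, one_pow]
      rw [norm_mul, h12, mul_one]
      exact h6' k
    · rw [Finset.sum_const, Finset.card_univ, Fintype.card_fin, nsmul_eq_mul, ← mul_div_assoc,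
        div_le_iff₀ hg]
      nlinarith

/-! ### away from the zeros -/

theorem away {τ δ : ℂ → ℂ} (hτ : DifferentiableOn ℂ τ (Metric.ball 0 3))
    (hδ : DifferentiableOn ℂ δ (Metric.ball 0 3)) (Z : Finset ℂ) (hZ0 : (0 : ℂ) ∈ Z)
    (hZ : ∀ y : ℝ, |y| ≤ 1 → δ y = 0 → τ y ∈ Z) (r : ℝ) (hr : 0 < r) :
    ∃ c0 : ℝ, 0 < c0 ∧ ∀ y : ℝ, |y| ≤ 1 → ‖δ y‖ < c0 → ∃ z ∈ Z, ‖τ y - z‖ < r := by
  have hsub : ∀ y ∈ Set.Icc (-1 : ℝ) 1, (y : ℂ) ∈ Metric.ball (0 : ℂ) 3 := by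
    intro y hy
    rw [mem_ball_zero_iff, Complex.norm_real, Real.norm_eq_abs]
    exact (abs_le.mpr hy).trans_lt (by norm_num)
  have hτc : ContinuousOn (fun y : ℝ => τ y) (Set.Icc (-1) 1) :=
    hτ.continuousOn.comp Complex.continuous_ofReal.continuousOn hsub
  have hδc : ContinuousOn (fun y : ℝ => δ y) (Set.Icc (-1) 1) :=
    hδ.continuousOn.comp Complex.continuous_ofReal.continuousOn hsub
  have hw : ContinuousOn (fun y : ℝ => max ‖δ y‖ (r - Metric.infDist (τ y) (Z : Set ℂ)))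
      (Set.Icc (-1) 1) :=
    ContinuousOn.sup hδc.norm (continuousOn_const.sub
      ((Metric.continuous_infDist_pt (Z : Set ℂ)).comp_continuousOn hτc))
  obtain ⟨y0, hy0, hmin⟩ := isCompact_Icc.exists_isMinOn
    (Set.nonempty_Icc.mpr (by norm_num : (-1 : ℝ) ≤ 1)) hw
  have hpos : ∀ y ∈ Set.Icc (-1 : ℝ) 1,
      0 < max ‖δ y‖ (r - Metric.infDist (τ y) (Z : Set ℂ)) := by
    intro y hy
    by_cases h : δ y = 0
    · have h1 : τ y ∈ (Z : Set ℂ) := hZ y (abs_le.mpr hy) h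
      rw [Metric.infDist_zero_of_mem h1, sub_zero]
      exact lt_max_of_lt_right hr
    · exact lt_max_of_lt_left (norm_pos_iff.mpr h)
  refine ⟨_, hpos y0 hy0, fun y hy hlt => ?_⟩
  have h1 := isMinOn_iff.mp hmin y (abs_le.mp hy)
  have h2 : r - Metric.infDist (τ y) (Z : Set ℂ) > 0 := by
    rcases le_max_iff.mp h1 with h | h
    · exact absurd hlt (not_lt.mpr h)
    · exact (hpos y0 hy0).trans_le h
  obtain ⟨z, hz, hz2⟩ := (Metric.infDist_lt_iff ⟨0, hZ0⟩).mp (sub_pos.mp h2)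
  exact ⟨z, hz, by rwa [dist_eq_norm] at hz2⟩

theorem exists_pos_le {q : ℕ} (c : Fin q → ℝ) (hc : ∀ l, 0 < c l) :
    ∃ c0 : ℝ, 0 < c0 ∧ ∀ l, c0 ≤ c l := by
  by_cases hq : Nonempty (Fin q)
  · obtain ⟨l0, hl0⟩ := Finite.exists_min c
    exact ⟨c l0, hc l0, hl0⟩
  · exact ⟨1, one_pos, fun l => absurd ⟨l⟩ hq⟩

theorem aeval_X_ne_zero {e : ℕ} (f : Polynomial ℤ) (hf : f ≠ 0) :
    Polynomial.aeval (MvPolynomial.X 0 : MvPolynomial (Fin (e + 1)) ℤ) f ≠ 0 := by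
  intro h
  exact hf ((transcendental_iff.mp (MvPolynomial.transcendental_X ℤ (0 : Fin (e + 1)))) f h)

/-- `t0` for a finite set -/
theorem t0' (Z : Finset ℂ) (B θ : ℝ) (hθ : 0 < θ) :
    ∃ δ : ℝ, 0 < δ ∧ ∃ f : Polynomial ℤ, f ≠ 0 ∧
      ∀ (K : Type) [Field K] (R : Subring K) (P : Places K R) (t : K), t ∈ R →
        P.avg (fun w => max 0 (P.lg w t)) ≤ B →
        (∃ S : Finset (Fin P.D), θ * P.D ≤ S.card ∧ ∀ i ∈ S, ∃ z ∈ Z, ‖P.σ i t - z‖ ≤ δ) →
        Polynomial.aeval t f = 0 := by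
  obtain ⟨δ, hδ, f, hf, h⟩ := t0 (fun l => ((Z.equivFin.symm l : Z) : ℂ)) B θ hθ
  refine ⟨δ, hδ, f, hf, fun K _ R P t ht hB ⟨S, hS, hi⟩ => h K R P t ht hB ⟨S, hS, ?_⟩⟩
  intro i hiS
  obtain ⟨z, hz, hz2⟩ := hi i hiS
  refine ⟨Z.equivFin ⟨z, hz⟩, ?_⟩
  rw [Equiv.symm_apply_apply]
  exact hz2

end TF

theorem t1_fixedH {M e g : ℕ} (he : 1 ≤ e) (P : P2 ℂ) (hP : Irreducible P)
    (h1 : P.degreeOf 1 ≠ 0) (N : Fin M → P2 ℂ) (hN : ∀ i, ¬ P ∣ N i) (i0 : Fin M)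
    (hi0 : N i0 = MvPolynomial.pderiv 1 P) (ν : Fin g → Fin M → ℤ)
    (b : Fin g → Fin (e + 1) → ℕ) (hb : Function.Injective b) (hg : 0 < g)
    (hG : GeomIrr P N ν b) (d : Fin M → ℝ) (dρ : Fin (e + 1) → Fin M → ℝ)
    (hd : ¬ P ∣ Om P N d) (hsym : SymOK P N ν b d dρ) (ρ0 B θ : ℝ) (hρ : 0 < ρ0)
    (hθ : 0 < θ) :
    ∃ ε : ℝ, 0 < ε ∧ ∃ Q : MvPolynomial (Fin (e + 1)) ℤ, Q ≠ 0 ∧
      ∀ (K : Type) [Field K] (R : Subring K) (W : Places K R) (t : K) (z : Fin (e + 1) → K),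
        t ∈ R → (∀ j, z j ∈ R) → (∀ j, z j ≠ 0) →
        W.avg (fun v => max 0 (W.lg v t) + ∑ j, max 0 (W.lg v (z j))) ≤ B →
        (∃ S : Finset (Fin W.D), θ * W.D ≤ S.card ∧ ∀ i ∈ S, ∃ p ∈ KC P N ρ0,
          p 0 = W.σ i t ∧ |lgs d (vN N p)| ≤ ε ∧
          (∀ j, |Real.log ‖W.σ i (z j)‖ - lgs (dρ j) (vN N p)| ≤ ε) ∧
          GG (vN N p) ν b (fun j => W.σ i (z j)) = 0) →
        MvPolynomial.aeval (tz t z) Q = 0 := by
  classical
  have hθ3 : 0 < θ / 3 := by positivity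
  -- the bad points of the base curve
  obtain ⟨Z, hZcov⟩ := coverC P hP h1 N i0 hi0 d hd
  obtain ⟨δ0, hδ0, f0, hf0, ht0⟩ := TF.t0' Z B (θ / 3) hθ3
  obtain ⟨q, τ, σ, G, hτ, hσ, hGd, hval, hinj, hreal, hcov⟩ := hZcov ρ0 δ0 hρ hδ0
  have hz : ∀ l, ∀ s ∈ Metric.ball (0 : ℂ) 3, MvPolynomial.eval ![τ l s, σ l s] P = 0 :=
    fun l s hs => (hval l s hs).1
  have hne : ∀ l, ∀ s ∈ Metric.ball (0 : ℂ) 3, ∀ i, vN N ![τ l s, σ l s] i ≠ 0 :=
    fun l s hs => (hval l s hs).2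
  -- the auxiliary functions
  obtain ⟨δ, hδd, hδne, ht1⟩ := t1H he b (fun j => Finset.univ.sup fun k => b k j)
    (fun k j => Finset.le_sup (f := fun k => b k j) (Finset.mem_univ k)) τ
    (fun l j => TF.rh (G l) (dρ j))
    (fun l k => TF.af N (τ l) (σ l) (G l) dρ (ν k) (b k)) hτ
    (fun l j => TF.diff_rh (hGd l) (dρ j))
    (fun l k => TF.diff_af (hτ l) (hσ l) (hGd l) (hne l) dρ (ν k) (b k))
    (fun l => TF.irr_af hP h1 (hτ l) (hσ l) (hGd l) (hz l) (hne l) (hinj l) dρ ν b hG)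
    (fun l => TF.not_dvd_af (hτ l) (hσ l) (hGd l) (hz l) (hne l) (hinj l) d dρ ν b hb hg hsym
      (hreal l))
  -- zeros of `δ`
  have hfin : ∀ l, {s : ℂ | s ∈ Metric.closedBall (0 : ℂ) 2 ∧ δ l s = 0}.Finite := fun l =>
    zeros_finite (hδd l) (hδne l)
  let Z2 : Finset ℂ := insert 0 (Finset.univ.biUnion fun l => (hfin l).toFinset.image (τ l))
  obtain ⟨δ1, hδ1, f1, hf1, ht2⟩ := TF.t0' Z2 B (θ / 3) hθ3
  have haway : ∀ l, ∃ c0 : ℝ, 0 < c0 ∧ ∀ y : ℝ, |y| ≤ 1 → ‖δ l y‖ < c0 →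
      ∃ z ∈ Z2, ‖τ l y - z‖ < δ1 / 2 := by
    intro l
    refine TF.away (hτ l) (hδd l) Z2 (Finset.mem_insert_self _ _) (fun y hy h => ?_) (δ1 / 2)
      (by positivity)
    refine Finset.mem_insert_of_mem (Finset.mem_biUnion.mpr ⟨l, Finset.mem_univ l,
      Finset.mem_image.mpr ⟨y, ?_, rfl⟩⟩)
    rw [Set.Finite.mem_toFinset]
    refine ⟨?_, h⟩
    rw [mem_closedBall_zero_iff, Complex.norm_real, Real.norm_eq_abs]
    linarith
  choose c hc0 hc using haway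
  obtain ⟨c0, hc00, hc0l⟩ := TF.exists_pos_le c hc0
  obtain ⟨η, hη, Q1, hQ1, ht3⟩ := ht1 c0 B (θ / 3) hc00 hθ3
  obtain ⟨η1, hη1, herr⟩ := TF.errors P N ν b dρ ρ0 hρ η hη
  obtain ⟨ε1, hε1, hcov1⟩ := hcov (min η1 (min η (δ1 / 2))) (by positivity)
  refine ⟨min ε1 η1, by positivity,
    Polynomial.aeval (MvPolynomial.X 0 : MvPolynomial (Fin (e + 1)) ℤ) f0 *
      (Polynomial.aeval (MvPolynomial.X 0 : MvPolynomial (Fin (e + 1)) ℤ) f1 * Q1),
    mul_ne_zero (TF.aeval_X_ne_zero f0 hf0) (mul_ne_zero (TF.aeval_X_ne_zero f1 hf1) hQ1), ?_⟩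
  rintro K _ R W t z ht hzR hz0 hB ⟨S, hS, hs⟩
  have htz : tz t z 0 = t := rfl
  rw [map_mul, map_mul, ← Polynomial.aeval_algHom_apply, ← Polynomial.aeval_algHom_apply,
    MvPolynomial.aeval_X, htz]
  have hBt : W.avg (fun w => max 0 (W.lg w t)) ≤ B := by
    refine (W.avg_mono fun w => ?_).trans hB
    have h4 : 0 ≤ ∑ k, max 0 (W.lg w (z k)) := Finset.sum_nonneg fun k _ => le_max_left _ _
    linarith
  set S1 := S.filter (fun i => ∃ z' ∈ Z, ‖W.σ i t - z'‖ ≤ δ0) with hS1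
  set T := S.filter (fun i => ¬ ∃ z' ∈ Z, ‖W.σ i t - z'‖ ≤ δ0) with hT
  set S2 := T.filter (fun i => ∃ z' ∈ Z2, ‖W.σ i t - z'‖ ≤ δ1) with hS2
  set S3 := T.filter (fun i => ¬ ∃ z' ∈ Z2, ‖W.σ i t - z'‖ ≤ δ1) with hS3
  have hcard1 : (S1.card : ℝ) + T.card = S.card := by
    rw [hS1, hT]
    exact_mod_cast Finset.card_filter_add_card_filter_not _
  have hcard2 : (S2.card : ℝ) + S3.card = T.card := by
    rw [hS2, hS3]
    exact_mod_cast Finset.card_filter_add_card_filter_not _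
  by_cases hc1 : θ / 3 * W.D ≤ S1.card
  · rw [ht0 K R W t ht hBt ⟨S1, hc1, fun i hi => (Finset.mem_filter.mp hi).2⟩, zero_mul]
  by_cases hc2 : θ / 3 * W.D ≤ S2.card
  · rw [ht2 K R W t ht hBt ⟨S2, hc2, fun i hi => (Finset.mem_filter.mp hi).2⟩, zero_mul,
      mul_zero]
  have hc3 : θ / 3 * W.D ≤ S3.card := by
    push Not at hc1 hc2
    linarith
  have h0 : MvPolynomial.aeval (tz t z) Q1 = 0 := by
    refine ht3 K R W t z ht hzR hB ⟨S3, hc3, fun i hi => ?_⟩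
    obtain ⟨hiT, hi3⟩ := Finset.mem_filter.mp hi
    obtain ⟨hiS, hi1⟩ := Finset.mem_filter.mp hiT
    obtain ⟨p, hpK, hp0, hpd, hplog, hpG⟩ := hs i hiS
    rcases hcov1 p hpK (hpd.trans (min_le_left _ _)) with ⟨z', hz', hz2⟩ | ⟨l, y, hy, h2, h3⟩
    · exact absurd ⟨z', hz', by rw [← hp0]; exact hz2.le⟩ hi1
    have hy3 : |y| < 3 := lt_of_le_of_lt hy (by norm_num)
    have hzi : ∀ j, W.σ i (z j) ≠ 0 := fun j => by simpa using hz0 j
    obtain ⟨h4, h5⟩ := herr p hpK ![τ l y, σ l y] (fun j => W.σ i (z j)) (fun j => by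
      fin_cases j
      · exact h2.trans (min_le_left _ _)
      · exact h3.trans (min_le_left _ _)) hzi
      (fun j => (hplog j).trans (min_le_right _ _)) hpG
    have hrh : ∀ j, TF.rh (G l) (dρ j) y =
        ((Real.exp (lgs (dρ j) (vN N ![τ l y, σ l y])) : ℝ) : ℂ) := fun j =>
      TF.rh_real (hreal l y hy3).1 (dρ j)
    refine ⟨l, y, fun j => W.σ i (z j) / (‖W.σ i (z j)‖ : ℂ), hy, fun j => ?_, ?_, ?_,
      fun j => ?_, ?_⟩
    · rw [norm_div, Complex.norm_real, norm_norm, div_self (norm_ne_zero_iff.mpr (hzi j))]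
    · by_contra hlt
      push Not at hlt
      obtain ⟨z', hz', hz2⟩ := hc l y hy (hlt.trans_le (hc0l l))
      refine hi3 ⟨z', hz', ?_⟩
      have h6 : ‖W.σ i t - τ l y‖ ≤ δ1 / 2 := by
        rw [← hp0]
        exact h2.trans ((min_le_right _ _).trans (min_le_right _ _))
      have h7 : ‖W.σ i t - z'‖ ≤ ‖W.σ i t - τ l y‖ + ‖τ l y - z'‖ := by
        have := norm_add_le (W.σ i t - τ l y) (τ l y - z')
        rwa [sub_add_sub_cancel] at this
      linarith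
    · rw [← hp0]
      exact h2.trans ((min_le_right _ _).trans (min_le_left _ _))
    · rw [hrh]
      exact h4 j
    · simp only [TF.af, hrh]
      exact h5
  rw [h0, mul_zero, mul_zero]

end Pool.Agent.HF
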