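import Mathlib
import Pool.Agent.Lib.MP_c95b3b_ag_HF.Defs
import Pool.Agent.Lib.MP_c95b3b_ag_HF.T1FixedH

/-! Project HF (MP_c95b3b_ag), module TU: compact families. -/

namespace Pool.Agent.HF

open Pool.Agent.L3 Pool.Agent.RS Module

namespace TU

theorem exists_log_bound {M : ℕ} (P : P2 ℂ) (N : Fin M → P2 ℂ) {ρ0 : ℝ} (hρ : 0 < ρ0) :
    ∃ C : ℝ, 0 ≤ C ∧ ∀ p ∈ KC P N ρ0, ∀ i, |Real.log ‖vN N p i‖| ≤ C := by
  have h1 : ∀ i : Fin M, ∃ C : ℝ, ∀ p ∈ Metric.closedBall (0 : Fin 2 → ℂ) ρ0,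
      ‖vN N p i‖ ≤ C := by
    intro i
    refine (isCompact_closedBall _ _).exists_bound_of_continuousOn ?_
    exact (MvPolynomial.continuous_eval (N i)).continuousOn
  choose A hA using h1
  refine ⟨|Real.log ρ0| + ∑ i, |Real.log (|A i| + 1)|,
    add_nonneg (abs_nonneg _) (Finset.sum_nonneg fun i _ => abs_nonneg _), ?_⟩
  intro p hp i
  have hp1 : p ∈ Metric.closedBall (0 : Fin 2 → ℂ) ρ0 := by
    rw [mem_closedBall_zero_iff]
    exact (pi_norm_le_iff_of_nonneg hρ.le).mpr hp.2.1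
  have hpos : 0 < ρ0⁻¹ := inv_pos.mpr hρ
  have h3 : ρ0⁻¹ ≤ ‖vN N p i‖ := hp.2.2 i
  have h4 : ‖vN N p i‖ ≤ |A i| + 1 := by
    have := hA i p hp1
    have := le_abs_self (A i)
    linarith
  have h5 : Real.log ρ0⁻¹ ≤ Real.log ‖vN N p i‖ := Real.log_le_log hpos h3
  have h6 : Real.log ‖vN N p i‖ ≤ Real.log (|A i| + 1) :=
    Real.log_le_log (lt_of_lt_of_le hpos h3) h4
  have h7 : |Real.log (|A i| + 1)| ≤ ∑ i, |Real.log (|A i| + 1)| :=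
    Finset.single_le_sum (f := fun i => |Real.log (|A i| + 1)|) (fun i _ => abs_nonneg _)
      (Finset.mem_univ i)
  rw [Real.log_inv] at h5
  rw [abs_le]
  constructor
  · have := le_abs_self (Real.log ρ0)
    have := abs_nonneg (Real.log (|A i| + 1))
    linarith
  · have := le_abs_self (Real.log (|A i| + 1))
    have := abs_nonneg (Real.log ρ0)
    linarith

theorem lgs_sub_le {M : ℕ} {v : Fin M → ℂ} {C : ℝ} (hC : 0 ≤ C)
    (hv : ∀ i, |Real.log ‖v i‖| ≤ C) (d d0 : Fin M → ℝ) {r : ℝ} (hr : ‖d - d0‖ ≤ r) :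
    |lgs d v - lgs d0 v| ≤ (M * C + 1) * r := by
  have hr0 : 0 ≤ r := (norm_nonneg _).trans hr
  have h1 : lgs d v - lgs d0 v = ∑ i, (d i - d0 i) * Real.log ‖v i‖ := by
    simp only [lgs, sub_mul, Finset.sum_sub_distrib]
  have h7 : ∀ i, |d i - d0 i| ≤ r := by
    intro i
    have h8 : ‖(d - d0) i‖ ≤ ‖d - d0‖ := norm_le_pi_norm _ i
    rw [Real.norm_eq_abs] at h8
    exact h8.trans hr
  rw [h1]
  calc |∑ i, (d i - d0 i) * Real.log ‖v i‖|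
      ≤ ∑ i, |(d i - d0 i) * Real.log ‖v i‖| := Finset.abs_sum_le_sum_abs _ _
    _ ≤ ∑ _i : Fin M, C * r := by
        refine Finset.sum_le_sum fun i _ => ?_
        rw [abs_mul, mul_comm]
        exact mul_le_mul (hv i) (h7 i) (abs_nonneg _) hC
    _ = M * C * r := by
        rw [Finset.sum_const, Finset.card_univ, Fintype.card_fin, nsmul_eq_mul, mul_assoc]
    _ ≤ (M * C + 1) * r := by
        rw [add_mul, one_mul]
        linarith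

end TU

theorem t1_unifH {M e g : ℕ} (he : 1 ≤ e) (P : P2 ℂ) (hP : Irreducible P)
    (h1 : P.degreeOf 1 ≠ 0) (N : Fin M → P2 ℂ) (hN : ∀ i, ¬ P ∣ N i) (i0 : Fin M)
    (hi0 : N i0 = MvPolynomial.pderiv 1 P) (ν : Fin g → Fin M → ℤ)
    (b : Fin g → Fin (e + 1) → ℕ) (hb : Function.Injective b) (hg : 0 < g)
    (hG : GeomIrr P N ν b) (D : Set ((Fin M → ℝ) × (Fin (e + 1) → Fin M → ℝ)))
    (hD : IsCompact D) (hD0 : ∀ d ∈ D, ¬ P ∣ Om P N d.1)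
    (hsym : ∀ d ∈ D, SymOK P N ν b d.1 d.2) (ρ0 B θ : ℝ) (hρ : 0 < ρ0) (hθ : 0 < θ) :
    ∃ Q : MvPolynomial (Fin (e + 1)) ℤ, Q ≠ 0 ∧
      ∀ (K : Type) [Field K] (R : Subring K) (W : Places K R) (t : K) (z : Fin (e + 1) → K),
        t ∈ R → (∀ j, z j ∈ R) → (∀ j, z j ≠ 0) →
        W.avg (fun v => max 0 (W.lg v t) + ∑ j, max 0 (W.lg v (z j))) ≤ B →
        ∀ d ∈ D, (∃ S : Finset (Fin W.D), θ * W.D ≤ S.card ∧ ∀ i ∈ S, ∃ p ∈ KC P N ρ0,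
          p 0 = W.σ i t ∧ lgs d.1 (vN N p) = 0 ∧
          (∀ j, Real.log ‖W.σ i (z j)‖ = lgs (d.2 j) (vN N p)) ∧
          GG (vN N p) ν b (fun j => W.σ i (z j)) = 0) →
        MvPolynomial.aeval (tz t z) Q = 0 := by
  obtain ⟨C, hC0, hC⟩ := TU.exists_log_bound P N hρ
  refine hD.induction_on (p := fun D' => ∃ Q : MvPolynomial (Fin (e + 1)) ℤ, Q ≠ 0 ∧
      ∀ (K : Type) [Field K] (R : Subring K) (W : Places K R) (t : K) (z : Fin (e + 1) → K),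
        t ∈ R → (∀ j, z j ∈ R) → (∀ j, z j ≠ 0) →
        W.avg (fun v => max 0 (W.lg v t) + ∑ j, max 0 (W.lg v (z j))) ≤ B →
        ∀ d ∈ D', (∃ S : Finset (Fin W.D), θ * W.D ≤ S.card ∧ ∀ i ∈ S, ∃ p ∈ KC P N ρ0,
          p 0 = W.σ i t ∧ lgs d.1 (vN N p) = 0 ∧
          (∀ j, Real.log ‖W.σ i (z j)‖ = lgs (d.2 j) (vN N p)) ∧
          GG (vN N p) ν b (fun j => W.σ i (z j)) = 0) →
        MvPolynomial.aeval (tz t z) Q = 0) ?_ ?_ ?_ ?_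
  · exact ⟨1, one_ne_zero, fun K _ R W t z _ _ _ _ d hd => absurd hd (by simp)⟩
  · rintro s u hsu ⟨Q, hQ, h⟩
    exact ⟨Q, hQ, fun K _ R W t z k1 k2 k3 k4 d hd => h K R W t z k1 k2 k3 k4 d (hsu hd)⟩
  · rintro s u ⟨Q, hQ, h⟩ ⟨Q', hQ', h'⟩
    refine ⟨Q * Q', mul_ne_zero hQ hQ', fun K _ R W t z k1 k2 k3 k4 d hd hS => ?_⟩
    rw [map_mul]
    rcases hd with hd | hd
    · rw [h K R W t z k1 k2 k3 k4 d hd hS, zero_mul]
    · rw [h' K R W t z k1 k2 k3 k4 d hd hS, mul_zero]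
  · intro d0 hd0
    obtain ⟨ε, hε, Q, hQ, h⟩ := t1_fixedH he P hP h1 N hN i0 hi0 ν b hb hg hG d0.1 d0.2
      (hD0 d0 hd0) (hsym d0 hd0) ρ0 B θ hρ hθ
    have hA : 0 < (M : ℝ) * C + 1 := by positivity
    refine ⟨Metric.ball d0 (ε / (M * C + 1)), mem_nhdsWithin_of_mem_nhds
      (Metric.ball_mem_nhds _ (div_pos hε hA)), Q, hQ, ?_⟩
    intro K _ R W t z k1 k2 k3 k4 d hd hS
    obtain ⟨S, hS1, hS2⟩ := hS
    refine h K R W t z k1 k2 k3 k4 ⟨S, hS1, fun i hi => ?_⟩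
    obtain ⟨p, hp, g1, g2, g3, g4⟩ := hS2 i hi
    have hn : ‖d - d0‖ ≤ ε / (M * C + 1) := by
      rw [← dist_eq_norm]
      exact (Metric.mem_ball.mp hd).le
    have key : ∀ x x0 : Fin M → ℝ, ‖x - x0‖ ≤ ‖d - d0‖ →
        |lgs x (vN N p) - lgs x0 (vN N p)| ≤ ε := by
      intro x x0 hx
      refine (TU.lgs_sub_le hC0 (hC p hp) x x0 (hx.trans hn)).trans (le_of_eq ?_)
      field_simp
    refine ⟨p, hp, g1, ?_, ?_, g4⟩
    · have := key d.1 d0.1 (norm_fst_le (d - d0))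
      rw [g2, zero_sub, abs_neg] at this
      exact this
    · intro j
      rw [g3 j]
      refine key _ _ ?_
      have k5 : ‖(d - d0).2 j‖ ≤ ‖(d - d0).2‖ := norm_le_pi_norm _ j
      exact k5.trans (norm_snd_le (d - d0))

end Pool.Agent.HF
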