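import Mathlib
import Pool.Agent.Lib.MP_c95b3b_ag_HF.Defs
import Pool.Agent.Lib.MP_c95b3b_ag_HF.T0UnifC
import Pool.Agent.Lib.MP_c95b3b_ag_HF.T1UnifH
import Pool.Agent.Lib.MP_c95b3b_ag_HF.OmNe
import Pool.Agent.Lib.MP_c95b3b_ag_RS.MainA

/-! Project HF (MP_c95b3b_ag), module MN, first part: preparations. -/

namespace Pool.Agent.HF

open Pool.Agent.L3 Pool.Agent.RS Module

namespace MNH

theorem continuous_nvec {m M : ℕ} (n : Fin m → Fin M → ℤ) :
    Continuous (fun r : EuclideanSpace ℝ (Fin m) => nvec n r) := by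
  unfold nvec
  refine continuous_pi fun i => ?_
  fun_prop

theorem ne_zero_of_mem_KC {M : ℕ} {P : P2 ℂ} {N : Fin M → P2 ℂ} {ρ : ℝ} (hρ : 0 < ρ)
    {p : Fin 2 → ℂ} (hp : p ∈ KC P N ρ) (i : Fin M) : vN N p i ≠ 0 := by
  have h1 : 0 < ρ⁻¹ := inv_pos.mpr hρ
  exact norm_pos_iff.mp (lt_of_lt_of_le h1 (hp.2.2 i))

theorem lin_indep_pair {m : ℕ} {r s : EuclideanSpace ℝ (Fin m)} (hr : ‖r‖ = 1) (hs : ‖s‖ = 1)
    (hrs : inner ℝ r s = 0) : LinearIndependent ℝ ![(r : Fin m → ℝ), (s : Fin m → ℝ)] := by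
  rw [LinearIndependent.pair_iff]
  intro x y hxy
  have h1 : x • r + y • s = 0 := by
    ext j
    have := congrFun hxy j
    simpa using this
  have h2 : inner ℝ r (x • r + y • s) = x := by
    rw [inner_add_right, inner_smul_right, inner_smul_right, hrs, real_inner_self_eq_norm_sq, hr]
    ring
  have h3 : inner ℝ s (x • r + y • s) = y := by
    rw [inner_add_right, inner_smul_right, inner_smul_right, real_inner_comm, hrs,
      real_inner_self_eq_norm_sq, hs]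
    ring
  rw [h1, inner_zero_right] at h2 h3
  exact ⟨h2.symm, h3.symm⟩

theorem coe_ne_zero {m : ℕ} {r : EuclideanSpace ℝ (Fin m)} (hr : ‖r‖ = 1) :
    (r : Fin m → ℝ) ≠ 0 := by
  intro h0
  have h1 : r = 0 := by
    ext j
    simpa using congrFun h0 j
  rw [h1, norm_zero] at hr
  exact zero_ne_one hr

theorem t0_pairsC {m M : ℕ} (P : P2 ℂ) (N : Fin M → P2 ℂ) (n : Fin m → Fin M → ℤ)
    (hNC : ∀ r s : Fin m → ℝ, LinearIndependent ℝ ![r, s] → ∀ ρ : ℝ, 0 < ρ →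
      {p : Fin 2 → ℂ | p ∈ KC P N ρ ∧ lgs (nvec n r) (vN N p) = 0 ∧
        lgs (nvec n s) (vN N p) = 0}.Finite)
    (ρ B θ : ℝ) (hρ : 0 < ρ) (hθ : 0 < θ) :
    ∃ ε : ℝ, 0 < ε ∧ ∃ f : Polynomial ℤ, f ≠ 0 ∧
      ∀ (K : Type) [Field K] (R : Subring K) (W : Places K R) (t : K), t ∈ R →
        W.avg (fun v => max 0 (W.lg v t)) ≤ B →
        ∀ r s : EuclideanSpace ℝ (Fin m), ‖r‖ = 1 → ‖s‖ = 1 → inner ℝ r s = 0 →
        (∃ S : Finset (Fin W.D), θ * W.D ≤ S.card ∧ ∀ i ∈ S, ∃ p ∈ KC P N ρ,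
          p 0 = W.σ i t ∧ |lgs (nvec n r) (vN N p)| ≤ ε ∧ |lgs (nvec n s) (vN N p)| ≤ ε) →
        Polynomial.aeval t f = 0 := by
  let T : Set (EuclideanSpace ℝ (Fin m) × EuclideanSpace ℝ (Fin m)) :=
    {x | ‖x.1‖ = 1 ∧ ‖x.2‖ = 1 ∧ inner ℝ x.1 x.2 = 0}
  have hT : IsCompact T := by
    refine Metric.isCompact_of_isClosed_isBounded ?_ ?_
    · refine IsClosed.inter ?_ (IsClosed.inter ?_ ?_)
      · exact isClosed_eq (by fun_prop) continuous_const
      · exact isClosed_eq (by fun_prop) continuous_const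
      · exact isClosed_eq (by fun_prop) continuous_const
    · refine (Metric.isBounded_closedBall (x := (0 : EuclideanSpace ℝ (Fin m) ×
        EuclideanSpace ℝ (Fin m))) (r := 1)).subset fun x hx => ?_
      rw [mem_closedBall_zero_iff, Prod.norm_def]
      exact max_le hx.1.le hx.2.1.le
  let D : Set ((Fin M → ℝ) × (Fin M → ℝ)) :=
    (fun x : EuclideanSpace ℝ (Fin m) × EuclideanSpace ℝ (Fin m) =>
      (nvec n x.1, nvec n x.2)) '' T
  have hD : IsCompact D := by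
    refine hT.image ?_
    exact ((continuous_nvec n).comp continuous_fst).prodMk
      ((continuous_nvec n).comp continuous_snd)
  have hfin : ∀ d ∈ D, {p : Fin 2 → ℂ | p ∈ KC P N ρ ∧ lgs d.1 (vN N p) = 0 ∧
      lgs d.2 (vN N p) = 0}.Finite := by
    rintro d ⟨⟨r, s⟩, ⟨hr, hs, hrs⟩, rfl⟩
    simp only at hr hs hrs
    exact hNC r s (lin_indep_pair hr hs hrs) ρ hρ
  obtain ⟨ε, hε, f, hf, H⟩ := t0_unifC P N D hD ρ B θ hρ hθ hfin
  refine ⟨ε, hε, f, hf, fun K _ R W t ht hB r s hr hs hrs hS => ?_⟩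
  exact H K R W t ht hB (nvec n r, nvec n s) ⟨(r, s), ⟨hr, hs, hrs⟩, rfl⟩ hS

theorem t1_tuplesH {m M e g : ℕ} (he : 1 ≤ e) (P : P2 ℂ) (hP : Irreducible P)
    (h1 : P.degreeOf 1 ≠ 0) (N : Fin M → P2 ℂ) (hN : ∀ i, ¬ P ∣ N i) (i0 : Fin M)
    (hi0 : N i0 = MvPolynomial.pderiv 1 P) (n : Fin m → Fin M → ℤ) (ν : Fin g → Fin M → ℤ)
    (b : Fin g → Fin (e + 1) → ℕ) (hb : Function.Injective b) (hg : 0 < g)
    (hG : GeomIrr P N ν b)
    (hind : ∀ a : Fin m → ℤ, (∃ c : ℂ, ∀ p : Fin 2 → ℂ, MvPolynomial.eval p P = 0 →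
      (∀ i, vN N p i ≠ 0) → ∏ j, mon (vN N p) (n j) ^ a j = c) → a = 0)
    (hsym : ∀ r : Fin m → ℝ, ∀ μ : Fin (e + 1) → Fin m → ℝ, r ≠ 0 →
      SymOK P N ν b (nvec n r) (fun j => nvec n (μ j)))
    (Λ ρ0 B θ : ℝ) (hρ : 0 < ρ0) (hθ : 0 < θ) :
    ∃ Q : MvPolynomial (Fin (e + 1)) ℤ, Q ≠ 0 ∧
      ∀ (K : Type) [Field K] (R : Subring K) (W : Places K R) (t : K) (z : Fin (e + 1) → K),
        t ∈ R → (∀ j, z j ∈ R) → (∀ j, z j ≠ 0) →
        W.avg (fun v => max 0 (W.lg v t) + ∑ j, max 0 (W.lg v (z j))) ≤ B →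
        ∀ (r : EuclideanSpace ℝ (Fin m)) (μ : Fin (e + 1) → EuclideanSpace ℝ (Fin m)), ‖r‖ = 1 →
        (∀ j, ‖μ j‖ ≤ Λ) → (∃ S : Finset (Fin W.D), θ * W.D ≤ S.card ∧ ∀ i ∈ S, ∃ p ∈ KC P N ρ0,
          p 0 = W.σ i t ∧ lgs (nvec n r) (vN N p) = 0 ∧
          (∀ j, Real.log ‖W.σ i (z j)‖ = lgs (nvec n (μ j)) (vN N p)) ∧
          GG (vN N p) ν b (fun j => W.σ i (z j)) = 0) →
        MvPolynomial.aeval (tz t z) Q = 0 := by
  let E := EuclideanSpace ℝ (Fin m)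
  let T : Set (E × (Fin (e + 1) → E)) := {x | ‖x.1‖ = 1 ∧ ∀ k, ‖x.2 k‖ ≤ Λ}
  have hT : IsCompact T := by
    refine Metric.isCompact_of_isClosed_isBounded ?_ ?_
    · refine IsClosed.inter ?_ ?_
      · exact isClosed_eq continuous_fst.norm continuous_const
      · have h1 : {x : E × (Fin (e + 1) → E) | ∀ k, ‖x.2 k‖ ≤ Λ} =
            ⋂ k, {x : E × (Fin (e + 1) → E) | ‖x.2 k‖ ≤ Λ} := by
          ext x
          simp
        change IsClosed {x : E × (Fin (e + 1) → E) | ∀ k, ‖x.2 k‖ ≤ Λ}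
        rw [h1]
        exact isClosed_iInter fun k => isClosed_le ((continuous_apply k).comp
          continuous_snd).norm continuous_const
    · refine (Metric.isBounded_closedBall (x := (0 : E × (Fin (e + 1) → E)))
        (r := max 1 Λ)).subset fun x hx => ?_
      rw [mem_closedBall_zero_iff, Prod.norm_def]
      refine max_le (hx.1.le.trans (le_max_left _ _)) ?_
      refine (pi_norm_le_iff_of_nonneg (zero_le_one.trans (le_max_left _ _))).mpr fun k => ?_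
      exact (hx.2 k).trans (le_max_right _ _)
  let f : E × (Fin (e + 1) → E) → (Fin M → ℝ) × (Fin (e + 1) → Fin M → ℝ) :=
    fun x => (nvec n x.1, fun j => nvec n (x.2 j))
  have hf : Continuous f := by
    have h := continuous_nvec n
    refine Continuous.prodMk (h.comp continuous_fst) ?_
    exact continuous_pi fun k => h.comp ((continuous_apply k).comp continuous_snd)
  have hD : IsCompact (f '' T) := hT.image hf
  have hD0 : ∀ d ∈ f '' T, ¬ P ∣ Om P N d.1 := by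
    rintro d ⟨⟨r, μ⟩, ⟨hr, _⟩, rfl⟩
    exact om_ne P hP h1 N hN n hind r (coe_ne_zero hr)
  have hs0 : ∀ d ∈ f '' T, SymOK P N ν b d.1 d.2 := by
    rintro d ⟨⟨r, μ⟩, ⟨hr, _⟩, rfl⟩
    exact hsym r (fun j => μ j) (coe_ne_zero hr)
  obtain ⟨Q, hQ, H⟩ := t1_unifH he P hP h1 N hN i0 hi0 ν b hb hg hG (f '' T) hD hD0 hs0
    ρ0 B θ hρ hθ
  refine ⟨Q, hQ, fun K _ R W t z ht hz hz0 hB r μ hr hμ hS => ?_⟩
  exact H K R W t z ht hz hz0 hB (f (r, μ)) ⟨(r, μ), ⟨hr, hμ⟩, rfl⟩ hS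

theorem span_boundH {m d g : ℕ} (b : Fin g → Fin d → ℕ)
    (hspan : ∀ s : Fin d → ℝ, (∀ k l, ∑ j, s j * ((b k j : ℝ) - b l j) = 0) → s = 0) :
    ∃ C : ℝ, 0 ≤ C ∧ ∀ (T : (Fin d → ℝ) →ₗ[ℝ] EuclideanSpace ℝ (Fin m)) (Λ : ℝ), 0 ≤ Λ →
      (∀ k l, ‖T (fun j => (b k j : ℝ)) - T (fun j => (b l j : ℝ))‖ ≤ Λ) →
      ∀ j, ‖T (Pi.single j 1)‖ ≤ C * Λ := by
  classical
  let D : Fin g × Fin g → (Fin d → ℝ) := fun p => (fun j => (b p.1 j : ℝ)) - fun j => (b p.2 j : ℝ)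
  have htop : Submodule.span ℝ (Set.range D) = ⊤ := by
    by_contra hne
    obtain ⟨f, hf, hle⟩ := Submodule.exists_le_ker_of_lt_top _ (lt_top_iff_ne_top.mpr hne)
    apply hf
    have hD : ∀ p, f (D p) = 0 := fun p => by
      have := hle (Submodule.subset_span ⟨p, rfl⟩)
      simpa using this
    have hfe : ∀ x : Fin d → ℝ, f x = ∑ i, x i * f (Pi.single i 1) := by
      intro x
      conv_lhs => rw [← Finset.univ_sum_single x]
      rw [map_sum]
      refine Finset.sum_congr rfl fun i _ => ?_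
      have : (Pi.single i (x i) : Fin d → ℝ) = x i • Pi.single i 1 := by
        rw [← Pi.single_smul, smul_eq_mul, mul_one]
      rw [this, map_smul, smul_eq_mul]
    have h1 : (fun j : Fin d => f (Pi.single j 1)) = 0 := by
      apply hspan
      intro k l
      have h2 := hD (k, l)
      rw [hfe] at h2
      rw [← h2]
      refine Finset.sum_congr rfl fun j _ => ?_
      simp only [D, Pi.sub_apply]
      ring
    refine LinearMap.ext fun x => ?_
    rw [hfe]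
    have h1' : ∀ j : Fin d, f (Pi.single j 1) = 0 := fun j => congrFun h1 j
    simp [h1']
  have hc : ∀ j : Fin d, ∃ c : Fin g × Fin g → ℝ, ∑ p, c p • D p = Pi.single j 1 := by
    intro j
    have : (Pi.single j 1 : Fin d → ℝ) ∈ Submodule.span ℝ (Set.range D) := by
      rw [htop]
      trivial
    exact (Submodule.mem_span_range_iff_exists_fun ℝ).mp this
  choose c hc using hc
  refine ⟨∑ j, ∑ p, |c j p|, by positivity, fun T Λ hΛ hT j => ?_⟩
  rw [← hc j, map_sum]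
  calc ‖∑ p, T (c j p • D p)‖ ≤ ∑ p, ‖T (c j p • D p)‖ := norm_sum_le _ _
    _ ≤ ∑ p, |c j p| * Λ := by
        refine Finset.sum_le_sum fun p _ => ?_
        rw [map_smul, norm_smul, Real.norm_eq_abs]
        refine mul_le_mul_of_nonneg_left ?_ (abs_nonneg _)
        simp only [D, map_sub]
        exact hT p.1 p.2
    _ = (∑ p, |c j p|) * Λ := by rw [Finset.sum_mul]
    _ ≤ (∑ j, ∑ p, |c j p|) * Λ := by
        refine mul_le_mul_of_nonneg_right ?_ hΛ
        exact Finset.single_le_sum (f := fun j => ∑ p, |c j p|)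
          (fun j _ => Finset.sum_nonneg fun p _ => abs_nonneg _) (Finset.mem_univ j)

/-- a polynomial in the first variable -/
theorem aeval_firstH {A F : Type} [CommRing A] [Field F] [Algebra A F] {e : ℕ} (f : Polynomial A)
    (x : F) (z : Fin (e + 1) → F) :
    MvPolynomial.aeval (tz x z)
      (Polynomial.aeval (MvPolynomial.X 0 : MvPolynomial (Fin (e + 1)) A) f) =
      Polynomial.aeval x f := by
  have h := (Polynomial.aeval_algHom_apply
    (MvPolynomial.aeval (tz x z) : MvPolynomial (Fin (e + 1)) A →ₐ[A] F)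
    (MvPolynomial.X 0) f).symm
  rw [MvPolynomial.aeval_X] at h
  exact h

theorem firstH_ne_zero {A : Type} [CommRing A] [Nontrivial A] {e : ℕ} {f : Polynomial A}
    (hf : f ≠ 0) : Polynomial.aeval (MvPolynomial.X 0 : MvPolynomial (Fin (e + 1)) A) f ≠ 0 := by
  intro h
  have h1 := MvPolynomial.transcendental_X A (0 : Fin (e + 1))
  rw [transcendental_iff] at h1
  exact hf (h1 f h)

end MNH

end Pool.Agent.HF
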