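import Mathlib
import Pool.Agent.Lib.MP_c95b3b_ag_HF.Defs
import Pool.Agent.Lib.MP_c95b3b_ag_HF.Bezout

/-! Project HF (MP_c95b3b_ag), module TR: non-constant monomials are transcendental over the number
field. -/

namespace Pool.Agent.HF

open Pool.Agent.L3 Pool.Agent.RS Module

namespace Transc

theorem zpow_sum {F : Type} [Field F] {v : F} (hv : v ≠ 0) {ι : Type*} (s : Finset ι)
    (f : ι → ℤ) : v ^ (∑ j ∈ s, f j) = ∏ j ∈ s, v ^ f j := by
  classical
  induction s using Finset.induction_on with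
  | empty => simp
  | insert x s hx ih => rw [Finset.sum_insert hx, Finset.prod_insert hx, zpow_add₀ hv, ih]

theorem prod_mon {F : Type} [Field F] {M m : ℕ} {v : Fin M → F} (hv : ∀ i, v i ≠ 0)
    (n : Fin m → Fin M → ℤ) (a : Fin m → ℤ) :
    ∏ j, mon v (n j) ^ a j = mon v (fun i => ∑ j, a j * n j i) := by
  unfold mon
  simp only [zpow_sum (hv _), ← Finset.prod_zpow]
  rw [Finset.prod_comm]
  refine Finset.prod_congr rfl fun i _ => Finset.prod_congr rfl fun j _ => ?_
  rw [← zpow_mul, mul_comm]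

theorem mon_mul_neg {F : Type} [Field F] {M : ℕ} {v : Fin M → F} (hv : ∀ i, v i ≠ 0)
    (e : Fin M → ℤ) : mon v e * ∏ i, v i ^ (-(e i)).toNat = ∏ i, v i ^ (e i).toNat := by
  unfold mon
  rw [← Finset.prod_mul_distrib]
  refine Finset.prod_congr rfl fun i _ => ?_
  rw [← zpow_natCast, ← zpow_natCast, ← zpow_add₀ (hv i)]
  congr 1
  have := Int.toNat_sub_toNat_neg (e i)
  omega

theorem sum_hom {B K : Type*} [CommRing B] [Field K] (ψ : B →+* K) (R : Polynomial B) (f1 f2 : K)
    (hf2 : f2 ≠ 0) : ∑ k ∈ Finset.range (R.natDegree + 1),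
      ψ (R.coeff k) * f1 ^ k * f2 ^ (R.natDegree - k) =
        f2 ^ R.natDegree * Polynomial.eval₂ ψ (f1 / f2) R := by
  rw [Polynomial.eval₂_eq_sum_range, Finset.mul_sum]
  refine Finset.sum_congr rfl fun k hk => ?_
  have hk' : k ≤ R.natDegree := Nat.lt_succ_iff.1 (Finset.mem_range.1 hk)
  have h1 : f2 ^ R.natDegree = f2 ^ (R.natDegree - k) * f2 ^ k := by
    rw [← pow_add, Nat.sub_add_cancel hk']
  rw [h1, div_pow]
  field_simp

/-- the homogenised polynomial over `ℂ` is a product of linear factors -/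
theorem dvd_linear (Pc F1 F2 : P2 ℂ) (hP : Irreducible Pc) (hF2 : F2 ≠ 0) (R : Polynomial ℂ)
    (hR : R ≠ 0)
    (h : Pc ∣ ∑ k ∈ Finset.range (R.natDegree + 1),
      MvPolynomial.C (R.coeff k) * F1 ^ k * F2 ^ (R.natDegree - k)) :
    ∃ c : ℂ, Pc ∣ F1 - MvPolynomial.C c * F2 := by
  classical
  have hprime : Prime Pc := hP.prime
  let K := FractionRing (P2 ℂ)
  let ι : P2 ℂ →+* K := algebraMap (P2 ℂ) K
  have hι : Function.Injective ι := IsFractionRing.injective (P2 ℂ) K
  have hf2 : ι F2 ≠ 0 := by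
    intro h0
    exact hF2 (hι (by rw [h0, map_zero]))
  have hsplit : (Polynomial.map (RingHom.id ℂ) R).Splits := IsAlgClosed.splits _
  rw [Polynomial.map_id] at hsplit
  have hprod : R = Polynomial.C R.leadingCoeff *
      (R.roots.map fun c => Polynomial.X - Polynomial.C c).prod :=
    hsplit.eq_prod_roots
  have hcard : Multiset.card R.roots = R.natDegree := hsplit.natDegree_eq_card_roots.symm
  have key : (∑ k ∈ Finset.range (R.natDegree + 1),
      MvPolynomial.C (R.coeff k) * F1 ^ k * F2 ^ (R.natDegree - k)) =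
      MvPolynomial.C R.leadingCoeff *
        (R.roots.map fun c => F1 - MvPolynomial.C c * F2).prod := by
    apply hι
    rw [map_sum]
    have h1 : ∀ k ∈ Finset.range (R.natDegree + 1),
        ι (MvPolynomial.C (R.coeff k) * F1 ^ k * F2 ^ (R.natDegree - k)) =
        (ι.comp MvPolynomial.C) (R.coeff k) * ι F1 ^ k * ι F2 ^ (R.natDegree - k) := by
      intro k _
      simp only [map_mul, map_pow, RingHom.comp_apply]
    rw [Finset.sum_congr rfl h1, sum_hom (ι.comp MvPolynomial.C) R (ι F1) (ι F2) hf2]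
    conv_lhs => rw [hprod]
    rw [Polynomial.eval₂_mul, Polynomial.eval₂_C, map_mul, RingHom.comp_apply]
    have h2 : Polynomial.eval₂ (ι.comp MvPolynomial.C) (ι F1 / ι F2)
        (R.roots.map fun c => Polynomial.X - Polynomial.C c).prod =
        (R.roots.map fun c => ι F1 / ι F2 - ι (MvPolynomial.C c)).prod := by
      rw [← Polynomial.coe_eval₂RingHom, map_multiset_prod, Multiset.map_map]
      congr 1
      refine Multiset.map_congr rfl fun c _ => ?_
      simp
    rw [h2]
    have h3 : ∀ s : Multiset ℂ, ι F2 ^ Multiset.card s *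
        (s.map fun c => ι F1 / ι F2 - ι (MvPolynomial.C c)).prod =
        ι (s.map fun c => F1 - MvPolynomial.C c * F2).prod := by
      intro s
      induction s using Multiset.induction_on with
      | empty => simp
      | cons c s ih =>
        rw [Multiset.card_cons, Multiset.map_cons, Multiset.prod_cons, Multiset.map_cons,
          Multiset.prod_cons, map_mul, ← ih, map_sub, map_mul, pow_succ]
        have h4 : ι F2 * (ι F1 / ι F2 - ι (MvPolynomial.C c)) =
            ι F1 - ι (MvPolynomial.C c) * ι F2 := by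
          rw [mul_sub, mul_div_cancel₀ _ hf2, mul_comm (ι F2) (ι (MvPolynomial.C c))]
        rw [← h4]
        ring
    have hn : (Polynomial.C R.leadingCoeff *
        (R.roots.map fun c => Polynomial.X - Polynomial.C c).prod).natDegree = R.natDegree := by
      rw [← hprod]
    rw [hn, ← hcard, mul_left_comm, h3 R.roots]
  rw [key] at h
  rcases hprime.dvd_or_dvd h with h' | h'
  · exfalso
    have hu : IsUnit (MvPolynomial.C R.leadingCoeff : P2 ℂ) :=
      (Polynomial.leadingCoeff_ne_zero.2 hR).isUnit.map MvPolynomial.C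
    exact hP.not_isUnit (isUnit_of_dvd_unit h' hu)
  · obtain ⟨c, _, hc⟩ := hprime.exists_mem_multiset_map_dvd h'
    exact ⟨c, hc⟩

end Transc

open Transc in
theorem transc (K0 : Type) [Field K0] (φ0 : K0 →+* ℂ) {M m : ℕ} (P : P2 K0)
    (hP : Irreducible (MvPolynomial.map φ0 P)) (N : Fin M → P2 K0) (hN : ∀ i, ¬ P ∣ N i)
    (n : Fin m → Fin M → ℤ)
    (hind : ∀ a : Fin m → ℤ, (∃ c : ℂ, ∀ p : Fin 2 → ℂ,
      MvPolynomial.eval p (MvPolynomial.map φ0 P) = 0 →
      (∀ i, vN (fun i => MvPolynomial.map φ0 (N i)) p i ≠ 0) →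
      ∏ j, mon (vN (fun i => MvPolynomial.map φ0 (N i)) p) (n j) ^ a j = c) → a = 0)
    (L : Type) [Field L] [Algebra K0 L] (q : Fin 2 → L)
    (hq : ∀ Q : P2 K0, MvPolynomial.aeval q Q = 0 ↔ P ∣ Q) (a : Fin m → ℤ) (ha : a ≠ 0) :
    Transcendental K0 (mon (fun i => MvPolynomial.aeval q (N i)) (fun i => ∑ j, a j * n j i)) := by
  intro halg
  apply ha
  obtain ⟨e, he⟩ : ∃ e : Fin M → ℤ, e = fun i => ∑ j, a j * n j i := ⟨_, rfl⟩
  rw [← he] at halg
  obtain ⟨R, hR0, hR⟩ := halg
  -- the numerator and the denominator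
  obtain ⟨F1, hF1⟩ : ∃ F1 : P2 K0, F1 = ∏ i, N i ^ (e i).toNat := ⟨_, rfl⟩
  obtain ⟨F2, hF2⟩ : ∃ F2 : P2 K0, F2 = ∏ i, N i ^ (-(e i)).toNat := ⟨_, rfl⟩
  have hv : ∀ i, MvPolynomial.aeval q (N i) ≠ 0 := fun i h => hN i ((hq _).1 h)
  have h1 := mon_mul_neg hv e
  have hq1 : MvPolynomial.aeval q F1 = ∏ i, MvPolynomial.aeval q (N i) ^ (e i).toNat := by
    rw [hF1, map_prod]; simp only [map_pow]
  have hq2 : MvPolynomial.aeval q F2 = ∏ i, MvPolynomial.aeval q (N i) ^ (-(e i)).toNat := by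
    rw [hF2, map_prod]; simp only [map_pow]
  have hq2' : MvPolynomial.aeval q F2 ≠ 0 := by
    rw [hq2]; exact Finset.prod_ne_zero_iff.2 fun i _ => pow_ne_zero _ (hv i)
  have hx : mon (fun i => MvPolynomial.aeval q (N i)) e =
      MvPolynomial.aeval q F1 / MvPolynomial.aeval q F2 := by
    rw [eq_div_iff hq2', hq1, hq2]; exact h1
  -- the homogenised polynomial
  have hdvd : P ∣ ∑ k ∈ Finset.range (R.natDegree + 1),
      MvPolynomial.C (R.coeff k) * F1 ^ k * F2 ^ (R.natDegree - k) := by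
    rw [← hq, map_sum]
    have h2 : ∀ k ∈ Finset.range (R.natDegree + 1),
        MvPolynomial.aeval q (MvPolynomial.C (R.coeff k) * F1 ^ k * F2 ^ (R.natDegree - k)) =
        algebraMap K0 L (R.coeff k) * MvPolynomial.aeval q F1 ^ k *
          MvPolynomial.aeval q F2 ^ (R.natDegree - k) := by
      intro k _
      simp only [map_mul, map_pow, MvPolynomial.aeval_C]
    rw [Finset.sum_congr rfl h2, sum_hom (algebraMap K0 L) R _ _ hq2', ← hx]
    have h3 : Polynomial.eval₂ (algebraMap K0 L)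
        (mon (fun i => MvPolynomial.aeval q (N i)) e) R = 0 := hR
    rw [h3, mul_zero]
  have hdvd' := map_dvd (MvPolynomial.map φ0) hdvd
  rw [map_sum] at hdvd'
  have hnd : (R.map φ0).natDegree = R.natDegree := Polynomial.natDegree_map φ0
  have h4 : ∑ k ∈ Finset.range (R.natDegree + 1),
      MvPolynomial.map φ0 (MvPolynomial.C (R.coeff k) * F1 ^ k * F2 ^ (R.natDegree - k)) =
      ∑ k ∈ Finset.range ((R.map φ0).natDegree + 1),
        MvPolynomial.C ((R.map φ0).coeff k) * (MvPolynomial.map φ0 F1) ^ k *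
          (MvPolynomial.map φ0 F2) ^ ((R.map φ0).natDegree - k) := by
    rw [hnd]
    refine Finset.sum_congr rfl fun k _ => ?_
    simp only [map_mul, map_pow, MvPolynomial.map_C, Polynomial.coeff_map]
  rw [h4] at hdvd'
  have hF20 : MvPolynomial.map φ0 F2 ≠ 0 := by
    intro h0
    have : F2 = 0 := MvPolynomial.map_injective φ0 φ0.injective (by rw [h0, map_zero])
    exact hq2' (by rw [this, map_zero])
  have hR' : R.map φ0 ≠ 0 := (Polynomial.map_ne_zero_iff φ0.injective).2 hR0
  obtain ⟨c, hc⟩ := dvd_linear _ _ _ hP hF20 _ hR' hdvd'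
  refine hind a ⟨c, fun p hp hp' => ?_⟩
  rw [prod_mon hp', ← he]
  have h5 := mon_mul_neg hp' e
  have h6 : ∏ i, vN (fun i => MvPolynomial.map φ0 (N i)) p i ^ (e i).toNat =
      MvPolynomial.eval p (MvPolynomial.map φ0 F1) := by
    rw [hF1, map_prod, map_prod]
    simp only [map_pow]
    rfl
  have h7 : ∏ i, vN (fun i => MvPolynomial.map φ0 (N i)) p i ^ (-(e i)).toNat =
      MvPolynomial.eval p (MvPolynomial.map φ0 F2) := by
    rw [hF2, map_prod, map_prod]
    simp only [map_pow]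
    rfl
  have h8 : MvPolynomial.eval p (MvPolynomial.map φ0 F2) ≠ 0 := by
    rw [← h7]; exact Finset.prod_ne_zero_iff.2 fun i _ => pow_ne_zero _ (hp' i)
  obtain ⟨W, hW⟩ := hc
  have h9 : MvPolynomial.eval p (MvPolynomial.map φ0 F1) =
      c * MvPolynomial.eval p (MvPolynomial.map φ0 F2) := by
    have := congrArg (MvPolynomial.eval p) hW
    rw [map_mul, hp, zero_mul, map_sub, map_mul, MvPolynomial.eval_C, sub_eq_zero] at this
    exact this
  rw [h6, h7, h9] at h5
  exact mul_right_cancel₀ h8 h5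

end Pool.Agent.HF
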