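import Mathlib
import Pool.Agent.Lib.MP_c95b3b_ag_HF.Defs
import Pool.Agent.Lib.MP_c95b3b_ag_HF.Elim
import Pool.Agent.Lib.MP_c95b3b_ag_HF.Descend
import Pool.Agent.Lib.MP_c95b3b_ag_HF.Transc
import Pool.Agent.Lib.MP_c95b3b_ag_HF.OmNe
import Pool.Agent.Lib.MP_c95b3b_ag_HF.HeightC
import Pool.Agent.Lib.MP_c95b3b_ag_HF.MainHA
import Pool.Agent.Lib.MP_c95b3b_ag_RS.MainD

/-! Project HF (MP_c95b3b_ag), module MN: the theorem over number fields. -/

namespace Pool.Agent.HF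

open Pool.Agent.L3 Pool.Agent.RS Module

/-- the hypotheses of the theorem, for data over a field `K0` embedded in `ℂ` -/
structure Data {K0 : Type} [Field K0] (φ0 : K0 →+* ℂ) {M m e g : ℕ} (P : P2 K0)
    (N : Fin M → P2 K0) (n : Fin m → Fin M → ℤ) (ν : Fin g → Fin M → ℤ)
    (b : Fin g → Fin (e + 1) → ℕ) : Prop where
  irr : Irreducible (MvPolynomial.map φ0 P)
  deg : P.degreeOf 1 ≠ 0
  ndvd : ∀ i, ¬ P ∣ N i
  der : ∃ i0, N i0 = MvPolynomial.pderiv 1 P
  inj : Function.Injective b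
  pos : 0 < g
  span : ∀ s : Fin (e + 1) → ℝ, (∀ k l, ∑ j, s j * ((b k j : ℝ) - b l j) = 0) → s = 0
  ind : ∀ a : Fin m → ℤ, (∃ c : ℂ, ∀ p : Fin 2 → ℂ,
    MvPolynomial.eval p (MvPolynomial.map φ0 P) = 0 →
    (∀ i, vN (fun i => MvPolynomial.map φ0 (N i)) p i ≠ 0) →
    ∏ j, mon (vN (fun i => MvPolynomial.map φ0 (N i)) p) (n j) ^ a j = c) → a = 0
  nc : ∀ r s : Fin m → ℝ, LinearIndependent ℝ ![r, s] → ∀ ρ : ℝ, 0 < ρ →
    {p : Fin 2 → ℂ | p ∈ KC (MvPolynomial.map φ0 P) (fun i => MvPolynomial.map φ0 (N i)) ρ ∧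
      lgs (nvec n r) (vN (fun i => MvPolynomial.map φ0 (N i)) p) = 0 ∧
      lgs (nvec n s) (vN (fun i => MvPolynomial.map φ0 (N i)) p) = 0}.Finite
  geom : GeomIrr (MvPolynomial.map φ0 P) (fun i => MvPolynomial.map φ0 (N i)) ν b
  sym : ∀ r : Fin m → ℝ, ∀ μ : Fin (e + 1) → Fin m → ℝ, r ≠ 0 →
    SymOK (MvPolynomial.map φ0 P) (fun i => MvPolynomial.map φ0 (N i)) ν b (nvec n r)
      (fun j => nvec n (μ j))

namespace MNH

theorem sigma_aeval {K0 K : Type} [Field K0] [Field K] [Algebra K0 K] {φ0 : K0 →+* ℂ}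
    {σ : K →+* ℂ} (h : ∀ x : K0, σ (algebraMap K0 K x) = φ0 x) (p : Fin 2 → K) (Q : P2 K0) :
    σ (MvPolynomial.aeval p Q) = MvPolynomial.eval (fun k => σ (p k)) (MvPolynomial.map φ0 Q) := by
  have h1 : σ.comp (algebraMap K0 K) = φ0 := RingHom.ext h
  rw [MvPolynomial.eval_map, MvPolynomial.aeval_def, MvPolynomial.hom_eval₂, h1]

theorem norm_le_exp {z : ℂ} {c : ℝ} (h0 : |Real.log ‖z‖| ≤ c) : ‖z‖ ≤ Real.exp c := by
  by_cases hz : z = 0
  · rw [hz, norm_zero]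
    exact (Real.exp_pos c).le
  · have h3 : 0 < ‖z‖ := norm_pos_iff.mpr hz
    rw [← Real.exp_log h3]
    exact Real.exp_le_exp.mpr ((le_abs_self _).trans h0)

theorem exp_le_norm {z : ℂ} (hz : z ≠ 0) {c : ℝ} (h0 : |Real.log ‖z‖| ≤ c) :
    (Real.exp c)⁻¹ ≤ ‖z‖ := by
  have h3 : 0 < ‖z‖ := norm_pos_iff.mpr hz
  rw [← Real.exp_neg, ← Real.exp_log h3]
  apply Real.exp_le_exp.mpr
  have := abs_le.mp h0
  linarith [this.1]

theorem abs_lg_mon {K : Type} [Field K] {R : Subring K} (W : Places K R) (w : W.Pl) {M : ℕ}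
    {y : Fin M → K} (hy : ∀ j, y j ≠ 0) (a : Fin M → ℤ) :
    |W.lg w (mon y a)| ≤ ∑ i, |(a i : ℝ)| * |W.lg w (y i)| := by
  rw [lg_mon W w hy]
  refine (Finset.abs_sum_le_sum_abs _ _).trans (Finset.sum_le_sum fun i _ => ?_)
  rw [abs_mul]

end MNH

open MN MND MNH in
theorem hf_nf (K0 : Type) [Field K0] [NumberField K0] (φ0 : K0 →+* ℂ) {M m e g : ℕ} (he : 1 ≤ e)
    (P : P2 K0) (N : Fin M → P2 K0) (n : Fin m → Fin M → ℤ) (ν : Fin g → Fin M → ℤ)
    (b : Fin g → Fin (e + 1) → ℕ) (hD : Data φ0 P N n ν b) :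
    ∃ F : MvPolynomial (Fin (e + 1)) K0, F ≠ 0 ∧
      ∀ (K : Type) [Field K] [NumberField K] [Algebra K0 K] (p : Fin 2 → K)
        (z : Fin (e + 1) → K),
        MvPolynomial.aeval p P = 0 → (∀ i, MvPolynomial.aeval p (N i) ≠ 0) → (∀ j, z j ≠ 0) →
        GG (fun i => MvPolynomial.aeval p (N i)) ν b z = 0 →
        (∃ Λ : Submodule ℤ ((Fin (e + 1) → ℤ) × (Fin m → ℤ)), e + 2 ≤ finrank ℤ Λ ∧
          ∀ r ∈ Λ, mon z r.1 *
            ∏ j, mon (fun i => MvPolynomial.aeval p (N i)) (n j) ^ r.2 j = 1) →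
        MvPolynomial.aeval (tz (p 0) z) F = 0 := by
  classical
  set PC : P2 ℂ := MvPolynomial.map φ0 P with hPC
  set NN : Fin M → P2 ℂ := fun i => MvPolynomial.map φ0 (N i) with hNN
  have hPirr : Irreducible P := irr_descend K0 φ0 P hD.irr
  have h1C : PC.degreeOf 1 ≠ 0 := by
    have h := hD.deg
    rw [MvPolynomial.degreeOf] at h ⊢
    rwa [hPC, MvPolynomial.degrees_map_of_injective P φ0.injective]
  have hNC' : ∀ i, ¬ PC ∣ NN i := fun i h => hD.ndvd i (dvd_descend K0 φ0 P (N i) h)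
  obtain ⟨i0, hi0⟩ := hD.der
  have hi0C : NN i0 = MvPolynomial.pderiv 1 PC := by
    simp only [hNN, hPC, hi0]
    exact (MvPolynomial.pderiv_map).symm
  have htr := transc K0 φ0 P hD.irr N hD.ndvd n hD.ind
  obtain ⟨B1, f1, Cst, hf1, hB1⟩ := heightC K0 P hPirr hD.deg N hD.ndvd n
    (fun L _ _ q hq a ha => htr L q hq a ha)
  have hb0 : ∃ k l, b k 0 ≠ b l 0 := by
    by_contra hcon
    push Not at hcon
    have h1 := hD.span (Pi.single 0 1) fun k l => by
      rw [Finset.sum_eq_single 0]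
      · rw [hcon k l]
        ring
      · intro j _ hj
        rw [Pi.single_eq_of_ne hj, zero_mul]
      · intro h
        exact absurd (Finset.mem_univ _) h
    have h2 := congrFun h1 0
    simp at h2
  -- constants
  have hd0 : (0 : ℝ) < finrank ℚ K0 := by exact_mod_cast (finrank_pos : 0 < finrank ℚ K0)
  set d0 : ℝ := ((finrank ℚ K0 : ℕ) : ℝ) with hd0def
  set b1 : ℝ := (M + 2) * |B1| + 1 with hb1
  have hb1pos : 0 < b1 := by positivity
  set c1 : ℝ := 2 * d0 * b1 with hc1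
  have hc1pos : 0 < c1 := by positivity
  have hρ : 0 < Real.exp c1 := Real.exp_pos _
  set θ : ℝ := 1 / d0 / 2 with hθdef
  have hθ : 0 < θ := by positivity
  obtain ⟨θ', hθ', Hsc⟩ := scales (I := Fin g) m θ hθ
  have hθ'' : 0 < min θ θ' := lt_min hθ hθ'
  obtain ⟨ε, hε, f0, hf0, H0⟩ := t0_pairsC PC NN n hD.nc (Real.exp c1) |B1| (min θ θ') hρ hθ''
  set Knu : Fin g → ℝ := fun k => ∑ i, |(ν k i : ℝ)| with hKnu
  set Kn : Fin m → ℝ := fun j => ∑ i, |(n j i : ℝ)| with hKn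
  have hKnu0 : ∀ k, 0 ≤ Knu k := fun k => Finset.sum_nonneg fun i _ => abs_nonneg _
  have hKn0 : ∀ j, 0 ≤ Kn j := fun j => Finset.sum_nonneg fun i _ => abs_nonneg _
  have hsKnu0 : 0 ≤ ∑ k, Knu k := Finset.sum_nonneg fun k _ => hKnu0 k
  have hsKn0 : 0 ≤ ∑ j, Kn j := Finset.sum_nonneg fun k _ => hKn0 k
  set C1 : ℝ := (∑ k, Knu k) * |B1| + (∑ j, Kn j) * |B1| with hC1
  have hC10 : 0 ≤ C1 := by positivity
  set C2 : ℝ := (∑ k, Knu k) * c1 with hC2
  obtain ⟨Λ1, HΛ⟩ := Hsc ε C1 C2 hε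
  obtain ⟨Csp, hCsp, Hsp⟩ := span_boundH (m := m) b hD.span
  set Λ2 : ℝ := Csp * |Λ1| with hΛ2
  have hΛ20 : 0 ≤ Λ2 := by positivity
  set B2 : ℝ := |B1| + (e + 1) * (Λ2 * C1) with hB2
  obtain ⟨Q, hQ, HQ⟩ := t1_tuplesH he PC hD.irr h1C NN hNC' i0 hi0C n ν b hD.inj hD.pos hD.geom
    hD.ind hD.sym Λ2 (Real.exp c1) B2 θ hρ hθ
  obtain ⟨F1, hF1, HF1⟩ := subsum_elim K0 P hPirr hD.deg N hD.ndvd ν b hD.inj hb0
    (geomIrr_descend K0 φ0 P hD.irr N hD.ndvd ν b hD.inj hD.geom)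
  refine ⟨MvPolynomial.map (Int.castRingHom K0)
    (Polynomial.aeval (MvPolynomial.X 0 : MvPolynomial (Fin (e + 1)) ℤ) f0) *
    Polynomial.aeval (MvPolynomial.X 0 : MvPolynomial (Fin (e + 1)) K0) f1 * F1 *
    MvPolynomial.map (Int.castRingHom K0) Q,
    mul_ne_zero (mul_ne_zero (mul_ne_zero (toK_ne_zero (firstH_ne_zero hf0)) (firstH_ne_zero hf1))
      hF1) (toK_ne_zero hQ), ?_⟩
  intro K _ _ _ p z hp hNp hz hGz hΛ'
  obtain ⟨Λ, hΛ, hr⟩ := hΛ'
  rw [map_mul, map_mul, map_mul, aeval_toK, aeval_toK, aeval_firstH, aeval_firstH]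
  by_cases hf1p : Polynomial.aeval (p 0) f1 = 0
  · rw [hf1p, mul_zero, zero_mul, zero_mul]
  -- notation
  set u : Fin M → K := fun i => MvPolynomial.aeval p (N i) with hu
  set x : Fin m → K := fun j => mon u (n j) with hx
  have hx0 : ∀ j, x j ≠ 0 := fun j => mon_ne_zero hNp _
  set γt : Fin g → K := fun k => mon u (ν k) with hγt
  have hγt0 : ∀ k, γt k ≠ 0 := fun k => mon_ne_zero hNp _
  set vv : Fin g → K := fun k => γt k * ∏ j, z j ^ b k j with hvvdef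
  have hzb : ∀ k, ∏ j, z j ^ b k j ≠ 0 := fun k =>
    Finset.prod_ne_zero_iff.mpr fun j _ => pow_ne_zero _ (hz j)
  have hvv0 : ∀ k, vv k ≠ 0 := fun k => mul_ne_zero (hγt0 k) (hzb k)
  have hvvs : ∑ k, vv k = 0 := hGz
  -- places
  obtain ⟨R, W, S0, hWD, hσ, hR⟩ := point_data K0 φ0 K
    (Finset.univ.image p ∪ Finset.univ.image u ∪ Finset.univ.image z ∪
      Finset.univ.image vv ∪ Cst.image (algebraMap K0 K))
  have hRp : ∀ i, p i ∈ R := fun i => (hR (p i) (by simp)).1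
  have hRu : ∀ i, u i ∈ R ∧ (u i)⁻¹ ∈ R := fun i => hR (u i) (by simp)
  have hRz : ∀ k, z k ∈ R ∧ (z k)⁻¹ ∈ R := fun k => hR (z k) (by simp)
  have hRv : ∀ k, vv k ∈ R ∧ (vv k)⁻¹ ∈ R := fun k => hR (vv k) (by simp)
  have hRc : ∀ c ∈ Cst, algebraMap K0 K c ∈ R := fun c hc =>
    (hR (algebraMap K0 K c) (Finset.mem_union_right _ (Finset.mem_image_of_mem _ hc))).1
  -- relations
  obtain ⟨V, hV, HV⟩ := exists_rel_d W z x hz hx0 Λ (e + 2) hΛ hr
  set mu : W.Pl → EuclideanSpace ℝ (Fin m) := fun w => WithLp.toLp 2 (fun j => W.lg w (x j))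
    with hmu
  have hinner : ∀ (q : EuclideanSpace ℝ (Fin m)) (w : W.Pl),
      inner ℝ q (mu w) = ∑ j, q j * W.lg w (x j) := fun q w => inner_toLp q _
  -- embeddings
  set pσ : Fin W.D → Fin 2 → ℂ := fun i k => W.σ i (p k) with hpσ
  have hσa : ∀ i ∈ S0, ∀ T : P2 K0, W.σ i (MvPolynomial.aeval p T) =
      MvPolynomial.eval (pσ i) (MvPolynomial.map φ0 T) := fun i hi T => sigma_aeval (hσ i hi) p T
  have hσu : ∀ i ∈ S0, (fun k => W.σ i (u k)) = vN NN (pσ i) := by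
    intro i hi
    funext k
    exact hσa i hi (N k)
  have hσP : ∀ i ∈ S0, MvPolynomial.eval (pσ i) PC = 0 := by
    intro i hi
    rw [hPC, ← hσa i hi, hp, map_zero]
  have hvN0 : ∀ i ∈ S0, ∀ k, vN NN (pσ i) k ≠ 0 := by
    intro i hi k
    rw [← hσu i hi]
    exact (map_ne_zero (W.σ i)).mpr (hNp k)
  have hlgr : ∀ i ∈ S0, ∀ q : EuclideanSpace ℝ (Fin m),
      lgs (nvec n q) (vN NN (pσ i)) = inner ℝ q (mu (.inl i)) := by
    intro i hi q
    rw [lgs_nvec n q (hvN0 i hi), hinner]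
    refine Finset.sum_congr rfl fun j _ => ?_
    rw [W.lg_inl, ← hσu i hi, ← map_mon]
  -- the height
  have hheight : ∀ q : EuclideanSpace ℝ (Fin m), ‖q‖ = 1 → ((0 : Fin (e + 1) → ℝ), q) ∈ V →
      (∀ i, W.avg (fun v => |W.lg v (p i)|) ≤ B1) ∧
        ∀ i, W.avg (fun v => |W.lg v (u i)|) ≤ B1 := by
    intro q hq hqV
    refine hB1 K R W p hRc hp (fun i => ⟨hNp i, hRu i⟩) hf1p ⟨q, coe_ne_zero hq, fun w => ?_⟩
    have h1 := HV _ hqV w
    simpa using h1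
  have hzero : ∀ q : EuclideanSpace ℝ (Fin m), ((0 : Fin (e + 1) → ℝ), q) ∈ V → ∀ w,
      inner ℝ q (mu w) = 0 := by
    intro q hqV w
    rw [hinner]
    have h1 := HV _ hqV w
    simpa using h1
  have hgood : ((∀ i, W.avg (fun v => |W.lg v (p i)|) ≤ B1) ∧
        ∀ i, W.avg (fun v => |W.lg v (u i)|) ≤ B1) → ∃ S1 ⊆ S0, θ * W.D ≤ S1.card ∧
      ∀ i ∈ S1, pσ i ∈ KC PC NN (Real.exp c1) ∧ ∀ k, |W.lg (.inl i) (u k)| ≤ c1 := by
    rintro ⟨ht1, ht2⟩
    have hb : W.avg (fun w => ∑ k, |W.lg w (p k)| + ∑ i, |W.lg w (u i)|) ≤ b1 := by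
      rw [W.avg_add, W.avg_sum, W.avg_sum]
      have h1 : ∑ i, W.avg (fun w => |W.lg w (u i)|) ≤ ∑ _i : Fin M, |B1| :=
        Finset.sum_le_sum fun i _ => (ht2 i).trans (le_abs_self _)
      have h2 : ∑ i, W.avg (fun w => |W.lg w (p i)|) ≤ ∑ _i : Fin 2, |B1| :=
        Finset.sum_le_sum fun i _ => (ht1 i).trans (le_abs_self _)
      rw [Finset.sum_const, Finset.card_univ, Fintype.card_fin, nsmul_eq_mul] at h1 h2
      push_cast at h2
      rw [hb1]
      linarith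
    have hbc : b1 ≤ c1 * (1 / d0 / 2) := by
      rw [hc1]
      have : 2 * d0 * b1 * (1 / d0 / 2) = b1 := by
        field_simp
      rw [this]
    have hcard : 1 / d0 * W.D ≤ S0.card := by
      have h1 : (W.D : ℝ) = d0 * S0.card := by
        have h2 : (W.D : ℝ) = ((finrank ℚ K0 * S0.card : ℕ) : ℝ) := congrArg _ hWD
        rw [h2, Nat.cast_mul]
      rw [h1, ← mul_assoc, one_div, inv_mul_cancel₀ hd0.ne', one_mul]
    obtain ⟨S1, hS1, hc, hf⟩ := markov W (fun w => ∑ k, |W.lg w (p k)| + ∑ i, |W.lg w (u i)|)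
      (fun w => add_nonneg (Finset.sum_nonneg fun i _ => abs_nonneg _)
        (Finset.sum_nonneg fun i _ => abs_nonneg _)) hb hc1pos hbc S0 hcard
    refine ⟨S1, hS1, hc, fun i hi => ?_⟩
    have h3 := hf i hi
    have hs1 : 0 ≤ ∑ k, |W.lg (.inl i) (u k)| := Finset.sum_nonneg fun k _ => abs_nonneg _
    have hs2 : 0 ≤ ∑ k, |W.lg (.inl i) (p k)| := Finset.sum_nonneg fun k _ => abs_nonneg _
    have hu1 : ∀ k, |W.lg (.inl i) (u k)| ≤ c1 := by
      intro k
      have h5 : |W.lg (.inl i) (u k)| ≤ ∑ k, |W.lg (.inl i) (u k)| :=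
        Finset.single_le_sum (f := fun k => |W.lg (.inl i) (u k)|)
          (fun k _ => abs_nonneg _) (Finset.mem_univ k)
      linarith
    have hp1 : ∀ k, |W.lg (.inl i) (p k)| ≤ c1 := by
      intro k
      have h5 : |W.lg (.inl i) (p k)| ≤ ∑ k, |W.lg (.inl i) (p k)| :=
        Finset.single_le_sum (f := fun k => |W.lg (.inl i) (p k)|)
          (fun k _ => abs_nonneg _) (Finset.mem_univ k)
      linarith
    refine ⟨⟨hσP i (hS1 hi), fun k => norm_le_exp (hp1 k), fun k => ?_⟩, hu1⟩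
    refine exp_le_norm (hvN0 i (hS1 hi) k) ?_
    rw [← hσu i (hS1 hi)]
    exact hu1 k
  have htavg : (∀ i, W.avg (fun v => |W.lg v (p i)|) ≤ B1) →
      W.avg (fun v => max 0 (W.lg v (p 0))) ≤ |B1| := by
    intro h
    refine ((W.avg_mono fun w => ?_).trans (h 0)).trans (le_abs_self _)
    exact max_le (abs_nonneg _) (le_abs_self _)
  rcases lin_alg_d V hV with ⟨r, s, hr1, hs1, hrs, hrV, hsV⟩ | ⟨r, T, hr1, hrV, hT⟩
  · -- two relations on the base
    have hh := hheight r hr1 hrV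
    obtain ⟨S1, hS1, hcard, hKC⟩ := hgood hh
    have h0 : Polynomial.aeval (p 0) f0 = 0 := by
      refine H0 K R W (p 0) (hRp 0) (htavg hh.1) r s hr1 hs1 hrs ⟨S1, ?_, fun i hi =>
        ⟨pσ i, (hKC i hi).1, rfl, ?_, ?_⟩⟩
      · exact (mul_le_mul_of_nonneg_right (min_le_left _ _) W.D_cast_pos.le).trans hcard
      · rw [hlgr i (hS1 hi), hzero r hrV, abs_zero]
        exact hε.le
      · rw [hlgr i (hS1 hi), hzero s hsV, abs_zero]
        exact hε.le
    rw [h0, zero_mul, zero_mul, zero_mul]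
  · by_cases h0 : Polynomial.aeval (p 0) f0 = 0
    · rw [h0, zero_mul, zero_mul, zero_mul]
    have hh := hheight r hr1 hrV
    obtain ⟨S1, hS1, hcard, hKC⟩ := hgood hh
    have hkey : ∀ (κ : Fin (e + 1) → ℝ) (w : W.Pl),
        ∑ k, κ k * W.lg w (z k) = inner ℝ (T κ) (mu w) := by
      intro κ w
      have h1 := HV _ (hT κ).2 w
      rw [hinner]
      simp only [PiLp.neg_apply, neg_mul, Finset.sum_neg_distrib] at h1
      linarith
    let A : Fin g → W.Pl → ℝ := fun k w => W.lg w (γt k)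
    let sg : Fin g → EuclideanSpace ℝ (Fin m) := fun k => T (fun j => (b k j : ℝ))
    -- sizes of the coordinates
    have hlgz : ∀ k w, W.lg w (z k) = inner ℝ (T (Pi.single k 1)) (mu w) := by
      intro k w
      rw [← hkey, Finset.sum_eq_single k]
      · rw [Pi.single_eq_same, one_mul]
      · intro j _ hj
        rw [Pi.single_eq_of_ne hj, zero_mul]
      · intro h
        exact absurd (Finset.mem_univ _) h
    have hvv : ∀ k w, W.lg w (vv k) = A k w + inner ℝ (sg k) (mu w) := by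
      intro k w
      rw [hvvdef]
      simp only
      rw [W.lg_mul w (hγt0 k) (hzb k), lg_prod W w _ _ fun j _ => pow_ne_zero _ (hz j)]
      congr 1
      rw [← hkey]
      refine Finset.sum_congr rfl fun j _ => ?_
      rw [W.lg_pow]
    have hvvR : ∀ k, vv k ≠ 0 ∧ vv k ∈ R ∧ (vv k)⁻¹ ∈ R := fun k => ⟨hvv0 k, hRv k⟩
    -- averages
    have hmonavg : ∀ a : Fin M → ℤ, W.avg (fun w => |W.lg w (mon u a)|) ≤
        (∑ i, |(a i : ℝ)|) * |B1| := by
      intro a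
      refine (W.avg_mono fun w => abs_lg_mon W w hNp a).trans ?_
      rw [W.avg_sum, Finset.sum_mul]
      refine Finset.sum_le_sum fun i _ => ?_
      rw [W.avg_mul]
      exact mul_le_mul_of_nonneg_left ((hh.2 i).trans (le_abs_self _)) (abs_nonneg _)
    have hKnu1 : ∀ k, Knu k ≤ ∑ k, Knu k := fun k =>
      Finset.single_le_sum (fun k _ => hKnu0 k) (Finset.mem_univ k)
    have hAvg : ∀ k, W.avg (fun w => |A k w|) ≤ C1 := by
      intro k
      refine (hmonavg (ν k)).trans ?_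
      have h1 : Knu k * |B1| ≤ (∑ k, Knu k) * |B1| :=
        mul_le_mul_of_nonneg_right (hKnu1 k) (abs_nonneg _)
      have h2 : 0 ≤ (∑ j, Kn j) * |B1| := by positivity
      rw [hC1]
      linarith
    have hmuavg : W.avg (fun w => ‖mu w‖) ≤ C1 := by
      have h1 : ∀ w, ‖mu w‖ ≤ ∑ j, |W.lg w (x j)| := fun w => norm_toLp_le _
      refine (W.avg_mono h1).trans ?_
      rw [W.avg_sum]
      refine (Finset.sum_le_sum fun j _ => hmonavg (n j)).trans ?_
      rw [← Finset.sum_mul]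
      have h2 : 0 ≤ (∑ k, Knu k) * |B1| := by positivity
      rw [hC1]
      linarith
    -- archimedean sizes of the coefficients
    have hA2 : ∀ k, ∀ i ∈ S1, |A k (.inl i)| ≤ C2 := by
      intro k i hi
      refine (abs_lg_mon W (.inl i) hNp (ν k)).trans ?_
      have h1 : ∑ i', |(ν k i' : ℝ)| * |W.lg (.inl i) (u i')| ≤ Knu k * c1 := by
        rw [hKnu]
        simp only
        rw [Finset.sum_mul]
        exact Finset.sum_le_sum fun i' _ =>
          mul_le_mul_of_nonneg_left ((hKC i hi).2 i') (abs_nonneg _)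
      exact h1.trans (mul_le_mul_of_nonneg_right (hKnu1 k) hc1pos.le)
    -- differences of the exponents are not small
    have hsmall : ∀ k l, sg k ≠ sg l → ((S1.filter (fun i =>
        |inner ℝ (sg k - sg l) (mu (.inl i))| ≤ ε * ‖sg k - sg l‖)).card : ℝ) ≤ θ' * W.D := by
      intro k l hkl
      by_contra hcon
      apply h0
      have hn0 : ‖sg k - sg l‖ ≠ 0 := norm_ne_zero_iff.mpr (sub_ne_zero.mpr hkl)
      set q : EuclideanSpace ℝ (Fin m) := ‖sg k - sg l‖⁻¹ • (sg k - sg l) with hq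
      have hq1 : ‖q‖ = 1 := by
        rw [hq, norm_smul, norm_inv, norm_norm, inv_mul_cancel₀ hn0]
      have hrq : inner ℝ r q = 0 := by
        rw [hq, inner_smul_right, inner_sub_right, (hT _).1, (hT _).1]
        simp
      refine H0 K R W (p 0) (hRp 0) (htavg hh.1) r q hr1 hq1 hrq ⟨_, (mul_le_mul_of_nonneg_right
        (min_le_right _ _) W.D_cast_pos.le).trans (not_le.mp hcon).le, fun i hi => ?_⟩
      obtain ⟨hi1, hi2⟩ := Finset.mem_filter.mp hi
      refine ⟨pσ i, (hKC i hi1).1, rfl, ?_, ?_⟩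
      · rw [hlgr i (hS1 hi1), hzero r hrV, abs_zero]
        exact hε.le
      · rw [hlgr i (hS1 hi1), hq, inner_smul_left, abs_mul]
        have h1 : |(starRingEnd ℝ) ‖sg k - sg l‖⁻¹| = ‖sg k - sg l‖⁻¹ := by
          rw [conj_trivial, abs_of_nonneg (inv_nonneg.mpr (norm_nonneg _))]
        rw [h1]
        calc ‖sg k - sg l‖⁻¹ * |inner ℝ (sg k - sg l) (mu (.inl i))|
            ≤ ‖sg k - sg l‖⁻¹ * (ε * ‖sg k - sg l‖) :=
              mul_le_mul_of_nonneg_left hi2 (inv_nonneg.mpr (norm_nonneg _))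
          _ = ε := by field_simp
    rcases HΛ K R W S1 vv sg mu A hcard hvvR hvvs hvv hAvg hmuavg hA2 hsmall with hJ | hΛ1
    · have hF0 : MvPolynomial.aeval (tz (p 0) z) F1 = 0 := HF1 K p z hp hNp hz hGz hJ
      rw [hF0, mul_zero, zero_mul]
    have hTΛ := Hsp T |Λ1| (abs_nonneg _) fun k l => (hΛ1 k l).trans (le_abs_self _)
    have hbd : ∀ (q : EuclideanSpace ℝ (Fin m)), ‖q‖ ≤ Λ2 → ∀ w,
        |inner ℝ q (mu w)| ≤ Λ2 * ‖mu w‖ := by
      intro q hq w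
      refine (abs_real_inner_le_norm _ _).trans ?_
      exact mul_le_mul_of_nonneg_right hq (norm_nonneg _)
    have hΛ2C : W.avg (fun w => Λ2 * ‖mu w‖) ≤ Λ2 * C1 := by
      rw [W.avg_mul]
      exact mul_le_mul_of_nonneg_left hmuavg hΛ20
    have hzavg : ∀ k, W.avg (fun w => max 0 (W.lg w (z k))) ≤ Λ2 * C1 := by
      intro k
      have h1 : ∀ w, max 0 (W.lg w (z k)) ≤ Λ2 * ‖mu w‖ := by
        intro w
        rw [hlgz]
        exact max_le (by positivity) ((le_abs_self _).trans (hbd _ (hTΛ _) w))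
      exact (W.avg_mono h1).trans hΛ2C
    have hB2' : W.avg (fun w => max 0 (W.lg w (p 0)) + ∑ k, max 0 (W.lg w (z k))) ≤ B2 := by
      rw [W.avg_add, W.avg_sum]
      have h1 : ∑ k, W.avg (fun w => max 0 (W.lg w (z k))) ≤ ∑ _k : Fin (e + 1), Λ2 * C1 :=
        Finset.sum_le_sum fun k _ => hzavg k
      rw [Finset.sum_const, Finset.card_univ, Fintype.card_fin, nsmul_eq_mul] at h1
      push_cast at h1
      rw [hB2]
      have := htavg hh.1
      linarith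
    have hfinal := HQ K R W (p 0) z (hRp 0) (fun k => (hRz k).1) hz hB2' r
      (fun k => T (Pi.single k 1)) hr1 (fun k => hTΛ k) ⟨S1, hcard, fun i hi => ?_⟩
    · rw [hfinal, mul_zero]
    · have hi0' := hS1 hi
      refine ⟨pσ i, (hKC i hi).1, rfl, ?_, fun k => ?_, ?_⟩
      · rw [hlgr i hi0', hzero r hrV]
      · rw [← W.lg_inl, hlgz, hlgr i hi0']
      · rw [← hσu i hi0', GG]
        have h1 := congrArg (W.σ i) hvvs
        rw [map_zero, map_sum] at h1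
        rw [← h1]
        refine Finset.sum_congr rfl fun k _ => ?_
        rw [hvvdef, map_mul, map_prod, hγt, map_mon]
        simp only [map_pow]

end Pool.Agent.HF
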