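import Mathlib
import Pool.Agent.Lib.MP_c95b3b_ag_HF.Defs
import Pool.Agent.Lib.MP_c95b3b_ag_HF.MainH
import Pool.Agent.Lib.MP_c95b3b_ag_RS.ComplexD

/-! Project HF (MP_c95b3b_ag), module CX: complex points. -/

namespace Pool.Agent.HF

open Pool.Agent.L3 Pool.Agent.RS Module

namespace CX

section
variable {A : Type} [CommRing A] {d M g m : ℕ}

theorem map_prod_units {L : Type} [Field L] (s : A →+* L) (y : Fin m → Aˣ) (r : Fin m → ℤ) :
    s ((∏ j, y j ^ r j : Aˣ) : A) = ∏ j, (s (y j : A)) ^ r j := CXD.map_um s y r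

theorem map_rel {L : Type} [Field L] (s : A →+* L) (w : Fin M → Aˣ) (n : Fin m → Fin M → ℤ)
    (z : Fin d → Aˣ) (r : (Fin d → ℤ) × (Fin m → ℤ)) :
    s ((CXD.um z r.1 * ∏ j, CXD.um w (n j) ^ r.2 j : Aˣ) : A) =
      mon (fun j => s (z j : A)) r.1 * ∏ j, mon (fun i => s (w i : A)) (n j) ^ r.2 j := by
  rw [Units.val_mul, map_mul, CXD.map_um, map_prod_units]
  congr 1
  exact Finset.prod_congr rfl fun j _ => by rw [CXD.map_um]

theorem map_GG {L : Type} [Field L] (s : A →+* L) (w : Fin M → Aˣ) (ν : Fin g → Fin M → ℤ)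
    (b : Fin g → Fin d → ℕ) (z : Fin d → Aˣ) :
    s (∑ k, (CXD.um w (ν k) : A) * ∏ j, (z j : A) ^ b k j) =
      GG (fun i => s (w i : A)) ν b (fun j => s (z j : A)) := by
  rw [map_sum, GG]
  refine Finset.sum_congr rfl fun k _ => ?_
  rw [map_mul, CXD.map_um, map_prod]
  simp only [map_pow]

theorem map_tz {F G : Type} {e : ℕ} (f : F → G) (t : F) (z : Fin (e + 1) → F) :
    (fun i => f (tz t z i)) = tz (f t) (fun j => f (z j)) := by
  funext i
  refine Fin.cases ?_ (fun j => ?_) i <;> rfl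

end

end CX

theorem hf_complex (K0 : Type) [Field K0] [NumberField K0] (φ0 : K0 →+* ℂ) {M m e g : ℕ}
    (he : 1 ≤ e) (P : P2 K0) (N : Fin M → P2 K0) (n : Fin m → Fin M → ℤ)
    (ν : Fin g → Fin M → ℤ) (b : Fin g → Fin (e + 1) → ℕ) (hD : Data φ0 P N n ν b) :
    ∃ F : MvPolynomial (Fin (e + 1)) ℂ, F ≠ 0 ∧
      ∀ (p : Fin 2 → ℂ) (z : Fin (e + 1) → ℂ),
        MvPolynomial.eval p (MvPolynomial.map φ0 P) = 0 →
        (∀ i, vN (fun i => MvPolynomial.map φ0 (N i)) p i ≠ 0) → (∀ j, z j ≠ 0) →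
        GG (vN (fun i => MvPolynomial.map φ0 (N i)) p) ν b z = 0 →
        (∃ Λ : Submodule ℤ ((Fin (e + 1) → ℤ) × (Fin m → ℤ)), e + 2 ≤ finrank ℤ Λ ∧
          ∀ r ∈ Λ, mon z r.1 *
            ∏ j, mon (vN (fun i => MvPolynomial.map φ0 (N i)) p) (n j) ^ r.2 j = 1) →
        MvPolynomial.eval (tz (p 0) z) F = 0 := by
  obtain ⟨F, hF, H⟩ := hf_nf K0 φ0 he P N n ν b hD
  letI : Algebra K0 ℂ := φ0.toAlgebra
  have halg : algebraMap K0 ℂ = φ0 := rfl
  refine ⟨MvPolynomial.map φ0 F, ?_, fun p z hP hN hz hG hΛ => ?_⟩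
  · intro h
    apply hF
    apply MvPolynomial.map_injective φ0 φ0.injective
    rw [h, map_zero]
  obtain ⟨Λ, hΛ3, hΛ⟩ := hΛ
  have hae : ∀ Q : P2 K0, MvPolynomial.eval p (MvPolynomial.map φ0 Q) =
      MvPolynomial.aeval p Q := fun Q => by
    rw [MvPolynomial.eval_map, MvPolynomial.aeval_def, halg]
  have hvN : vN (fun i => MvPolynomial.map φ0 (N i)) p = fun i => MvPolynomial.aeval p (N i) := by
    funext i
    rw [vN, hae]
  rw [hae] at hP
  simp only [hvN] at hN hG hΛ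
  rw [MvPolynomial.eval_map, ← halg, ← MvPolynomial.aeval_def]
  by_contra hne
  let d : ℂ := MvPolynomial.aeval (tz (p 0) z) F
  have hd : d ≠ 0 := hne
  let T : Set ℂ := (Set.range p ∪ {d⁻¹}) ∪
    Set.range (fun i => (MvPolynomial.aeval p (N i) : ℂ)⁻¹) ∪
    (Set.range z ∪ Set.range (fun i => (z i)⁻¹))
  have hTfin : T.Finite := (((Set.finite_range _).union (Set.toFinite _)).union
    (Set.finite_range _)).union ((Set.finite_range _).union (Set.finite_range _))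
  let A : Subalgebra K0 ℂ := Algebra.adjoin K0 T
  have hA : Algebra.FiniteType K0 A := by
    rw [← Subalgebra.fg_iff_finiteType]
    exact Subalgebra.fg_def.mpr ⟨T, hTfin, rfl⟩
  obtain ⟨K, _, _, _, ⟨φ⟩⟩ := FD.exists_point K0 A
  have hTA : ∀ z ∈ T, z ∈ A := fun z hz => Algebra.subset_adjoin hz
  let p' : Fin 2 → A := fun i => ⟨p i, hTA _ (Or.inl (Or.inl (Or.inl ⟨i, rfl⟩)))⟩
  let z' : Fin (e + 1) → Aˣ := fun i => ⟨⟨z i, hTA _ (Or.inr (Or.inl ⟨i, rfl⟩))⟩,
    ⟨(z i)⁻¹, hTA _ (Or.inr (Or.inr ⟨i, rfl⟩))⟩,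
    Subtype.ext (mul_inv_cancel₀ (hz i)), Subtype.ext (inv_mul_cancel₀ (hz i))⟩
  let E' : A := ⟨d⁻¹, hTA _ (Or.inl (Or.inl (Or.inr rfl)))⟩
  have hval : ∀ Q : P2 K0, A.val (MvPolynomial.aeval p' Q) = MvPolynomial.aeval p Q := fun Q =>
    MvPolynomial.comp_aeval_apply (f := p') A.val Q
  let w : Fin M → Aˣ := fun i => ⟨MvPolynomial.aeval p' (N i),
    ⟨(MvPolynomial.aeval p (N i) : ℂ)⁻¹, hTA _ (Or.inl (Or.inr ⟨i, rfl⟩))⟩,
    Subtype.ext (by
      change A.val (MvPolynomial.aeval p' (N i)) * _ = 1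
      rw [hval]
      exact mul_inv_cancel₀ (hN i)),
    Subtype.ext (by
      change _ * A.val (MvPolynomial.aeval p' (N i)) = 1
      rw [hval]
      exact inv_mul_cancel₀ (hN i))⟩
  have hw : ∀ i, A.subtype (w i : A) = MvPolynomial.aeval p (N i) := fun i => hval (N i)
  have hφ : ∀ Q : P2 K0, (φ : A →+* K) (MvPolynomial.aeval p' Q) =
      MvPolynomial.aeval (fun i => (φ : A →+* K) (p' i)) Q := fun Q =>
    MvPolynomial.comp_aeval_apply (f := p') φ Q
  have hwφ : ∀ i, (φ : A →+* K) (w i : A) =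
      MvPolynomial.aeval (fun i => (φ : A →+* K) (p' i)) (N i) := fun i => hφ (N i)
  -- the equations in `A`
  have e0 : (MvPolynomial.aeval p' P : A) = 0 := Subtype.ext (by
    change A.val (MvPolynomial.aeval p' P) = 0
    rw [hval, hP])
  have e1 : ∑ k, (CXD.um w (ν k) : A) * ∏ j, (z' j : A) ^ b k j = 0 := by
    apply Subtype.val_injective
    change A.subtype (∑ k, (CXD.um w (ν k) : A) * ∏ j, (z' j : A) ^ b k j) = 0
    rw [CX.map_GG A.subtype w ν b z']
    simp only [hw]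
    exact hG
  have e2 : ∀ x ∈ Λ, (CXD.um z' x.1 * ∏ j, CXD.um w (n j) ^ x.2 j : Aˣ) = 1 := by
    intro x hx
    apply Units.ext
    apply Subtype.val_injective
    change A.subtype ((CXD.um z' x.1 * ∏ j, CXD.um w (n j) ^ x.2 j : Aˣ) : A) = 1
    rw [CX.map_rel A.subtype w n z' x]
    simp only [hw]
    exact hΛ x hx
  have h0 := H K (fun i => (φ : A →+* K) (p' i)) (fun j => (φ : A →+* K) (z' j : A))
    (by rw [← hφ, e0, map_zero])
    (fun i => by
      rw [← hwφ]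
      exact ((w i).map ((φ : A →+* K) : A →* K)).ne_zero)
    (fun j => ((z' j).map ((φ : A →+* K) : A →* K)).ne_zero)
    (by
      have h1 := congrArg (φ : A →+* K) e1
      rw [CX.map_GG (φ : A →+* K) w ν b z', map_zero] at h1
      simp only [hwφ] at h1
      exact h1)
    ⟨Λ, hΛ3, by
      intro x hx
      have h1 := CX.map_rel (φ : A →+* K) w n z' x
      rw [e2 x hx, Units.val_one, map_one] at h1
      simp only [hwφ] at h1
      exact h1.symm⟩
  let G : A := MvPolynomial.aeval (tz (p' 0) (fun j => (z' j : A))) F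
  have h1 : φ G = 0 := by
    rw [← h0]
    have h2 : φ G = MvPolynomial.aeval (fun i => φ (tz (p' 0) (fun j => (z' j : A)) i)) F := by
      rw [← MvPolynomial.comp_aeval_apply]
    rw [h2, CX.map_tz]
    rfl
  have h2 : A.val G = d := by
    have h2 : A.val G = MvPolynomial.aeval
        (fun i => A.val (tz (p' 0) (fun j => (z' j : A)) i)) F := by
      rw [← MvPolynomial.comp_aeval_apply]
    rw [h2, CX.map_tz]
    rfl
  have h3 : G * E' = 1 := Subtype.ext (by
    change A.val G * d⁻¹ = 1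
    rw [h2]
    exact mul_inv_cancel₀ hd)
  have h4 := congrArg φ h3
  rw [map_mul, h1, zero_mul, map_one] at h4
  exact zero_ne_one h4

end Pool.Agent.HF
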