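import Mathlib
import Pool.Agent.Lib.MP_c95b3b_ag_HF.Defs
import Pool.Agent.Lib.MP_c95b3b_ag_HF.ComplexH
import Pool.Agent.Lib.MP_c95b3b_ag_HF.Bezout

/-! Project HF (MP_c95b3b_ag), module FN: the final statement (coefficients in a number field,
points where some coefficient or the derivative vanishes). -/

namespace Pool.Agent.HF

open Pool.Agent.L3 Pool.Agent.RS Module

namespace FN

theorem mon_single {F : Type} [Field F] {M : ℕ} (v : Fin M → F) (i : Fin M) :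
    mon v (Pi.single i 1) = v i := by
  rw [mon, Finset.prod_eq_single i]
  · rw [Pi.single_eq_same, zpow_one]
  · intro j _ hj
    rw [Pi.single_eq_of_ne hj, zpow_zero]
  · intro h
    exact absurd (Finset.mem_univ i) h

theorem mon_single_sub {F : Type} [Field F] {M : ℕ} {v : Fin M → F} (hv : ∀ i, v i ≠ 0)
    (i i' : Fin M) : mon v (Pi.single i 1 - Pi.single i' 1) = v i / v i' := by
  rw [sub_eq_add_neg, mon_add hv, mon_neg, mon_single, mon_single, div_eq_mul_inv]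

theorem pd_coeff {F : Type} [Field F] (P : P2 F) (s : Fin 2 →₀ ℕ) :
    MvPolynomial.coeff s (MvPolynomial.pderiv 1 P) =
      MvPolynomial.coeff (s + Finsupp.single 1 1) P * (s 1 + 1) := by
  exact MvPolynomial.coeff_pderiv P s

theorem pd_ne {P : P2 ℂ} (h1 : P.degreeOf 1 ≠ 0) : MvPolynomial.pderiv 1 P ≠ 0 := by
  intro h
  apply h1
  rw [← Nat.le_zero, MvPolynomial.degreeOf_le_iff]
  intro s hs
  by_contra h2
  have h3 : 1 ≤ s 1 := by omega
  have h4 := congrArg (MvPolynomial.coeff (s - Finsupp.single 1 1)) h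
  rw [pd_coeff, MvPolynomial.coeff_zero, tsub_add_cancel_of_le
    (Finsupp.single_le_iff.2 h3)] at h4
  rcases mul_eq_zero.1 h4 with h5 | h5
  · exact (MvPolynomial.mem_support_iff.1 hs) h5
  · exact Nat.cast_add_one_ne_zero _ h5

theorem pd_deg {P : P2 ℂ} (h1 : P.degreeOf 1 ≠ 0) :
    (MvPolynomial.pderiv 1 P).degreeOf 1 < P.degreeOf 1 := by
  rw [MvPolynomial.degreeOf_lt_iff (Nat.pos_of_ne_zero h1)]
  intro s hs
  rw [MvPolynomial.mem_support_iff, pd_coeff] at hs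
  have h2 := left_ne_zero_of_mul hs
  have h3 := MvPolynomial.le_degreeOf_of_mem_support 1 (MvPolynomial.mem_support_iff.2 h2)
  rw [Finsupp.add_apply, Finsupp.single_eq_same] at h3
  omega

theorem pd_ndvd {P : P2 ℂ} (h1 : P.degreeOf 1 ≠ 0) : ¬ P ∣ MvPolynomial.pderiv 1 P := by
  rintro ⟨R, hR⟩
  have h2 := pd_ne h1
  have h3 := pd_deg h1
  rw [hR] at h2 h3
  rw [MvPolynomial.degreeOf_mul_eq (left_ne_zero_of_mul h2) (right_ne_zero_of_mul h2)] at h3
  omega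

theorem eval_aeval {n : ℕ} (i : Fin n) (x : Fin n → ℂ) (w : Polynomial ℂ) :
    MvPolynomial.eval x (Polynomial.aeval (MvPolynomial.X i : MvPolynomial (Fin n) ℂ) w) =
      w.eval (x i) := by
  rw [← Polynomial.coe_aeval_eq_eval]
  have h := Polynomial.aeval_algHom_apply (MvPolynomial.aeval (R := ℂ) x)
    (MvPolynomial.X i : MvPolynomial (Fin n) ℂ) w
  rw [MvPolynomial.aeval_X] at h
  rw [← MvPolynomial.coe_aeval_eq_eval]
  exact h.symm

theorem aeval_X_ne {n : ℕ} (i : Fin n) {w : Polynomial ℂ} (hw : w ≠ 0) :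
    Polynomial.aeval (MvPolynomial.X i : MvPolynomial (Fin n) ℂ) w ≠ 0 := by
  intro h
  apply hw
  refine Polynomial.funext fun t => ?_
  have h1 := congrArg (MvPolynomial.eval (fun _ => t)) h
  rw [eval_aeval, map_zero] at h1
  rw [h1, Polynomial.eval_zero]

/-- restriction to a vertical line -/
noncomputable def line (t : ℂ) (P : P2 ℂ) : Polynomial ℂ :=
  MvPolynomial.aeval ![Polynomial.C t, Polynomial.X] P

theorem eval_line (t s : ℂ) (P : P2 ℂ) : (line t P).eval s = MvPolynomial.eval ![t, s] P := by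
  induction P using MvPolynomial.induction_on with
  | C a => simp [line]
  | add p q hp hq =>
    rw [line, map_add, Polynomial.eval_add, map_add, ← hp, ← hq]
    rfl
  | mul_X p i hp =>
    rw [line, map_mul, Polynomial.eval_mul, map_mul, ← hp, MvPolynomial.aeval_X,
      MvPolynomial.eval_X]
    congr 1
    fin_cases i <;> simp

theorem deriv_line (t : ℂ) (P : P2 ℂ) :
    Polynomial.derivative (line t P) = line t (MvPolynomial.pderiv 1 P) := by
  induction P using MvPolynomial.induction_on with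
  | C a => simp [line]
  | add p q hp hq =>
    simp only [line, map_add] at hp hq ⊢
    rw [hp, hq]
  | mul_X p i hp =>
    simp only [line] at hp ⊢
    rw [map_mul, Polynomial.derivative_mul, hp, MvPolynomial.pderiv_mul, map_add, map_mul,
      map_mul, MvPolynomial.aeval_X]
    congr 2
    fin_cases i
    · simp [MvPolynomial.pderiv_X]
    · simp [MvPolynomial.pderiv_X]

/-- a polynomial which vanishes on an irreducible curve is a multiple of its equation -/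
theorem nullst {P : P2 ℂ} (hP : Irreducible P) (h1 : P.degreeOf 1 ≠ 0) {H : P2 ℂ}
    (hH : ∀ p, MvPolynomial.eval p P = 0 → MvPolynomial.eval p H = 0) : P ∣ H := by
  by_contra hn
  obtain ⟨w, hw, hw'⟩ := bezout P H hP h1 hn
  have h2 : Polynomial.aeval (MvPolynomial.X 0 : P2 ℂ) w * MvPolynomial.pderiv 1 P ≠ 0 :=
    mul_ne_zero (aeval_X_ne 0 hw) (pd_ne h1)
  obtain ⟨x, hx⟩ : ∃ x : Fin 2 → ℂ, MvPolynomial.eval x
      (Polynomial.aeval (MvPolynomial.X 0 : P2 ℂ) w * MvPolynomial.pderiv 1 P) ≠ 0 := by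
    by_contra h3
    push Not at h3
    exact h2 (MvPolynomial.funext fun x => by rw [h3 x, map_zero])
  rw [map_mul, eval_aeval] at hx
  have hx1 := left_ne_zero_of_mul hx
  have hx2 := right_ne_zero_of_mul hx
  have hdeg : (line (x 0) P).degree ≠ 0 := by
    intro h3
    have h4 := Polynomial.eq_C_of_degree_eq_zero h3
    have h5 := deriv_line (x 0) P
    rw [h4, Polynomial.derivative_C] at h5
    apply hx2
    have h6 : x = ![x 0, x 1] := by
      funext i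
      fin_cases i <;> rfl
    rw [h6, ← eval_line, ← h5, Polynomial.eval_zero]
  obtain ⟨s, hs⟩ := IsAlgClosed.exists_root _ hdeg
  rw [Polynomial.IsRoot.def, eval_line] at hs
  exact hx1 (hw' ℂ (RingHom.id ℂ) ![x 0, s] hs (hH _ hs))


/-- index type of the functions which have to be units -/
abbrev Ix (m g : ℕ) : Type := (Fin m ⊕ Fin m) ⊕ (Fin g ⊕ Unit)

/-- the numbering -/
noncomputable def E (m g : ℕ) : Ix m g ≃ Fin (Fintype.card (Ix m g)) := Fintype.equivFin _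

/-- the functions -/
noncomputable def Ni {F : Type} [Field F] {m g : ℕ} (P : P2 F) (xn xd : Fin m → P2 F)
    (γ : Fin g → P2 F) : Ix m g → P2 F :=
  Sum.elim (Sum.elim xn xd) (Sum.elim γ (fun _ => MvPolynomial.pderiv 1 P))

/-- the numbered functions -/
noncomputable def NN {F : Type} [Field F] {m g : ℕ} (P : P2 F) (xn xd : Fin m → P2 F)
    (γ : Fin g → P2 F) (i : Fin (Fintype.card (Ix m g))) : P2 F :=
  Ni P xn xd γ ((E m g).symm i)

/-- exponents of `x j` -/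
noncomputable def nn (m g : ℕ) (j : Fin m) : Fin (Fintype.card (Ix m g)) → ℤ :=
  Pi.single (E m g (.inl (.inl j))) 1 - Pi.single (E m g (.inl (.inr j))) 1

/-- exponents of `γ k` -/
noncomputable def νν (m g : ℕ) (k : Fin g) : Fin (Fintype.card (Ix m g)) → ℤ :=
  Pi.single (E m g (.inr (.inl k))) 1

section
variable {F : Type} [Field F] {m g : ℕ} (P : P2 F) (xn xd : Fin m → P2 F) (γ : Fin g → P2 F)

theorem NN_xn (j : Fin m) : NN P xn xd γ (E m g (.inl (.inl j))) = xn j := by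
  rw [NN, Equiv.symm_apply_apply]; rfl

theorem NN_xd (j : Fin m) : NN P xn xd γ (E m g (.inl (.inr j))) = xd j := by
  rw [NN, Equiv.symm_apply_apply]; rfl

theorem NN_γ (k : Fin g) : NN P xn xd γ (E m g (.inr (.inl k))) = γ k := by
  rw [NN, Equiv.symm_apply_apply]; rfl

theorem NN_pd : NN P xn xd γ (E m g (.inr (.inr ()))) = MvPolynomial.pderiv 1 P := by
  rw [NN, Equiv.symm_apply_apply]; rfl

theorem forall_NN {p : P2 F → Prop} : (∀ i, p (NN P xn xd γ i)) ↔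
    (∀ j, p (xn j)) ∧ (∀ j, p (xd j)) ∧ (∀ k, p (γ k)) ∧ p (MvPolynomial.pderiv 1 P) := by
  constructor
  · intro h
    refine ⟨fun j => ?_, fun j => ?_, fun k => ?_, ?_⟩
    · rw [← NN_xn P xn xd γ j]; exact h _
    · rw [← NN_xd P xn xd γ j]; exact h _
    · rw [← NN_γ P xn xd γ k]; exact h _
    · rw [← NN_pd P xn xd γ]; exact h _
  · rintro ⟨h1, h2, h3, h4⟩ i
    rw [NN]
    rcases (E m g).symm i with (j | j) | (k | u)
    · exact h1 j
    · exact h2 j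
    · exact h3 k
    · exact h4

end

theorem map_NN {F G : Type} [Field F] [Field G] (φ : F →+* G) {m g : ℕ} (P : P2 F)
    (xn xd : Fin m → P2 F) (γ : Fin g → P2 F) (i : Fin (Fintype.card (Ix m g))) :
    MvPolynomial.map φ (NN P xn xd γ i) = NN (MvPolynomial.map φ P)
      (fun j => MvPolynomial.map φ (xn j)) (fun j => MvPolynomial.map φ (xd j))
      (fun k => MvPolynomial.map φ (γ k)) i := by
  rw [NN, NN]
  rcases (E m g).symm i with (j | j) | (k | u)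
  · rfl
  · rfl
  · rfl
  · exact MvPolynomial.pderiv_map.symm

section
variable {m g : ℕ} (P : P2 ℂ) (xn xd : Fin m → P2 ℂ) (γ : Fin g → P2 ℂ)

theorem mon_nn {p : Fin 2 → ℂ} (hp : ∀ i, vN (NN P xn xd γ) p i ≠ 0) (j : Fin m) :
    mon (vN (NN P xn xd γ) p) (nn m g j) =
      MvPolynomial.eval p (xn j) / MvPolynomial.eval p (xd j) := by
  rw [nn, mon_single_sub hp, vN, vN, NN_xn, NN_xd]

theorem mon_νν (p : Fin 2 → ℂ) (k : Fin g) :
    mon (vN (NN P xn xd γ) p) (νν m g k) = MvPolynomial.eval p (γ k) := by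
  rw [νν, mon_single, vN, NN_γ]

theorem vN_iff (p : Fin 2 → ℂ) : (∀ i, vN (NN P xn xd γ) p i ≠ 0) ↔
    (∀ j, MvPolynomial.eval p (xn j) ≠ 0) ∧ (∀ j, MvPolynomial.eval p (xd j) ≠ 0) ∧
      (∀ k, MvPolynomial.eval p (γ k) ≠ 0) ∧
      MvPolynomial.eval p (MvPolynomial.pderiv 1 P) ≠ 0 :=
  forall_NN P xn xd γ (p := fun Q => MvPolynomial.eval p Q ≠ 0)

theorem lgs_nn (r : Fin m → ℝ) {p : Fin 2 → ℂ} (hp : ∀ i, vN (NN P xn xd γ) p i ≠ 0) :
    lgs (nvec (nn m g) r) (vN (NN P xn xd γ) p) =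
      ∑ j, r j * Real.log ‖MvPolynomial.eval p (xn j) / MvPolynomial.eval p (xd j)‖ := by
  rw [lgs_nvec _ _ hp]
  exact Finset.sum_congr rfl fun j _ => by rw [mon_nn P xn xd γ hp j]

/-- multiplicative independence modulo constants, on a smaller set of points -/
theorem ind_aux (hP : Irreducible P) (h1 : P.degreeOf 1 ≠ 0)
    (hxn : ∀ j, ¬ P ∣ xn j) (hxd : ∀ j, ¬ P ∣ xd j) (hγ : ∀ k, ¬ P ∣ γ k) (a : Fin m → ℤ)
    (c : ℂ) (hc : ∀ p : Fin 2 → ℂ, MvPolynomial.eval p P = 0 →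
      (∀ i, vN (NN P xn xd γ) p i ≠ 0) →
      ∏ j, mon (vN (NN P xn xd γ) p) (nn m g j) ^ a j = c) (p : Fin 2 → ℂ)
    (hp : MvPolynomial.eval p P = 0)
    (hp' : ∀ j, MvPolynomial.eval p (xn j) ≠ 0 ∧ MvPolynomial.eval p (xd j) ≠ 0) :
    ∏ j, (MvPolynomial.eval p (xn j) / MvPolynomial.eval p (xd j)) ^ a j = c := by
  classical
  have hprime : Prime P := UniqueFactorizationMonoid.irreducible_iff_prime.1 hP
  set A : P2 ℂ := ∏ j, (xn j ^ (a j).toNat * xd j ^ (-a j).toNat) with hA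
  set B : P2 ℂ := ∏ j, (xd j ^ (a j).toNat * xn j ^ (-a j).toNat) with hB
  have hq : ∀ q : Fin 2 → ℂ, (∀ j, MvPolynomial.eval q (xn j) ≠ 0 ∧
      MvPolynomial.eval q (xd j) ≠ 0) →
      ∏ j, (MvPolynomial.eval q (xn j) / MvPolynomial.eval q (xd j)) ^ a j =
        MvPolynomial.eval q A / MvPolynomial.eval q B := by
    intro q hq
    rw [hA, hB, map_prod, map_prod, ← Finset.prod_div_distrib]
    refine Finset.prod_congr rfl fun j _ => ?_
    rw [map_mul, map_mul, map_pow, map_pow, map_pow, map_pow]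
    obtain ⟨h2, h3⟩ := hq j
    rcases le_total 0 (a j) with h4 | h4
    · have h5 : (-a j).toNat = 0 := by omega
      rw [h5, pow_zero, pow_zero, mul_one, mul_one, ← div_pow]
      conv_lhs => rw [← Int.toNat_of_nonneg h4]
      rw [zpow_natCast]
    · have h5 : (a j).toNat = 0 := by omega
      have h6 : a j = -(((-a j).toNat : ℕ) : ℤ) := by omega
      rw [h5, pow_zero, pow_zero, one_mul, one_mul, ← div_pow]
      conv_lhs => rw [h6]
      rw [zpow_neg, zpow_natCast, ← inv_pow, inv_div]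
  have hBne : ∀ q : Fin 2 → ℂ, (∀ j, MvPolynomial.eval q (xn j) ≠ 0 ∧
      MvPolynomial.eval q (xd j) ≠ 0) → MvPolynomial.eval q B ≠ 0 := by
    intro q hq
    rw [hB, map_prod]
    refine Finset.prod_ne_zero_iff.2 fun j _ => ?_
    rw [map_mul, map_pow, map_pow]
    exact mul_ne_zero (pow_ne_zero _ (hq j).2) (pow_ne_zero _ (hq j).1)
  have hN : ∀ i, ¬ P ∣ NN P xn xd γ i :=
    (forall_NN P xn xd γ (p := fun Q => ¬ P ∣ Q)).2 ⟨hxn, hxd, hγ, pd_ndvd h1⟩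
  have h2 : P ∣ (A - MvPolynomial.C c * B) * ∏ i, NN P xn xd γ i := by
    refine nullst hP h1 fun q hq0 => ?_
    rw [map_mul, map_prod]
    by_cases hz : ∀ i, vN (NN P xn xd γ) q i ≠ 0
    · have h3 := (vN_iff P xn xd γ q).1 hz
      have h4 : ∀ j, MvPolynomial.eval q (xn j) ≠ 0 ∧ MvPolynomial.eval q (xd j) ≠ 0 :=
        fun j => ⟨h3.1 j, h3.2.1 j⟩
      have h5 := hc q hq0 hz
      rw [Finset.prod_congr rfl fun j _ => by rw [mon_nn P xn xd γ hz j], hq q h4,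
        div_eq_iff (hBne q h4)] at h5
      rw [map_sub, map_mul, MvPolynomial.eval_C, h5, sub_self, zero_mul]
    · push Not at hz
      obtain ⟨i, hi⟩ := hz
      have hi' : MvPolynomial.eval q (NN P xn xd γ i) = 0 := hi
      rw [Finset.prod_eq_zero (Finset.mem_univ i) hi', mul_zero]
  have h3 : P ∣ A - MvPolynomial.C c * B := by
    rcases hprime.dvd_or_dvd h2 with h | h
    · exact h
    · obtain ⟨i, -, hi⟩ := hprime.exists_mem_finset_dvd h
      exact absurd hi (hN i)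
  obtain ⟨R, hR⟩ := h3
  have h4 := congrArg (MvPolynomial.eval p) hR
  rw [map_mul, hp, zero_mul, map_sub, map_mul, MvPolynomial.eval_C, sub_eq_zero] at h4
  rw [hq p hp', h4, mul_div_assoc, div_self (hBne p hp'), mul_one]

end

/-- a hypersurface with self-inversive coefficients is stable under the reflection -/
theorem refl_stable {g d : ℕ} (c : Fin g → ℂ) (b : Fin g → Fin d → ℕ)
    (hb : Function.Injective b) (κ : Fin d → ℕ) (hκ : ∀ k, ∃ k', Sy b κ k k') (R : Fin d → ℝ)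
    (l : ℂ) (hl : ∀ k k', Sy b κ k k' →
      (starRingEnd ℂ) (c k * ∏ j, (R j : ℂ) ^ b k j) = l * (c k' * ∏ j, (R j : ℂ) ^ b k' j))
    (z : Fin d → ℂ) (hz : ∀ i, z i ≠ 0) (h : ∑ k, c k * ∏ i, z i ^ b k i = 0) :
    ∑ k, c k * ∏ i, (((R i ^ 2 : ℝ) : ℂ) / (starRingEnd ℂ) (z i)) ^ b k i = 0 := by
  choose s hs using hκ
  have hss : Function.Involutive s := fun k => hb (funext fun j => by
    have h1 := hs k j
    have h2 := hs (s k) j
    omega)
  have h1 : ∀ k, (starRingEnd ℂ) (c k * ∏ i, (((R i ^ 2 : ℝ) : ℂ) / (starRingEnd ℂ) (z i)) ^ b k i)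
      = l * (∏ i, ((R i : ℂ) / z i) ^ κ i) * (c (s k) * ∏ i, z i ^ b (s k) i) := by
    intro k
    have h2 := hl k (s k) (hs k)
    rw [map_mul, map_prod] at h2
    rw [map_mul, map_prod]
    have h3 : ∀ i, (starRingEnd ℂ) ((((R i ^ 2 : ℝ) : ℂ) / (starRingEnd ℂ) (z i)) ^ b k i) =
        (starRingEnd ℂ) ((R i : ℂ) ^ b k i) * ((R i : ℂ) / z i) ^ b k i := by
      intro i
      rw [map_pow, map_div₀, Complex.conj_ofReal, Complex.conj_conj, map_pow, Complex.conj_ofReal,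
        ← mul_pow]
      congr 1
      push_cast
      ring
    rw [Finset.prod_congr rfl fun i _ => h3 i, Finset.prod_mul_distrib, ← mul_assoc, h2]
    have h4 : ∀ i, ((R i : ℂ) / z i) ^ κ i * z i ^ b (s k) i =
        (R i : ℂ) ^ b (s k) i * ((R i : ℂ) / z i) ^ b k i := by
      intro i
      rw [← hs k i, pow_add, mul_assoc, ← mul_pow, div_mul_cancel₀ _ (hz i), mul_comm]
    calc l * (c (s k) * ∏ j, (R j : ℂ) ^ b (s k) j) * ∏ i, ((R i : ℂ) / z i) ^ b k i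
        = l * (c (s k) * ∏ i, ((R i : ℂ) ^ b (s k) i * ((R i : ℂ) / z i) ^ b k i)) := by
          rw [Finset.prod_mul_distrib]
          ring
      _ = l * (c (s k) * ∏ i, (((R i : ℂ) / z i) ^ κ i * z i ^ b (s k) i)) := by
          rw [Finset.prod_congr rfl fun i _ => h4 i]
      _ = _ := by
          rw [Finset.prod_mul_distrib]
          ring
  have h5 : (starRingEnd ℂ)
      (∑ k, c k * ∏ i, (((R i ^ 2 : ℝ) : ℂ) / (starRingEnd ℂ) (z i)) ^ b k i) = 0 := by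
    rw [map_sum, Finset.sum_congr rfl fun k _ => h1 k, ← Finset.mul_sum]
    have h6 := Equiv.sum_comp (hss.toPerm s) (fun k => c k * ∏ i, z i ^ b k i)
    rw [h] at h6
    have h7 : ∑ k, c (s k) * ∏ i, z i ^ b (s k) i = 0 := h6
    rw [h7, mul_zero]
  exact (map_eq_zero _).mp h5

theorem prod_rpow {m : ℕ} (x : Fin m → ℂ) (hx : ∀ j, x j ≠ 0) (r : Fin m → ℝ) :
    ∏ j, ‖x j‖ ^ r j = Real.exp (∑ j, r j * Real.log ‖x j‖) := by
  rw [Real.exp_sum]
  exact Finset.prod_congr rfl fun j _ => by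
    rw [Real.rpow_def_of_pos (norm_pos_iff.mpr (hx j)), mul_comm]

/-- the theorem for data over a number field -/
theorem final_nf (K0 : Type) [Field K0] [NumberField K0] (φ0 : K0 →+* ℂ) (m g e : ℕ)
    (he : 1 ≤ e) (P0 : P2 K0) (xn0 xd0 : Fin m → P2 K0) (γ0 : Fin g → P2 K0) (P : P2 ℂ)
    (xn xd : Fin m → P2 ℂ) (γ : Fin g → P2 ℂ) (hP0 : MvPolynomial.map φ0 P0 = P)
    (hxn0 : ∀ j, MvPolynomial.map φ0 (xn0 j) = xn j)
    (hxd0 : ∀ j, MvPolynomial.map φ0 (xd0 j) = xd j)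
    (hγ0 : ∀ k, MvPolynomial.map φ0 (γ0 k) = γ k)
    (b : Fin g → Fin (e + 1) → ℕ) (hP : Irreducible P) (h1 : P.degreeOf 1 ≠ 0)
    (hxn : ∀ j, ¬ P ∣ xn j) (hxd : ∀ j, ¬ P ∣ xd j) (hγ : ∀ k, ¬ P ∣ γ k)
    (hb : Function.Injective b) (hg : 0 < g)
    (hspan : ∀ s : Fin (e + 1) → ℝ, (∀ k l, ∑ j, s j * ((b k j : ℝ) - b l j) = 0) → s = 0)
    (hind : ∀ a : Fin m → ℤ, (∃ c : ℂ, ∀ p : Fin 2 → ℂ, MvPolynomial.eval p P = 0 →
      (∀ j, MvPolynomial.eval p (xn j) ≠ 0 ∧ MvPolynomial.eval p (xd j) ≠ 0) →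
      ∏ j, (MvPolynomial.eval p (xn j) / MvPolynomial.eval p (xd j)) ^ a j = c) → a = 0)
    (hNC : ∀ r s : Fin m → ℝ, LinearIndependent ℝ ![r, s] → ∀ ρ : ℝ, 0 < ρ →
      {p : Fin 2 → ℂ | MvPolynomial.eval p P = 0 ∧ (∀ i, ‖p i‖ ≤ ρ) ∧
        (∀ j, ρ⁻¹ ≤ ‖MvPolynomial.eval p (xn j)‖ ∧ ρ⁻¹ ≤ ‖MvPolynomial.eval p (xd j)‖) ∧
        ρ⁻¹ ≤ ‖MvPolynomial.eval p (MvPolynomial.pderiv 1 P)‖ ∧
        ∑ j, r j * Real.log ‖MvPolynomial.eval p (xn j) / MvPolynomial.eval p (xd j)‖ = 0 ∧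
        ∑ j, s j * Real.log ‖MvPolynomial.eval p (xn j) / MvPolynomial.eval p (xd j)‖ = 0}.Finite)
    (hirr : ∀ (L : Type) [Field L] (φ : MvPolynomial (Fin 2) ℂ →+* L),
      (∀ Q, φ Q = 0 ↔ P ∣ Q) → Irreducible (∑ k, MvPolynomial.monomial
        (Finsupp.equivFunOnFinite.symm (b k)) (φ (γ k)) : MvPolynomial (Fin (e + 1)) L))
    (hsym : ∀ κ : Fin (e + 1) → ℕ, (∀ k, ∃ k', ∀ j, b k j + b k' j = κ j) →
      ∀ (r : Fin m → ℝ) (μ : Fin (e + 1) → Fin m → ℝ), r ≠ 0 →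
        {p : Fin 2 → ℂ | MvPolynomial.eval p P = 0 ∧
          (∀ j, MvPolynomial.eval p (xn j) ≠ 0 ∧ MvPolynomial.eval p (xd j) ≠ 0) ∧
          (∀ k, MvPolynomial.eval p (γ k) ≠ 0) ∧
          ∏ j, ‖MvPolynomial.eval p (xn j) / MvPolynomial.eval p (xd j)‖ ^ r j = 1 ∧
          ∀ z : Fin (e + 1) → ℂ, (∀ i, z i ≠ 0) →
            ∑ k, MvPolynomial.eval p (γ k) * ∏ i, z i ^ b k i = 0 →
            ∑ k, MvPolynomial.eval p (γ k) * ∏ i, (((∏ j, ‖MvPolynomial.eval p (xn j) /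
              MvPolynomial.eval p (xd j)‖ ^ μ i j : ℝ) : ℂ) / (starRingEnd ℂ) (z i)) ^ b k i =
                0}.Finite) :
    ∃ F : MvPolynomial (Fin (e + 1)) ℂ, F ≠ 0 ∧
      ∀ (p : Fin 2 → ℂ) (z : Fin (e + 1) → ℂ), MvPolynomial.eval p P = 0 →
        (∀ j, MvPolynomial.eval p (xn j) ≠ 0 ∧ MvPolynomial.eval p (xd j) ≠ 0) →
        (∀ j, z j ≠ 0) → ∑ k, MvPolynomial.eval p (γ k) * ∏ j, z j ^ b k j = 0 →
        (∃ Λ : Submodule ℤ ((Fin (e + 1) → ℤ) × (Fin m → ℤ)), e + 2 ≤ finrank ℤ Λ ∧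
          ∀ r ∈ Λ, (∏ i, z i ^ r.1 i) *
            ∏ j, (MvPolynomial.eval p (xn j) / MvPolynomial.eval p (xd j)) ^ r.2 j = 1) →
        MvPolynomial.eval (tz (p 0) z) F = 0 := by
  classical
  have hN : ∀ i, ¬ P ∣ NN P xn xd γ i :=
    (forall_NN P xn xd γ (p := fun Q => ¬ P ∣ Q)).2 ⟨hxn, hxd, hγ, pd_ndvd h1⟩
  have hmap : (fun i => MvPolynomial.map φ0 (NN P0 xn0 xd0 γ0 i)) = NN P xn xd γ := by
    funext i
    rw [map_NN, hP0]
    congr 1
    · exact funext hxn0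
    · exact funext hxd0
    · exact funext hγ0
  have hD : Data φ0 P0 (NN P0 xn0 xd0 γ0) (nn m g) (νν m g) b := by
    refine ⟨?_, ?_, ?_, ?_, hb, hg, hspan, ?_, ?_, ?_, ?_⟩
    · rw [hP0]; exact hP
    · rw [← hP0, MvPolynomial.degreeOf_eq_sup,
        MvPolynomial.support_map_of_injective _ φ0.injective, ← MvPolynomial.degreeOf_eq_sup] at h1
      exact h1
    · rintro i ⟨R, hR⟩
      apply hN i
      rw [← hmap]
      beta_reduce
      rw [hR, map_mul, hP0]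
      exact dvd_mul_right _ _
    · exact ⟨_, NN_pd P0 xn0 xd0 γ0⟩
    · rintro a ⟨c, hc⟩
      rw [hP0, hmap] at hc
      exact hind a ⟨c, ind_aux P xn xd γ hP h1 hxn hxd hγ a c hc⟩
    · intro r s hrs ρ hρ
      rw [hP0, hmap]
      refine (hNC r s hrs ρ hρ).subset ?_
      rintro p ⟨⟨hp, hpi, hp0⟩, hp2, hp3⟩
      have hp1 : ∀ i, vN (NN P xn xd γ) p i ≠ 0 := fun i =>
        norm_ne_zero_iff.1 (lt_of_lt_of_le (inv_pos.2 hρ) (hp0 i)).ne'
      rw [lgs_nn P xn xd γ r hp1] at hp2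
      rw [lgs_nn P xn xd γ s hp1] at hp3
      have h3 := (forall_NN P xn xd γ (p := fun Q => ρ⁻¹ ≤ ‖MvPolynomial.eval p Q‖)).1 hp0
      exact ⟨hp, hpi, fun j => ⟨h3.1 j, h3.2.1 j⟩, h3.2.2.2, hp2, hp3⟩
    · rw [hP0, hmap]
      intro L _ φ hφ
      have h2 := hirr L φ hφ
      have h3 : (fun k => mon (fun i => φ (NN P xn xd γ i)) (νν m g k)) = fun k => φ (γ k) := by
        funext k
        rw [νν, mon_single, NN_γ]
      rw [h3]
      exact h2
    · intro r μ hr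
      rw [hP0, hmap]
      intro κ hκ
      refine (hsym κ hκ r (fun i j => 2 * μ i j) hr).subset ?_
      rintro p ⟨hp, hp1, hp2, l, hl⟩
      rw [lgs_nn P xn xd γ r hp1] at hp2
      have h3 := (vN_iff P xn xd γ p).1 hp1
      have hx0 : ∀ j, MvPolynomial.eval p (xn j) / MvPolynomial.eval p (xd j) ≠ 0 := fun j =>
        div_ne_zero (h3.1 j) (h3.2.1 j)
      refine ⟨hp, fun j => ⟨h3.1 j, h3.2.1 j⟩, h3.2.2.1, ?_, fun z hz hG => ?_⟩
      · rw [prod_rpow _ hx0, hp2, Real.exp_zero]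
      have h4 : ∀ i, ∏ j, ‖MvPolynomial.eval p (xn j) / MvPolynomial.eval p (xd j)‖ ^
          (2 * μ i j) = Real.exp (lgs (nvec (nn m g) (μ i)) (vN (NN P xn xd γ) p)) ^ 2 := by
        intro i
        rw [prod_rpow _ hx0, lgs_nn P xn xd γ _ hp1, ← Real.exp_nat_mul, Finset.mul_sum]
        congr 1
        exact Finset.sum_congr rfl fun j _ => by
          push_cast
          ring
      have h5 := refl_stable (fun k => MvPolynomial.eval p (γ k)) b hb κ hκ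
        (fun i => Real.exp (lgs (nvec (nn m g) (μ i)) (vN (NN P xn xd γ) p))) l
        (fun k k' hkk => by
          have h6 := hl k k' hkk
          rw [cfR, cfR, mon_νν, mon_νν] at h6
          exact h6) z hz hG
      simp only [h4]
      exact h5
  obtain ⟨F, hF, H⟩ := hf_complex K0 φ0 he P0 _ _ _ b hD
  rw [hP0, hmap] at H
  -- the remaining points
  have hprime : Prime P := UniqueFactorizationMonoid.irreducible_iff_prime.1 hP
  have hQ : ¬ P ∣ ∏ i, NN P xn xd γ i := by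
    intro h
    obtain ⟨i, -, hi⟩ := hprime.exists_mem_finset_dvd h
    exact hN i hi
  obtain ⟨w, hw, hw'⟩ := bezout P _ hP h1 hQ
  refine ⟨Polynomial.aeval (MvPolynomial.X 0) w * F, mul_ne_zero (aeval_X_ne 0 hw) hF, ?_⟩
  rintro p z hp hx hz hG ⟨Λ, hΛ, hrel⟩
  rw [map_mul, eval_aeval]
  by_cases hp1 : ∀ i, vN (NN P xn xd γ) p i ≠ 0
  · refine mul_eq_zero_of_right _ (H p z hp hp1 hz ?_ ⟨Λ, hΛ, fun r hr => ?_⟩)
    · rw [GG, ← hG]
      exact Finset.sum_congr rfl fun k _ => by rw [mon_νν]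
    · rw [← hrel r hr]
      congr 1
      exact Finset.prod_congr rfl fun j _ => by rw [mon_nn P xn xd γ hp1 j]
  · push Not at hp1
    obtain ⟨i, hi⟩ := hp1
    have hi' : MvPolynomial.eval p (NN P xn xd γ i) = 0 := hi
    refine mul_eq_zero_of_left ?_ _
    refine hw' ℂ (RingHom.id ℂ) p hp ?_
    have h2 : MvPolynomial.eval p (∏ i, NN P xn xd γ i) = 0 := by
      rw [map_prod, Finset.prod_eq_zero (Finset.mem_univ i) hi']
    exact h2

end FN

theorem hf_final (m g e : ℕ) (he : 1 ≤ e) (P : P2 ℂ) (xn xd : Fin m → P2 ℂ) (γ : Fin g → P2 ℂ)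
    (b : Fin g → Fin (e + 1) → ℕ) (hP : Irreducible P) (h1 : P.degreeOf 1 ≠ 0)
    (hxn : ∀ j, ¬ P ∣ xn j) (hxd : ∀ j, ¬ P ∣ xd j) (hγ : ∀ k, ¬ P ∣ γ k)
    (hP' : ∀ s, IsAlgebraic ℚ (P.coeff s)) (hxn' : ∀ j s, IsAlgebraic ℚ ((xn j).coeff s))
    (hxd' : ∀ j s, IsAlgebraic ℚ ((xd j).coeff s)) (hγ' : ∀ k s, IsAlgebraic ℚ ((γ k).coeff s))
    (hb : Function.Injective b) (hg : 0 < g)
    (hspan : ∀ s : Fin (e + 1) → ℝ, (∀ k l, ∑ j, s j * ((b k j : ℝ) - b l j) = 0) → s = 0)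
    (hind : ∀ a : Fin m → ℤ, (∃ c : ℂ, ∀ p : Fin 2 → ℂ, MvPolynomial.eval p P = 0 →
      (∀ j, MvPolynomial.eval p (xn j) ≠ 0 ∧ MvPolynomial.eval p (xd j) ≠ 0) →
      ∏ j, (MvPolynomial.eval p (xn j) / MvPolynomial.eval p (xd j)) ^ a j = c) → a = 0)
    (hNC : ∀ r s : Fin m → ℝ, LinearIndependent ℝ ![r, s] → ∀ ρ : ℝ, 0 < ρ →
      {p : Fin 2 → ℂ | MvPolynomial.eval p P = 0 ∧ (∀ i, ‖p i‖ ≤ ρ) ∧
        (∀ j, ρ⁻¹ ≤ ‖MvPolynomial.eval p (xn j)‖ ∧ ρ⁻¹ ≤ ‖MvPolynomial.eval p (xd j)‖) ∧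
        ρ⁻¹ ≤ ‖MvPolynomial.eval p (MvPolynomial.pderiv 1 P)‖ ∧
        ∑ j, r j * Real.log ‖MvPolynomial.eval p (xn j) / MvPolynomial.eval p (xd j)‖ = 0 ∧
        ∑ j, s j * Real.log ‖MvPolynomial.eval p (xn j) / MvPolynomial.eval p (xd j)‖ = 0}.Finite)
    (hirr : ∀ (L : Type) [Field L] (φ : MvPolynomial (Fin 2) ℂ →+* L),
      (∀ Q, φ Q = 0 ↔ P ∣ Q) → Irreducible (∑ k, MvPolynomial.monomial
        (Finsupp.equivFunOnFinite.symm (b k)) (φ (γ k)) : MvPolynomial (Fin (e + 1)) L))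
    (hsym : ∀ κ : Fin (e + 1) → ℕ, (∀ k, ∃ k', ∀ j, b k j + b k' j = κ j) →
      ∀ (r : Fin m → ℝ) (μ : Fin (e + 1) → Fin m → ℝ), r ≠ 0 →
        {p : Fin 2 → ℂ | MvPolynomial.eval p P = 0 ∧
          (∀ j, MvPolynomial.eval p (xn j) ≠ 0 ∧ MvPolynomial.eval p (xd j) ≠ 0) ∧
          (∀ k, MvPolynomial.eval p (γ k) ≠ 0) ∧
          ∏ j, ‖MvPolynomial.eval p (xn j) / MvPolynomial.eval p (xd j)‖ ^ r j = 1 ∧
          ∀ z : Fin (e + 1) → ℂ, (∀ i, z i ≠ 0) →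
            ∑ k, MvPolynomial.eval p (γ k) * ∏ i, z i ^ b k i = 0 →
            ∑ k, MvPolynomial.eval p (γ k) * ∏ i, (((∏ j, ‖MvPolynomial.eval p (xn j) /
              MvPolynomial.eval p (xd j)‖ ^ μ i j : ℝ) : ℂ) / (starRingEnd ℂ) (z i)) ^ b k i =
                0}.Finite) :
    ∃ F : MvPolynomial (Fin (e + 1)) ℂ, F ≠ 0 ∧
      ∀ (p : Fin 2 → ℂ) (z : Fin (e + 1) → ℂ), MvPolynomial.eval p P = 0 →
        (∀ j, MvPolynomial.eval p (xn j) ≠ 0 ∧ MvPolynomial.eval p (xd j) ≠ 0) →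
        (∀ j, z j ≠ 0) → ∑ k, MvPolynomial.eval p (γ k) * ∏ j, z j ^ b k j = 0 →
        (∃ Λ : Submodule ℤ ((Fin (e + 1) → ℤ) × (Fin m → ℤ)), e + 2 ≤ finrank ℤ Λ ∧
          ∀ r ∈ Λ, (∏ i, z i ^ r.1 i) *
            ∏ j, (MvPolynomial.eval p (xn j) / MvPolynomial.eval p (xd j)) ^ r.2 j = 1) →
        MvPolynomial.eval (tz (p 0) z) F = 0 := by
  classical
  set S : Set ℂ := ((P.coeffs : Set ℂ) ∪ ⋃ j, ((xn j).coeffs : Set ℂ)) ∪
    ((⋃ j, ((xd j).coeffs : Set ℂ)) ∪ ⋃ k, ((γ k).coeffs : Set ℂ)) with hS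
  have hSfin : S.Finite := ((Finset.finite_toSet _).union
    (Set.finite_iUnion fun j => Finset.finite_toSet _)).union
    ((Set.finite_iUnion fun j => Finset.finite_toSet _).union
    (Set.finite_iUnion fun j => Finset.finite_toSet _))
  have hcf : ∀ Q : P2 ℂ, (∀ s, IsAlgebraic ℚ (Q.coeff s)) → ∀ z ∈ (Q.coeffs : Set ℂ),
      IsAlgebraic ℚ z := by
    intro Q hQ z hz
    obtain ⟨s, -, rfl⟩ := MvPolynomial.mem_coeffs_iff.1 (Finset.mem_coe.1 hz)
    exact hQ s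
  let K0 : IntermediateField ℚ ℂ := IntermediateField.adjoin ℚ S
  have hfin : FiniteDimensional ℚ K0 := by
    have : Finite S := hSfin
    refine IntermediateField.finiteDimensional_adjoin fun z hz => ?_
    rcases hz with (hz | hz) | (hz | hz)
    · exact (hcf P hP' z hz).isIntegral
    · obtain ⟨j, hj⟩ := Set.mem_iUnion.1 hz
      exact (hcf _ (hxn' j) z hj).isIntegral
    · obtain ⟨j, hj⟩ := Set.mem_iUnion.1 hz
      exact (hcf _ (hxd' j) z hj).isIntegral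
    · obtain ⟨j, hj⟩ := Set.mem_iUnion.1 hz
      exact (hcf _ (hγ' j) z hj).isIntegral
  have : NumberField K0 := ⟨⟩
  have hSK : ∀ z ∈ S, z ∈ K0 := fun z hz => IntermediateField.subset_adjoin ℚ S hz
  have hex : ∀ Q : P2 ℂ, (Q.coeffs : Set ℂ) ⊆ S →
      ∃ Q0 : P2 K0, MvPolynomial.map (algebraMap K0 ℂ) Q0 = Q := by
    intro Q hQ
    have h2 : Q ∈ Set.range (MvPolynomial.map (σ := Fin 2) (algebraMap K0 ℂ)) := by
      rw [MvPolynomial.mem_range_map_iff_coeffs_subset]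
      intro z hz
      exact ⟨⟨z, hSK z (hQ hz)⟩, rfl⟩
    exact h2
  obtain ⟨P0, hP0⟩ := hex P fun z hz => Or.inl (Or.inl hz)
  choose xn0 hxn0 using fun j => hex (xn j) fun z hz =>
    Or.inl (Or.inr (Set.mem_iUnion.2 ⟨j, hz⟩))
  choose xd0 hxd0 using fun j => hex (xd j) fun z hz =>
    Or.inr (Or.inl (Set.mem_iUnion.2 ⟨j, hz⟩))
  choose γ0 hγ0 using fun j => hex (γ j) fun z hz =>
    Or.inr (Or.inr (Set.mem_iUnion.2 ⟨j, hz⟩))
  exact FN.final_nf K0 (algebraMap K0 ℂ) m g e he P0 xn0 xd0 γ0 P xn xd γ hP0 hxn0 hxd0 hγ0 b hP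
    h1 hxn hxd hγ hb hg hspan hind hNC hirr hsym

end Pool.Agent.HF
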