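import Mathlib
import Pool.Agent.Lib.MP_c95b3b_ag_HF.Defs

/-! Project HF (MP_c95b3b_ag), module LN: linear algebra. -/

namespace Pool.Agent.HF

open Pool.Agent.L3 Pool.Agent.RS Module

namespace LN

/-- the cast of integer vectors -/
def cst (m : ℕ) : (Fin m → ℤ) →ₗ[ℤ] (Fin m → ℝ) :=
  (Int.castAddHom ℝ).toIntLinearMap.compLeft (Fin m)

theorem cst_apply {m : ℕ} (a : Fin m → ℤ) (j : Fin m) : cst m a j = (a j : ℝ) := rfl

theorem indep_int {m k : ℕ} (a : Fin k → Fin m → ℤ)
    (h : LinearIndependent ℝ (fun i => cst m (a i))) : LinearIndependent ℤ a := by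
  have h1 : LinearIndependent ℤ (fun i => cst m (a i)) := by
    refine h.restrict_scalars ?_
    intro x y hxy
    simpa using hxy
  exact LinearIndependent.of_comp (cst m) h1

theorem mem_span {m : ℕ} {r : Fin m → ℝ} {Γ : Set (Fin m → ℤ)}
    (hr : ∃ (q : ℕ) (ω : Fin q → ℝ) (a : Fin q → Fin m → ℤ), (∀ l, a l ∈ Γ) ∧
      ∀ j, r j = ∑ l, ω l * a l j) : r ∈ Submodule.span ℝ (cst m '' Γ) := by
  obtain ⟨q, ω, a, ha, hr⟩ := hr
  have h1 : r = ∑ l, ω l • cst m (a l) := by
    funext j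
    rw [hr j, Finset.sum_apply]
    rfl
  rw [h1]
  exact Submodule.sum_mem _ fun l _ => Submodule.smul_mem _ _
    (Submodule.subset_span ⟨a l, ha l, rfl⟩)

end LN

theorem lin_nc {m : ℕ} (r s : Fin m → ℝ) (hrs : LinearIndependent ℝ ![r, s])
    (Γ : Set (Fin m → ℤ)) (lam : Fin m → ℝ)
    (hr : ∃ (q : ℕ) (ω : Fin q → ℝ) (a : Fin q → Fin m → ℤ), (∀ l, a l ∈ Γ) ∧
      ∀ j, r j = ∑ l, ω l * a l j)
    (hs : ∃ (q : ℕ) (ω : Fin q → ℝ) (a : Fin q → Fin m → ℤ), (∀ l, a l ∈ Γ) ∧
      ∀ j, s j = ∑ l, ω l * a l j)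
    (hr0 : ∑ j, r j * lam j = 0) (hs0 : ∑ j, s j * lam j = 0) :
    (∃ a ∈ Γ, ∃ b ∈ Γ, LinearIndependent ℤ ![a, b] ∧ ∑ j, (a j : ℝ) * lam j = 0 ∧
      ∑ j, (b j : ℝ) * lam j = 0) ∨
    ∃ a ∈ Γ, ∃ b ∈ Γ, ∃ c ∈ Γ, LinearIndependent ℤ ![a, b, c] := by
  classical
  have hrV := LN.mem_span hr
  have hsV := LN.mem_span hs
  set V := Submodule.span ℝ (LN.cst m '' Γ) with hV
  obtain ⟨t, htS, htV, htI⟩ := exists_linearIndependent ℝ (LN.cst m '' Γ)
  have hfin : Finite t := htI.finite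
  have hft : Fintype t := Fintype.ofFinite t
  have hrange : Set.range (Subtype.val : t → Fin m → ℝ) = t := Subtype.range_coe
  have hcard : finrank ℝ V = Fintype.card t := by
    have h1 := finrank_span_eq_card htI
    rw [hrange, htV] at h1
    exact h1
  have hW : Submodule.span ℝ (Set.range ![r, s]) ≤ V := by
    rw [Submodule.span_le]
    rintro _ ⟨i, rfl⟩
    fin_cases i
    · exact hrV
    · exact hsV
  have hW2 : finrank ℝ (Submodule.span ℝ (Set.range ![r, s])) = 2 := by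
    rw [finrank_span_eq_card hrs, Fintype.card_fin]
  have h2 : 2 ≤ Fintype.card t := by
    rw [← hcard, ← hW2]
    exact Submodule.finrank_mono hW
  have hpre : ∀ x : t, ∃ a ∈ Γ, LN.cst m a = x := fun x => htS x.2
  choose pre hpreΓ hpre' using hpre
  by_cases h3 : 3 ≤ Fintype.card t
  · right
    obtain ⟨g⟩ : Nonempty (Fin 3 ↪ t) := Function.Embedding.nonempty_of_card_le (by simpa using h3)
    refine ⟨pre (g 0), hpreΓ _, pre (g 1), hpreΓ _, pre (g 2), hpreΓ _, ?_⟩
    apply LN.indep_int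
    have h4 := htI.comp g g.injective
    have h5 : (fun i => LN.cst m (![pre (g 0), pre (g 1), pre (g 2)] i)) =
        (Subtype.val : t → Fin m → ℝ) ∘ g := by
      funext i
      fin_cases i
      · exact hpre' _
      · exact hpre' _
      · exact hpre' _
    rw [h5]
    exact h4
  · left
    have hc2 : Fintype.card t = 2 := by omega
    obtain ⟨g⟩ : Nonempty (Fin 2 ↪ t) := Function.Embedding.nonempty_of_card_le (by simp [hc2])
    have hWV : Submodule.span ℝ (Set.range ![r, s]) = V :=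
      Submodule.eq_of_le_of_finrank_eq hW (by rw [hW2, hcard, hc2])
    let L : (Fin m → ℝ) →ₗ[ℝ] ℝ := ∑ j, lam j • LinearMap.proj j
    have hL : ∀ v, L v = ∑ j, v j * lam j := by
      intro v
      simp only [L, LinearMap.sum_apply, LinearMap.smul_apply, LinearMap.proj_apply, smul_eq_mul]
      exact Finset.sum_congr rfl fun j _ => mul_comm _ _
    have hker : V ≤ LinearMap.ker L := by
      rw [← hWV, Submodule.span_le]
      rintro _ ⟨i, rfl⟩
      fin_cases i
      · change L r = 0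
        rw [hL, hr0]
      · change L s = 0
        rw [hL, hs0]
    have hz : ∀ x : t, ∑ j, ((pre x j : ℤ) : ℝ) * lam j = 0 := by
      intro x
      have h5 : LN.cst m (pre x) ∈ V := Submodule.subset_span ⟨_, hpreΓ x, rfl⟩
      have h6 : L (LN.cst m (pre x)) = 0 := hker h5
      rw [hL] at h6
      exact h6
    refine ⟨pre (g 0), hpreΓ _, pre (g 1), hpreΓ _, ?_, hz _, hz _⟩
    apply LN.indep_int
    have h4 := htI.comp g g.injective
    have h5 : (fun i => LN.cst m (![pre (g 0), pre (g 1)] i)) =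
        (Subtype.val : t → Fin m → ℝ) ∘ g := by
      funext i
      fin_cases i
      · exact hpre' _
      · exact hpre' _
    rw [h5]
    exact h4

end Pool.Agent.HF
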