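import Mathlib
import Pool.Agent.Lib.MP_c95b3b_ag_HF.Defs
import Pool.Agent.Lib.MP_c95b3b_ag_HF.CoverC

/-! Project HF (MP_c95b3b_ag), module LA: a local arc of common zeros of two harmonic functions. -/

namespace Pool.Agent.HF

open Pool.Agent.L3 Pool.Agent.RS Module

namespace LA

open Complex Filter Topology ComplexConjugate

/-- an analytic function with a zero of order `n` is the `n`-th power of a local coordinate -/
theorem exists_root {f : ℂ → ℂ} {z0 : ℂ} (hf : AnalyticAt ℂ f z0) (h0 : f z0 = 0)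
    (hne : ¬ ∀ᶠ z in 𝓝 z0, f z = 0) :
    ∃ (n : ℕ) (ψ : ℂ → ℂ) (b : ℂ), n ≠ 0 ∧ b ≠ 0 ∧ AnalyticAt ℂ ψ z0 ∧ ψ z0 = 0 ∧
      HasDerivAt ψ b z0 ∧ ∀ᶠ z in 𝓝 z0, f z = ψ z ^ n := by
  obtain ⟨n, g, hg, hg0, hfg⟩ := hf.exists_eventuallyEq_pow_smul_nonzero_iff.mpr hne
  have hn : n ≠ 0 := by
    rintro rfl
    have := hfg.self_of_nhds
    rw [h0, pow_zero, one_smul] at this
    exact hg0 this.symm
  obtain ⟨b, hb⟩ := IsAlgClosed.exists_pow_nat_eq (g z0) (Nat.pos_of_ne_zero hn)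
  have hb0 : b ≠ 0 := by
    rintro rfl
    rw [zero_pow hn] at hb
    exact hg0 hb.symm
  set r : ℂ → ℂ := fun z => b * Complex.exp (Complex.log (g z / g z0) / n) with hr
  have hrz : r z0 = b := by
    simp only [hr, div_self hg0, Complex.log_one, zero_div, Complex.exp_zero, mul_one]
  have hslit : g z0 / g z0 ∈ Complex.slitPlane := by
    rw [div_self hg0]
    exact one_mem_slitPlane
  have hra : AnalyticAt ℂ r z0 := by
    refine analyticAt_const.mul (AnalyticAt.cexp ?_)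
    exact ((hg.div analyticAt_const hg0).clog hslit).div analyticAt_const
      (Nat.cast_ne_zero.mpr hn)
  have hψa : AnalyticAt ℂ (fun z => (z - z0) * r z) z0 :=
    (analyticAt_id.sub analyticAt_const).mul hra
  refine ⟨n, fun z => (z - z0) * r z, b, hn, hb0, hψa, by simp, ?_, ?_⟩
  · have h1 : HasDerivAt (fun z => z - z0) 1 z0 := (hasDerivAt_id z0).sub_const z0
    have h2 := h1.mul hra.differentiableAt.hasDerivAt
    have h3 : (1 : ℂ) * r z0 + (z0 - z0) * deriv r z0 = b := by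
      rw [hrz, sub_self, zero_mul, add_zero, one_mul]
    rw [h3] at h2
    exact h2
  · have hgc : ∀ᶠ z in 𝓝 z0, g z ≠ 0 := hg.continuousAt.eventually_ne hg0
    filter_upwards [hfg, hgc] with z hz hgz
    rw [hz, mul_pow, smul_eq_mul]
    congr 1
    simp only [hr]
    rw [mul_pow, hb, ← Complex.exp_nat_mul, mul_div_cancel₀ _ (Nat.cast_ne_zero.mpr hn),
      Complex.exp_log (div_ne_zero hgz hg0), mul_div_cancel₀ _ hg0]

theorem dir_finite {n : ℕ} (hn : n ≠ 0) : {ζ : ℂ | ζ ^ (2 * n) = -1}.Finite := by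
  have h : {ζ : ℂ | ζ ^ (2 * n) = -1} ⊆
      ((Polynomial.X ^ (2 * n) - Polynomial.C (-1) : Polynomial ℂ).roots.toFinset : Set ℂ) := by
    intro ζ hζ
    have hne : (Polynomial.X ^ (2 * n) - Polynomial.C (-1) : Polynomial ℂ) ≠ 0 :=
      Polynomial.X_pow_sub_C_ne_zero (by omega) _
    simp only [Finset.mem_coe, Multiset.mem_toFinset, Polynomial.mem_roots hne,
      Polynomial.IsRoot.def, Polynomial.eval_sub, Polynomial.eval_pow, Polynomial.eval_X,
      Polynomial.eval_C]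
    rw [Set.mem_ofPred_eq] at hζ
    rw [hζ, sub_self]
  exact (Finset.finite_toSet _).subset h

/-- the direction of a point with `Re w ^ n = 0` -/
theorem exists_dir {n : ℕ} {w : ℂ} (hw : w ≠ 0) (h : (w ^ n).re = 0) :
    ∃ ζ : ℂ, ζ ^ (2 * n) = -1 ∧ ∃ r : ℝ, 0 < r ∧ w = r * ζ := by
  have hr : 0 < ‖w‖ := norm_pos_iff.mpr hw
  have hrc : (‖w‖ : ℂ) ≠ 0 := by exact_mod_cast hr.ne'
  refine ⟨w / ‖w‖, ?_, ‖w‖, hr, by field_simp⟩
  have h1 : (w ^ n) = I * ((w ^ n).im : ℂ) := by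
    apply Complex.ext
    · simp [h]
    · simp
  have h2 : ‖w ^ n‖ ^ 2 = (w ^ n).im ^ 2 := by
    rw [Complex.sq_norm, Complex.normSq_apply, h]
    ring
  have h3 : (w ^ n) ^ 2 = - ((‖w‖ ^ n) ^ 2 : ℂ) := by
    have h4 : ((‖w ^ n‖ ^ 2 : ℝ) : ℂ) = (((w ^ n).im ^ 2 : ℝ) : ℂ) := by rw [h2]
    rw [norm_pow] at h4
    push_cast at h4
    rw [h4]
    conv_lhs => rw [h1]
    rw [mul_pow, I_sq]
    ring
  rw [mul_comm 2 n, div_pow, pow_mul, h3, pow_mul, neg_div, div_self]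
  exact pow_ne_zero _ (pow_ne_zero _ hrc)

theorem re_dir {n : ℕ} {ζ : ℂ} (h : ζ ^ (2 * n) = -1) (t : ℝ) : (((t : ℂ) * ζ) ^ n).re = 0 := by
  have h1 : (ζ ^ n) ^ 2 = -1 := by rw [← pow_mul, mul_comm n 2, h]
  have h2 : (ζ ^ n).re = 0 := by
    have h3 := congrArg Complex.re h1
    have h4 := congrArg Complex.im h1
    rw [pow_two, Complex.mul_re] at h3
    rw [pow_two, Complex.mul_im] at h4
    simp only [Complex.neg_re, Complex.one_re, Complex.neg_im, Complex.one_im, neg_zero] at h3 h4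
    have h5 : (ζ ^ n).re * (ζ ^ n).im = 0 := by linarith
    rcases mul_eq_zero.mp h5 with h6 | h6
    · exact h6
    · rw [h6] at h3
      nlinarith [mul_self_nonneg (ζ ^ n).re]
  rw [mul_pow, ← Complex.ofReal_pow, Complex.re_ofReal_mul, h2, mul_zero]

/-- the one variable statement -/
theorem arc_one {M : ℕ} (h : Fin M → ℂ → ℂ) (U : Set ℂ) (hU : IsOpen U) (z0 : ℂ)
    (hz0 : z0 ∈ U) (hh : ∀ i, DifferentiableOn ℂ (h i) U) (hne : ∀ i, ∀ z ∈ U, h i z ≠ 0)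
    (d d' : Fin M → ℝ)
    (hd : ∃ᶠ z in 𝓝[≠] z0, ∑ i, (d i : ℂ) * (deriv (h i) z / h i z) ≠ 0)
    (hacc : ∃ᶠ z in 𝓝[≠] z0, lgs d (fun i => h i z) = 0 ∧ lgs d' (fun i => h i z) = 0) :
    ∃ τ : ℂ → ℂ, DifferentiableOn ℂ τ (Metric.ball 0 3) ∧
      (∀ s ∈ Metric.ball (0 : ℂ) 3, τ s ∈ U) ∧ Set.InjOn τ (Metric.ball 0 3) ∧
      ∀ y : ℝ, |y| < 3 → lgs d (fun i => h i (τ y)) = 0 ∧ lgs d' (fun i => h i (τ y)) = 0 := by
  have hU0 : z0 ∈ ArcFun.V h U z0 := ArcFun.mem_V hz0 hne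
  have hUn : ArcFun.V h U z0 ∈ 𝓝 z0 := (ArcFun.isOpen_V hU hh).mem_nhds hU0
  -- continuity: the functions vanish at `z0`
  have hcl : ∀ e : Fin M → ℝ, ContinuousAt (fun z => lgs e (fun i => h i z)) z0 := by
    intro e
    unfold lgs
    refine tendsto_finsetSum _ fun i _ => ?_
    have h1 : ContinuousAt (h i) z0 := (hh i).continuousOn.continuousAt (hU.mem_nhds hz0)
    exact (h1.norm.log (norm_ne_zero_iff.mpr (hne i z0 hz0))).tendsto.const_mul _
  have hlz : ∀ e : Fin M → ℝ, (∃ᶠ z in 𝓝[≠] z0, lgs e (fun i => h i z) = 0) →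
      lgs e (fun i => h i z0) = 0 := by
    intro e he
    by_contra hcon
    have h1 : ∀ᶠ z in 𝓝 z0, lgs e (fun i => h i z) ≠ 0 := (hcl e).eventually_ne hcon
    exact he (h1.filter_mono nhdsWithin_le_nhds)
  have hz : lgs d (fun i => h i z0) = 0 := hlz d (hacc.mono fun z hz => hz.1)
  have hz' : lgs d' (fun i => h i z0) = 0 := hlz d' (hacc.mono fun z hz => hz.2)
  set f : ℂ → ℂ := ArcFun.fz h d z0 with hf
  have hfd : ∀ z ∈ ArcFun.V h U z0,
      HasDerivAt f (∑ i, (d i : ℂ) * (deriv (h i) z / h i z)) z :=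
    fun z hz => ArcFun.hasDerivAt_fz hU hz0 hh hne hz
  have hdo : DifferentiableOn ℂ f (ArcFun.V h U z0) :=
    fun z hz => (hfd z hz).differentiableAt.differentiableWithinAt
  have hfa : AnalyticAt ℂ f z0 := hdo.analyticAt hUn
  have hf0 : f z0 = 0 := ArcFun.fz_self hz0 hne
  have hfn : ¬ ∀ᶠ z in 𝓝 z0, f z = 0 := by
    intro hcon
    have h1 : ∀ᶠ z in 𝓝 z0, ∑ i, (d i : ℂ) * (deriv (h i) z / h i z) = 0 := by
      filter_upwards [hcon.eventually_nhds, hUn] with z hz hzV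
      have h2 : HasDerivAt f 0 z := (hasDerivAt_const z (0 : ℂ)).congr_of_eventuallyEq hz
      exact (hfd z hzV).unique h2
    exact hd ((h1.filter_mono nhdsWithin_le_nhds).mono fun z hz => by simpa using hz)
  obtain ⟨n, ψ, b, hn, hb0, hψa, hψ0, hψd, hfψ⟩ := exists_root hfa hf0 hfn
  -- the local inverse
  have hcd : ContDiffAt ℂ 1 ψ z0 := hψa.contDiffAt
  have hfe := hψd.hasFDerivAt_equiv hb0
  have hstr := hcd.hasStrictFDerivAt' hfe one_ne_zero
  set χ : ℂ → ℂ := hcd.localInverse hfe one_ne_zero with hχ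
  have hχ0 : χ 0 = z0 := by
    have := hcd.localInverse_apply_image hfe one_ne_zero
    rwa [hψ0] at this
  have hleft : ∀ᶠ z in 𝓝 z0, χ (ψ z) = z := hstr.eventually_left_inverse
  have hright : ∀ᶠ y in 𝓝 (0 : ℂ), ψ (χ y) = y := by
    have := hstr.eventually_right_inverse
    rwa [hψ0] at this
  have hχc : ContDiffAt ℂ 1 χ 0 := by
    have := hcd.to_localInverse hfe one_ne_zero
    rwa [hψ0] at this
  have e1 : ∀ᶠ y in 𝓝 (0 : ℂ), ContDiffAt ℂ 1 χ y := hχc.eventually (by simp)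
  have e2 : ∀ᶠ y in 𝓝 (0 : ℂ), χ y ∈ ArcFun.V h U z0 ∧ f (χ y) = ψ (χ y) ^ n := by
    have h1 : Tendsto χ (𝓝 0) (𝓝 z0) := by
      have := hχc.continuousAt.tendsto
      rwa [hχ0] at this
    exact h1.eventually ((show ∀ᶠ z in 𝓝 z0, z ∈ ArcFun.V h U z0 from hUn).and hfψ)
  obtain ⟨ρ, hρ, hball⟩ := Metric.eventually_nhds_iff_ball.1 ((e1.and e2).and hright)
  -- the direction
  have hψne : ∀ᶠ z in 𝓝[≠] z0, ψ z ≠ 0 := by
    filter_upwards [hleft.filter_mono nhdsWithin_le_nhds, self_mem_nhdsWithin] with z hz hz2 h3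
    rw [h3, hχ0] at hz
    exact hz2 hz.symm
  have hdir : ∃ᶠ z in 𝓝[≠] z0, ∃ ζ ∈ {ζ : ℂ | ζ ^ (2 * n) = -1},
      lgs d' (fun i => h i z) = 0 ∧ ∃ r : ℝ, 0 < r ∧ ψ z = r * ζ := by
    have h1 : ∀ᶠ z in 𝓝[≠] z0, (ψ z ≠ 0 ∧ z ∈ ArcFun.V h U z0) ∧ f z = ψ z ^ n :=
      (hψne.and ((show ∀ᶠ z in 𝓝 z0, z ∈ ArcFun.V h U z0 from hUn).filter_mono
        nhdsWithin_le_nhds)).and (hfψ.filter_mono nhdsWithin_le_nhds)
    refine (hacc.and_eventually h1).mono ?_
    rintro z ⟨⟨hz1, hz2⟩, ⟨hz3, hz4⟩, hz5⟩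
    have h2 : (ψ z ^ n).re = 0 := by
      rw [← hz5, hf, ArcFun.re_fz hz0 hne hz4, hz1, hz, sub_zero]
    obtain ⟨ζ, hζ, r, hr, hw⟩ := exists_dir hz3 h2
    exact ⟨ζ, hζ, hz2, r, hr, hw⟩
  obtain ⟨ζ, hζ, hfr⟩ : ∃ ζ ∈ {ζ : ℂ | ζ ^ (2 * n) = -1}, ∃ᶠ z in 𝓝[≠] z0,
      lgs d' (fun i => h i z) = 0 ∧ ∃ r : ℝ, 0 < r ∧ ψ z = r * ζ := by
    by_contra hcon
    have h1 : ∀ ζ ∈ {ζ : ℂ | ζ ^ (2 * n) = -1}, ∀ᶠ z in 𝓝[≠] z0,
        ¬ (lgs d' (fun i => h i z) = 0 ∧ ∃ r : ℝ, 0 < r ∧ ψ z = r * ζ) := by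
      intro ζ hζ
      by_contra hc
      exact hcon ⟨ζ, hζ, hc⟩
    have h2 := (eventually_all_finite (dir_finite hn)).mpr h1
    refine hdir (h2.mono ?_)
    rintro z hz ⟨ζ, hζ, hz2⟩
    exact hz ζ hζ hz2
  have hζ1 : ‖ζ‖ = 1 := by
    have h1 := congrArg norm hζ
    rw [norm_pow, norm_neg, norm_one] at h1
    exact (pow_eq_one_iff_of_nonneg (norm_nonneg _) (by omega)).mp h1
  have hζ0 : ζ ≠ 0 := norm_ne_zero_iff.mp (by rw [hζ1]; exact one_ne_zero)
  have hs : 0 < ρ / 4 := by positivity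
  set s : ℝ := ρ / 4 with hsdef
  have hsc : (s : ℂ) ≠ 0 := by exact_mod_cast hs.ne'
  have hin : ∀ y : ℂ, y ∈ Metric.ball (0 : ℂ) 3 → (s : ℂ) * ζ * y ∈ Metric.ball (0 : ℂ) ρ := by
    intro y hy
    rw [mem_ball_zero_iff] at hy
    rw [mem_ball_zero_iff, norm_mul, norm_mul, hζ1, mul_one, Complex.norm_real,
      Real.norm_of_nonneg hs.le]
    have : s * ‖y‖ ≤ s * 3 := by gcongr
    linarith
  set τ : ℂ → ℂ := fun y => χ ((s : ℂ) * ζ * y) with hτ
  have hτV : ∀ y ∈ Metric.ball (0 : ℂ) 3, τ y ∈ ArcFun.V h U z0 := fun y hy =>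
    (hball _ (hin y hy)).1.2.1
  have hτψ : ∀ y ∈ Metric.ball (0 : ℂ) 3, ψ (τ y) = s * ζ * y := fun y hy =>
    (hball _ (hin y hy)).2
  have hτf : ∀ y ∈ Metric.ball (0 : ℂ) 3, f (τ y) = (s * ζ * y) ^ n := by
    intro y hy
    rw [← hτψ y hy]
    exact (hball _ (hin y hy)).1.2.2
  have hτd : DifferentiableOn ℂ τ (Metric.ball 0 3) := by
    intro y hy
    apply DifferentiableAt.differentiableWithinAt
    have h1 : DifferentiableAt ℂ χ ((s : ℂ) * ζ * y) :=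
      (hball _ (hin y hy)).1.1.differentiableAt one_ne_zero
    exact h1.comp y (by fun_prop)
  have hyb : ∀ y : ℝ, |y| < 3 → (y : ℂ) ∈ Metric.ball (0 : ℂ) 3 := by
    intro y hy
    rwa [mem_ball_zero_iff, Complex.norm_real, Real.norm_eq_abs]
  have hinj : Set.InjOn τ (Metric.ball 0 3) := by
    intro y hy y' hy' he
    have h1 : (s : ℂ) * ζ * y = s * ζ * y' := by rw [← hτψ y hy, ← hτψ y' hy', he]
    exact mul_left_cancel₀ (mul_ne_zero hsc hζ0) h1
  -- the second function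
  set F : ℂ → ℂ := fun y => ArcFun.fz h d' z0 (τ y) with hF
  have hFd : DifferentiableOn ℂ F (Metric.ball 0 3) := by
    intro y hy
    apply DifferentiableAt.differentiableWithinAt
    have h1 : DifferentiableAt ℂ τ y := hτd.differentiableAt (Metric.isOpen_ball.mem_nhds hy)
    exact (ArcFun.hasDerivAt_fz hU hz0 hh hne (hτV y hy)).differentiableAt.comp y h1
  have hGd : DifferentiableOn ℂ (fun y => F y + cj F y) (Metric.ball 0 3) :=
    hFd.add (differentiableOn_cj hFd)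
  have hGr : ∀ y : ℝ, |y| < 3 →
      F y + cj F y = ((2 * lgs d' (fun i => h i (τ y)) : ℝ) : ℂ) := by
    intro y hy
    rw [cj_real, Complex.add_conj, hF]
    simp only
    rw [ArcFun.re_fz hz0 hne (hτV _ (hyb y hy)), hz', sub_zero]
  have hG0 : ∀ y ∈ Metric.ball (0 : ℂ) 3, F y + cj F y = 0 := by
    have hfr2 : ∃ᶠ y in 𝓝[≠] (0 : ℂ), F y + cj F y = 0 := by
      have ht : Tendsto (fun z => ψ z / (s * ζ)) (𝓝[≠] z0) (𝓝[≠] 0) := by
        refine tendsto_nhdsWithin_iff.mpr ⟨?_, ?_⟩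
        · have h1 : ContinuousAt (fun z => ψ z / (s * ζ)) z0 := hψa.continuousAt.div_const _
          have h2 : Tendsto (fun z => ψ z / (s * ζ)) (𝓝 z0) (𝓝 0) := by
            have := h1.tendsto
            simpa only [hψ0, zero_div] using this
          exact h2.mono_left nhdsWithin_le_nhds
        · exact hψne.mono fun z hz => div_ne_zero hz (mul_ne_zero hsc hζ0)
      refine ht.frequently ?_
      have e3 : ∀ᶠ z in 𝓝[≠] z0, ψ z / (s * ζ) ∈ Metric.ball (0 : ℂ) 3 :=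
        (ht.mono_right nhdsWithin_le_nhds).eventually
          (Metric.isOpen_ball.mem_nhds (Metric.mem_ball_self (by norm_num)))
      refine (hfr.and_eventually (e3.and (hleft.filter_mono nhdsWithin_le_nhds))).mono ?_
      rintro z ⟨⟨hz1, r, hr, hz2⟩, hz3, hz4⟩
      have h1 : ψ z / (s * ζ) = ((r / s : ℝ) : ℂ) := by
        rw [hz2]
        push_cast
        field_simp
      rw [h1] at hz3 ⊢
      have h2 : |r / s| < 3 := by
        rwa [mem_ball_zero_iff, Complex.norm_real, Real.norm_eq_abs] at hz3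
      have h3 : τ ((r / s : ℝ) : ℂ) = z := by
        have h4 : (s : ℂ) * ζ * ((r / s : ℝ) : ℂ) = ψ z := by
          rw [hz2]
          push_cast
          field_simp
        simp only [hτ]
        rw [h4, hz4]
      rw [hGr _ h2, h3, hz1]
      simp
    have han : AnalyticOnNhd ℂ (fun y => F y + cj F y) (Metric.ball 0 3) :=
      hGd.analyticOnNhd Metric.isOpen_ball
    exact han.eqOn_zero_of_preconnected_of_frequently_eq_zero
      (convex_ball (0 : ℂ) 3).isPreconnected (Metric.mem_ball_self (by norm_num)) hfr2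
  refine ⟨τ, hτd, fun y hy => (hτV y hy).1, hinj, fun y hy => ⟨?_, ?_⟩⟩
  · have h1 := ArcFun.re_fz (d := d) hz0 hne (hτV _ (hyb y hy))
    rw [hz, sub_zero] at h1
    rw [← h1]
    have h2 : ArcFun.fz h d z0 (τ y) = (s * ζ * y) ^ n := hτf _ (hyb y hy)
    rw [h2]
    have h3 : (s : ℂ) * ζ * y = ((s * y : ℝ) : ℂ) * ζ := by
      push_cast
      ring
    rw [h3]
    exact re_dir hζ _
  · have h1 := hG0 _ (hyb y hy)
    rw [hGr y hy] at h1
    have h2 : 2 * lgs d' (fun i => h i (τ y)) = 0 := by exact_mod_cast h1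
    linarith

/-- the numerator of the logarithmic derivative along a graph -/
theorem eval_Om {M : ℕ} (P : P2 ℂ) (N : Fin M → P2 ℂ) (d : Fin M → ℝ) {U : Set ℂ}
    (hU : IsOpen U) {s : ℂ → ℂ} (hs : DifferentiableOn ℂ s U)
    (hsP : ∀ t ∈ U, MvPolynomial.eval ![t, s t] P = 0) {t : ℂ} (ht : t ∈ U)
    (hN : ∀ i, vN N ![t, s t] i ≠ 0) :
    MvPolynomial.eval ![t, s t] (Om P N d) =
      MvPolynomial.eval ![t, s t] (MvPolynomial.pderiv 1 P) * (∏ k, vN N ![t, s t] k) *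
        ∑ i, (d i : ℂ) * (deriv (fun t => vN N ![t, s t] i) t / vN N ![t, s t] i) := by
  have hder : HasDerivAt s (deriv s t) t := (hs.differentiableAt (hU.mem_nhds ht)).hasDerivAt
  have hhd : ∀ i, deriv (fun t => vN N ![t, s t] i) t =
      MvPolynomial.eval ![t, s t] (MvPolynomial.pderiv 0 (N i)) +
        deriv s t * MvPolynomial.eval ![t, s t] (MvPolynomial.pderiv 1 (N i)) :=
    fun i => (CV.hasDerivAt_graph (N i) hder).deriv
  have hPs : MvPolynomial.eval ![t, s t] (MvPolynomial.pderiv 0 P) +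
      deriv s t * MvPolynomial.eval ![t, s t] (MvPolynomial.pderiv 1 P) = 0 := by
    have h1 := CV.hasDerivAt_graph P hder
    have h2 : HasDerivAt (fun t => MvPolynomial.eval ![t, s t] P) 0 t := by
      refine (hasDerivAt_const t (0 : ℂ)).congr_of_eventuallyEq ?_
      filter_upwards [hU.mem_nhds ht] with t ht
      exact hsP t ht
    exact h1.unique h2
  rw [Om, map_sum, Finset.mul_sum]
  refine Finset.sum_congr rfl fun i _ => ?_
  rw [map_mul, map_mul, MvPolynomial.eval_C, map_prod, hhd i,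
    ← Finset.mul_prod_erase Finset.univ (fun k => vN N ![t, s t] k) (Finset.mem_univ i), Dv,
    map_sub, map_mul, map_mul]
  have h1 : MvPolynomial.eval ![t, s t] (MvPolynomial.pderiv 0 P) =
    - (deriv s t * MvPolynomial.eval ![t, s t] (MvPolynomial.pderiv 1 P)) := by
    linear_combination hPs
  have h2 : ∏ k ∈ Finset.univ.erase i, MvPolynomial.eval ![t, s t] (N k) =
    ∏ k ∈ Finset.univ.erase i, vN N ![t, s t] k := rfl
  rw [h1, h2]
  have h3 := hN i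
  field_simp
  ring

end LA

open Filter Topology in
theorem local_arc {M : ℕ} (P : P2 ℂ) (hP : Irreducible P) (h1 : P.degreeOf 1 ≠ 0)
    (N : Fin M → P2 ℂ) (i0 : Fin M) (hi0 : N i0 = MvPolynomial.pderiv 1 P) (d d' : Fin M → ℝ)
    (hd : ¬ P ∣ Om P N d) (ρ : ℝ) (hρ : 0 < ρ)
    (hinf : {p : Fin 2 → ℂ | p ∈ KC P N ρ ∧ lgs d (vN N p) = 0 ∧
      lgs d' (vN N p) = 0}.Infinite) :
    ∃ τ σ : ℂ → ℂ, DifferentiableOn ℂ τ (Metric.ball 0 3) ∧
      DifferentiableOn ℂ σ (Metric.ball 0 3) ∧ Set.InjOn τ (Metric.ball 0 3) ∧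
      (∀ z ∈ Metric.ball (0 : ℂ) 3, MvPolynomial.eval ![τ z, σ z] P = 0 ∧
        ∀ i, vN N ![τ z, σ z] i ≠ 0) ∧
      ∀ y : ℝ, |y| < 3 → lgs d (vN N ![τ y, σ y]) = 0 ∧ lgs d' (vN N ![τ y, σ y]) = 0 := by
  obtain ⟨p, hpK, hacc⟩ := hinf.exists_accPt_of_subset_isCompact (isCompact_KC P N ρ)
    (fun p hp => hp.1)
  have hN : ∀ i, vN N p i ≠ 0 := fun i =>
    norm_ne_zero_iff.mp ((inv_pos.mpr hρ).trans_le (hpK.2.2 i)).ne'
  obtain ⟨U, s, hU, hpU, hs, hs0, hsP, O, hO, hOx⟩ := CV.exists_implicit P p hpK.1 (by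
    rw [← hi0]; exact hN i0)
  have hder : ∀ t ∈ U, HasDerivAt s (deriv s t) t := fun t ht =>
    (hs.differentiableAt (hU.mem_nhds ht)).hasDerivAt
  set h : Fin M → ℂ → ℂ := fun i t => vN N ![t, s t] i with hh
  have hhU : ∀ i, DifferentiableOn ℂ (h i) U := fun i t ht =>
    (CV.hasDerivAt_graph (N i) (hder t ht)).differentiableAt.differentiableWithinAt
  have hv0 : ![p 0, s (p 0)] = p := by rw [hs0, CV.vec_eq]
  have hh0 : ∀ i, h i (p 0) = vN N p i := fun i => by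
    simp only [hh, hv0]
  -- the domain
  set U' : Set ℂ := U ∩ (fun t i => h i t) ⁻¹' {v : Fin M → ℂ | ∀ i, v i ≠ 0} with hU'
  have hop : IsOpen {v : Fin M → ℂ | ∀ i, v i ≠ 0} := by
    have : {v : Fin M → ℂ | ∀ i, v i ≠ 0} = ⋂ i, {v : Fin M → ℂ | v i ≠ 0} := by
      ext v
      simp
    rw [this]
    exact isOpen_iInter_of_finite fun i => isOpen_ne_fun (continuous_apply i) continuous_const
  have hU'o : IsOpen U' := by
    refine ContinuousOn.isOpen_inter_preimage ?_ hU hop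
    exact continuousOn_pi.mpr fun i => (hhU i).continuousOn
  have hpU' : p 0 ∈ U' := ⟨hpU, fun i => by
    show h i (p 0) ≠ 0
    rw [hh0]; exact hN i⟩
  have hU'U : U' ⊆ U := Set.inter_subset_left
  -- the derivative is not identically zero
  obtain ⟨w, hw0, hw⟩ := bezout P (Om P N d) hP h1 hd
  have hd2 : ∃ᶠ z in 𝓝[≠] (p 0), ∑ i, (d i : ℂ) * (deriv (h i) z / h i z) ≠ 0 := by
    have h2 : ∀ᶠ z in 𝓝[≠] (p 0), w.eval z ≠ 0 := by
      have h3 : ((w.roots.toFinset : Set ℂ) \ {p 0})ᶜ ∈ 𝓝 (p 0) :=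
        (((Finset.finite_toSet _).subset Set.sdiff_subset).isClosed.isOpen_compl).mem_nhds
          (fun h => h.2 rfl)
      filter_upwards [nhdsWithin_le_nhds h3, self_mem_nhdsWithin] with z hz hz2 h4
      refine hz ⟨?_, hz2⟩
      rw [Finset.mem_coe, Multiset.mem_toFinset, Polynomial.mem_roots hw0]
      exact h4
    have h3 : ∀ᶠ z in 𝓝[≠] (p 0), ∑ i, (d i : ℂ) * (deriv (h i) z / h i z) ≠ 0 := by
      filter_upwards [h2, nhdsWithin_le_nhds (hU'o.mem_nhds hpU')] with t ht htU h0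
      have h4 := LA.eval_Om P N d hU hs hsP (hU'U htU) (fun i => htU.2 i)
      rw [h0, mul_zero] at h4
      exact ht (hw ℂ (RingHom.id ℂ) ![t, s t] (hsP t (hU'U htU)) h4)
    exact h3.frequently
  -- the zeros accumulate
  have hacc2 : ∃ᶠ z in 𝓝[≠] (p 0), lgs d (fun i => h i z) = 0 ∧
      lgs d' (fun i => h i z) = 0 := by
    rw [accPt_iff_frequently] at hacc
    have h2 : ∃ᶠ x in 𝓝 p, x 0 ≠ p 0 ∧ lgs d (fun i => h i (x 0)) = 0 ∧
        lgs d' (fun i => h i (x 0)) = 0 := by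
      refine (hacc.and_eventually (show ∀ᶠ x in 𝓝 p, x ∈ O from hO)).mono ?_
      rintro x ⟨⟨hxp, hxK, hx1, hx2⟩, hxO⟩
      obtain ⟨hxU, hx3⟩ := hOx x hxO hxK.1
      have hvx : ![x 0, s (x 0)] = x := by rw [← hx3, CV.vec_eq]
      refine ⟨fun h => hxp ?_, ?_, ?_⟩
      · rw [← hvx, h, hv0]
      · simp only [hh, hvx]
        exact hx1
      · simp only [hh, hvx]
        exact hx2
    have h3 : ∃ᶠ t in 𝓝 (p 0), t ≠ p 0 ∧ lgs d (fun i => h i t) = 0 ∧
        lgs d' (fun i => h i t) = 0 :=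
      (continuous_apply (A := fun _ : Fin 2 => ℂ) 0).continuousAt.frequently h2
    rw [frequently_nhdsWithin_iff]
    exact h3.mono fun t ht => ⟨ht.2, ht.1⟩
  obtain ⟨τ, hτ, hτU, hinj, hval⟩ := LA.arc_one h U' hU'o (p 0) hpU'
    (fun i => (hhU i).mono hU'U) (fun i z hz => hz.2 i) d d' hd2 hacc2
  refine ⟨τ, fun y => s (τ y), hτ, ?_, hinj, ?_, ?_⟩
  · exact (hs.mono hU'U).comp hτ (fun y hy => hτU y hy)
  · intro y hy
    exact ⟨hsP _ (hU'U (hτU y hy)), fun i => (hτU y hy).2 i⟩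
  · intro y hy
    exact hval y hy

end Pool.Agent.HF
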