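import Mathlib
import Pool.Agent.Lib.MP_c95b3b_ag_HF.Defs
import Pool.Agent.Lib.MP_c95b3b_ag_HF.Rosenlicht

/-! Project HF (MP_c95b3b_ag), module RZ: integer relations from real logarithmic differentials. -/

namespace Pool.Agent.HF

open Pool.Agent.L3 Pool.Agent.RS Module

namespace RosInt

section logd
variable {L : Type} [Field L] [Algebra ℂ L] (D : Derivation ℂ L L)

theorem logd_mul {x y : L} (hx : x ≠ 0) (hy : y ≠ 0) :
    D (x * y) / (x * y) = D x / x + D y / y := by
  rw [Derivation.leibniz, smul_eq_mul, smul_eq_mul]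
  field_simp
  ring

theorem logd_prod {ι : Type*} (s : Finset ι) (f : ι → L) (hf : ∀ i, f i ≠ 0) :
    D (∏ i ∈ s, f i) / (∏ i ∈ s, f i) = ∑ i ∈ s, D (f i) / f i := by
  classical
  induction s using Finset.induction_on with
  | empty => simp
  | insert x s hx ih =>
    rw [Finset.sum_insert hx, Finset.prod_insert hx,
      logd_mul D (hf x) (Finset.prod_ne_zero_iff.2 fun i _ => hf i), ih]

theorem logd_zpow {x : L} (hx : x ≠ 0) (k : ℤ) :
    D (x ^ k) / x ^ k = (k : L) * (D x / x) := by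
  rw [Derivation.leibniz_zpow, smul_eq_mul, zsmul_eq_mul, zpow_sub_one₀ hx]
  have := zpow_ne_zero k hx
  field_simp

theorem logd_mon {M : ℕ} {v : Fin M → L} (hv : ∀ i, v i ≠ 0) (e : Fin M → ℤ) :
    D (mon v e) / mon v e = ∑ i, (e i : L) * (D (v i) / v i) := by
  unfold mon
  rw [logd_prod D _ _ fun i => zpow_ne_zero _ (hv i)]
  exact Finset.sum_congr rfl fun i _ => logd_zpow D (hv i) _

end logd

/-- real numbers are integer combinations of rationally independent numbers, up to a common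
factor -/
theorem exists_basis {m : ℕ} (r : Fin m → ℝ) : ∃ (k : ℕ) (ω : Fin k → ℝ) (a : Fin m → Fin k → ℤ)
    (T : ℤ), T ≠ 0 ∧ LinearIndependent ℚ (fun l => (ω l : ℂ)) ∧
      ∀ j, (T : ℝ) * r j = ∑ l, (a j l : ℝ) * ω l := by
  classical
  let W : Submodule ℚ ℝ := Submodule.span ℚ (Set.range r)
  have hfd : FiniteDimensional ℚ W := FiniteDimensional.span_of_finite ℚ (Set.finite_range r)
  let B := Module.finBasis ℚ W
  have hr : ∀ j, r j ∈ W := fun j => Submodule.subset_span ⟨j, rfl⟩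
  obtain ⟨T, hT⟩ := IsLocalization.exist_integer_multiples_of_finite (nonZeroDivisors ℤ)
    (fun x : Fin m × Fin (Module.finrank ℚ W) => (B.repr ⟨r x.1, hr x.1⟩ x.2 : ℚ))
  choose c hc using hT
  refine ⟨Module.finrank ℚ W, fun l => (B l : ℝ), fun j l => c (j, l), T,
    nonZeroDivisors.ne_zero T.2, ?_, ?_⟩
  · have h1 : LinearIndependent ℚ (fun l => B l) := B.linearIndependent
    have h2 := h1.map' ((Complex.ofRealCLM.toLinearMap.restrictScalars ℚ).comp W.subtype) (by
      rw [LinearMap.ker_eq_bot]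
      intro x y hxy
      have h3 : ((x : ℝ) : ℂ) = ((y : ℝ) : ℂ) := hxy
      exact Subtype.ext (Complex.ofReal_injective h3))
    exact h2
  · intro j
    have h1 : (⟨r j, hr j⟩ : W) = ∑ l, B.repr ⟨r j, hr j⟩ l • B l := (B.sum_repr _).symm
    have h2 : r j = ∑ l, ((B.repr ⟨r j, hr j⟩ l : ℚ) : ℝ) * (B l : ℝ) := by
      have h3 := congrArg (fun x : W => (x : ℝ)) h1
      simp only [Submodule.coe_sum, Submodule.coe_smul, Rat.smul_def] at h3
      exact h3
    conv_lhs => rw [h2]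
    rw [Finset.mul_sum]
    refine Finset.sum_congr rfl fun l _ => ?_
    have h4 : ((c (j, l) : ℤ) : ℚ) = (T : ℤ) • (B.repr ⟨r j, hr j⟩ l : ℚ) := hc (j, l)
    have h5 : ((c (j, l) : ℤ) : ℝ) = ((T : ℤ) : ℝ) * ((B.repr ⟨r j, hr j⟩ l : ℚ) : ℝ) := by
      have h6 := congrArg (fun x : ℚ => (x : ℝ)) h4
      simpa [zsmul_eq_mul] using h6
    rw [h5, mul_assoc]

end RosInt

open RosInt in
theorem ros_int (K : Type) [Field K] [Algebra ℂ K] (D : Derivation ℂ K K)
    (hD : ∃ x, D x ≠ 0)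
    (halg : ∀ x y : K, ∃ R : MvPolynomial (Fin 2) ℂ, R ≠ 0 ∧ MvPolynomial.aeval ![x, y] R = 0)
    {m : ℕ} (Y : Fin m → K) (hY : ∀ j, Y j ≠ 0) (r : Fin m → ℝ)
    (h : ∑ j, (r j : ℂ) • (D (Y j) / Y j) = 0) :
    ∃ (q : ℕ) (ω : Fin q → ℝ) (a : Fin q → Fin m → ℤ),
      (∀ j, r j = ∑ l, ω l * a l j) ∧ ∀ l, ∃ c : ℂ, ∏ j, Y j ^ a l j = algebraMap ℂ K c := by
  obtain ⟨k, ω, a, T, hT, hω, ha⟩ := exists_basis r
  have hT' : (T : ℝ) ≠ 0 := by exact_mod_cast hT
  refine ⟨k, fun l => ω l / T, fun l j => a j l, ?_, ?_⟩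
  · intro j
    have h1 := ha j
    have h2 : r j = (∑ l, (a j l : ℝ) * ω l) / T := by
      rw [← h1]
      field_simp
    rw [h2, Finset.sum_div]
    exact Finset.sum_congr rfl fun l _ => by ring
  · have hsum : ∑ l, (ω l : ℂ) • (D (mon Y (fun j => a j l)) / mon Y (fun j => a j l)) = 0 := by
      have h2 : (algebraMap ℂ K (T : ℂ)) * ∑ j, (r j : ℂ) • (D (Y j) / Y j) = 0 := by
        rw [h, mul_zero]
      rw [← h2, Finset.mul_sum]
      simp only [logd_mon D hY, Algebra.smul_def, Finset.mul_sum]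
      rw [Finset.sum_comm]
      refine Finset.sum_congr rfl fun j _ => ?_
      rw [← mul_assoc, ← map_mul]
      have h3 : (T : ℂ) * (r j : ℂ) = ∑ l, (ω l : ℂ) * (a j l : ℂ) := by
        have h6 := congrArg (fun x : ℝ => (x : ℂ)) (ha j)
        simp only [Complex.ofReal_mul, Complex.ofReal_sum, Complex.ofReal_intCast] at h6
        rw [h6]
        exact Finset.sum_congr rfl fun l _ => by ring
      rw [h3, map_sum, Finset.sum_mul]
      refine Finset.sum_congr rfl fun l _ => ?_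
      rw [map_mul, map_intCast]
      ring
    exact rosenlicht K D hD halg (fun l => mon Y (fun j => a j l))
      (fun l => Finset.prod_ne_zero_iff.2 fun i _ => zpow_ne_zero _ (hY i))
      (fun l => (ω l : ℂ)) hω hsum

end Pool.Agent.HF
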