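import Mathlib
import Pool.Agent.Lib.MP_c95b3b_ag_HF.Defs
import Pool.Agent.Lib.MP_c95b3b_ag_HF.LocArc
import Pool.Agent.Lib.MP_c95b3b_ag_HF.MerField
import Pool.Agent.Lib.MP_c95b3b_ag_HF.AlgCl
import Pool.Agent.Lib.MP_c95b3b_ag_HF.RosInt
import Pool.Agent.Lib.MP_c95b3b_ag_HF.ArcDep
import Pool.Agent.Lib.MP_c95b3b_ag_HF.LinNC
import Pool.Agent.Lib.MP_c95b3b_ag_HF.OmNe

/-! Project HF (MP_c95b3b_ag), module NI: the integer form of (NC). -/

namespace Pool.Agent.HF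

open Pool.Agent.L3 Pool.Agent.RS Module

namespace NI

/-- `x` is the class of the function `F` -/
def Rep (x : FractionRing An) (F : ℂ → ℂ) : Prop :=
  ∃ hF : DifferentiableOn ℂ F (Metric.ball 0 3), am F hF = x

theorem rep_am {F : ℂ → ℂ} (hF : DifferentiableOn ℂ F (Metric.ball 0 3)) : Rep (am F hF) F :=
  ⟨hF, rfl⟩

theorem Rep.eqOn {x : FractionRing An} {F G : ℂ → ℂ} (h : Rep x F) (h' : Rep x G) :
    Set.EqOn F G (Metric.ball 0 3) := by
  obtain ⟨hF, h⟩ := h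
  obtain ⟨hG, h'⟩ := h'
  exact MerField.eqOn_of_toAn (hF := hF) (hG := hG)
    (IsFractionRing.injective An (FractionRing An) (h.trans h'.symm))

theorem Rep.unique {x y : FractionRing An} {F G : ℂ → ℂ} (h : Rep x F) (h' : Rep y G)
    (he : Set.EqOn F G (Metric.ball 0 3)) : x = y := by
  obtain ⟨hF, rfl⟩ := h
  obtain ⟨hG, rfl⟩ := h'
  unfold am
  rw [MerField.toAn_congr hF hG he]

theorem Rep.congr {x : FractionRing An} {F G : ℂ → ℂ} (h : Rep x F)
    (he : Set.EqOn G F (Metric.ball 0 3)) : Rep x G := by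
  obtain ⟨hF, h1⟩ := h
  have hG : DifferentiableOn ℂ G (Metric.ball 0 3) := hF.congr he
  exact ⟨hG, (Rep.unique (rep_am hG) ⟨hF, rfl⟩ he).trans h1⟩

theorem rep_const (c : ℂ) : Rep (algebraMap ℂ (FractionRing An) c) (fun _ => c) :=
  ⟨differentiableOn_const _, rfl⟩

theorem rep_zero : Rep 0 (fun _ => 0) := by
  have h := rep_const 0
  rwa [map_zero] at h

theorem rep_one : Rep 1 (fun _ => 1) := by
  have h := rep_const 1
  rwa [map_one] at h

theorem Rep.mul {x y : FractionRing An} {F G : ℂ → ℂ} (h : Rep x F) (h' : Rep y G) :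
    Rep (x * y) (fun z => F z * G z) := by
  obtain ⟨hF, rfl⟩ := h
  obtain ⟨hG, rfl⟩ := h'
  exact ⟨hF.mul hG, map_mul (algebraMap An (FractionRing An)) (toAn F hF) (toAn G hG)⟩

theorem Rep.add {x y : FractionRing An} {F G : ℂ → ℂ} (h : Rep x F) (h' : Rep y G) :
    Rep (x + y) (fun z => F z + G z) := by
  obtain ⟨hF, rfl⟩ := h
  obtain ⟨hG, rfl⟩ := h'
  exact ⟨hF.add hG, map_add (algebraMap An (FractionRing An)) (toAn F hF) (toAn G hG)⟩

theorem Rep.ne_zero {x : FractionRing An} {F : ℂ → ℂ} (h : Rep x F) {z : ℂ}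
    (hz : z ∈ Metric.ball (0 : ℂ) 3) (hne : F z ≠ 0) : x ≠ 0 := by
  rintro rfl
  exact hne (h.eqOn rep_zero hz)

theorem Rep.inv {x : FractionRing An} {F : ℂ → ℂ} (h : Rep x F)
    (hne : ∀ z ∈ Metric.ball (0 : ℂ) 3, F z ≠ 0) : Rep x⁻¹ (fun z => (F z)⁻¹) := by
  obtain ⟨hF, rfl⟩ := h
  have hi : DifferentiableOn ℂ (fun z => (F z)⁻¹) (Metric.ball 0 3) := hF.inv hne
  refine ⟨hi, eq_inv_of_mul_eq_one_left ?_⟩
  exact Rep.unique ((rep_am hi).mul (rep_am hF)) rep_one fun z hz => inv_mul_cancel₀ (hne z hz)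

theorem Rep.pow {x : FractionRing An} {F : ℂ → ℂ} (h : Rep x F) (k : ℕ) :
    Rep (x ^ k) (fun z => F z ^ k) := by
  induction k with
  | zero => simpa only [pow_zero] using rep_one
  | succ k ih => simpa only [pow_succ] using ih.mul h

theorem Rep.zpow {x : FractionRing An} {F : ℂ → ℂ} (h : Rep x F)
    (hne : ∀ z ∈ Metric.ball (0 : ℂ) 3, F z ≠ 0) (k : ℤ) :
    Rep (x ^ k) (fun z => F z ^ k) := by
  obtain ⟨l, rfl | rfl⟩ := Int.eq_nat_or_neg k
  · simpa only [zpow_natCast] using h.pow l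
  · simpa only [zpow_neg, zpow_natCast] using (h.pow l).inv fun z hz => pow_ne_zero l (hne z hz)

theorem Rep.prod {ι : Type} (s : Finset ι) {x : ι → FractionRing An} {F : ι → ℂ → ℂ}
    (h : ∀ i, Rep (x i) (F i)) : Rep (∏ i ∈ s, x i) (fun z => ∏ i ∈ s, F i z) := by
  classical
  induction s using Finset.induction_on with
  | empty => simpa only [Finset.prod_empty] using rep_one
  | insert a s ha ih =>
    simp only [Finset.prod_insert ha]
    exact (h a).mul ih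

theorem Rep.sum {ι : Type} (s : Finset ι) {x : ι → FractionRing An} {F : ι → ℂ → ℂ}
    (h : ∀ i, Rep (x i) (F i)) : Rep (∑ i ∈ s, x i) (fun z => ∑ i ∈ s, F i z) := by
  classical
  induction s using Finset.induction_on with
  | empty => simpa only [Finset.sum_empty] using rep_zero
  | insert a s ha ih =>
    simp only [Finset.sum_insert ha]
    exact (h a).add ih

theorem Rep.mon {M : ℕ} {v : Fin M → FractionRing An} {f : ℂ → Fin M → ℂ}
    (h : ∀ i, Rep (v i) (fun z => f z i))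
    (hne : ∀ z ∈ Metric.ball (0 : ℂ) 3, ∀ i, f z i ≠ 0) (b : Fin M → ℤ) :
    Rep (mon v b) (fun z => mon (f z) b) :=
  Rep.prod Finset.univ fun i => (h i).zpow (fun z hz => hne z hz i) (b i)

theorem Rep.aeval {x y : FractionRing An} {F G : ℂ → ℂ} (hx : Rep x F) (hy : Rep y G)
    (R : MvPolynomial (Fin 2) ℂ) :
    Rep (MvPolynomial.aeval ![x, y] R) (fun z => MvPolynomial.eval ![F z, G z] R) := by
  induction R using MvPolynomial.induction_on with
  | C a =>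
    simp only [MvPolynomial.aeval_C, MvPolynomial.eval_C]
    exact rep_const a
  | add p q hp hq =>
    simp only [map_add]
    exact hp.add hq
  | mul_X p i hp =>
    simp only [map_mul, MvPolynomial.aeval_X, MvPolynomial.eval_X]
    refine hp.mul ?_
    fin_cases i
    · exact hx
    · exact hy

/-- the conjugate polynomial -/
theorem eval_cj (τ σ : ℂ → ℂ) (R : MvPolynomial (Fin 2) ℂ) (z : ℂ) :
    MvPolynomial.eval ![cj τ z, cj σ z] (MvPolynomial.map (starRingEnd ℂ) R) =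
      (starRingEnd ℂ) (MvPolynomial.eval
        ![τ ((starRingEnd ℂ) z), σ ((starRingEnd ℂ) z)] R) := by
  induction R using MvPolynomial.induction_on with
  | C a => simp only [MvPolynomial.map_C, MvPolynomial.eval_C]
  | add p q hp hq => simp only [map_add, hp, hq]
  | mul_X p i hp =>
    simp only [map_mul, MvPolynomial.map_X, MvPolynomial.eval_X, hp]
    congr 1
    fin_cases i <;> rfl

theorem conj_mem_ball {z : ℂ} (hz : z ∈ Metric.ball (0 : ℂ) 3) :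
    (starRingEnd ℂ) z ∈ Metric.ball (0 : ℂ) 3 := by
  rw [mem_ball_zero_iff] at hz ⊢
  rwa [RCLike.norm_conj]

theorem real_mem_ball {y : ℝ} (hy : |y| < 3) : (y : ℂ) ∈ Metric.ball (0 : ℂ) 3 := by
  rw [mem_ball_zero_iff, Complex.norm_real]
  exact hy

/-- an injective analytic function has a derivative which is not identically zero -/
theorem deriv_ne {τ : ℂ → ℂ} (hτ : DifferentiableOn ℂ τ (Metric.ball 0 3))
    (hinj : Set.InjOn τ (Metric.ball 0 3)) {x : FractionRing An} (hx : Rep x (deriv τ)) :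
    x ≠ 0 := by
  rintro rfl
  have h := hx.eqOn rep_zero
  have h0 : (0 : ℂ) ∈ Metric.ball (0 : ℂ) 3 := Metric.mem_ball_self (by norm_num)
  have h1 : (1 : ℂ) ∈ Metric.ball (0 : ℂ) 3 := by
    rw [mem_ball_zero_iff, norm_one]
    norm_num
  have h2 : τ 0 = τ 1 := by
    refine (convex_ball (0 : ℂ) 3).is_const_of_fderivWithin_eq_zero hτ (fun z hz => ?_) h0 h1
    rw [fderivWithin_of_isOpen Metric.isOpen_ball hz]
    have h3 : HasDerivAt τ 0 z := by
      have h4 := (hτ.differentiableAt (Metric.isOpen_ball.mem_nhds hz)).hasDerivAt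
      rwa [h hz] at h4
    have h5 := h3.hasFDerivAt.fderiv
    rw [h5]
    ext
    simp
  have h6 := hinj h0 h1 h2
  exact zero_ne_one h6

/-- the logarithmic derivatives of analytic functions which are real on the real interval -/
theorem real_log_zero {m : ℕ} (F : Fin m → ℂ → ℂ) (f : Fin m → ℝ → ℝ)
    (hF : ∀ j, DifferentiableOn ℂ (F j) (Metric.ball 0 3))
    (hf : ∀ j (y : ℝ), |y| < 3 → F j y = (f j y : ℂ)) (hne : ∀ j (y : ℝ), |y| < 3 → f j y ≠ 0)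
    (r : Fin m → ℝ) (h : ∀ y : ℝ, |y| < 3 → ∑ j, r j * Real.log (f j y) = 0) (y : ℝ)
    (hy : |y| < 3) : ∑ j, (r j : ℂ) * (deriv (F j) y / F j y) = 0 := by
  have hev : ∀ᶠ t : ℝ in nhds y, |t| < 3 :=
    (isOpen_lt continuous_abs continuous_const).mem_nhds hy
  have h1 : ∀ j, HasDerivAt (f j) (deriv (F j) y).re y := by
    intro j
    have h2 : HasDerivAt (F j) (deriv (F j) y) y :=
      ((hF j).differentiableAt (Metric.isOpen_ball.mem_nhds (real_mem_ball hy))).hasDerivAt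
    have h3 := h2.real_of_complex
    refine h3.congr_of_eventuallyEq ?_
    filter_upwards [hev] with t ht
    rw [hf j t ht, Complex.ofReal_re]
  have h1' : ∀ j, deriv (F j) y = ((deriv (F j) y).re : ℂ) := by
    intro j
    have h2 : HasDerivAt (fun t : ℝ => F j t) (deriv (F j) y) y :=
      ((hF j).differentiableAt
        (Metric.isOpen_ball.mem_nhds (real_mem_ball hy))).hasDerivAt.comp_ofReal
    have h3 : HasDerivAt (fun t : ℝ => F j t) ((deriv (F j) y).re : ℂ) y := by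
      refine (h1 j).ofReal_comp.congr_of_eventuallyEq ?_
      filter_upwards [hev] with t ht
      exact hf j t ht
    exact h2.unique h3
  have h2 : HasDerivAt (fun t : ℝ => ∑ j, r j * Real.log (f j t))
      (∑ j, r j * ((deriv (F j) y).re / f j y)) y :=
    HasDerivAt.fun_sum fun j _ => ((h1 j).log (hne j y hy)).const_mul (r j)
  have h3 : HasDerivAt (fun t : ℝ => ∑ j, r j * Real.log (f j t)) 0 y := by
    refine (hasDerivAt_const y (0 : ℝ)).congr_of_eventuallyEq ?_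
    filter_upwards [hev] with t ht
    exact h t ht
  have h4 := h2.unique h3
  have h5 := congrArg (fun x : ℝ => (x : ℂ)) h4
  simp only [Complex.ofReal_sum, Complex.ofReal_mul, Complex.ofReal_div, Complex.ofReal_zero]
    at h5
  rw [← h5]
  refine Finset.sum_congr rfl fun j _ => ?_
  rw [← h1' j, hf j y hy]

/-- passing from the big field to an intermediate field -/
theorem sum_K {MM : Type} [Field MM] [Algebra ℂ MM] (D0 : Derivation ℂ MM MM) (T : MM)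
    (K : IntermediateField ℂ MM) (D : Derivation ℂ K K)
    (hD : ∀ x : K, (D x : MM) = D0 (x : MM) / D0 T) {m : ℕ} (Y : Fin m → MM)
    (hYK : ∀ j, Y j ∈ K) (u : Fin m → ℂ)
    (h : ∑ j, algebraMap ℂ MM (u j) * (D0 (Y j) * (Y j)⁻¹) = 0) :
    ∑ j, u j • (D (⟨Y j, hYK j⟩ : K) / (⟨Y j, hYK j⟩ : K)) = 0 := by
  apply Subtype.val_injective
  have h4 : ((∑ j, u j • (D (⟨Y j, hYK j⟩ : K) / (⟨Y j, hYK j⟩ : K)) : K) : MM) =
      (D0 T)⁻¹ * ∑ j, algebraMap ℂ MM (u j) * (D0 (Y j) * (Y j)⁻¹) := by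
    rw [Finset.mul_sum, AddSubmonoidClass.coe_finsetSum]
    refine Finset.sum_congr rfl fun j _ => ?_
    have h5 : ((u j • (D (⟨Y j, hYK j⟩ : K) / (⟨Y j, hYK j⟩ : K)) : K) : MM) =
        algebraMap ℂ MM (u j) * ((D (⟨Y j, hYK j⟩ : K) : MM) / Y j) := by
      rw [Algebra.smul_def]
      rfl
    rw [h5, hD]
    simp only [div_eq_mul_inv]
    ring
  rw [h4, h, mul_zero]
  rfl

theorem prod_K {MM : Type} [Field MM] [Algebra ℂ MM] (K : IntermediateField ℂ MM) {m : ℕ}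
    (Y : Fin m → MM) (hYK : ∀ j, Y j ∈ K) (a : Fin m → ℤ) (c : ℂ)
    (hc : ∏ j, (⟨Y j, hYK j⟩ : K) ^ a j = algebraMap ℂ K c) :
    ∏ j, Y j ^ a j = algebraMap ℂ MM c := by
  have h7 := congrArg (algebraMap K MM) hc
  rw [map_prod] at h7
  simp only [map_zpow₀] at h7
  exact h7

theorem aeval_mem {MM : Type} [Field MM] [Algebra ℂ MM] (K : IntermediateField ℂ MM) {x y : MM}
    (hx : x ∈ K) (hy : y ∈ K) (R : MvPolynomial (Fin 2) ℂ) :
    MvPolynomial.aeval ![x, y] R ∈ K := by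
  induction R using MvPolynomial.induction_on with
  | C a =>
    rw [MvPolynomial.aeval_C]
    exact K.algebraMap_mem a
  | add p q hp hq =>
    rw [map_add]
    exact add_mem hp hq
  | mul_X p i hp =>
    rw [map_mul, MvPolynomial.aeval_X]
    refine mul_mem hp ?_
    fin_cases i
    · exact hx
    · exact hy

end NI

open NI in
theorem nc_of_int {M m : ℕ} (P : P2 ℂ) (hP : Irreducible P) (h1 : P.degreeOf 1 ≠ 0)
    (N : Fin M → P2 ℂ) (hN : ∀ i, ¬ P ∣ N i) (i0 : Fin M) (hi0 : N i0 = MvPolynomial.pderiv 1 P)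
    (n : Fin m → Fin M → ℤ)
    (hind : ∀ a : Fin m → ℤ, (∃ c : ℂ, ∀ p : Fin 2 → ℂ, MvPolynomial.eval p P = 0 →
      (∀ i, vN N p i ≠ 0) → ∏ j, mon (vN N p) (n j) ^ a j = c) → a = 0)
    (h2 : ∀ a b : Fin m → ℤ, LinearIndependent ℤ ![a, b] →
      {p : Fin 2 → ℂ | MvPolynomial.eval p P = 0 ∧ (∀ i, vN N p i ≠ 0) ∧
        ‖∏ j, mon (vN N p) (n j) ^ a j‖ = 1 ∧ ‖∏ j, mon (vN N p) (n j) ^ b j‖ = 1}.Finite)
    (h3 : ∀ a b c : Fin m → ℤ, LinearIndependent ℤ ![a, b, c] → ∀ α β γ : ℝ,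
      {p : Fin 2 → ℂ | MvPolynomial.eval p P = 0 ∧ (∀ i, vN N p i ≠ 0) ∧
        ‖∏ j, mon (vN N p) (n j) ^ a j‖ = α ∧ ‖∏ j, mon (vN N p) (n j) ^ b j‖ = β ∧
        ‖∏ j, mon (vN N p) (n j) ^ c j‖ = γ}.Finite)
    (r s : Fin m → ℝ) (hrs : LinearIndependent ℝ ![r, s]) (ρ : ℝ) (hρ : 0 < ρ) :
    {p : Fin 2 → ℂ | p ∈ KC P N ρ ∧ lgs (nvec n r) (vN N p) = 0 ∧
      lgs (nvec n s) (vN N p) = 0}.Finite := by
  by_contra hinf
  have hnv : ∀ u v : ℝ, (fun i => u * nvec n r i + v * nvec n s i) =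
      nvec n (fun j => u * r j + v * s j) := by
    intro u v
    funext i
    simp only [nvec, Finset.mul_sum, ← Finset.sum_add_distrib]
    exact Finset.sum_congr rfl fun j _ => by ring
  have hlin : ∀ u v : ℝ, (u ≠ 0 ∨ v ≠ 0) → (fun j => u * r j + v * s j) ≠ 0 := by
    intro u v huv h0
    have h4 := LinearIndependent.pair_iff.1 hrs u v (by
      funext j
      have := congrFun h0 j
      simpa using this)
    rcases huv with h | h
    · exact h h4.1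
    · exact h h4.2
  have hom : ∀ u v : ℝ, (u ≠ 0 ∨ v ≠ 0) →
      ¬ P ∣ Om P N (fun i => u * nvec n r i + v * nvec n s i) := by
    intro u v huv
    rw [hnv]
    exact om_ne P hP h1 N hN n hind _ (hlin u v huv)
  have hom0 : ¬ P ∣ Om P N (nvec n r) := by
    have h4 := hom 1 0 (Or.inl one_ne_zero)
    simpa using h4
  obtain ⟨τ, σ, hτ, hσ, hinj, hP0, hz⟩ := local_arc P hP h1 N i0 hi0 (nvec n r) (nvec n s)
    hom0 ρ hρ hinf
  obtain ⟨R0, hR0, hdep⟩ := arc_dep P hP h1 N i0 hi0 (nvec n r) (nvec n s) hom τ σ hτ hσ hinj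
    hP0 hz
  obtain ⟨D0, hD0⟩ := exists_derMer
  have hcτ := differentiableOn_cj hτ
  have hcσ := differentiableOn_cj hσ
  have hder : ∀ {x : FractionRing An} {F : ℂ → ℂ}, Rep x F → Rep (D0 x) (deriv F) := by
    rintro x F ⟨hF, rfl⟩
    exact ⟨MerField.deriv_diff hF, (hD0 F hF (MerField.deriv_diff hF)).symm⟩
  obtain ⟨T, hT⟩ : ∃ T, T = am τ hτ := ⟨_, rfl⟩
  obtain ⟨S, hS⟩ : ∃ S, S = am σ hσ := ⟨_, rfl⟩
  obtain ⟨cT, hcT⟩ : ∃ cT, cT = am (cj τ) hcτ := ⟨_, rfl⟩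
  obtain ⟨cS, hcS⟩ : ∃ cS, cS = am (cj σ) hcσ := ⟨_, rfl⟩
  have rT : Rep T τ := hT ▸ rep_am hτ
  have rS : Rep S σ := hS ▸ rep_am hσ
  have rcT : Rep cT (cj τ) := hcT ▸ rep_am hcτ
  have rcS : Rep cS (cj σ) := hcS ▸ rep_am hcσ
  rw [← hT, ← hcT] at hdep
  have hDT : D0 T ≠ 0 := deriv_ne hτ hinj (hder rT)
  have hcinj : Set.InjOn (cj τ) (Metric.ball 0 3) := by
    intro x hx y hy hxy
    have h4 := hinj (conj_mem_ball hx) (conj_mem_ball hy)
      ((starRingEnd ℂ).injective hxy)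
    exact (starRingEnd ℂ).injective h4
  have hDcT : D0 cT ≠ 0 := deriv_ne hcτ hcinj (hder rcT)
  obtain ⟨K, D, hD, hDne, halg, hTK, hcl⟩ := exists_algcl (FractionRing An) D0 T hDT
  have hncT : ¬ ∃ c : ℂ, T = algebraMap ℂ (FractionRing An) c := by
    rintro ⟨c, hc⟩
    exact hDT (by rw [hc, D0.map_algebraMap])
  have hnccT : ¬ ∃ c : ℂ, cT = algebraMap ℂ (FractionRing An) c := by
    rintro ⟨c, hc⟩
    exact hDcT (by rw [hc, D0.map_algebraMap])
  have hSK : S ∈ K := by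
    refine hcl T S hTK hncT ⟨P, hP.ne_zero, ?_⟩
    exact Rep.unique (rT.aeval rS P) rep_zero fun z hz => (hP0 z hz).1
  have hcTK : cT ∈ K := hcl T cT hTK hncT ⟨R0, hR0, hdep⟩
  have hcSK : cS ∈ K := by
    refine hcl cT cS hcTK hnccT ⟨MvPolynomial.map (starRingEnd ℂ) P, ?_, ?_⟩
    · exact (map_ne_zero_iff _ (MvPolynomial.map_injective _ (starRingEnd ℂ).injective)).2
        hP.ne_zero
    · refine Rep.unique (rcT.aeval rcS _) rep_zero fun z hz => ?_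
      show MvPolynomial.eval ![cj τ z, cj σ z] (MvPolynomial.map (starRingEnd ℂ) P) = 0
      rw [eval_cj, (hP0 _ (conj_mem_ball hz)).1, map_zero]
  -- the values of the `N i`
  obtain ⟨V, hV⟩ : ∃ V : Fin M → FractionRing An,
      V = fun i => MvPolynomial.aeval ![T, S] (N i) := ⟨_, rfl⟩
  obtain ⟨W, hW⟩ : ∃ W : Fin M → FractionRing An,
      W = fun i => MvPolynomial.aeval ![cT, cS] (MvPolynomial.map (starRingEnd ℂ) (N i)) :=
    ⟨_, rfl⟩
  have rV : ∀ i, Rep (V i) (fun z => vN N ![τ z, σ z] i) := by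
    intro i
    rw [hV]
    exact rT.aeval rS (N i)
  have rW : ∀ i, Rep (W i) (fun z => (starRingEnd ℂ)
      (vN N ![τ ((starRingEnd ℂ) z), σ ((starRingEnd ℂ) z)] i)) := by
    intro i
    rw [hW]
    exact (rcT.aeval rcS _).congr fun z _ => (eval_cj τ σ (N i) z).symm
  have hVK : ∀ i, V i ∈ K := fun i => by rw [hV]; exact aeval_mem K hTK hSK _
  have hWK : ∀ i, W i ∈ K := fun i => by rw [hW]; exact aeval_mem K hcTK hcSK _
  have hVne : ∀ z ∈ Metric.ball (0 : ℂ) 3, ∀ i, vN N ![τ z, σ z] i ≠ 0 :=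
    fun z hz => (hP0 z hz).2
  have hWne : ∀ z ∈ Metric.ball (0 : ℂ) 3, ∀ i, (starRingEnd ℂ)
      (vN N ![τ ((starRingEnd ℂ) z), σ ((starRingEnd ℂ) z)] i) ≠ 0 :=
    fun z hz i => (map_ne_zero _).2 ((hP0 _ (conj_mem_ball hz)).2 i)
  -- the functions `x j` and `x j * conj (x j)`
  obtain ⟨F, hF⟩ : ∃ F : Fin m → ℂ → ℂ, F = fun j z => mon (vN N ![τ z, σ z]) (n j) *
      mon (fun i => (starRingEnd ℂ)
        (vN N ![τ ((starRingEnd ℂ) z), σ ((starRingEnd ℂ) z)] i)) (n j) := ⟨_, rfl⟩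
  obtain ⟨Y, hY⟩ : ∃ Y : Fin m → FractionRing An, Y = fun j => mon V (n j) * mon W (n j) :=
    ⟨_, rfl⟩
  have rY : ∀ j, Rep (Y j) (F j) := by
    intro j
    rw [hY, hF]
    exact (Rep.mon rV hVne (n j)).mul (Rep.mon (f := fun z i => (starRingEnd ℂ)
      (vN N ![τ ((starRingEnd ℂ) z), σ ((starRingEnd ℂ) z)] i)) rW hWne (n j))
  have hFne : ∀ j, ∀ z ∈ Metric.ball (0 : ℂ) 3, F j z ≠ 0 := by
    intro j z hz
    rw [hF]
    exact mul_ne_zero (mon_ne_zero (hVne z hz) _) (mon_ne_zero (hWne z hz) _)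
  have h0b : (0 : ℂ) ∈ Metric.ball (0 : ℂ) 3 := Metric.mem_ball_self (by norm_num)
  have hYne : ∀ j, Y j ≠ 0 := fun j => (rY j).ne_zero h0b (hFne j 0 h0b)
  have hmonK : ∀ (v : Fin M → FractionRing An), (∀ i, v i ∈ K) → ∀ b : Fin M → ℤ,
      mon v b ∈ K := by
    intro v hv b
    exact prod_mem fun i _ => zpow_mem (hv i) (b i)
  have hYK : ∀ j, Y j ∈ K := by
    intro j
    rw [hY]
    exact mul_mem (hmonK V hVK _) (hmonK W hWK _)
  -- values at real points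
  obtain ⟨f, hf⟩ : ∃ f : Fin m → ℝ → ℝ, f = fun j (y : ℝ) =>
      ‖mon (vN N ![τ y, σ y]) (n j)‖ ^ 2 := ⟨_, rfl⟩
  have hFf : ∀ j (y : ℝ), |y| < 3 → F j y = (f j y : ℂ) := by
    intro j y _
    rw [hF, hf]
    simp only [Complex.conj_ofReal]
    rw [← map_mon (starRingEnd ℂ), Complex.mul_conj, Complex.normSq_eq_norm_sq]
  have hxne : ∀ j (y : ℝ), |y| < 3 → mon (vN N ![τ y, σ y]) (n j) ≠ 0 :=
    fun j y hy => mon_ne_zero (hVne _ (real_mem_ball hy)) _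
  have hfne : ∀ j (y : ℝ), |y| < 3 → f j y ≠ 0 := by
    intro j y hy
    rw [hf]
    exact pow_ne_zero 2 (norm_ne_zero_iff.2 (hxne j y hy))
  have hlogf : ∀ j (y : ℝ), Real.log (f j y) =
      2 * Real.log ‖mon (vN N ![τ y, σ y]) (n j)‖ := by
    intro j y
    rw [hf]
    simp only [Real.log_pow, Nat.cast_ofNat]
  have key : ∀ u : Fin m → ℝ, (∀ y : ℝ, |y| < 3 → lgs (nvec n u) (vN N ![τ y, σ y]) = 0) →
      ∃ (q : ℕ) (ω : Fin q → ℝ) (a : Fin q → Fin m → ℤ),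
        (∀ l, ∃ c : ℂ, ∀ z ∈ Metric.ball (0 : ℂ) 3, ∏ j, F j z ^ a l j = c) ∧
        ∀ j, u j = ∑ l, ω l * a l j := by
    intro u hu
    have hG : ∀ y : ℝ, |y| < 3 → ∑ j, (u j : ℂ) * (deriv (F j) y / F j y) = 0 := by
      refine real_log_zero F f (fun j => (rY j).1) hFf hfne u fun y hy => ?_
      have h4 := hu y hy
      rw [lgs_nvec n u (hVne _ (real_mem_ball hy))] at h4
      simp only [hlogf]
      have h5 : ∑ j, u j * (2 * Real.log ‖mon (vN N ![τ y, σ y]) (n j)‖) =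
          2 * ∑ j, u j * Real.log ‖mon (vN N ![τ y, σ y]) (n j)‖ := by
        rw [Finset.mul_sum]
        exact Finset.sum_congr rfl fun j _ => by ring
      rw [h5, h4, mul_zero]
    have rG : Rep (∑ j, algebraMap ℂ (FractionRing An) (u j : ℂ) * (D0 (Y j) * (Y j)⁻¹))
        (fun z => ∑ j, (u j : ℂ) * (deriv (F j) z * (F j z)⁻¹)) :=
      Rep.sum Finset.univ fun j =>
        (rep_const (u j : ℂ)).mul ((hder (rY j)).mul ((rY j).inv (hFne j)))
    have hG0 : ∑ j, algebraMap ℂ (FractionRing An) (u j : ℂ) * (D0 (Y j) * (Y j)⁻¹) = 0 := by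
      obtain ⟨hGd, hGe⟩ := rG
      rw [← hGe]
      unfold am
      rw [toAn_eq_zero hGd, map_zero]
      refine Set.Infinite.mono (s := Set.Icc (0 : ℝ) 1) ?_ (Set.Icc_infinite zero_lt_one)
      intro y hy
      have hy2 : |y| ≤ 1 := abs_le.2 ⟨by linarith [hy.1], hy.2⟩
      refine ⟨by linarith, ?_⟩
      have h4 := hG y (by linarith)
      simpa only [div_eq_mul_inv] using h4
    have hsum := sum_K D0 T K D hD Y hYK (fun j => (u j : ℂ)) hG0
    obtain ⟨q, ω, a, h4, h5⟩ := ros_int K D hDne halg (fun j => (⟨Y j, hYK j⟩ : K))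
      (fun j h => hYne j (congrArg Subtype.val h)) u hsum
    refine ⟨q, ω, a, fun l => ?_, h4⟩
    obtain ⟨c, hc⟩ := h5 l
    refine ⟨c, ?_⟩
    have h6 : ∏ j, Y j ^ a l j = algebraMap ℂ (FractionRing An) c := prod_K K Y hYK (a l) c hc
    have h7 : Rep (∏ j, Y j ^ a l j) (fun z => ∏ j, F j z ^ a l j) :=
      Rep.prod Finset.univ fun j => (rY j).zpow (hFne j) (a l j)
    rw [h6] at h7
    exact fun z hz => h7.eqOn (rep_const c) hz
  obtain ⟨q, ω, a, ha, hra⟩ := key r fun y hy => (hz y hy).1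
  obtain ⟨q', ω', a', ha', hsa⟩ := key s fun y hy => (hz y hy).2
  -- the group of exponents
  have hval : ∀ e : Fin m → ℤ, (∃ c : ℂ, ∀ z ∈ Metric.ball (0 : ℂ) 3, ∏ j, F j z ^ e j = c) →
      ∀ y : ℝ, |y| < 3 → ‖∏ j, mon (vN N ![τ y, σ y]) (n j) ^ e j‖ =
        ‖∏ j, mon (vN N ![τ ((0 : ℝ) : ℂ), σ ((0 : ℝ) : ℂ)]) (n j) ^ e j‖ := by
    rintro e ⟨c, hc⟩
    have h4 : ∀ y : ℝ, |y| < 3 →
        ‖∏ j, mon (vN N ![τ y, σ y]) (n j) ^ e j‖ ^ 2 = ‖c‖ := by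
      intro y hy
      rw [← hc y (real_mem_ball hy), norm_prod, norm_prod, ← Finset.prod_pow]
      refine Finset.prod_congr rfl fun j _ => ?_
      rw [hFf j y hy, hf, norm_zpow, norm_zpow, Complex.norm_real, Real.norm_eq_abs,
        abs_of_nonneg (sq_nonneg _)]
      show (‖mon (vN N ![τ y, σ y]) (n j)‖ ^ e j) ^ 2 = (‖mon (vN N ![τ y, σ y]) (n j)‖ ^ 2) ^ e j
      rw [← zpow_natCast (_ ^ e j) 2, ← zpow_natCast _ 2, ← zpow_mul, ← zpow_mul, mul_comm]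
    intro y hy
    have h5 := (h4 y hy).trans (h4 0 (by simp)).symm
    exact (pow_left_inj₀ (norm_nonneg _) (norm_nonneg _) two_ne_zero).1 h5
  obtain ⟨lam, hlam⟩ : ∃ lam : Fin m → ℝ, lam = fun j =>
      Real.log ‖mon (vN N ![τ ((0 : ℝ) : ℂ), σ ((0 : ℝ) : ℂ)]) (n j)‖ := ⟨_, rfl⟩
  have hlam0 : ∀ u : Fin m → ℝ,
      lgs (nvec n u) (vN N ![τ ((0 : ℝ) : ℂ), σ ((0 : ℝ) : ℂ)]) = 0 →
      ∑ j, u j * lam j = 0 := by
    intro u hu
    rw [lgs_nvec n u (hVne _ (real_mem_ball (by simp)))] at hu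
    rw [hlam]
    exact hu
  have hinfpt : (Set.range fun y : Set.Ioo (0 : ℝ) 1 => ![τ (y : ℝ), σ (y : ℝ)]).Infinite := by
    have : Infinite (Set.Ioo (0 : ℝ) 1) := (Set.Ioo_infinite zero_lt_one).to_subtype
    refine Set.infinite_range_of_injective ?_
    intro x y hxy
    have hx3 : |(x : ℝ)| < 3 := abs_lt.2 ⟨by linarith [x.2.1], by linarith [x.2.2]⟩
    have hy3 : |(y : ℝ)| < 3 := abs_lt.2 ⟨by linarith [y.2.1], by linarith [y.2.2]⟩
    have h4 : τ (x : ℝ) = τ (y : ℝ) := congrFun hxy 0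
    have h5 := hinj (real_mem_ball hx3) (real_mem_ball hy3) h4
    exact Subtype.ext (Complex.ofReal_injective h5)
  have hsub : ∀ y : Set.Ioo (0 : ℝ) 1, |(y : ℝ)| < 3 :=
    fun y => abs_lt.2 ⟨by linarith [y.2.1], by linarith [y.2.2]⟩
  have hone : ∀ e : Fin m → ℤ, ∑ j, (e j : ℝ) * lam j = 0 →
      ‖∏ j, mon (vN N ![τ ((0 : ℝ) : ℂ), σ ((0 : ℝ) : ℂ)]) (n j) ^ e j‖ = 1 := by
    intro e he
    have h4 : ∀ j, 0 < ‖mon (vN N ![τ ((0 : ℝ) : ℂ), σ ((0 : ℝ) : ℂ)]) (n j)‖ :=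
      fun j => norm_pos_iff.2 (hxne j 0 (by simp))
    rw [norm_prod]
    simp only [norm_zpow]
    have h5 : Real.log (∏ j, ‖mon (vN N ![τ ((0 : ℝ) : ℂ), σ ((0 : ℝ) : ℂ)]) (n j)‖ ^ e j) =
        0 := by
      rw [Real.log_prod fun j _ => (zpow_pos (h4 j) _).ne']
      simp only [Real.log_zpow]
      rw [hlam] at he
      exact he
    have h6 : 0 < ∏ j, ‖mon (vN N ![τ ((0 : ℝ) : ℂ), σ ((0 : ℝ) : ℂ)]) (n j)‖ ^ e j :=
      Finset.prod_pos fun j _ => zpow_pos (h4 j) _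
    rw [← Real.exp_log h6, h5, Real.exp_zero]
  rcases lin_nc r s hrs
    {e | ∃ c : ℂ, ∀ z ∈ Metric.ball (0 : ℂ) 3, ∏ j, F j z ^ e j = c} lam
    ⟨q, ω, a, ha, hra⟩ ⟨q', ω', a', ha', hsa⟩ (hlam0 r (hz 0 (by simp)).1)
    (hlam0 s (hz 0 (by simp)).2) with ⟨e, he, g, hg, hlin2, he0, hg0⟩ | ⟨e, he, g, hg, k, hk, hlin3⟩
  · refine hinfpt ((h2 e g hlin2).subset ?_)
    rintro p ⟨y, rfl⟩
    refine ⟨(hP0 _ (real_mem_ball (hsub y))).1, (hP0 _ (real_mem_ball (hsub y))).2, ?_, ?_⟩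
    · rw [hval e he y (hsub y), hone e he0]
    · rw [hval g hg y (hsub y), hone g hg0]
  · refine hinfpt ((h3 e g k hlin3
      ‖∏ j, mon (vN N ![τ ((0 : ℝ) : ℂ), σ ((0 : ℝ) : ℂ)]) (n j) ^ e j‖
      ‖∏ j, mon (vN N ![τ ((0 : ℝ) : ℂ), σ ((0 : ℝ) : ℂ)]) (n j) ^ g j‖
      ‖∏ j, mon (vN N ![τ ((0 : ℝ) : ℂ), σ ((0 : ℝ) : ℂ)]) (n j) ^ k j‖).subset ?_)
    rintro p ⟨y, rfl⟩
    exact ⟨(hP0 _ (real_mem_ball (hsub y))).1, (hP0 _ (real_mem_ball (hsub y))).2,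
      hval e he y (hsub y), hval g hg y (hsub y), hval k hk y (hsub y)⟩

end Pool.Agent.HF
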