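import Mathlib
import Pool.Agent.Lib.MP_c95b3b_ag_HF.Defs
import Pool.Agent.Lib.MP_c95b3b_ag_HF.NCInt
import Pool.Agent.Lib.MP_c95b3b_ag_HF.FinalH
import Pool.Agent.Lib.MP_c95b3b_ag_RS.NC3

/-! Project HF (MP_c95b3b_ag), module FZ: the integer form of (NC) for quotients of
polynomials. -/

namespace Pool.Agent.HF

open Pool.Agent.L3 Pool.Agent.RS Module

open FN in
/-- the local real form of (NC) from the integer form -/
theorem nc_local (m : ℕ) (P : P2 ℂ) (xn xd : Fin m → P2 ℂ) (hP : Irreducible P)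
    (h1 : P.degreeOf 1 ≠ 0) (hxn : ∀ j, ¬ P ∣ xn j) (hxd : ∀ j, ¬ P ∣ xd j)
    (hind : ∀ a : Fin m → ℤ, (∃ c : ℂ, ∀ p : Fin 2 → ℂ, MvPolynomial.eval p P = 0 →
      (∀ j, MvPolynomial.eval p (xn j) ≠ 0 ∧ MvPolynomial.eval p (xd j) ≠ 0) →
      ∏ j, (MvPolynomial.eval p (xn j) / MvPolynomial.eval p (xd j)) ^ a j = c) → a = 0)
    (h2 : ∀ a b : Fin m → ℤ, LinearIndependent ℤ ![a, b] →
      {p : Fin 2 → ℂ | MvPolynomial.eval p P = 0 ∧
        (∀ j, MvPolynomial.eval p (xn j) ≠ 0 ∧ MvPolynomial.eval p (xd j) ≠ 0) ∧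
        ‖∏ j, (MvPolynomial.eval p (xn j) / MvPolynomial.eval p (xd j)) ^ a j‖ = 1 ∧
        ‖∏ j, (MvPolynomial.eval p (xn j) / MvPolynomial.eval p (xd j)) ^ b j‖ = 1}.Finite)
    (h3 : ∀ a b c : Fin m → ℤ, LinearIndependent ℤ ![a, b, c] → ∀ α β γ : ℝ,
      {p : Fin 2 → ℂ | MvPolynomial.eval p P = 0 ∧
        (∀ j, MvPolynomial.eval p (xn j) ≠ 0 ∧ MvPolynomial.eval p (xd j) ≠ 0) ∧
        ‖∏ j, (MvPolynomial.eval p (xn j) / MvPolynomial.eval p (xd j)) ^ a j‖ = α ∧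
        ‖∏ j, (MvPolynomial.eval p (xn j) / MvPolynomial.eval p (xd j)) ^ b j‖ = β ∧
        ‖∏ j, (MvPolynomial.eval p (xn j) / MvPolynomial.eval p (xd j)) ^ c j‖ = γ}.Finite)
    (r s : Fin m → ℝ) (hrs : LinearIndependent ℝ ![r, s]) (ρ : ℝ) (hρ : 0 < ρ) :
      {p : Fin 2 → ℂ | MvPolynomial.eval p P = 0 ∧ (∀ i, ‖p i‖ ≤ ρ) ∧
        (∀ j, ρ⁻¹ ≤ ‖MvPolynomial.eval p (xn j)‖ ∧ ρ⁻¹ ≤ ‖MvPolynomial.eval p (xd j)‖) ∧
        ρ⁻¹ ≤ ‖MvPolynomial.eval p (MvPolynomial.pderiv 1 P)‖ ∧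
        ∑ j, r j * Real.log ‖MvPolynomial.eval p (xn j) / MvPolynomial.eval p (xd j)‖ = 0 ∧
        ∑ j, s j * Real.log ‖MvPolynomial.eval p (xn j) / MvPolynomial.eval p (xd j)‖ = 0}.Finite
    := by
  classical
  set γ0 : Fin 0 → P2 ℂ := fun k => k.elim0 with hγ0
  have hγ : ∀ k, ¬ P ∣ γ0 k := fun k => k.elim0
  have hN : ∀ i, ¬ P ∣ NN P xn xd γ0 i :=
    (forall_NN P xn xd γ0 (p := fun Q => ¬ P ∣ Q)).2 ⟨hxn, hxd, hγ, pd_ndvd h1⟩
  have hx : ∀ p : Fin 2 → ℂ, (∀ i, vN (NN P xn xd γ0) p i ≠ 0) →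
      ∀ j, MvPolynomial.eval p (xn j) ≠ 0 ∧ MvPolynomial.eval p (xd j) ≠ 0 := fun p hp j =>
    ⟨((vN_iff P xn xd γ0 p).1 hp).1 j, ((vN_iff P xn xd γ0 p).1 hp).2.1 j⟩
  have hm : ∀ p : Fin 2 → ℂ, (∀ i, vN (NN P xn xd γ0) p i ≠ 0) → ∀ a : Fin m → ℤ,
      ∏ j, mon (vN (NN P xn xd γ0) p) (nn m 0 j) ^ a j =
        ∏ j, (MvPolynomial.eval p (xn j) / MvPolynomial.eval p (xd j)) ^ a j := fun p hp a =>
    Finset.prod_congr rfl fun j _ => by rw [mon_nn P xn xd γ0 hp]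
  have key := nc_of_int P hP h1 (NN P xn xd γ0) hN _ (NN_pd P xn xd γ0) (nn m 0) ?_ ?_ ?_
    r s hrs ρ hρ
  · refine key.subset ?_
    rintro p ⟨hp, hpi, hp0, hp1, hp2, hp3⟩
    have hp4 : ∀ i, ρ⁻¹ ≤ ‖vN (NN P xn xd γ0) p i‖ :=
      (forall_NN P xn xd γ0 (p := fun Q => ρ⁻¹ ≤ ‖MvPolynomial.eval p Q‖)).2
        ⟨fun j => (hp0 j).1, fun j => (hp0 j).2, fun k => k.elim0, hp1⟩
    have hp5 : ∀ i, vN (NN P xn xd γ0) p i ≠ 0 := fun i =>
      norm_ne_zero_iff.1 (lt_of_lt_of_le (inv_pos.2 hρ) (hp4 i)).ne'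
    refine ⟨⟨hp, hpi, hp4⟩, ?_, ?_⟩
    · rw [lgs_nn P xn xd γ0 r hp5]
      exact hp2
    · rw [lgs_nn P xn xd γ0 s hp5]
      exact hp3
  · rintro a ⟨c, hc⟩
    exact hind a ⟨c, ind_aux P xn xd γ0 hP h1 hxn hxd hγ a c hc⟩
  · intro a b hab
    refine (h2 a b hab).subset ?_
    rintro p ⟨hp, hp1, hp2, hp3⟩
    rw [hm p hp1] at hp2 hp3
    exact ⟨hp, hx p hp1, hp2, hp3⟩
  · intro a b c habc α β γ
    refine (h3 a b c habc α β γ).subset ?_
    rintro p ⟨hp, hp1, hp2, hp3, hp4⟩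
    rw [hm p hp1] at hp2 hp3 hp4
    exact ⟨hp, hx p hp1, hp2, hp3, hp4⟩

/-- the fibre is not a constant: the number of monomials is positive -/
theorem pos_of_span {g d : ℕ} (b : Fin g → Fin (d + 1) → ℕ)
    (hspan : ∀ s : Fin (d + 1) → ℝ, (∀ k l, ∑ j, s j * ((b k j : ℝ) - b l j) = 0) → s = 0) :
    0 < g := by
  rcases Nat.eq_zero_or_pos g with h | h
  · subst h
    have h1 := hspan (fun _ => 1) (fun k => k.elim0)
    have h2 := congrFun h1 0
    simp at h2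
  · exact h

/-- multiplicative independence of `t - c j`, modulo constants -/
theorem lines_independent {m : ℕ} (c : Fin m → ℂ) (hc : Function.Injective c) (r : Fin m → ℤ)
    (κ : ℂ) (h : ∀ t : ℂ, (∀ j, t - c j ≠ 0) → ∏ j, (t - c j) ^ r j = κ) : r = 0 := by
  classical
  -- no exponent is positive, for every such relation
  have key : ∀ (r : Fin m → ℤ) (κ : ℂ),
      (∀ t : ℂ, (∀ j, t - c j ≠ 0) → ∏ j, (t - c j) ^ r j = κ) → ∀ i, ¬ 0 < r i := by
    intro r κ h i hi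
    let P : Polynomial ℂ := ∏ j ∈ Finset.univ.filter (fun j => 0 < r j),
      (Polynomial.X - Polynomial.C (c j)) ^ (r j).toNat
    let Q : Polynomial ℂ := Polynomial.C κ * ∏ j ∈ Finset.univ.filter (fun j => ¬ 0 < r j),
      (Polynomial.X - Polynomial.C (c j)) ^ (-r j).toNat
    have hPQ : ∀ t : ℂ, (∀ j, t - c j ≠ 0) → P.eval t = Q.eval t := by
      intro t ht
      have h1 := h t ht
      simp only [P, Q, Polynomial.eval_mul, Polynomial.eval_prod, Polynomial.eval_pow,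
        Polynomial.eval_sub, Polynomial.eval_X, Polynomial.eval_C]
      rw [← h1, ← Finset.prod_filter_mul_prod_filter_not Finset.univ (fun j => 0 < r j),
        mul_assoc, ← Finset.prod_mul_distrib]
      have h2 : ∏ j ∈ Finset.univ.filter (fun j => ¬ 0 < r j),
          (t - c j) ^ r j * (t - c j) ^ (-r j).toNat = 1 := by
        refine Finset.prod_eq_one fun j hj => ?_
        have hj' : ¬ 0 < r j := (Finset.mem_filter.mp hj).2
        have h3 : ((-r j).toNat : ℤ) = -r j := Int.toNat_of_nonneg (by omega)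
        rw [← zpow_natCast (t - c j) (-r j).toNat, h3, ← zpow_add₀ (ht j), add_neg_cancel,
          zpow_zero]
      rw [h2, mul_one]
      refine Finset.prod_congr rfl fun j hj => ?_
      have hj' : 0 < r j := (Finset.mem_filter.mp hj).2
      have h3 : ((r j).toNat : ℤ) = r j := Int.toNat_of_nonneg (by omega)
      rw [← zpow_natCast, h3]
    have hEq : P = Q := by
      apply Polynomial.eq_of_infinite_eval_eq
      have h1 : (Set.univ \ Set.range c).Infinite :=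
        Set.infinite_univ.sdiff (Set.finite_range c)
      refine h1.mono ?_
      rintro t ⟨_, ht⟩
      refine hPQ t fun j hj => ht ⟨j, ?_⟩
      exact (sub_eq_zero.mp hj).symm
    have h0 : P.eval (c i) = 0 := by
      simp only [P, Polynomial.eval_prod, Polynomial.eval_pow, Polynomial.eval_sub,
        Polynomial.eval_X, Polynomial.eval_C]
      refine Finset.prod_eq_zero (i := i) (Finset.mem_filter.mpr ⟨Finset.mem_univ _, hi⟩) ?_
      rw [sub_self, zero_pow]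
      omega
    rw [hEq] at h0
    simp only [Q, Polynomial.eval_mul, Polynomial.eval_prod, Polynomial.eval_pow,
      Polynomial.eval_sub, Polynomial.eval_X, Polynomial.eval_C] at h0
    rcases mul_eq_zero.mp h0 with h1 | h1
    · obtain ⟨t, ht⟩ : ∃ t : ℂ, t ∉ Set.range c :=
        ((Set.finite_range c).infinite_compl).nonempty
      have ht' : ∀ j, t - c j ≠ 0 := fun j hj => ht ⟨j, (sub_eq_zero.mp hj).symm⟩
      have h2 := h t ht'
      rw [h1] at h2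
      exact Finset.prod_ne_zero_iff.mpr (fun j _ => zpow_ne_zero _ (ht' j)) h2
    · obtain ⟨j, hj, h2⟩ := Finset.prod_eq_zero_iff.mp h1
      have hj' : ¬ 0 < r j := (Finset.mem_filter.mp hj).2
      by_cases hz : (-r j).toNat = 0
      · rw [hz, pow_zero] at h2
        exact one_ne_zero h2
      · have h4 := pow_eq_zero_iff hz |>.mp h2
        have h5 := hc (sub_eq_zero.mp h4)
        rw [h5] at hi
        exact hj' hi
  funext i
  have h1 := key r κ h i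
  have h2 := key (-r) κ⁻¹ (fun t ht => by
    rw [← h t ht, ← Finset.prod_inv_distrib]
    refine Finset.prod_congr rfl fun j _ => ?_
    rw [Pi.neg_apply, zpow_neg]) i
  rw [Pi.neg_apply] at h2
  rw [Pi.zero_apply]
  omega

/-- the two conditions for the curve `(t - c 0, t - c 1, t - c 2)` -/
theorem lines_ok (P : P2 ℂ) (hP : P = MvPolynomial.X 1) (xn xd : Fin 3 → P2 ℂ) (c : Fin 3 → ℂ)
    (hc : Function.Injective c)
    (hx : ∀ j, xn j = MvPolynomial.X 0 - MvPolynomial.C (c j) ∧ xd j = 1) :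
    (∀ a : Fin 3 → ℤ, (∃ c : ℂ, ∀ p : Fin 2 → ℂ, MvPolynomial.eval p P = 0 →
      (∀ j, MvPolynomial.eval p (xn j) ≠ 0 ∧ MvPolynomial.eval p (xd j) ≠ 0) →
      ∏ j, (MvPolynomial.eval p (xn j) / MvPolynomial.eval p (xd j)) ^ a j = c) → a = 0) ∧
    ∀ r s : Fin 3 → ℝ, LinearIndependent ℝ ![r, s] → ∀ ρ : ℝ, 0 < ρ →
      {p : Fin 2 → ℂ | MvPolynomial.eval p P = 0 ∧ (∀ i, ‖p i‖ ≤ ρ) ∧
        (∀ j, ρ⁻¹ ≤ ‖MvPolynomial.eval p (xn j)‖ ∧ ρ⁻¹ ≤ ‖MvPolynomial.eval p (xd j)‖) ∧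
        ρ⁻¹ ≤ ‖MvPolynomial.eval p (MvPolynomial.pderiv 1 P)‖ ∧
        ∑ j, r j * Real.log ‖MvPolynomial.eval p (xn j) / MvPolynomial.eval p (xd j)‖ = 0 ∧
        ∑ j, s j * Real.log ‖MvPolynomial.eval p (xn j) / MvPolynomial.eval p (xd j)‖ = 0}.Finite
    := by
  have hn : ∀ (p : Fin 2 → ℂ) j, MvPolynomial.eval p (xn j) = p 0 - c j := by
    intro p j
    rw [(hx j).1]
    simp
  have hd : ∀ (p : Fin 2 → ℂ) j, MvPolynomial.eval p (xd j) = 1 := by
    intro p j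
    rw [(hx j).2, map_one]
  have hP0 : ∀ p : Fin 2 → ℂ, MvPolynomial.eval p P = p 1 := by
    intro p
    rw [hP, MvPolynomial.eval_X]
  simp only [hn, hd, hP0, div_one]
  constructor
  · rintro a ⟨κ, hκ⟩
    refine lines_independent c hc a κ fun t ht => ?_
    have h1 := hκ ![t, 0] rfl (fun j => ⟨ht j, one_ne_zero⟩)
    exact h1
  · intro r s hrs ρ hρ
    refine ((nc3 c hc r s hrs).image (fun t => ![t, 0])).subset ?_
    rintro p ⟨h0, -, h1, -, h2, h3⟩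
    refine ⟨p 0, ⟨fun j hj => ?_, h2, h3⟩, ?_⟩
    · have h4 := (h1 j).1
      rw [hj, sub_self, norm_zero] at h4
      exact absurd h4 (not_le.mpr (inv_pos.mpr hρ))
    · funext i
      fin_cases i
      · rfl
      · exact h0.symm

end Pool.Agent.HF
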